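import Pool.Agent.Y158.FQ.Set

/-!
# Descent of the twist
-/

set_option autoImplicit false
set_option linter.all false

open Polynomial FF Pool.Agent.Y157.PS Pool.Agent.TH954 IsDedekindDomain NumberField

namespace Pool.Agent.Y158.FQ

section alg

variable {k F Ω : Type} [Field k] [Field F] [Field Ω] [Algebra k F] [Algebra F Ω]
  [Algebra k Ω] [IsScalarTower k F Ω]

/-- `Ω` is algebraic over every subfield which contains a power of `u`, for `u ^ ℓ = x` -/
theorem alg_over [Algebra.IsAlgebraic F Ω] {x : F}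
    (hF : Algebra.IsAlgebraic (IntermediateField.adjoin k {x}) F) (F₁ : IntermediateField k Ω)
    (hx : algebraMap F Ω x ∈ F₁) : Algebra.IsAlgebraic F₁ Ω := by
  haveI : Algebra.IsAlgebraic (IntermediateField.adjoin k {x}) Ω :=
    Algebra.IsAlgebraic.trans (IntermediateField.adjoin k {x}) F Ω
  have hmem : ∀ z ∈ IntermediateField.adjoin k {x}, algebraMap F Ω z ∈ F₁ := by
    intro z hz
    refine adjoin_le_sub (T := F₁.toSubfield.comap (algebraMap F Ω)) (fun c => ?_)
      (fun w hw => ?_) z hz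
    · rw [Subfield.mem_comap, ← IsScalarTower.algebraMap_apply]
      exact F₁.algebraMap_mem c
    · rw [Set.mem_singleton_iff] at hw
      rw [hw, Subfield.mem_comap]
      exact hx
  let i : IntermediateField.adjoin k {x} →+* F₁ :=
    (algebraMap (IntermediateField.adjoin k {x}) Ω).codRestrict F₁.toSubfield
      (fun z => hmem z z.2)
  refine ⟨fun z => ?_⟩
  obtain ⟨q, hq, hqz⟩ := Algebra.IsAlgebraic.isAlgebraic (R := IntermediateField.adjoin k {x}) z
  refine ⟨q.map i, (Polynomial.map_ne_zero_iff i.injective).2 hq, ?_⟩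
  rw [aeval_def, eval₂_map]
  exact hqz

/-- an automorphism over `F` preserves the covering field of the Fermat curve -/
theorem stab_geo [CharZero k] {ℓ : ℕ} (hℓ : 0 < ℓ) {u w : Ω} (hu : ∃ z : F, algebraMap F Ω z = u ^ ℓ)
    (hw : ∃ z : F, algebraMap F Ω z = w ^ ℓ) (σ : Ω ≃ₐ[F] Ω) (z : Ω)
    (hz : z ∈ geomPro ℓ k (IntermediateField.adjoin k {u, w}) Ω) :
    σ z ∈ geomPro ℓ k (IntermediateField.adjoin k {u, w}) Ω := by
  have hroot : ∀ (σ : Ω ≃ₐ[F] Ω) (t : Ω), (∃ z : F, algebraMap F Ω z = t ^ ℓ) →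
      t ∈ geomF k (IntermediateField.adjoin k {u, w}) Ω →
      σ t ∈ geomF k (IntermediateField.adjoin k {u, w}) Ω := by
    rintro σ t ⟨r, hr⟩ ht
    by_cases ht0 : t = 0
    · rw [ht0, map_zero]
      exact zero_mem _
    have h1 : (σ t / t) ^ ℓ = 1 := by
      rw [div_pow, ← map_pow, ← hr, σ.commutes, div_self]
      rw [hr]
      exact pow_ne_zero _ ht0
    have h2 : σ t / t ∈ algebraicClosure k Ω := by
      rw [mem_algebraicClosure_iff']
      exact IsIntegral.of_pow hℓ (by rw [h1]; exact isIntegral_one)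
    have h3 : σ t = σ t / t * t := by rw [div_mul_cancel₀ _ ht0]
    rw [h3]
    exact mul_mem (IntermediateField.subset_adjoin _ _ h2) ht
  have hmap : ∀ (σ : Ω ≃ₐ[F] Ω), ∀ z ∈ geomF k (IntermediateField.adjoin k {u, w}) Ω,
      (σ : Ω ≃+* Ω) z ∈ geomF k (IntermediateField.adjoin k {u, w}) Ω := by
    intro σ
    refine geomF_le (σ : Ω ≃+* Ω) (fun z hz => ?_) (fun z => ?_)
    · exact Pool.Agent.Y529.PS.IN.kbar_stable σ hz
    · have hz2 : ((z : IntermediateField.adjoin k {u, w}) : Ω) ∈
          IntermediateField.adjoin k {u, w} := z.2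
      refine adjoin_le_sub
        (T := (geomF k (IntermediateField.adjoin k {u, w}) Ω).toSubfield.comap (σ : Ω →+* Ω))
        (fun c => ?_) (fun t ht => ?_) _ hz2
      · rw [Subfield.mem_comap]
        have h1 : (σ : Ω →+* Ω) (algebraMap k Ω c) = algebraMap k Ω c := by
          rw [IsScalarTower.algebraMap_apply k F Ω]
          exact σ.commutes _
        rw [h1]
        exact (geomF k (IntermediateField.adjoin k {u, w}) Ω).algebraMap_mem
          (algebraMap k (IntermediateField.adjoin k {u, w}) c)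
      · rw [Subfield.mem_comap]
        have hm : ∀ t ∈ ({u, w} : Set Ω), t ∈ geomF k (IntermediateField.adjoin k {u, w}) Ω := by
          intro t ht
          exact (geomF k (IntermediateField.adjoin k {u, w}) Ω).algebraMap_mem
            (⟨t, IntermediateField.subset_adjoin k _ ht⟩ : IntermediateField.adjoin k {u, w})
        rcases ht with ht | ht
        · rw [ht]
          exact hroot σ u hu (hm u (by simp))
        · rw [Set.mem_singleton_iff] at ht
          rw [ht]
          exact hroot σ w hw (hm w (by simp))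
  exact geomPro_map (σ : Ω ≃+* Ω) (hmap σ) (hmap σ.symm) (fun W hW c => by
    have h1 : (σ : Ω ≃+* Ω) (algebraMap k Ω c) = algebraMap k Ω c := by
      rw [IsScalarTower.algebraMap_apply k F Ω]
      exact σ.commutes _
    rw [h1]
    exact hW c) z hz

end alg

/-- powers of `ℓ` which are `ℓ`-th powers -/
theorem dvd_of_zpow {ℓ : ℕ} [hp : Fact ℓ.Prime] {n : ℤ} {q r : ℚ} (hq : q ≠ 0)
    (h : q ^ ℓ = (ℓ : ℚ) ^ n * r ^ ℓ) : (ℓ : ℤ) ∣ n := by
  have hℓ0 : (ℓ : ℚ) ≠ 0 := by exact_mod_cast hp.out.ne_zero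
  have hr : r ≠ 0 := by
    rintro rfl
    rw [zero_pow hp.out.ne_zero, mul_zero] at h
    exact pow_ne_zero ℓ hq h
  have h1 := congrArg (padicValRat ℓ) h
  rw [padicValRat.mul (zpow_ne_zero n hℓ0) (pow_ne_zero ℓ hr), padicValRat.pow,
    padicValRat.pow, padicValRat.zpow, padicValRat.self hp.out.one_lt, mul_one] at h1
  exact ⟨padicValRat ℓ q - padicValRat ℓ r, by linear_combination -h1⟩

end Pool.Agent.Y158.FQ
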