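import Pool.Agent.Y158.FQ.Desc

/-!
# The twist of a section of a Fermat quotient over `ℚ`
-/

set_option autoImplicit false
set_option linter.all false

open Polynomial FF Pool.Agent.Y157.PS Pool.Agent.TH954 IsDedekindDomain NumberField

namespace Pool.Agent.Y158.FQ

attribute [-instance] DivisionRing.toRatAlgebra

section

variable {F Ω B : Type} [Field F] [Field Ω] [Field B] [Algebra ℚ F] [Algebra F Ω] [Algebra ℚ Ω]
  [Algebra ℚ B] [IsScalarTower ℚ F Ω] [IsAlgClosed Ω] [Algebra.IsAlgebraic F Ω]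
  [IsAlgClosure ℚ B]

/-- the automorphisms `s g` preserve the covering field of the Fermat curve -/
theorem stab_sec {ℓ : ℕ} (hℓ : 0 < ℓ) {u w : Ω} (hu : ∃ z : F, algebraMap F Ω z = u ^ ℓ)
    (hw : ∃ z : F, algebraMap F Ω z = w ^ ℓ) {N : IntermediateField F Ω} (e : N ≃ₐ[F] N) (z : N)
    (hz : (z : Ω) ∈ geomPro ℓ ℚ (IntermediateField.adjoin ℚ {u, w}) Ω) :
    ((e z : N) : Ω) ∈ geomPro ℓ ℚ (IntermediateField.adjoin ℚ {u, w}) Ω := by
  haveI : IsAlgClosure F Ω := ⟨inferInstance, inferInstance⟩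
  haveI : Normal F Ω := IsAlgClosure.normal F Ω
  have h1 : e.liftNormal Ω (algebraMap N Ω z) = algebraMap N Ω (e z) := e.liftNormal_commutes Ω _
  have h2 := stab_geo (k := ℚ) hℓ hu hw (e.liftNormal Ω) (z : Ω) hz
  rw [show (e.liftNormal Ω) (z : Ω) = ((e z : N) : Ω) from h1] at h2
  exact h2

/-- **descent**: the section comes, up to powers of `ℓ`, from the Fermat curve -/
theorem desc {ℓ : ℕ} [hp : Fact ℓ.Prime] (hodd : Odd ℓ) {a b : ℕ} (ha : ¬ ℓ ∣ a) (hb : ¬ ℓ ∣ b)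
    (hab : ¬ ℓ ∣ a + b) (x y : F) (hx : Transcendental ℚ x)
    (hF : Algebra.IsAlgebraic (IntermediateField.adjoin ℚ {x}) F)
    (u w : Ω) (hu : u ^ ℓ = algebraMap F Ω x)
    (hw : w ^ ℓ = algebraMap F Ω (1 - x)) (huw : u ^ a * w ^ b = algebraMap F Ω y)
    (N : IntermediateField F Ω)
    (hN : ∀ z ∈ geomPro ℓ ℚ (IntermediateField.adjoin ℚ {u, w}) Ω, z ∈ N)
    (s : GalSection ℚ F N B) :
    ∃ (U W : N) (c c' : algebraicClosure ℚ Ω) (i j : ℤ),
      (∀ g, s.s g U = U) ∧ (∀ g, s.s g W = W) ∧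
      (U : Ω) = (c : Ω) * u ∧ (W : Ω) = (c' : Ω) * w ∧
      algebraMap ℚ N ((ℓ : ℚ) ^ i) * U ^ ℓ = algebraMap F N x ∧
      algebraMap ℚ N ((ℓ : ℚ) ^ j) * W ^ ℓ = algebraMap F N (1 - x) ∧
      (ℓ : ℤ) ∣ a * i + b * j := by
  classical
  have hℓ0 : ℓ ≠ 0 := hp.out.ne_zero
  have hℓpos := hp.out.pos
  haveI : IsAlgClosure F Ω := ⟨inferInstance, inferInstance⟩
  haveI : IsAlgClosure ℚ (algebraicClosure ℚ Ω) := inferInstance
  haveI : IsAlgClosed (algebraicClosure ℚ Ω) := IsAlgClosure.isAlgClosed ℚ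
  haveI : CharZero (algebraicClosure ℚ Ω) :=
    charZero_of_injective_algebraMap (algebraMap ℚ (algebraicClosure ℚ Ω)).injective
  have hxΩ : Transcendental ℚ (algebraMap F Ω x) :=
    (transcendental_algebraMap_iff (R := ℚ) (algebraMap F Ω).injective (a := x)).2 hx
  have hut : Transcendental ℚ u := by
    intro h
    apply hxΩ
    rw [← hu]
    exact h.pow ℓ
  have hu0 : u ≠ 0 := by
    rintro rfl
    exact hut isAlgebraic_zero
  have hwt : Transcendental ℚ w := by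
    intro h
    apply hxΩ
    have h1 : algebraMap F Ω x = 1 - w ^ ℓ := by rw [hw, map_sub, map_one]; ring
    rw [h1]
    exact isAlgebraic_one.sub (h.pow ℓ)
  have hw0 : w ≠ 0 := by
    rintro rfl
    exact hwt isAlgebraic_zero
  -- the Fermat curve
  let F₁ : IntermediateField ℚ Ω := IntermediateField.adjoin ℚ {u, w}
  have huF : u ∈ F₁ := IntermediateField.subset_adjoin ℚ _ (by simp)
  have hwF : w ∈ F₁ := IntermediateField.subset_adjoin ℚ _ (by simp)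
  haveI : Algebra.IsAlgebraic F₁ Ω := alg_over hF F₁ (by rw [← hu]; exact pow_mem huF ℓ)
  have htop : IntermediateField.adjoin ℚ {(⟨u, huF⟩ : F₁), ⟨w, hwF⟩} =
      (⊤ : IntermediateField ℚ F₁) := by
    apply IntermediateField.map_injective F₁.val
    rw [IntermediateField.adjoin_map, Set.image_pair, ← AlgHom.fieldRange_eq_map,
      IntermediateField.fieldRange_val]
    rfl
  have hu1t : Transcendental ℚ (⟨u, huF⟩ : F₁) := by
    rw [← transcendental_algebraMap_iff (R := ℚ) (A := Ω) (algebraMap F₁ Ω).injective]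
    exact hut
  have hrel1 : (⟨u, huF⟩ : F₁) ^ ℓ + (⟨w, hwF⟩ : F₁) ^ ℓ = 1 := by
    apply Subtype.ext
    change u ^ ℓ + w ^ ℓ = 1
    rw [hu, hw, map_sub, map_one]
    ring
  obtain ⟨R, M, i1, i2, i3, i4, i5, i6, x', Y, eqv, hC, hc, hx', hY'⟩ :=
    setupF (Ω := Ω) hodd (⟨u, huF⟩ : F₁) ⟨w, hwF⟩ hu1t htop hrel1
  -- the maps
  let i₀ : geomPro ℓ ℚ F₁ Ω →+* N :=
    { toFun := fun z => ⟨(z : Ω), hN _ z.2⟩
      map_one' := rfl
      map_mul' := fun _ _ => rfl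
      map_zero' := rfl
      map_add' := fun _ _ => rfl }
  let i : M →+* N := i₀.comp (eqv : M →+* geomPro ℓ ℚ F₁ Ω)
  have hi : ∀ z : M, ((i z : N) : Ω) = ((eqv z : geomPro ℓ ℚ F₁ Ω) : Ω) := fun z => rfl
  obtain ⟨e, he⟩ := Pool.Agent.Y158.GR.exists_eB (Ω := Ω)
    ((IsScalarTower.toAlgHom ℚ N Ω).comp s.j)
  have he' : ∀ b, ((s.j b : N) : Ω) = ((e b : algebraicClosure ℚ Ω) : Ω) := fun b => (he b).symm
  let S₀ : (algebraicClosure ℚ Ω ≃ₐ[ℚ] algebraicClosure ℚ Ω) →* (N ≃ₐ[F] N) :=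
    s.s.comp (AlgEquiv.autCongr e.symm : _ →* _)
  have hS₀c : Continuous S₀ := s.cont.comp (Pool.Agent.Y674.PS.conj_cont e.symm)
  let S : (algebraicClosure ℚ Ω ≃ₐ[ℚ] algebraicClosure ℚ Ω) →* RingAut N :=
    { toFun := fun g => (S₀ g : N ≃+* N)
      map_one' := by rw [map_one]; rfl
      map_mul' := fun g g' => by rw [map_mul]; rfl }
  have hS : ∀ g z, S g z = S₀ g z := fun g z => rfl
  have hSF : ∀ g (z : F), S g (algebraMap F N z) = algebraMap F N z := fun g z =>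
    (S₀ g).commutes z
  have huz : ∃ z : F, algebraMap F Ω z = u ^ ℓ := ⟨x, hu.symm⟩
  have hwz : ∃ z : F, algebraMap F Ω z = w ^ ℓ := ⟨1 - x, hw.symm⟩
  obtain ⟨T, hT⟩ := restrict_hom i S (fun g z => by
    have h1 := stab_sec hℓpos huz hwz (S₀ g) (i z) (eqv z).2
    refine ⟨eqv.symm ⟨_, h1⟩, ?_⟩
    apply Subtype.ext
    rw [hi, eqv.apply_symm_apply]
    rfl)
  -- constants
  have hconstN : ∀ c : algebraicClosure ℚ Ω, i (algebraMap (algebraicClosure ℚ Ω) M c) =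
      s.j (e.symm c) := by
    intro c
    apply Subtype.ext
    rw [hi, hc, he', e.apply_symm_apply]
  have hSj : ∀ g (c : algebraicClosure ℚ Ω), S g (s.j (e.symm c)) = s.j (e.symm (g c)) := by
    intro g c
    change s.s (AlgEquiv.autCongr e.symm g) (s.j (e.symm c)) = _
    rw [s.sec]
    congr 1
    change e.symm (g (e (e.symm c))) = _
    rw [e.apply_symm_apply]
  have hTconst : ∀ g c, T g (algebraMap (algebraicClosure ℚ Ω) M c) =
      algebraMap (algebraicClosure ℚ Ω) M (g c) := by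
    intro g c
    apply i.injective
    rw [hT, hconstN, hSj, hconstN]
  -- the coordinates
  have hiX : ((i (algebraMap R M x') : N) : Ω) = u := by rw [hi, hx']; rfl
  have hiY : ((i Y : N) : Ω) = -w := by rw [hi, hY']; rfl
  have hXℓ : i (algebraMap R M x') ^ ℓ = algebraMap F N x := by
    apply Subtype.ext
    change ((i (algebraMap R M x') : N) : Ω) ^ ℓ = algebraMap F Ω x
    rw [hiX, hu]
  have hYℓ : i Y ^ ℓ = algebraMap F N (-(1 - x)) := by
    apply Subtype.ext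
    change ((i Y : N) : Ω) ^ ℓ = algebraMap F Ω (-(1 - x))
    rw [hiY, hodd.neg_pow, hw, ← map_neg]
  have hX0 : algebraMap R M x' ≠ 0 := by
    intro h
    rw [h, map_zero] at hiX
    exact hu0 hiX.symm
  have hY0 : Y ≠ 0 := by
    intro h
    rw [h, map_zero] at hiY
    have h1 : (0 : Ω) = -w := hiY
    exact hw0 (by rw [eq_comm, neg_eq_zero] at h1; exact h1)
  have hkumm : ∀ (Z : M), Z ≠ 0 → (∃ z : F, i Z ^ ℓ = algebraMap F N z) →
      ∀ g, ∃ c : algebraicClosure ℚ Ω, c ^ ℓ = 1 ∧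
        T g Z = algebraMap (algebraicClosure ℚ Ω) M c * Z := by
    rintro Z hZ ⟨z, hz⟩ g
    have h2 : (T g Z / Z) ^ ℓ = 1 := by
      have h3 : T g (Z ^ ℓ) = Z ^ ℓ := by
        apply i.injective
        rw [hT, map_pow i, hz, hSF]
      rw [div_pow, ← map_pow, h3, div_self (pow_ne_zero _ hZ)]
    obtain ⟨c, hc, hc'⟩ := Pool.Agent.Y748.PS.rou_const (κ := algebraicClosure ℚ Ω) hℓpos h2
    exact ⟨c, hc, by rw [hc', div_mul_cancel₀ _ hZ]⟩
  have hcont : ∀ z : M, ∃ E : IntermediateField ℚ (algebraicClosure ℚ Ω),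
      FiniteDimensional ℚ E ∧ ∀ σ ∈ E.fixingSubgroup, T σ z = z := by
    intro z
    obtain ⟨E, hE, hE'⟩ := cont_fix S₀ hS₀c (i z)
    refine ⟨E, hE, fun σ hσ => i.injective ?_⟩
    rw [hT]
    exact hE' σ hσ
  have hgen : ∀ (Z : M), Z ≠ 0 → (∃ z : F, i Z ^ ℓ = algebraMap F N z) →
      ∃ c : algebraicClosure ℚ Ω, c ≠ 0 ∧
        (∀ g, T g Z = algebraMap (algebraicClosure ℚ Ω) M (g c / c) * Z) ∧
        ∃ t : ℚ, algebraMap ℚ (algebraicClosure ℚ Ω) t = c ^ ℓ := by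
    intro Z hZ hz
    choose ξ hξ1 hξ2 using hkumm Z hZ hz
    obtain ⟨c, hc0, hcξ, t, ht⟩ := exists_kum (k := ℚ) (κ := algebraicClosure ℚ Ω) hℓpos ξ hξ1
      (fun σ τ => by
        have h3 : T (σ * τ) Z = T σ (T τ Z) := by rw [map_mul]; rfl
        rw [hξ2, hξ2 τ, map_mul, hTconst, hξ2 σ, ← mul_assoc, ← map_mul] at h3
        have h4 := (algebraMap (algebraicClosure ℚ Ω) M).injective (mul_right_cancel₀ hZ h3)
        rw [h4, mul_comm]) (by
        obtain ⟨E, hE, hE'⟩ := hcont Z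
        refine ⟨E, hE, fun σ hσ => ?_⟩
        have h3 := hE' σ hσ
        rw [hξ2] at h3
        have h4 : algebraMap (algebraicClosure ℚ Ω) M (ξ σ) * Z =
            algebraMap (algebraicClosure ℚ Ω) M 1 * Z := by rw [h3, map_one, one_mul]
        exact (algebraMap (algebraicClosure ℚ Ω) M).injective (mul_right_cancel₀ hZ h4))
    exact ⟨c, hc0, fun g => by rw [hcξ, hξ2], t, ht⟩
  obtain ⟨cx, hcx0, hcx, tx, htx⟩ := hgen (algebraMap R M x') hX0 ⟨x, hXℓ⟩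
  obtain ⟨cy, hcy0, hcy, ty, hty⟩ := hgen Y hY0 ⟨_, hYℓ⟩
  have hTw : Tw ℓ ℚ (algebraicClosure ℚ Ω) R M x' Y cy cx T :=
    ⟨hTconst, hcx, hcy, hcont, hcy0, hcx0, ⟨ty, hty⟩, ⟨tx, htx⟩⟩
  -- the relation
  have hrel : ∀ g : algebraicClosure ℚ Ω ≃ₐ[ℚ] algebraicClosure ℚ Ω,
      (g cx / cx) ^ a * (g cy / cy) ^ b = 1 := by
    intro g
    have h1 : i (algebraMap R M x' ^ a * Y ^ b) = algebraMap F N ((-1) ^ b * y) := by
      apply Subtype.ext
      rw [map_mul, map_pow, map_pow]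
      change ((i (algebraMap R M x') : N) : Ω) ^ a * ((i Y : N) : Ω) ^ b =
        algebraMap F Ω ((-1) ^ b * y)
      rw [hiX, hiY, map_mul, ← huw, map_pow, map_neg, map_one, neg_pow]
      ring
    have h2 : T g (algebraMap R M x' ^ a * Y ^ b) = algebraMap R M x' ^ a * Y ^ b := by
      apply i.injective
      rw [hT, h1, hSF]
    rw [map_mul, map_pow, map_pow, hcx, hcy, mul_pow, mul_pow] at h2
    have h3 : algebraMap (algebraicClosure ℚ Ω) M ((g cx / cx) ^ a * (g cy / cy) ^ b) *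
        (algebraMap R M x' ^ a * Y ^ b) =
        algebraMap (algebraicClosure ℚ Ω) M 1 * (algebraMap R M x' ^ a * Y ^ b) := by
      rw [map_mul, map_pow, map_pow, map_one, one_mul]
      linear_combination h2
    exact (algebraMap (algebraicClosure ℚ Ω) M).injective (mul_right_cancel₀
      (mul_ne_zero (pow_ne_zero _ hX0) (pow_ne_zero _ hY0)) h3)
  obtain ⟨⟨j, ky, hky, hj⟩, ⟨n, kx, hkx, hn⟩⟩ := tw_form hodd hC hTw ha hb hab hrel
  have hℓQ : (ℓ : ℚ) ≠ 0 := by exact_mod_cast hℓ0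
  -- divisibility
  have hdvd : (ℓ : ℤ) ∣ a * n + b * j := by
    have h1 : cx ^ a * cy ^ b ∈ (⊥ : IntermediateField ℚ (algebraicClosure ℚ Ω)) := by
      haveI : Normal ℚ (algebraicClosure ℚ Ω) := IsAlgClosure.normal ℚ _
      haveI : IsGalois ℚ (algebraicClosure ℚ Ω) := IsGalois.mk
      rw [InfiniteGalois.mem_bot_iff_fixed]
      intro g
      have h2 := hrel g
      rw [div_pow, div_pow, div_mul_div_comm, div_eq_one_iff_eq
        (mul_ne_zero (pow_ne_zero _ hcx0) (pow_ne_zero _ hcy0))] at h2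
      rw [map_mul, map_pow, map_pow]
      exact h2
    obtain ⟨q, hq⟩ := IntermediateField.mem_bot.1 h1
    have hq0 : q ≠ 0 := by
      rintro rfl
      rw [map_zero] at hq
      exact mul_ne_zero (pow_ne_zero _ hcx0) (pow_ne_zero _ hcy0) hq.symm
    refine dvd_of_zpow (q := q) (r := kx ^ a * ky ^ b) hq0 ?_
    apply (algebraMap ℚ (algebraicClosure ℚ Ω)).injective
    have h3 : (ℓ : ℚ) ^ ((a : ℤ) * n + b * j) * (kx ^ a * ky ^ b) ^ ℓ =
        ((ℓ : ℚ) ^ n * kx ^ ℓ) ^ a * ((ℓ : ℚ) ^ j * ky ^ ℓ) ^ b := by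
      rw [mul_pow, mul_pow, mul_pow, zpow_add₀ hℓQ, ← zpow_natCast ((ℓ : ℚ) ^ n) a,
        ← zpow_natCast ((ℓ : ℚ) ^ j) b, ← zpow_mul, ← zpow_mul, ← pow_mul, ← pow_mul, ← pow_mul,
        ← pow_mul, mul_comm a ℓ, mul_comm b ℓ, mul_comm (a : ℤ) n, mul_comm (b : ℤ) j]
      ring
    rw [h3, map_pow, hq, map_mul, map_pow, map_pow, ← hn, ← hj, mul_pow, ← pow_mul, ← pow_mul,
      ← pow_mul, ← pow_mul, mul_comm a ℓ, mul_comm b ℓ]
  -- the fixed elements
  have hκN : ∀ c : algebraicClosure ℚ Ω, ((s.j (e.symm c) : N) : Ω) = (c : Ω) := fun c => by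
    rw [he', e.apply_symm_apply]
  have hsurj : ∀ g : B ≃ₐ[ℚ] B, ∃ g' : algebraicClosure ℚ Ω ≃ₐ[ℚ] algebraicClosure ℚ Ω,
      S₀ g' = s.s g := by
    intro g
    refine ⟨AlgEquiv.autCongr e g, ?_⟩
    change s.s (AlgEquiv.autCongr e.symm (AlgEquiv.autCongr e g)) = s.s g
    congr 1
    ext z
    change e.symm (e (g (e.symm (e z)))) = g z
    rw [e.symm_apply_apply, e.symm_apply_apply]
  have hfix : ∀ (Z : M) (c : algebraicClosure ℚ Ω) (q : ℚ), c ≠ 0 →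
      (∀ g, T g Z = algebraMap (algebraicClosure ℚ Ω) M (g c / c) * Z) →
      ∀ g, s.s g (s.j (e.symm (algebraMap ℚ (algebraicClosure ℚ Ω) q / c)) * i Z) =
        s.j (e.symm (algebraMap ℚ (algebraicClosure ℚ Ω) q / c)) * i Z := by
    intro Z c q hc0 hcZ g
    obtain ⟨g', hg'⟩ := hsurj g
    rw [← hg']
    change S g' _ = _
    rw [map_mul, hSj, ← hT, hcZ, map_mul, hconstN, ← mul_assoc, ← map_mul s.j, ← map_mul e.symm,
      map_div₀ g', g'.commutes]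
    congr 3
    have h4 : g' c ≠ 0 := (_root_.map_ne_zero g').2 hc0
    field_simp
  refine ⟨s.j (e.symm (algebraMap ℚ (algebraicClosure ℚ Ω) kx / cx)) * i (algebraMap R M x'),
    -(s.j (e.symm (algebraMap ℚ (algebraicClosure ℚ Ω) ky / cy)) * i Y),
    algebraMap ℚ (algebraicClosure ℚ Ω) kx / cx, algebraMap ℚ (algebraicClosure ℚ Ω) ky / cy,
    n, j, hfix _ _ _ hcx0 hcx, fun g => ?_, ?_, ?_, ?_, ?_, hdvd⟩
  · rw [map_neg, hfix _ _ _ hcy0 hcy]
  · change ((s.j (e.symm _) : N) : Ω) * ((i _ : N) : Ω) = _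
    rw [hκN, hiX]
  · change -(((s.j (e.symm _) : N) : Ω) * ((i _ : N) : Ω)) = _
    rw [hκN, hiY]
    ring
  · apply Subtype.ext
    have h1 : ((algebraMap ℚ N ((ℓ : ℚ) ^ n) : N) : Ω) =
        ((algebraMap ℚ (algebraicClosure ℚ Ω) ((ℓ : ℚ) ^ n) : algebraicClosure ℚ Ω) : Ω) := rfl
    change ((algebraMap ℚ N ((ℓ : ℚ) ^ n) : N) : Ω) *
      (((s.j (e.symm _) : N) : Ω) * ((i _ : N) : Ω)) ^ ℓ = algebraMap F Ω x
    rw [hκN, hiX, mul_pow, hu, ← mul_assoc, h1]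
    have h2 : algebraMap ℚ (algebraicClosure ℚ Ω) ((ℓ : ℚ) ^ n) *
        (algebraMap ℚ (algebraicClosure ℚ Ω) kx / cx) ^ ℓ = 1 := by
      rw [div_pow, hn, ← map_pow, ← mul_div_assoc, ← map_mul, div_self]
      rw [← hn]
      exact pow_ne_zero _ hcx0
    have h3 := congrArg (fun z : algebraicClosure ℚ Ω => (z : Ω)) h2
    have h4 : ((algebraMap ℚ (algebraicClosure ℚ Ω) ((ℓ : ℚ) ^ n) : algebraicClosure ℚ Ω) : Ω) *
        ((algebraMap ℚ (algebraicClosure ℚ Ω) kx / cx : algebraicClosure ℚ Ω) : Ω) ^ ℓ = 1 := h3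
    rw [h4, one_mul]
  · apply Subtype.ext
    have h1 : ((algebraMap ℚ N ((ℓ : ℚ) ^ j) : N) : Ω) =
        ((algebraMap ℚ (algebraicClosure ℚ Ω) ((ℓ : ℚ) ^ j) : algebraicClosure ℚ Ω) : Ω) := rfl
    change ((algebraMap ℚ N ((ℓ : ℚ) ^ j) : N) : Ω) *
      (-(((s.j (e.symm _) : N) : Ω) * ((i _ : N) : Ω))) ^ ℓ = algebraMap F Ω (1 - x)
    rw [hκN, hiY, mul_neg, neg_neg, mul_pow, hw, ← mul_assoc, h1]
    have h2 : algebraMap ℚ (algebraicClosure ℚ Ω) ((ℓ : ℚ) ^ j) *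
        (algebraMap ℚ (algebraicClosure ℚ Ω) ky / cy) ^ ℓ = 1 := by
      rw [div_pow, hj, ← map_pow, ← mul_div_assoc, ← map_mul, div_self]
      rw [← hj]
      exact pow_ne_zero _ hcy0
    have h3 := congrArg (fun z : algebraicClosure ℚ Ω => (z : Ω)) h2
    have h4 : ((algebraMap ℚ (algebraicClosure ℚ Ω) ((ℓ : ℚ) ^ j) : algebraicClosure ℚ Ω) : Ω) *
        ((algebraMap ℚ (algebraicClosure ℚ Ω) ky / cy : algebraicClosure ℚ Ω) : Ω) ^ ℓ = 1 := h3
    rw [h4, one_mul]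

end

end Pool.Agent.Y158.FQ
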