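import Pool.Agent.Y158.FQ.Desc2

/-!
# The section lifts to the Fermat curve
-/

set_option autoImplicit false
set_option linter.all false

open Polynomial FF Pool.Agent.Y157.PS Pool.Agent.TH954 IsDedekindDomain NumberField

namespace Pool.Agent.Y158.FQ

attribute [-instance] DivisionRing.toRatAlgebra
attribute [local instance 1] DivisionRing.toRatAlgebra

open Pool.Agent.Y158.KL (lam Kl KLem)
open Pool.Agent.Y158.GR (fixL F_fixL plcL)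

theorem both_dvd {ℓ : ℕ} [hp : Fact ℓ.Prime] {a b : ℕ} (ha : ¬ ℓ ∣ a) (hb : ¬ ℓ ∣ b)
    (hab : ¬ ℓ ∣ a + b) {i j : ℤ} (h : (ℓ : ℤ) ∣ a * i + b * j)
    (h' : (ℓ : ℤ) ∣ i ∨ (ℓ : ℤ) ∣ j ∨ (ℓ : ℤ) ∣ i - j) : (ℓ : ℤ) ∣ i ∧ (ℓ : ℤ) ∣ j := by
  have hpr : Prime (ℓ : ℤ) := Nat.prime_iff_prime_int.1 hp.out
  have haZ : ¬ (ℓ : ℤ) ∣ a := fun h => ha (Int.natCast_dvd_natCast.1 h)
  have hbZ : ¬ (ℓ : ℤ) ∣ b := fun h => hb (Int.natCast_dvd_natCast.1 h)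
  have habZ : ¬ (ℓ : ℤ) ∣ (a : ℤ) + b := fun h => hab (by exact_mod_cast h)
  rcases h' with h1 | h1 | h1
  · refine ⟨h1, ?_⟩
    have h2 : (ℓ : ℤ) ∣ b * j := (Int.dvd_add_right (Dvd.dvd.mul_left h1 _)).1 h
    exact (hpr.dvd_or_dvd h2).resolve_left hbZ
  · refine ⟨?_, h1⟩
    have h2 : (ℓ : ℤ) ∣ a * i := (Int.dvd_add_left (Dvd.dvd.mul_left h1 _)).1 h
    exact (hpr.dvd_or_dvd h2).resolve_left haZ
  · have h2 : (ℓ : ℤ) ∣ (a + b) * j := by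
      have e : ((a : ℤ) + b) * j = (a * i + b * j) - a * (i - j) := by ring
      rw [e]
      exact dvd_sub h (Dvd.dvd.mul_left h1 _)
    have h3 := (hpr.dvd_or_dvd h2).resolve_left habZ
    refine ⟨?_, h3⟩
    have e : i = (i - j) + j := by ring
    rw [e]
    exact dvd_add h1 h3

section

variable {K : Type} [Field K] [NumberField K] {ℓ : ℕ}
  [hp : Fact ℓ.Prime] [hK : IsCyclotomicExtension {ℓ} ℚ K] {ζ : K} (hζ : IsPrimitiveRoot ζ ℓ)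
  {F Ω B : Type} [Field F] [Field Ω] [Field B] [Algebra ℚ F] [Algebra F Ω] [Algebra ℚ Ω]
  [Algebra ℚ B] [IsScalarTower ℚ F Ω] [IsAlgClosed Ω] [Algebra.IsAlgebraic F Ω]
  [IsAlgClosure ℚ B]
  {C : Type} [Field C] [Algebra (Kl hζ) C] [Algebra ℚ C] [Algebra ℚ (Kl hζ)]
  [IsScalarTower ℚ (Kl hζ) C] [IsAlgClosure (Kl hζ) C]

include hK hζ in
/-- **the section fixes the coordinates of a Fermat curve** -/
theorem desc_fix (hodd : Odd ℓ) {a b : ℕ} (ha : ¬ ℓ ∣ a) (hb : ¬ ℓ ∣ b)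
    (hab : ¬ ℓ ∣ a + b) (x y : F) (hx : Transcendental ℚ x)
    (hF : Algebra.IsAlgebraic (IntermediateField.adjoin ℚ {x}) F)
    (u w : Ω) (hu : u ^ ℓ = algebraMap F Ω x)
    (hw : w ^ ℓ = algebraMap F Ω (1 - x)) (huw : u ^ a * w ^ b = algebraMap F Ω y)
    (N : IntermediateField F Ω)
    (hN : ∀ z ∈ geomPro ℓ ℚ (IntermediateField.adjoin ℚ {u, w}) Ω, z ∈ N)
    (s : GalSection ℚ F N B) (p : Plc ℚ N C) (hpv : s.GivenBy (Kl hζ) p) :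
    ∃ (U W : N) (c c' : algebraicClosure ℚ Ω),
      (∀ g, s.s g U = U) ∧ (∀ g, s.s g W = W) ∧
      (U : Ω) = (c : Ω) * u ∧ (W : Ω) = (c' : Ω) * w ∧
      U ^ ℓ = algebraMap F N x ∧ W ^ ℓ = algebraMap F N (1 - x) := by
  haveI hcz : CharZero (Kl hζ) :=
    charZero_of_injective_algebraMap (Pool.Agent.Y158.KL.cm hζ).injective
  haveI : Normal ℚ B := IsAlgClosure.normal ℚ B
  haveI : Algebra.IsAlgebraic ℚ B := IsAlgClosure.isAlgebraic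
  obtain ⟨U, W, c, c', i, j, hU, hW, hcU, hcW, hxU, hxW, hdvd⟩ :=
    desc hodd ha hb hab x y hx hF u w hu hw huw N hN s
  have hℓQ : (ℓ : ℚ) ≠ 0 := by exact_mod_cast hp.out.ne_zero
  let U₀ : fixL s := ⟨U, hU⟩
  let W₀ : fixL s := ⟨W, hW⟩
  have h1 : algebraMap ℚ (fixL s) ((ℓ : ℚ) ^ i) * U₀ ^ ℓ +
      algebraMap ℚ (fixL s) ((ℓ : ℚ) ^ j) * W₀ ^ ℓ = 1 := by
    apply Subtype.ext
    change algebraMap ℚ N ((ℓ : ℚ) ^ i) * U ^ ℓ + algebraMap ℚ N ((ℓ : ℚ) ^ j) * W ^ ℓ = 1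
    rw [hxU, hxW, ← map_add]
    rw [show x + (1 - x) = 1 by ring, map_one]
  have h2 := loc_dvd hζ (plcL hpv) h1
  obtain ⟨⟨i', hi'⟩, ⟨j', hj'⟩⟩ := both_dvd ha hb hab hdvd h2
  have hfixQ : ∀ (q : ℚ) g, s.s g (algebraMap ℚ N q) = algebraMap ℚ N q := by
    intro q g
    rw [IsScalarTower.algebraMap_apply ℚ F N]
    exact (s.s g).commutes _
  have hpow : ∀ (n n' : ℤ) (Z : N) (z : F), n = ℓ * n' →
      algebraMap ℚ N ((ℓ : ℚ) ^ n) * Z ^ ℓ = algebraMap F N z →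
      (algebraMap ℚ N ((ℓ : ℚ) ^ n') * Z) ^ ℓ = algebraMap F N z := by
    intro n n' Z z hn hz
    rw [mul_pow, ← map_pow, ← zpow_natCast, ← zpow_mul, mul_comm n', ← hn, hz]
  have hcoe : ∀ q : ℚ, ((algebraMap ℚ N q : N) : Ω) =
      ((algebraMap ℚ (algebraicClosure ℚ Ω) q : algebraicClosure ℚ Ω) : Ω) := fun q => rfl
  refine ⟨algebraMap ℚ N ((ℓ : ℚ) ^ i') * U, algebraMap ℚ N ((ℓ : ℚ) ^ j') * W,
    algebraMap ℚ (algebraicClosure ℚ Ω) ((ℓ : ℚ) ^ i') * c,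
    algebraMap ℚ (algebraicClosure ℚ Ω) ((ℓ : ℚ) ^ j') * c', fun g => ?_, fun g => ?_, ?_, ?_,
    hpow i i' U x hi' hxU, hpow j j' W _ hj' hxW⟩
  · rw [map_mul, hfixQ, hU]
  · rw [map_mul, hfixQ, hW]
  · change ((algebraMap ℚ N ((ℓ : ℚ) ^ i') : N) : Ω) * (U : Ω) =
      ((algebraMap ℚ (algebraicClosure ℚ Ω) ((ℓ : ℚ) ^ i') : algebraicClosure ℚ Ω) : Ω) *
        (c : Ω) * u
    rw [hcU, hcoe, mul_assoc]
  · change ((algebraMap ℚ N ((ℓ : ℚ) ^ j') : N) : Ω) * (W : Ω) =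
      ((algebraMap ℚ (algebraicClosure ℚ Ω) ((ℓ : ℚ) ^ j') : algebraicClosure ℚ Ω) : Ω) *
        (c' : Ω) * w
    rw [hcW, hcoe, mul_assoc]

end

end Pool.Agent.Y158.FQ
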