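import Pool.Agent.Y157.PS.All

/-!
# Automorphisms of the covering field over the field of constants
-/

set_option autoImplicit false
set_option linter.all false

open Polynomial FF

namespace Pool.Agent.Y158.FQ

open Pool.Agent.Y157.PS

variable {ℓ : ℕ} [hℓ : Fact ℓ.Prime] {κ R M : Type} [Field κ] [IsAlgClosed κ] [CharZero κ]
  [Field R] [Field M] [Algebra κ R] [Algebra R M] [Algebra κ M] [IsScalarTower κ R M] {x : R}
  {Y : M}

theorem prod_mu (ℓ : ℕ) [hℓ : Fact ℓ.Prime] {κ M : Type} [Field κ] [IsAlgClosed κ] [CharZero κ]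
    [Field M] [Algebra κ M] (X : M) :
    ∏ e ∈ nthRootsFinset ℓ (1 : κ), (X - algebraMap κ M e) = X ^ ℓ - 1 := by
  haveI : NeZero ℓ := ⟨hℓ.out.ne_zero⟩
  obtain ⟨ζ, hζ⟩ := HasEnoughRootsOfUnity.exists_primitiveRoot κ ℓ
  have h1 := X_pow_sub_one_eq_prod hℓ.out.pos hζ
  have h2 := congrArg (fun P : κ[X] => P.eval₂ (algebraMap κ M) X) h1
  simp only [eval₂_sub, eval₂_pow, eval₂_X, eval₂_one] at h2
  rw [eval₂_finsetProd] at h2
  simp only [eval₂_sub, eval₂_X, eval₂_C] at h2
  exact h2.symm

/-- homomorphisms over `κ` which agree at `x` agree on `R` -/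
theorem ext_R {x : R} (hrat : RatF κ x) (f g : M →+* M)
    (hf : ∀ c, f (algebraMap κ M c) = g (algebraMap κ M c))
    (hx : f (algebraMap R M x) = g (algebraMap R M x)) (r : R) :
    f (algebraMap R M r) = g (algebraMap R M r) := by
  have h1 : r ∈ IntermediateField.adjoin κ {x} := by rw [hrat.gen]; trivial
  have h2 := adjoin_le_sub (K := κ) (S := {x})
    (T := RingHom.eqLocusField (f.comp (algebraMap R M)) (g.comp (algebraMap R M))) (fun c => by
      change f (algebraMap R M (algebraMap κ R c)) = g (algebraMap R M (algebraMap κ R c))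
      rw [← IsScalarTower.algebraMap_apply, hf]) (fun z hz => by
      rw [Set.mem_singleton_iff] at hz
      rw [hz]
      exact hx) r h1
  exact h2

/-- the rotations of the coordinate `x` lift to `M` -/
theorem exists_rotx (hC : Cov ℓ κ R M x (nthRootsFinset ℓ (1 : κ)) Y) {ξ : κ} (hξ : ξ ^ ℓ = 1) :
    ∃ γ : M ≃ₐ[κ] M, γ (algebraMap R M x) = algebraMap κ M ξ * algebraMap R M x := by
  haveI := hC.gal
  have hℓ0 : ℓ ≠ 0 := hℓ.out.ne_zero
  have hxt : Transcendental κ (algebraMap R M x) :=
    (transcendental_algebraMap_iff (algebraMap R M).injective).2 hC.rat.trans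
  have key : ∀ ξ : κ, ξ ^ ℓ = 1 → ∃ j : M →ₐ[κ] M,
      j (algebraMap R M x) = algebraMap κ M ξ * algebraMap R M x := by
    intro ξ hξ
    have hξ0 : ξ ≠ 0 := by
      rintro rfl
      rw [zero_pow hℓ0] at hξ
      exact zero_ne_one hξ
    refine a_emb ℓ κ R M x _ Y hC M Set.univ (fun g hg h => hC.root g hg fun W => h W trivial)
      (algebraMap κ M ξ * algebraMap R M x) ?_ ?_
    · intro h
      apply hxt
      have h1 : algebraMap R M x = algebraMap κ M ξ⁻¹ * (algebraMap κ M ξ * algebraMap R M x) := by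
        rw [← mul_assoc, ← map_mul, inv_mul_cancel₀ hξ0, map_one, one_mul]
      rw [h1]
      exact (isAlgebraic_algebraMap _).mul h
    · intro P _
      have h1 : (∏ e ∈ nthRootsFinset ℓ (1 : κ), (algebraMap κ M ξ * algebraMap R M x -
          algebraMap κ M e)) = Y ^ ℓ := by
        rw [prod_mu, mul_pow, ← map_pow, hξ, map_one, one_mul, hC.eqn, prod_mu]
      rw [h1, P.ord_pow]
      exact ⟨_, rfl⟩
  have hξ0 : ξ ≠ 0 := by
    rintro rfl
    rw [zero_pow hℓ0] at hξ
    exact zero_ne_one hξ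
  obtain ⟨j, hj⟩ := key ξ hξ
  obtain ⟨j', hj'⟩ := key ξ⁻¹ (by rw [inv_pow, hξ, inv_one])
  have hfix : ∀ r : R, j (j' (algebraMap R M r)) = algebraMap R M r := by
    intro r
    refine ext_R hC.rat (((j : M →+* M).comp (j' : M →+* M))) (RingHom.id M) (fun c => ?_) ?_ r
    · change j (j' (algebraMap κ M c)) = _
      rw [j'.commutes, j.commutes]
      rfl
    · change j (j' (algebraMap R M x)) = _
      rw [hj', map_mul, j.commutes, hj, ← mul_assoc, ← map_mul, inv_mul_cancel₀ hξ0, map_one,
        one_mul]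
      rfl
  let h : M →ₐ[R] M :=
    { toFun := fun z => j (j' z)
      map_one' := by rw [map_one, map_one]
      map_mul' := fun a b => by rw [map_mul, map_mul]
      map_zero' := by rw [map_zero, map_zero]
      map_add' := fun a b => by rw [map_add, map_add]
      commutes' := hfix }
  have hb : Function.Bijective h := Algebra.IsAlgebraic.algHom_bijective h
  have hjb : Function.Bijective j := by
    refine ⟨j.toRingHom.injective, fun z => ?_⟩
    obtain ⟨w, hw⟩ := hb.2 z
    exact ⟨j' w, hw⟩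
  exact ⟨AlgEquiv.ofBijective j hjb, hj⟩

end Pool.Agent.Y158.FQ
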