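import Pool.Agent.Y158.FQ.Swp
import Pool.Agent.Y158.FQ.Emb
import Pool.Agent.Y158.GR.Glue
import Pool.Agent.Y948.PS.Cov6
import Pool.Agent.Y809.PS.K0

/-!
# The covering fields of a Fermat quotient and of the Fermat curve agree
-/

set_option autoImplicit false
set_option linter.all false

open Polynomial FF

namespace Pool.Agent.Y158.FQ

open Pool.Agent.Y157.PS Pool.Agent.Y948.PS

section pro

variable {R₁ R₂ Ω : Type} [Field R₁] [Field R₂] [Field Ω] [Algebra R₁ Ω] [Algebra R₂ Ω]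

theorem pro_up {ℓ : ℕ} (hle : ∀ r : R₂, ∃ r' : R₁, algebraMap R₁ Ω r' = algebraMap R₂ Ω r) {z : Ω}
    (h : Pro ℓ R₂ z) : Pro ℓ R₁ z := by
  obtain ⟨k, hk⟩ := h
  have key : ∀ σ : Ω ≃ₐ[R₁] Ω, ∀ r : R₂, (σ : Ω ≃+* Ω) (algebraMap R₂ Ω r) =
      algebraMap R₂ Ω r := by
    intro σ r
    obtain ⟨r', hr'⟩ := hle r
    rw [← hr']
    exact σ.commutes r'
  let f : (Ω ≃ₐ[R₁] Ω) → (Ω ≃ₐ[R₂] Ω) := fun σ => AlgEquiv.ofRingEquiv (f := (σ : Ω ≃+* Ω)) (key σ)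
  have hf : ∀ σ z, f σ z = σ z := fun _ _ => rfl
  have hfp : ∀ σ (n : ℕ) z, (f σ ^ n) z = (σ ^ n) z := by
    intro σ n
    induction n with
    | zero => intro z; rfl
    | succ n ih =>
      intro z
      rw [pow_succ, pow_succ, AlgEquiv.mul_apply, AlgEquiv.mul_apply, ih, hf]
  exact ⟨k, fun σ γ => by have := hk (f σ) (f γ); rwa [hf, hfp] at this⟩

theorem pro_down {ℓ : ℕ} (hμ : ∀ ζ : Ω, ζ ^ ℓ = 1 → ∃ c : R₂, algebraMap R₂ Ω c = ζ) {u : Ω}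
    (hu : ∃ r : R₂, algebraMap R₂ Ω r = u ^ ℓ)
    (hgen : ∀ σ : Ω ≃ₐ[R₂] Ω, σ u = u → ∀ r : R₁, σ (algebraMap R₁ Ω r) = algebraMap R₁ Ω r)
    {z : Ω} (h : Pro ℓ R₁ z) : Pro ℓ R₂ z := by
  obtain ⟨k, hk⟩ := h
  obtain ⟨r, hr⟩ := hu
  refine ⟨k + 1, fun σ γ => ?_⟩
  set τ : Ω ≃ₐ[R₂] Ω := γ⁻¹ * σ * γ with hτ
  have h1 : (τ ^ ℓ) u = u := root_fix hμ τ u (by rw [← hr, τ.commutes])
  let τ' : Ω ≃ₐ[R₁] Ω := AlgEquiv.ofRingEquiv (f := ((τ ^ ℓ : Ω ≃ₐ[R₂] Ω) : Ω ≃+* Ω)) (hgen _ h1)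
  have h3 : ∀ (j : ℕ) (w : Ω), (τ' ^ j) w = ((τ ^ ℓ) ^ j) w := by
    intro j
    induction j with
    | zero => intro w; rfl
    | succ j ih =>
      intro w
      rw [pow_succ, AlgEquiv.mul_apply, ih, pow_succ, AlgEquiv.mul_apply]
      rfl
  have h5 := hk τ' 1
  rw [AlgEquiv.one_apply, h3, ← pow_mul, ← pow_succ'] at h5
  have h7 : γ⁻¹ * σ ^ (ℓ ^ (k + 1)) * γ = τ ^ (ℓ ^ (k + 1)) := by
    rw [hτ]
    have := conj_pow (i := ℓ ^ (k + 1)) (a := γ⁻¹) (b := σ)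
    rw [inv_inv] at this
    exact this.symm
  rw [← h7] at h5
  have h8 : γ (γ⁻¹ ((σ ^ (ℓ ^ (k + 1))) (γ z))) = γ z := by
    congr 1
  have h9 : ∀ w, γ (γ⁻¹ w) = w := fun w => by
    rw [← AlgEquiv.mul_apply, mul_inv_cancel, AlgEquiv.one_apply]
  rwa [h9] at h8

end pro

theorem exists_inv_mod {ℓ : ℕ} [hp : Fact ℓ.Prime] {n : ℕ} (h : ¬ ℓ ∣ n) :
    ∃ n' m : ℕ, n * n' = 1 + ℓ * m := by
  have h1 : Nat.Coprime n ℓ := ((Nat.Prime.coprime_iff_not_dvd hp.out).2 h).symm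
  obtain ⟨n', -, hn'⟩ := Nat.exists_mul_mod_eq_one_of_coprime h1 hp.out.one_lt
  refine ⟨n', n * n' / ℓ, ?_⟩
  have h2 := Nat.mod_add_div (n * n') ℓ
  rw [hn'] at h2
  exact h2.symm

section val

variable {κ Ω : Type} [Field κ] [IsAlgClosed κ] [CharZero κ] [Field Ω] [Algebra κ Ω] {ℓ : ℕ}
  [hp : Fact ℓ.Prime]

/-- the uniformisers of the Fermat curve have the values of functions of the quotient -/
theorem exists_pi (hodd : Odd ℓ) {a b : ℕ} (ha : ¬ ℓ ∣ a) (hb : ¬ ℓ ∣ b)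
    (hab : ¬ ℓ ∣ a + b) {u w : Ω} (huw : u ^ ℓ + w ^ ℓ = 1)
    (W : ValuationSubring Ω) (hκ : ∀ c : κ, algebraMap κ Ω c ∈ W) {T : Subfield Ω}
    (hTκ : ∀ c : κ, algebraMap κ Ω c ∈ T) (hTu : u ^ ℓ ∈ T) (hTy : u ^ a * w ^ b ∈ T)
    {π₁ : Ω} (hπ : W.valuation π₁ < 1)
    (h : π₁ = -w ∨ (∃ a₀ : κ, a₀ ∉ nthRootsFinset ℓ (1 : κ) ∧ π₁ = u - algebraMap κ Ω a₀) ∨
      π₁ = u⁻¹) : ∃ π ∈ T, W.valuation π = W.valuation π₁ := by
  have hℓ0 : ℓ ≠ 0 := hp.out.ne_zero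
  have hw : w ^ ℓ = 1 - u ^ ℓ := by linear_combination huw
  have hTw : 1 - u ^ ℓ ∈ T := sub_mem (one_mem _) hTu
  have hone : ∀ {t : Ω}, W.valuation (t ^ ℓ) = 1 → W.valuation t = 1 := by
    intro t ht
    rw [map_pow] at ht
    exact (pow_eq_one_iff_of_nonneg zero_le hℓ0).1 ht
  have hlt : ∀ {t : Ω}, W.valuation t < 1 → W.valuation (t ^ ℓ) < 1 := by
    intro t ht
    rw [map_pow]
    exact pow_lt_one₀ zero_le ht hℓ0
  rcases h with rfl | ⟨a₀, ha₀, rfl⟩ | rfl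
  · rw [Valuation.map_neg] at hπ ⊢
    have h1 := hlt hπ
    have h2 : W.valuation (u ^ ℓ) = 1 := by
      have h3 : u ^ ℓ = 1 - w ^ ℓ := by linear_combination huw
      rw [h3, Valuation.map_sub_eq_of_lt_left _ (by rwa [map_one]), map_one]
    have h3 := hone h2
    by_cases hw0 : w = 0
    · exact ⟨0, zero_mem _, by rw [hw0]⟩
    have hv0 : W.valuation w ≠ 0 := (_root_.map_ne_zero _).2 hw0
    obtain ⟨b', m, hbm⟩ := exists_inv_mod hb
    refine ⟨(u ^ a * w ^ b) ^ b' / (1 - u ^ ℓ) ^ m, div_mem (pow_mem hTy _) (pow_mem hTw _), ?_⟩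
    rw [← hw, map_div₀, map_pow, map_mul, map_pow, h3, one_pow, one_mul, map_pow, ← pow_mul, hbm,
      map_pow, map_pow, ← pow_mul, pow_add, pow_one, mul_div_assoc,
      div_self (pow_ne_zero _ hv0), mul_one]
  · by_cases ha0 : a₀ = 0
    · rw [ha0, map_zero, sub_zero] at hπ ⊢
      have h1 := hlt hπ
      have h2 : W.valuation (w ^ ℓ) = 1 := by
        rw [hw, Valuation.map_sub_eq_of_lt_left _ (by rwa [map_one]), map_one]
      have h3 := hone h2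
      by_cases hu0 : u = 0
      · exact ⟨0, zero_mem _, by rw [hu0]⟩
      have hv0 : W.valuation u ≠ 0 := (_root_.map_ne_zero _).2 hu0
      obtain ⟨a', m, ham⟩ := exists_inv_mod ha
      refine ⟨(u ^ a * w ^ b) ^ a' / (u ^ ℓ) ^ m, div_mem (pow_mem hTy _) (pow_mem hTu _), ?_⟩
      rw [map_div₀, map_pow, map_mul, map_pow, map_pow W.valuation w, h3, one_pow, mul_one,
        ← pow_mul, ham, map_pow, map_pow, ← pow_mul, pow_add, pow_one, mul_div_assoc,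
        div_self (pow_ne_zero _ hv0), mul_one]
    · have hA : W.valuation (algebraMap κ Ω a₀) = 1 := Pool.Agent.Y809.PS.val_const hκ ha0
      have hA0 : algebraMap κ Ω a₀ ≠ 0 := by
        intro h0
        rw [h0, map_zero] at hA
        exact zero_ne_one hA
      refine ⟨u ^ ℓ - algebraMap κ Ω (a₀ ^ ℓ), sub_mem hTu (hTκ _), ?_⟩
      have h1 := prod_mu ℓ (κ := κ) (u / algebraMap κ Ω a₀)
      have h2 : u ^ ℓ - algebraMap κ Ω (a₀ ^ ℓ) = algebraMap κ Ω a₀ ^ ℓ *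
          ∏ e ∈ nthRootsFinset ℓ (1 : κ), (u / algebraMap κ Ω a₀ - algebraMap κ Ω e) := by
        rw [h1, map_pow, div_pow, mul_sub, mul_one, mul_div_cancel₀ _ (pow_ne_zero _ hA0)]
      have h3 : u / algebraMap κ Ω a₀ - 1 = (u - algebraMap κ Ω a₀) / algebraMap κ Ω a₀ := by
        rw [sub_div, div_self hA0]
      have h4 : W.valuation (u / algebraMap κ Ω a₀ - 1) = W.valuation (u - algebraMap κ Ω a₀) := by
        rw [h3, map_div₀, hA, div_one]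
      have h5 : (1 : κ) ∈ nthRootsFinset ℓ (1 : κ) := by
        rw [mem_nthRootsFinset hp.out.pos, one_pow]
      classical
      rw [h2, ← Finset.mul_prod_erase _ _ h5, map_one, map_mul, map_pow, hA, one_pow, one_mul,
        map_mul, h4, map_prod, Finset.prod_eq_one, mul_one]
      intro e he
      have h6 : (1 : κ) - e ≠ 0 := sub_ne_zero.2 (Finset.ne_of_mem_erase he).symm
      have h7 : u / algebraMap κ Ω a₀ - algebraMap κ Ω e =
          algebraMap κ Ω (1 - e) + (u / algebraMap κ Ω a₀ - 1) := by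
        rw [map_sub, map_one]; ring
      rw [h7, Valuation.map_add_eq_of_lt_left, Pool.Agent.Y809.PS.val_const hκ h6]
      rw [Pool.Agent.Y809.PS.val_const hκ h6, h4]
      exact hπ
  · by_cases hu0 : u = 0
    · exact ⟨0, zero_mem _, by rw [hu0, inv_zero]⟩
    have hv0 : W.valuation u ≠ 0 := (_root_.map_ne_zero _).2 hu0
    have h1 : 1 < W.valuation u := by
      rw [map_inv₀] at hπ
      exact (inv_lt_one₀ (zero_lt_iff.2 hv0)).1 hπ
    have h2 : 1 < W.valuation (u ^ ℓ) := by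
      rw [map_pow]
      exact one_lt_pow₀ h1 hℓ0
    have h3 : W.valuation (w ^ ℓ) = W.valuation (u ^ ℓ) := by
      rw [hw, Valuation.map_sub_eq_of_lt_right _ (by rwa [map_one])]
    have h4 : W.valuation w = W.valuation u := by
      rw [map_pow, map_pow] at h3
      exact (pow_left_inj₀ zero_le zero_le hℓ0).1 h3
    obtain ⟨c', m, hcm⟩ := exists_inv_mod hab
    refine ⟨((u ^ a * w ^ b) ^ c' / (u ^ ℓ) ^ m)⁻¹, inv_mem (div_mem (pow_mem hTy _)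
      (pow_mem hTu _)), ?_⟩
    rw [map_inv₀, map_inv₀]
    congr 1
    rw [map_div₀, map_pow, map_mul, map_pow, map_pow W.valuation w, h4, ← pow_add,
        ← pow_mul, hcm, map_pow, map_pow, ← pow_mul, pow_add, pow_one, mul_div_assoc,
        div_self (pow_ne_zero _ hv0), mul_one]

end val

end Pool.Agent.Y158.FQ
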