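import Pool.Agent.Y158.FQ.Eqv

/-!
# The covering fields of a Fermat quotient and of the Fermat curve agree, 2
-/

set_option autoImplicit false
set_option linter.all false

open Polynomial FF

namespace Pool.Agent.Y158.FQ

open Pool.Agent.Y157.PS Pool.Agent.Y948.PS

/-- transitivity of approximation -/
theorem apx_trans {R₁ R₂ Ω : Type} [Field R₁] [Field R₂] [Field Ω] [Algebra R₁ Ω] [Algebra R₂ Ω]
    [Algebra.IsAlgebraic R₂ Ω] {K₁ : IntermediateField R₁ Ω} {K₂ : IntermediateField R₂ Ω}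
    {W : ValuationSubring Ω} {π : Ω} (hle : ∀ z ∈ K₂, z ∈ K₁) (hπ : Unf K₂ W π)
    (hK : ∀ z ∈ K₁, Apx K₂ W z) (z : Ω) : Apx K₁ W z ↔ Apx K₂ W z := by
  constructor
  · intro h s hs hs0
    obtain ⟨t, ht, h1⟩ := h s (hle s hs) hs0
    obtain ⟨t', ht', h2⟩ := hK t ht s hs hs0
    refine ⟨t', ht', ?_⟩
    have h3 : z - t' = (z - t) + (t - t') := by ring
    rw [h3]
    exact (Valuation.map_add _ _ _).trans (max_le h1 h2)
  · intro h s hs hs0
    obtain ⟨t, ht, ht0, h1⟩ := (hK s hs).val hπ hs0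
    obtain ⟨t', ht', h2⟩ := h t ht ht0
    exact ⟨t', hle _ ht', by rw [h1]; exact h2⟩

theorem maxPro_eq {κ Ω : Type} [Field κ] [IsAlgClosed κ] [CharZero κ] [Field Ω] [IsAlgClosed Ω]
    [Algebra κ Ω] {ℓ : ℕ} [hp : Fact ℓ.Prime] (hodd : Odd ℓ) {a b : ℕ} (ha : ¬ ℓ ∣ a)
    (hb : ¬ ℓ ∣ b) (hab : ¬ ℓ ∣ a + b) {u w : Ω} (huw : u ^ ℓ + w ^ ℓ = 1)
    (hu : Transcendental κ u)
    (halg : Algebra.IsAlgebraic (IntermediateField.adjoin κ {u ^ ℓ}) Ω) (z : Ω) :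
    z ∈ maxPro ℓ κ (IntermediateField.adjoin (IntermediateField.adjoin κ {u}) {-w}) Ω ↔
      z ∈ maxPro ℓ κ (IntermediateField.adjoin (IntermediateField.adjoin κ {u ^ ℓ})
        {u ^ a * w ^ b}) Ω := by
  have hℓ0 : ℓ ≠ 0 := hp.out.ne_zero
  haveI : NeZero ℓ := ⟨hℓ0⟩
  have hut : Transcendental κ (u ^ ℓ) := fun h => hu (IsAlgebraic.of_pow hp.out.pos h)
  have hrat₁ := ratF_adj hu
  have hrat₂ := ratF_adj hut
  have huR₁ : u ∈ IntermediateField.adjoin κ {u} := IntermediateField.mem_adjoin_simple_self κ u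
  have huR₂ : u ^ ℓ ∈ IntermediateField.adjoin κ {u ^ ℓ} :=
    IntermediateField.mem_adjoin_simple_self κ _
  have hR : IntermediateField.adjoin κ {u ^ ℓ} ≤ IntermediateField.adjoin κ {u} := by
    rw [IntermediateField.adjoin_le_iff, Set.singleton_subset_iff]
    exact pow_mem huR₁ ℓ
  haveI halg₁ : Algebra.IsAlgebraic (IntermediateField.adjoin κ {u}) Ω := by
    letI : Algebra (IntermediateField.adjoin κ {u ^ ℓ}) (IntermediateField.adjoin κ {u}) :=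
      (IntermediateField.inclusion hR).toRingHom.toAlgebra
    haveI : IsScalarTower (IntermediateField.adjoin κ {u ^ ℓ}) (IntermediateField.adjoin κ {u})
      Ω := IsScalarTower.of_algebraMap_eq fun _ => rfl
    exact Algebra.IsAlgebraic.tower_top (K := IntermediateField.adjoin κ {u ^ ℓ}) _
  haveI : IsAlgClosure (IntermediateField.adjoin κ {u}) Ω := ⟨inferInstance, inferInstance⟩
  haveI : IsAlgClosure (IntermediateField.adjoin κ {u ^ ℓ}) Ω := ⟨inferInstance, inferInstance⟩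
  haveI : Normal (IntermediateField.adjoin κ {u}) Ω := IsAlgClosure.normal _ Ω
  haveI : Normal (IntermediateField.adjoin κ {u ^ ℓ}) Ω := IsAlgClosure.normal _ Ω
  have hw : w ^ ℓ = 1 - u ^ ℓ := by linear_combination huw
  have hY₁ : (-w) ^ ℓ = algebraMap (IntermediateField.adjoin κ {u}) Ω (⟨u, huR₁⟩ ^ ℓ - 1) := by
    rw [Odd.neg_pow hodd, hw]
    change _ = u ^ ℓ - 1
    ring
  have hY₁' : (-w) ^ ℓ = ∏ e ∈ nthRootsFinset ℓ (1 : κ),
      (algebraMap (IntermediateField.adjoin κ {u}) Ω ⟨u, huR₁⟩ - algebraMap κ Ω e) := by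
    rw [hY₁]
    exact (prod_mu ℓ (κ := κ) u).symm
  have hY₂ : (u ^ a * w ^ b) ^ ℓ = algebraMap (IntermediateField.adjoin κ {u ^ ℓ}) Ω
      (⟨u ^ ℓ, huR₂⟩ ^ a * (1 - ⟨u ^ ℓ, huR₂⟩) ^ b) := by
    change _ = (u ^ ℓ) ^ a * (1 - u ^ ℓ) ^ b
    rw [← hw]
    ring
  obtain ⟨K₁, hK₁⟩ : ∃ K₁ : IntermediateField (IntermediateField.adjoin κ {u}) Ω,
    K₁ = IntermediateField.adjoin (IntermediateField.adjoin κ {u}) {-w} := ⟨_, rfl⟩
  obtain ⟨K₂, hK₂⟩ : ∃ K₂ : IntermediateField (IntermediateField.adjoin κ {u ^ ℓ}) Ω,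
    K₂ = IntermediateField.adjoin (IntermediateField.adjoin κ {u ^ ℓ}) {u ^ a * w ^ b} :=
    ⟨_, rfl⟩
  have hκ₁ : ∀ c : κ, algebraMap κ Ω c ∈ K₁ := fun c =>
    K₁.algebraMap_mem (algebraMap κ (IntermediateField.adjoin κ {u}) c)
  have hκ₂ : ∀ c : κ, algebraMap κ Ω c ∈ K₂ := fun c =>
    K₂.algebraMap_mem (algebraMap κ (IntermediateField.adjoin κ {u ^ ℓ}) c)
  have hu₁ : u ∈ K₁ := K₁.algebraMap_mem (⟨u, huR₁⟩ : IntermediateField.adjoin κ {u})
  have hw₁ : w ∈ K₁ := by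
    have h1 : -w ∈ K₁ := by rw [hK₁]; exact IntermediateField.mem_adjoin_simple_self _ _
    have h2 := neg_mem h1
    rwa [neg_neg] at h2
  have hu₂ : u ^ ℓ ∈ K₂ := K₂.algebraMap_mem (⟨u ^ ℓ, huR₂⟩ : IntermediateField.adjoin κ {u ^ ℓ})
  have hy₂ : u ^ a * w ^ b ∈ K₂ := by
    rw [hK₂]; exact IntermediateField.mem_adjoin_simple_self _ _
  have hle : ∀ z ∈ K₂, z ∈ K₁ := by
    intro z hz
    rw [hK₂] at hz
    refine adjoin_le_sub (T := K₁.toSubfield) (fun r => ?_) (fun t ht => ?_) z hz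
    · exact K₁.algebraMap_mem (IntermediateField.inclusion hR r)
    · rw [Set.mem_singleton_iff] at ht
      rw [ht]
      exact mul_mem (pow_mem hu₁ _) (pow_mem hw₁ _)
  rw [← hK₁, ← hK₂]
  -- uniformisers
  have hUU : ∀ W : ValuationSubring Ω, (∀ c : κ, algebraMap κ Ω c ∈ W) → W ≠ ⊤ →
      ∃ π₁ π, Unf K₁ W π₁ ∧ Unf K₂ W π ∧ W.valuation π = W.valuation π₁ := by
    intro W hκ hW
    have hcard : (nthRootsFinset ℓ (1 : κ)).card = ℓ := by
      obtain ⟨ζ, hζ⟩ := HasEnoughRootsOfUnity.exists_primitiveRoot κ ℓ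
      exact hζ.card_nthRootsFinset
    obtain ⟨π₁, h1, h2, h3, h4⟩ := Pool.Agent.Y809.PS.k0 ℓ κ (IntermediateField.adjoin κ {u}) Ω
      ⟨u, huR₁⟩ hrat₁ (nthRootsFinset ℓ (1 : κ)) (by rw [hcard]) (by
        rw [← Finset.card_pos, hcard]; exact hp.out.pos) (-w) hY₁' W hκ (by
        by_contra hc
        push Not at hc
        exact hW (top_of_R W hc))
    have hU₁ : Unf K₁ W π₁ := by
      refine ⟨?_, h2, (ValuationSubring.mem_nonunits_iff _).1 h1, ?_⟩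
      · rcases h3 with ⟨e, he, rfl, _⟩ | ⟨a, ha, rfl⟩ | rfl
        · exact neg_mem hw₁
        · exact sub_mem hu₁ (hκ₁ _)
        · exact inv_mem hu₁
      · intro z hz hz0
        rw [hK₁] at hz
        obtain ⟨n, hn⟩ := h4 z hz hz0
        refine ⟨n, ?_⟩
        have h5 := (isU_iff W).1 hn
        rw [map_div₀, map_zpow₀] at h5
        rwa [div_eq_one_iff_eq] at h5
        exact zpow_ne_zero _ ((Valuation.pos_iff _).2 h2).ne'
    obtain ⟨π, hπT, hπv⟩ := exists_pi hodd ha hb hab huw W hκ (T := K₂.toSubfield) hκ₂ hu₂ hy₂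
      hU₁.lt (by
        rcases h3 with ⟨e, he, h5, _⟩ | h5 | h5
        · exact Or.inl h5
        · exact Or.inr (Or.inl h5)
        · exact Or.inr (Or.inr h5))
    refine ⟨π₁, π, hU₁, ⟨hπT, ?_, by rw [hπv]; exact hU₁.lt, fun z hz hz0 => ?_⟩, hπv⟩
    · rw [← W.valuation.ne_zero_iff, hπv]
      exact hU₁.pos.ne'
    · rw [hπv]
      exact hU₁.val z (hle z hz) hz0
  have hHU₁ : HU κ K₁ := fun W hκ hW => by
    obtain ⟨π₁, π, h1, h2, h3⟩ := hUU W hκ hW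
    exact ⟨π₁, h1⟩
  have hHU₂ : HU κ K₂ := fun W hκ hW => by
    obtain ⟨π₁, π, h1, h2, h3⟩ := hUU W hκ hW
    exact ⟨π, h2⟩
  -- approximation of the elements of `K₁`
  have hApx : ∀ W : ValuationSubring Ω, (∀ c : κ, algebraMap κ Ω c ∈ W) → W ≠ ⊤ →
      ∀ z ∈ K₁, Apx K₂ W z := by
    intro W hκ hW z hz
    obtain ⟨π₁, π, h1, h2, h3⟩ := hUU W hκ hW
    have hroot : ∀ t ∈ K₁, t ≠ 0 → t ^ ℓ ∈ K₂ → Apx K₂ W t := by
      intro t ht ht0 htℓ
      obtain ⟨n, hn⟩ := h1.val t ht ht0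
      refine Apx.root h2 (hres hrat₂ K₂ W hκ hW) hℓ0 (vl hℓ0 W hκ) t (Apx.of_mem htℓ) n ?_
      rw [map_pow, hn, h3, ← zpow_natCast, ← zpow_mul, mul_comm]
    have hu0 : u ≠ 0 := by
      rintro rfl
      exact hu isAlgebraic_zero
    have hw0 : w ≠ 0 := by
      rintro rfl
      rw [zero_pow hℓ0, add_zero] at huw
      rw [huw] at hut
      exact hut isAlgebraic_one
    have hAu : Apx K₂ W u := hroot u hu₁ hu0 hu₂
    have hAw : Apx K₂ W w := hroot w hw₁ hw0 (by rw [hw]; exact sub_mem (one_mem _) hu₂)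
    let T : Subfield Ω :=
      { (ApxS K₂ W).toSubring with
        inv_mem' := fun x hx => Apx.inv hx }
    have hT : ∀ t, t ∈ T ↔ Apx K₂ W t := fun t => Iff.rfl
    have hTκ : ∀ c : κ, algebraMap κ Ω c ∈ T := fun c => (hT _).2 (Apx.of_mem (hκ₂ c))
    rw [hK₁] at hz
    rw [← hT]
    refine adjoin_le_sub (T := T) (fun r => ?_) (fun t ht => ?_) z hz
    · refine adjoin_le_sub (T := T) hTκ (fun t ht => ?_) (r : Ω) r.2
      rw [Set.mem_singleton_iff] at ht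
      rw [ht]
      exact (hT _).2 hAu
    · rw [Set.mem_singleton_iff] at ht
      rw [ht]
      exact neg_mem ((hT _).2 hAw)
  -- the two conditions
  have hMem : Mem ℓ κ K₁ z ↔ Mem ℓ κ K₂ z := by
    have hμ : ∀ ζ : Ω, ζ ^ ℓ = 1 →
        ∃ c : IntermediateField.adjoin κ {u ^ ℓ}, algebraMap _ Ω c = ζ := fun ζ =>
      muR (κ := κ) hℓ0 ζ
    have hpro : Pro ℓ (IntermediateField.adjoin κ {u}) z ↔
        Pro ℓ (IntermediateField.adjoin κ {u ^ ℓ}) z := by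
      constructor
      · refine pro_down hμ (u := u) ⟨⟨u ^ ℓ, huR₂⟩, rfl⟩ (fun σ hσ r => ?_)
        have h1 : (r : Ω) ∈ (RingHom.eqLocusField (σ : Ω →+* Ω) (RingHom.id Ω)) := by
          refine adjoin_le_sub (fun c => ?_) (fun t ht => ?_) (r : Ω) r.2
          · exact σ.commutes (algebraMap κ (IntermediateField.adjoin κ {u ^ ℓ}) c)
          · rw [Set.mem_singleton_iff] at ht
            rw [ht]
            exact hσ
        exact h1
      · exact pro_up (fun r => ⟨IntermediateField.inclusion hR r, rfl⟩)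
    unfold Mem
    rw [hpro]
    refine and_congr_right fun _ => forall_congr' fun W => forall_congr' fun hκ =>
      forall_congr' fun hW => ?_
    obtain ⟨π₁, π, h1, h2, h3⟩ := hUU W hκ hW
    exact apx_trans hle h2 (hApx W hκ hW) z
  have h1 : z ∈ maxPro ℓ κ K₁ Ω ↔ Mem ℓ κ K₁ z := by
    rw [hK₁] at hHU₁ ⊢
    exact ⟨fun h => maxPro_le hrat₁ hY₁ hHU₁ h, fun h => le_maxPro hY₁ hHU₁ h⟩
  have h2 : z ∈ maxPro ℓ κ K₂ Ω ↔ Mem ℓ κ K₂ z := by
    rw [hK₂] at hHU₂ ⊢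
    exact ⟨fun h => maxPro_le hrat₂ hY₂ hHU₂ h, fun h => le_maxPro hY₂ hHU₂ h⟩
  rw [h1, h2, hMem]

end Pool.Agent.Y158.FQ
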