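import Pool.Agent.Y158.FQ.Eqv2
import Pool.Agent.Y158.FQ.Desc

/-!
# The geometrically pro-`ℓ` extensions of a Fermat quotient and of the Fermat curve agree
-/

set_option autoImplicit false
set_option linter.all false

open Polynomial FF

namespace Pool.Agent.Y158.FQ

open Pool.Agent.Y157.PS Pool.Agent.Y948.PS

section

variable {k F Ω : Type} [Field k] [CharZero k] [Field F] [Field Ω] [Algebra k F] [Algebra F Ω]
  [Algebra k Ω] [IsScalarTower k F Ω] [IsAlgClosed Ω] [Algebra.IsAlgebraic F Ω]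

omit [CharZero k] [IsAlgClosed Ω] [Algebra.IsAlgebraic F Ω] [IsScalarTower k F Ω] [Algebra F Ω]
  [Algebra k Ω] in
theorem adjoin_pair_top {x y : F} {E : IntermediateField k F}
    (hE : E = IntermediateField.adjoin k {x, y}) (hx : x ∈ E) (hy : y ∈ E) :
    IntermediateField.adjoin k {(⟨x, hx⟩ : E), ⟨y, hy⟩} = (⊤ : IntermediateField k E) := by
  apply IntermediateField.map_injective E.val
  rw [IntermediateField.adjoin_map, Set.image_pair, ← AlgHom.fieldRange_eq_map,
    IntermediateField.fieldRange_val]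
  exact hE.symm

/-- the covering fields agree -/
theorem geomPro_quot {ℓ : ℕ} [hp : Fact ℓ.Prime] (hodd : Odd ℓ) {a b : ℕ} (ha : ¬ ℓ ∣ a)
    (hb : ¬ ℓ ∣ b) (hab : ¬ ℓ ∣ a + b) (x y : F) (hx : Transcendental k x)
    (hF : Algebra.IsAlgebraic (IntermediateField.adjoin k {x}) F)
    (u w : Ω) (hu : u ^ ℓ = algebraMap F Ω x)
    (hw : w ^ ℓ = algebraMap F Ω (1 - x)) (huw : u ^ a * w ^ b = algebraMap F Ω y) (z : Ω) :
    z ∈ geomPro ℓ k (IntermediateField.adjoin k {u, w}) Ω ↔
      z ∈ geomPro ℓ k (IntermediateField.adjoin k {x, y}) Ω := by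
  haveI : IsAlgClosure k (algebraicClosure k Ω) := inferInstance
  haveI : IsAlgClosed (algebraicClosure k Ω) := IsAlgClosure.isAlgClosed k
  haveI : CharZero (algebraicClosure k Ω) :=
    charZero_of_injective_algebraMap (algebraMap k (algebraicClosure k Ω)).injective
  have hxΩ : Transcendental k (algebraMap F Ω x) :=
    (transcendental_algebraMap_iff (R := k) (algebraMap F Ω).injective (a := x)).2 hx
  have hut : Transcendental k u := by
    intro h
    exact hxΩ (by rw [← hu]; exact h.pow ℓ)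
  have hut' : Transcendental (algebraicClosure k Ω) u := trans_up hut
  have h1 : u ^ ℓ + w ^ ℓ = 1 := by rw [hu, hw, map_sub, map_one]; ring
  have halg : Algebra.IsAlgebraic
      (IntermediateField.adjoin (algebraicClosure k Ω) {u ^ ℓ}) Ω := by
    let R : IntermediateField k Ω := (IntermediateField.adjoin (algebraicClosure k Ω)
      {u ^ ℓ}).restrictScalars k
    have h2 : Algebra.IsAlgebraic R Ω := alg_over hF R (by
      rw [← hu]
      exact IntermediateField.mem_adjoin_simple_self (algebraicClosure k Ω) (u ^ ℓ))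
    exact h2
  have h2 := maxPro_eq (κ := algebraicClosure k Ω) hodd ha hb hab h1 hut' halg z
  -- the first field
  obtain ⟨E₁, hE₁⟩ : ∃ E₁ : IntermediateField k Ω, E₁ = IntermediateField.adjoin k {u, w} :=
    ⟨_, rfl⟩
  have hu₁ : u ∈ E₁ := by rw [hE₁]; exact IntermediateField.subset_adjoin k _ (by simp)
  have hw₁ : w ∈ E₁ := by rw [hE₁]; exact IntermediateField.subset_adjoin k _ (by simp)
  have h3 := maxPro_geom (Ω := Ω) ℓ k (adjoin_pair_top hE₁ hu₁ hw₁)
    (-1 : algebraicClosure k Ω) (neg_ne_zero.2 one_ne_zero) z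
  have h4 : ((-1 : algebraicClosure k Ω) : Ω) * algebraMap E₁ Ω ⟨w, hw₁⟩ = -w := by
    have h5 : ((-1 : algebraicClosure k Ω) : Ω) = -1 := by push_cast; rfl
    rw [h5]
    change -1 * w = -w
    ring
  rw [h4] at h3
  -- the second field
  obtain ⟨E₂, hE₂⟩ : ∃ E₂ : IntermediateField k F, E₂ = IntermediateField.adjoin k {x, y} :=
    ⟨_, rfl⟩
  have hx₂ : x ∈ E₂ := by rw [hE₂]; exact IntermediateField.subset_adjoin k _ (by simp)
  have hy₂ : y ∈ E₂ := by rw [hE₂]; exact IntermediateField.subset_adjoin k _ (by simp)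
  have h6 := maxPro_geom (Ω := Ω) ℓ k (adjoin_pair_top hE₂ hx₂ hy₂)
    (1 : algebraicClosure k Ω) one_ne_zero z
  have h7 : ((1 : algebraicClosure k Ω) : Ω) * algebraMap E₂ Ω ⟨y, hy₂⟩ = u ^ a * w ^ b := by
    rw [huw]
    change 1 * algebraMap F Ω y = _
    rw [one_mul]
  have h8 : algebraMap E₂ Ω ⟨x, hx₂⟩ = u ^ ℓ := by rw [hu]; rfl
  rw [h7, h8] at h6
  rw [← hE₁, ← hE₂, ← h3, ← h6]
  exact h2

end

end Pool.Agent.Y158.FQ
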