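import Pool.Agent.Y158.FQ.Desc3

/-!
# Extension of the base field of a section
-/

set_option autoImplicit false
set_option linter.all false

open Polynomial FF Pool.Agent.Y157.PS Pool.Agent.TH954 IsDedekindDomain NumberField

namespace Pool.Agent.Y158.FQ

/-- the converse of `cont_fix` -/
theorem cont_of_fix {k κ F M : Type} [Field k] [Field κ] [Algebra k κ] [Field F] [Field M]
    [Algebra F M] (S : (κ ≃ₐ[k] κ) →* (M ≃ₐ[F] M))
    (h : ∀ z : M, ∃ E : IntermediateField k κ, FiniteDimensional k E ∧
      ∀ σ ∈ E.fixingSubgroup, S σ z = z) : Continuous S := by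
  refine continuous_of_continuousAt_one _ ?_
  rw [ContinuousAt, map_one]
  intro t ht
  rw [krullTopology_mem_nhds_one_iff] at ht
  obtain ⟨E₁, hE₁, hE₁t⟩ := ht
  rw [Filter.mem_map, krullTopology_mem_nhds_one_iff]
  haveI := hE₁
  let b := Module.finBasis F E₁
  choose E hE hE' using fun i => h ((b i : E₁) : M)
  haveI : ∀ i, FiniteDimensional k (E i) := hE
  refine ⟨⨆ i, E i, IntermediateField.finiteDimensional_iSup_of_finite, fun σ hσ => ?_⟩
  apply hE₁t
  rw [SetLike.mem_coe, IntermediateField.mem_fixingSubgroup_iff] at hσ ⊢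
  intro y hy
  have hb : ∀ i, S σ ((b i : E₁) : M) = ((b i : E₁) : M) := by
    intro i
    refine hE' i σ ?_
    rw [IntermediateField.mem_fixingSubgroup_iff]
    intro z hz
    exact hσ z ((le_iSup E i) hz)
  have h1 : y = ∑ i, (b.repr ⟨y, hy⟩ i) • ((b i : E₁) : M) := by
    have h2 := b.sum_repr ⟨y, hy⟩
    have h3 := congrArg (fun w : E₁ => (w : M)) h2
    simp only [AddSubmonoidClass.coe_finset_sum] at h3
    exact h3.symm
  rw [h1, map_sum]
  refine Finset.sum_congr rfl fun i _ => ?_
  rw [map_smul, hb]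

/-- finite extensions of `k` and of a larger field -/
theorem fix_ext {k K B : Type} [Field k] [Field K] [Field B] [Algebra k B] [Algebra K B]
    [Algebra k K] [IsScalarTower k K B] [Algebra.IsAlgebraic k B] (E : IntermediateField k B)
    [FiniteDimensional k E] : ∃ E' : IntermediateField K B, FiniteDimensional K E' ∧
      ∀ g ∈ E'.fixingSubgroup, (AlgEquiv.restrictScalars k g : B ≃ₐ[k] B) ∈ E.fixingSubgroup := by
  let b := Module.finBasis k E
  let T : Set B := Set.range fun i => ((b i : E) : B)
  haveI : Finite T := Set.finite_range _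
  refine ⟨IntermediateField.adjoin K T, ?_, fun τ hτ => ?_⟩
  · exact IntermediateField.finiteDimensional_adjoin (S := T)
      (fun z _ => (Algebra.IsAlgebraic.isAlgebraic (R := k) z).isIntegral.tower_top)
  · rw [IntermediateField.mem_fixingSubgroup_iff] at hτ ⊢
    intro y hy
    change τ y = y
    have h1 : y = ∑ i, (b.repr ⟨y, hy⟩ i) • ((b i : E) : B) := by
      have h2 := b.sum_repr ⟨y, hy⟩
      have h3 := congrArg (fun w : E => (w : B)) h2
      simp only [AddSubmonoidClass.coe_finset_sum] at h3
      exact h3.symm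
    rw [h1, map_sum]
    refine Finset.sum_congr rfl fun i _ => ?_
    rw [Algebra.smul_def, map_mul, hτ _ (IntermediateField.subset_adjoin K T ⟨i, rfl⟩)]
    congr 1
    rw [IsScalarTower.algebraMap_apply k K B]
    exact τ.commutes _

section

variable {k K F F' Ω B C : Type} [Field k] [Field K] [Field F] [Field F'] [Field Ω] [Field B]
  [Field C] [Algebra k K] [Algebra k F] [Algebra F Ω] [Algebra k Ω] [IsScalarTower k F Ω]
  [Algebra K F'] [Algebra F' Ω] [Algebra K Ω] [IsScalarTower K F' Ω] [Algebra k B] [Algebra K B]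
  [IsScalarTower k K B] [Algebra k C] [Algebra K C] [IsScalarTower k K C]
  [Algebra.IsAlgebraic k B] [Algebra.IsAlgebraic F Ω]

/-- the section over the larger field -/
noncomputable def extSec {N : IntermediateField F Ω} {N' : IntermediateField F' Ω} (e : N ≃+* N')
    (he : ∀ z : N, ((e z : N') : Ω) = (z : Ω)) (s : GalSection k F N B)
    (hKB : ∀ c : K, ((s.j (algebraMap K B c) : N) : Ω) = algebraMap K Ω c)
    (hfix : ∀ (r : F') (g : B ≃ₐ[K] B) (z : N), (z : Ω) = algebraMap F' Ω r →
      s.s (g.restrictScalars k) z = z) : GalSection K F' N' B where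
  j :=
    { toFun := fun b => e (s.j b)
      map_one' := by rw [map_one, map_one]
      map_mul' := fun a b => by rw [map_mul, map_mul]
      map_zero' := by rw [map_zero, map_zero]
      map_add' := fun a b => by rw [map_add, map_add]
      commutes' := fun c => Subtype.ext (by
        change ((e (s.j (algebraMap K B c)) : N') : Ω) = algebraMap K Ω c
        rw [he, hKB]) }
  s :=
    { toFun := fun g => AlgEquiv.ofRingEquiv
        (f := (e.symm.trans (s.s (g.restrictScalars k) : N ≃+* N)).trans e) (fun r => by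
          change e (s.s (g.restrictScalars k) (e.symm (algebraMap F' N' r))) = algebraMap F' N' r
          rw [hfix r g _ (by rw [← he, e.apply_symm_apply]; rfl), e.apply_symm_apply])
      map_one' := by
        ext z
        change ((e (s.s ((1 : B ≃ₐ[K] B).restrictScalars k) (e.symm z)) : N') : Ω) = _
        have h1 : (1 : B ≃ₐ[K] B).restrictScalars k = (1 : B ≃ₐ[k] B) := rfl
        rw [h1, map_one]
        change ((e (e.symm z) : N') : Ω) = _
        rw [e.apply_symm_apply]
        rfl
      map_mul' := fun g g' => by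
        ext z
        change ((e (s.s ((g * g' : B ≃ₐ[K] B).restrictScalars k) (e.symm z)) : N') : Ω) =
          ((e (s.s (g.restrictScalars k) (e.symm (e (s.s (g'.restrictScalars k)
            (e.symm z))))) : N') : Ω)
        have h1 : (g * g' : B ≃ₐ[K] B).restrictScalars k =
          (g.restrictScalars k : B ≃ₐ[k] B) * g'.restrictScalars k := rfl
        rw [h1, map_mul, e.symm_apply_apply]
        rfl }
  cont := by
    refine cont_of_fix _ fun z => ?_
    obtain ⟨E, hE, hE'⟩ := cont_fix s.s s.cont (e.symm z)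
    haveI := hE
    obtain ⟨E₁, hE₁, hE₁'⟩ := fix_ext (K := K) E
    refine ⟨E₁, hE₁, fun g hg => ?_⟩
    change e (s.s (g.restrictScalars k) (e.symm z)) = z
    rw [hE' _ (hE₁' g hg), e.apply_symm_apply]
  sec := fun g b => by
    change e (s.s (g.restrictScalars k) (e.symm (e (s.j b)))) = e (s.j (g b))
    rw [e.symm_apply_apply, s.sec]
    rfl

theorem extSec_apply {N : IntermediateField F Ω} {N' : IntermediateField F' Ω} (e : N ≃+* N')
    (he : ∀ z : N, ((e z : N') : Ω) = (z : Ω)) (s : GalSection k F N B)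
    (hKB : ∀ c : K, ((s.j (algebraMap K B c) : N) : Ω) = algebraMap K Ω c)
    (hfix : ∀ (r : F') (g : B ≃ₐ[K] B) (z : N), (z : Ω) = algebraMap F' Ω r →
      s.s (g.restrictScalars k) z = z) (g : B ≃ₐ[K] B) (z : N) :
    (extSec e he s hKB hfix).s g (e z) = e (s.s (g.restrictScalars k) z) := by
  change e (s.s (g.restrictScalars k) (e.symm (e z))) = _
  rw [e.symm_apply_apply]

/-- the place over the larger field -/
noncomputable def extPlc {N : IntermediateField F Ω} {N' : IntermediateField F' Ω} (e : N ≃+* N')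
    (he : ∀ z : N, ((e z : N') : Ω) = (z : Ω)) (s : GalSection k F N B) (p : Plc k N C)
    (hKB : ∀ c : K, ((s.j (algebraMap K B c) : N) : Ω) = algebraMap K Ω c)
    (hKC : ∀ c : K, p.val (s.j (algebraMap K B c)) (algebraMap K C c)) : Plc K N' C where
  W := p.W.comap (e.symm : N' →+* N)
  ρ := p.ρ.comp ((e.symm : N' →+* N).restrict (p.W.comap (e.symm : N' →+* N)) p.W
    (fun _ hx => hx))
  loc := by
    intro x hx
    rw [ValuationSubring.mem_comap, map_inv₀]
    exact p.loc ⟨(e.symm : N' →+* N) x, x.2⟩ hx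
  comm := by
    intro c
    have h0 : (e.symm : N' →+* N) (algebraMap K N' c) = s.j (algebraMap K B c) := by
      apply e.injective
      change e (e.symm (algebraMap K N' c)) = _
      rw [e.apply_symm_apply]
      apply Subtype.ext
      rw [he, hKB]
      rfl
    obtain ⟨h1, h2⟩ := hKC c
    have h3 : (e.symm : N' →+* N) (algebraMap K N' c) ∈ p.W := by rw [h0]; exact h1
    refine ⟨h3, ?_⟩
    rw [← h2]
    change p.ρ ⟨(e.symm : N' →+* N) (algebraMap K N' c), h3⟩ = _
    congr 1
    exact Subtype.ext h0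

theorem extPlc_val {N : IntermediateField F Ω} {N' : IntermediateField F' Ω} (e : N ≃+* N')
    (he : ∀ z : N, ((e z : N') : Ω) = (z : Ω)) (s : GalSection k F N B) (p : Plc k N C)
    (hKB : ∀ c : K, ((s.j (algebraMap K B c) : N) : Ω) = algebraMap K Ω c)
    (hKC : ∀ c : K, p.val (s.j (algebraMap K B c)) (algebraMap K C c)) (x : N') (c : C) :
    (extPlc e he s p hKB hKC).val x c ↔ p.val (e.symm x) c := Iff.rfl

theorem extPlc_mem {N : IntermediateField F Ω} {N' : IntermediateField F' Ω} (e : N ≃+* N')
    (he : ∀ z : N, ((e z : N') : Ω) = (z : Ω)) (s : GalSection k F N B) (p : Plc k N C)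
    (hKB : ∀ c : K, ((s.j (algebraMap K B c) : N) : Ω) = algebraMap K Ω c)
    (hKC : ∀ c : K, p.val (s.j (algebraMap K B c)) (algebraMap K C c)) (x : N') :
    x ∈ (extPlc e he s p hKB hKC).W ↔ e.symm x ∈ p.W := Iff.rfl

theorem extGiven {N : IntermediateField F Ω} {N' : IntermediateField F' Ω} (e : N ≃+* N')
    (he : ∀ z : N, ((e z : N') : Ω) = (z : Ω)) (s : GalSection k F N B) (p : Plc k N C)
    (hKB : ∀ c : K, ((s.j (algebraMap K B c) : N) : Ω) = algebraMap K Ω c)
    (hKC : ∀ c : K, p.val (s.j (algebraMap K B c)) (algebraMap K C c))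
    (hfix : ∀ (r : F') (g : B ≃ₐ[K] B) (z : N), (z : Ω) = algebraMap F' Ω r →
      s.s (g.restrictScalars k) z = z)
    (L : Type) [Field L] [Algebra L C] (hp : s.GivenBy L p) :
    (extSec e he s hKB hfix).GivenBy L (extPlc e he s p hKB hKC) := by
  intro σ g h x c hx
  rw [extPlc_val] at hx ⊢
  obtain ⟨z, rfl⟩ := e.surjective x
  rw [e.symm_apply_apply] at hx
  rw [extSec_apply, e.symm_apply_apply]
  refine hp σ _ (fun z c' hz => ?_) _ _ hx
  have h1 := h z c' (by
    rw [extPlc_val]
    change p.val (e.symm (e (s.j z))) c'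
    rw [e.symm_apply_apply]
    exact hz)
  rw [extPlc_val] at h1
  change p.val (e.symm (e (s.j (g z)))) (σ c') at h1
  rw [e.symm_apply_apply] at h1
  exact h1

end

end Pool.Agent.Y158.FQ
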