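import Pool.Agent.Y158.FQ.Main3
import Pool.Agent.Y158.FQ.Eqv3
import Pool.Agent.Y678.FQ.CL

/-!
# Sections of Fermat quotients over `ℚ`, final form
-/

set_option autoImplicit false
set_option linter.all false

open Polynomial FF Pool.Agent.Y157.PS Pool.Agent.TH954 IsDedekindDomain NumberField

namespace Pool.Agent.Y158.FQ

open Pool.Agent.Y158.KL (lam Kl KLem)

/-- the coordinates of the Fermat curve -/
theorem exists_uw {F Ω : Type} [Field F] [Field Ω] [Algebra F Ω] [IsAlgClosed Ω] {ℓ : ℕ}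
    [hp : Fact ℓ.Prime] {a b : ℕ} (ha : ¬ ℓ ∣ a) {x y : F} (hy0 : y ≠ 0)
    (hxy : y ^ ℓ = x ^ a * (1 - x) ^ b) :
    ∃ u w : Ω, u ^ ℓ = algebraMap F Ω x ∧ w ^ ℓ = algebraMap F Ω (1 - x) ∧
      u ^ a * w ^ b = algebraMap F Ω y := by
  obtain ⟨u₀, hu₀⟩ := IsAlgClosed.exists_pow_nat_eq (algebraMap F Ω x) hp.out.pos
  obtain ⟨w, hw⟩ := IsAlgClosed.exists_pow_nat_eq (algebraMap F Ω (1 - x)) hp.out.pos
  obtain ⟨a', m, ham⟩ := exists_inv_mod ha
  have hy : algebraMap F Ω y ≠ 0 := (_root_.map_ne_zero _).2 hy0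
  have h1 : (u₀ ^ a * w ^ b) ^ ℓ = algebraMap F Ω y ^ ℓ := by
    rw [← map_pow, hxy, map_mul, map_pow, map_pow, ← hu₀, ← hw]
    ring
  have hY0 : u₀ ^ a * w ^ b ≠ 0 := by
    intro h0
    rw [h0, zero_pow hp.out.ne_zero] at h1
    exact pow_ne_zero ℓ hy h1.symm
  obtain ⟨μ, hμ⟩ : ∃ μ : Ω, μ = algebraMap F Ω y / (u₀ ^ a * w ^ b) := ⟨_, rfl⟩
  have hμℓ : μ ^ ℓ = 1 := by
    rw [hμ, div_pow, h1, div_self (pow_ne_zero _ hy)]
  refine ⟨μ ^ a' * u₀, w, ?_, hw, ?_⟩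
  · rw [mul_pow, ← pow_mul, mul_comm a' ℓ, pow_mul, hμℓ, one_pow, one_mul, hu₀]
  · rw [mul_pow, ← pow_mul, mul_comm a' a, ham, pow_add, pow_one, pow_mul, hμℓ, one_pow, mul_one,
      mul_assoc, hμ, div_mul_cancel₀ _ hY0]

/-- the geometrically pro-`ℓ` extension is contained in the maximal unramified extension -/
theorem geomPro_unr' {K F Ω : Type} [Field K] [CharZero K] [Field F] [Field Ω] [Algebra K F]
    [Algebra F Ω] [Algebra K Ω] [IsScalarTower K F Ω] [IsAlgClosed Ω] [Algebra.IsAlgebraic F Ω]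
    (ℓ : ℕ) [hp : Fact ℓ.Prime] (x : F) (hx : Transcendental K x)
    (hFx : Algebra.IsAlgebraic (IntermediateField.adjoin K {x}) F) (F₀ : IntermediateField K F)
    (hxm : x ∈ F₀) (U : Set (ValuationSubring F))
    (hU : ∀ O ∈ U, ∀ c : K, algebraMap K F c ∈ O) :
    ∀ z ∈ geomPro ℓ K F₀ Ω, z ∈ Pool.Agent.W620.SC.unramified F Ω U := by
  haveI hFF : Algebra.IsAlgebraic F₀ F :=
    Pool.Agent.Y158.GR.alg_sub hFx F₀ one_ne_zero (by rw [pow_one]; exact hxm)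
  haveI hFΩ : Algebra.IsAlgebraic F₀ Ω := Algebra.IsAlgebraic.trans F₀ F Ω
  have hx0 : Transcendental K (⟨x, hxm⟩ : F₀) := by
    rw [← transcendental_algebraMap_iff (R := K) (A := F) (algebraMap F₀ F).injective]
    exact hx
  have halg : Algebra.IsAlgebraic (IntermediateField.adjoin K {(⟨x, hxm⟩ : F₀)}) F₀ := by
    have h1 : Algebra.IsAlgebraic
        ((IntermediateField.adjoin K {(⟨x, hxm⟩ : F₀)}).map F₀.val) F := by
      refine Pool.Agent.Y158.GR.alg_sub hFx _ one_ne_zero ?_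
      rw [pow_one]
      exact ⟨⟨x, hxm⟩, IntermediateField.mem_adjoin_simple_self K _, rfl⟩
    let i : (IntermediateField.adjoin K {(⟨x, hxm⟩ : F₀)}).map F₀.val →+*
        IntermediateField.adjoin K {(⟨x, hxm⟩ : F₀)} :=
      ((IntermediateField.adjoin K {(⟨x, hxm⟩ : F₀)}).equivMap F₀.val).symm.toAlgHom.toRingHom
    refine ⟨fun z => ?_⟩
    obtain ⟨q, hq, hqz⟩ := h1.isAlgebraic (z : F)
    refine ⟨q.map i, (Polynomial.map_ne_zero_iff i.injective).2 hq, ?_⟩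
    apply (algebraMap F₀ F).injective
    rw [aeval_def, eval₂_map, hom_eval₂, map_zero, ← hqz, aeval_def]
    congr 1
    ext t
    have h2 := ((IntermediateField.adjoin K {(⟨x, hxm⟩ : F₀)}).equivMap F₀.val).apply_symm_apply t
    exact congrArg Subtype.val h2
  haveI : IsAlgClosure F₀ Ω := ⟨inferInstance, inferInstance⟩
  obtain ⟨h1, -⟩ := a_inrt ℓ K F₀ Ω (⟨x, hxm⟩ : F₀) hx0 halg
  intro z hz
  rw [Pool.Agent.W620.SC.mem_unramified]
  intro W hW τ hτ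
  refine h1 W (fun c => ?_) (τ.restrictScalars F₀) (fun y => ?_) (fun y hy => ?_) z hz
  · have h4 := hU _ hW c
    rw [ValuationSubring.mem_comap] at h4
    rwa [IsScalarTower.algebraMap_apply K F Ω]
  · constructor
    · intro hy
      have h3 := (Pool.Agent.W620.SC.inertia_spec (inv_mem hτ) hy).1
      have h4 : (τ⁻¹ : Ω ≃ₐ[F] Ω) (τ y) = y := τ.symm_apply_apply y
      change (τ⁻¹ : Ω ≃ₐ[F] Ω) (τ y) ∈ W at h3
      rw [h4] at h3
      exact h3
    · intro hy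
      exact (Pool.Agent.W620.SC.inertia_spec hτ hy).1
  · exact (Pool.Agent.W620.SC.inertia_spec hτ hy).2

section

variable {K : Type} [Field K] [NumberField K] {ℓ : ℕ}
  [hp : Fact ℓ.Prime] [hK : IsCyclotomicExtension {ℓ} ℚ K] {ζ : K} (hζ : IsPrimitiveRoot ζ ℓ)
  {F Ω B : Type} [Field F] [Field Ω] [Field B] [Algebra ℚ F] [Algebra F Ω]
  [Algebra ℚ Ω] [Algebra ℚ B] [IsScalarTower ℚ F Ω] [IsAlgClosed Ω] [Algebra.IsAlgebraic F Ω]
  [IsAlgClosure ℚ B]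
  {C : Type} [Field C] [Algebra (Kl hζ) C] [Algebra ℚ C] [IsAlgClosure (Kl hζ) C]

include hK hζ in
/-- the theorem, in terms of the Fermat quotient -/
theorem fqFin (hodd : Odd ℓ) (hcop : (classNumber K).Coprime ℓ) (hKL : KLem ℓ K)
    {a b : ℕ} (ha : ¬ ℓ ∣ a) (hb : ¬ ℓ ∣ b)
    (hab : ¬ ℓ ∣ a + b) (x y : F) (hx : Transcendental ℚ x)
    (hF : Algebra.IsAlgebraic (IntermediateField.adjoin ℚ {x}) F)
    (hxy : y ^ ℓ = x ^ a * (1 - x) ^ b)
    (N : IntermediateField F Ω)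
    (hN : ∀ z ∈ geomPro ℓ ℚ (IntermediateField.adjoin ℚ {x, y}) Ω, z ∈ N)
    (s : GalSection ℚ F N B) (p : Plc ℚ N C) (hpv : s.GivenBy (Qc (lam hζ)) p) :
    (p.val (algebraMap F N x) 0 ∨ p.val (algebraMap F N x) 1 ∨
        p.val (algebraMap F N x)⁻¹ 0) ∧
      ∀ (g : B ≃ₐ[ℚ] B) (z : N),
        (z : Ω) ∈ geomPro ℓ ℚ (IntermediateField.adjoin ℚ {x, y}) Ω →
        (s.s g z ∈ p.W ↔ z ∈ p.W) := by
  have hx0 : x ≠ 0 := by
    rintro rfl
    exact hx isAlgebraic_zero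
  have hx1 : 1 - x ≠ 0 := by
    intro h
    have h1 : x = 1 := by linear_combination -h
    rw [h1] at hx
    exact hx isAlgebraic_one
  have hy0 : y ≠ 0 := by
    rintro rfl
    rw [zero_pow hp.out.ne_zero] at hxy
    exact mul_ne_zero (pow_ne_zero _ hx0) (pow_ne_zero _ hx1) hxy.symm
  obtain ⟨u, w, hu, hw, huw⟩ := exists_uw (Ω := Ω) (b := b) ha hy0 hxy
  have hgp := geomPro_quot (k := ℚ) hodd ha hb hab x y hx hF u w hu hw huw
  obtain ⟨h1, h2⟩ := fqQ hζ Pool.Agent.Y678.FQ.t_CL hodd hcop hKL ha hb hab x y hx hF u w hu hw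
    huw N (fun z hz => hN z ((hgp z).1 hz)) s p hpv
  refine ⟨?_, fun g z hz => h2 g z ((hgp _).2 hz)⟩
  rcases h1 with h1 | h1 | h1
  · exact Or.inl h1
  · right; left
    have h3 : p.val (1 : N) 1 := Plc.val_one
    have h4 := h3.sub h1
    rw [map_sub, map_one, sub_sub_cancel, sub_zero] at h4
    exact h4
  · exact Or.inr (Or.inr h1)

end

end Pool.Agent.Y158.FQ
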