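import Pool.Agent.Y158.FQ.Eqv3

/-!
# The pro-`ℓ` extension of the line minus three points contains that of the Fermat curve
-/

set_option autoImplicit false
set_option linter.all false

open Polynomial FF

namespace Pool.Agent.Y158.FQ

open Pool.Agent.Y157.PS Pool.Agent.Y948.PS

theorem tripod_core {κ Ω : Type} [Field κ] [IsAlgClosed κ] [CharZero κ] [Field Ω] [IsAlgClosed Ω]
    [Algebra κ Ω] {ℓ : ℕ} [hp : Fact ℓ.Prime] (hodd : Odd ℓ) {u w : Ω} (huw : u ^ ℓ + w ^ ℓ = 1)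
    (hu : Transcendental κ u)
    (halg : Algebra.IsAlgebraic (IntermediateField.adjoin κ {u ^ ℓ}) Ω) (z : Ω)
    (hz : z ∈ maxPro ℓ κ (IntermediateField.adjoin (IntermediateField.adjoin κ {u}) {-w}) Ω) :
    ∃ L : IntermediateField (IntermediateField.adjoin κ {u ^ ℓ}) Ω, z ∈ L ∧ Lev ℓ L ∧
      ∀ W : ValuationSubring Ω, (∀ c : κ, algebraMap κ Ω c ∈ W) → IsU W (u ^ ℓ) →
        IsU W (1 - u ^ ℓ) → ∀ y ∈ L, y ≠ 0 →
          ∃ t : IntermediateField.adjoin κ {u ^ ℓ}, t ≠ 0 ∧ IsU W (y / (t : Ω)) := by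
  have hℓ0 : ℓ ≠ 0 := hp.out.ne_zero
  haveI : NeZero ℓ := ⟨hℓ0⟩
  have hut : Transcendental κ (u ^ ℓ) := fun h => hu (IsAlgebraic.of_pow hp.out.pos h)
  have hrat₁ := ratF_adj hu
  have hrat₂ := ratF_adj hut
  have huR₁ : u ∈ IntermediateField.adjoin κ {u} := IntermediateField.mem_adjoin_simple_self κ u
  have huR₂ : u ^ ℓ ∈ IntermediateField.adjoin κ {u ^ ℓ} :=
    IntermediateField.mem_adjoin_simple_self κ _
  have hR : IntermediateField.adjoin κ {u ^ ℓ} ≤ IntermediateField.adjoin κ {u} := by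
    rw [IntermediateField.adjoin_le_iff, Set.singleton_subset_iff]
    exact pow_mem huR₁ ℓ
  haveI halg₁ : Algebra.IsAlgebraic (IntermediateField.adjoin κ {u}) Ω := by
    letI : Algebra (IntermediateField.adjoin κ {u ^ ℓ}) (IntermediateField.adjoin κ {u}) :=
      (IntermediateField.inclusion hR).toRingHom.toAlgebra
    haveI : IsScalarTower (IntermediateField.adjoin κ {u ^ ℓ}) (IntermediateField.adjoin κ {u})
      Ω := IsScalarTower.of_algebraMap_eq fun _ => rfl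
    exact Algebra.IsAlgebraic.tower_top (K := IntermediateField.adjoin κ {u ^ ℓ}) _
  haveI : IsAlgClosure (IntermediateField.adjoin κ {u}) Ω := ⟨inferInstance, inferInstance⟩
  haveI : IsAlgClosure (IntermediateField.adjoin κ {u ^ ℓ}) Ω := ⟨inferInstance, inferInstance⟩
  haveI : Normal (IntermediateField.adjoin κ {u}) Ω := IsAlgClosure.normal _ Ω
  haveI : Normal (IntermediateField.adjoin κ {u ^ ℓ}) Ω := IsAlgClosure.normal _ Ω
  haveI : CharZero (IntermediateField.adjoin κ {u ^ ℓ}) :=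
    charZero_of_injective_algebraMap (algebraMap κ (IntermediateField.adjoin κ {u ^ ℓ})).injective
  have hw : w ^ ℓ = 1 - u ^ ℓ := by linear_combination huw
  have hY₁ : (-w) ^ ℓ = algebraMap (IntermediateField.adjoin κ {u}) Ω (⟨u, huR₁⟩ ^ ℓ - 1) := by
    rw [Odd.neg_pow hodd, hw]
    change _ = u ^ ℓ - 1
    ring
  have hY₁' : (-w) ^ ℓ = ∏ e ∈ nthRootsFinset ℓ (1 : κ),
      (algebraMap (IntermediateField.adjoin κ {u}) Ω ⟨u, huR₁⟩ - algebraMap κ Ω e) := by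
    rw [hY₁]
    exact (prod_mu ℓ (κ := κ) u).symm
  obtain ⟨K₁, hK₁⟩ : ∃ K₁ : IntermediateField (IntermediateField.adjoin κ {u}) Ω,
    K₁ = IntermediateField.adjoin (IntermediateField.adjoin κ {u}) {-w} := ⟨_, rfl⟩
  obtain ⟨K₂, hK₂⟩ : ∃ K₂ : IntermediateField (IntermediateField.adjoin κ {u ^ ℓ}) Ω,
    K₂ = ⊥ := ⟨_, rfl⟩
  have hmem₂ : ∀ t ∈ K₂, ∃ r : IntermediateField.adjoin κ {u ^ ℓ}, (r : Ω) = t := by
    intro t ht
    rw [hK₂, IntermediateField.mem_bot] at ht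
    exact ht
  have hκ₁ : ∀ c : κ, algebraMap κ Ω c ∈ K₁ := fun c =>
    K₁.algebraMap_mem (algebraMap κ (IntermediateField.adjoin κ {u}) c)
  have hκ₂ : ∀ c : κ, algebraMap κ Ω c ∈ K₂ := fun c =>
    K₂.algebraMap_mem (algebraMap κ (IntermediateField.adjoin κ {u ^ ℓ}) c)
  have hu₁ : u ∈ K₁ := K₁.algebraMap_mem (⟨u, huR₁⟩ : IntermediateField.adjoin κ {u})
  have hw₁ : w ∈ K₁ := by
    have h1 : -w ∈ K₁ := by rw [hK₁]; exact IntermediateField.mem_adjoin_simple_self _ _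
    have h2 := neg_mem h1
    rwa [neg_neg] at h2
  have hu₂ : u ^ ℓ ∈ K₂ := K₂.algebraMap_mem (⟨u ^ ℓ, huR₂⟩ : IntermediateField.adjoin κ {u ^ ℓ})
  have hle : ∀ z ∈ K₂, z ∈ K₁ := by
    intro z hz
    obtain ⟨r, rfl⟩ := hmem₂ z hz
    exact K₁.algebraMap_mem (IntermediateField.inclusion hR r)
  rw [← hK₁] at hz
  have hRW : ∀ W : ValuationSubring Ω, W ≠ ⊤ →
      ∃ z : IntermediateField.adjoin κ {u}, algebraMap _ Ω z ∉ W := by
    intro W hW
    by_contra hc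
    push Not at hc
    exact hW (top_of_R W hc)
  have hcard : (nthRootsFinset ℓ (1 : κ)).card = ℓ := by
    obtain ⟨ζ, hζ⟩ := HasEnoughRootsOfUnity.exists_primitiveRoot κ ℓ
    exact hζ.card_nthRootsFinset
  have hU₁ : ∀ W : ValuationSubring Ω, (∀ c : κ, algebraMap κ Ω c ∈ W) → W ≠ ⊤ →
      ∃ π₁, Unf K₁ W π₁ ∧ (π₁ = -w ∨ (∃ a₀ : κ, a₀ ∉ nthRootsFinset ℓ (1 : κ) ∧
        π₁ = u - algebraMap κ Ω a₀) ∨ π₁ = u⁻¹) := by
    intro W hκ hW
    obtain ⟨π₁, h1, h2, h3, h4⟩ := Pool.Agent.Y809.PS.k0 ℓ κ (IntermediateField.adjoin κ {u}) Ω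
      ⟨u, huR₁⟩ hrat₁ (nthRootsFinset ℓ (1 : κ)) (by rw [hcard]) (by
        rw [← Finset.card_pos, hcard]; exact hp.out.pos) (-w) hY₁' W hκ (hRW W hW)
    refine ⟨π₁, ⟨?_, h2, (ValuationSubring.mem_nonunits_iff _).1 h1, ?_⟩, ?_⟩
    · rcases h3 with ⟨e, he, rfl, _⟩ | ⟨a, ha, rfl⟩ | rfl
      · exact neg_mem hw₁
      · exact sub_mem hu₁ (hκ₁ _)
      · exact inv_mem hu₁
    · intro z hz hz0
      rw [hK₁] at hz
      obtain ⟨n, hn⟩ := h4 z hz hz0
      refine ⟨n, ?_⟩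
      have h5 := (isU_iff W).1 hn
      rw [map_div₀, map_zpow₀] at h5
      rwa [div_eq_one_iff_eq] at h5
      exact zpow_ne_zero _ ((Valuation.pos_iff _).2 h2).ne'
    · rcases h3 with ⟨e, he, h5, _⟩ | h5 | h5
      · exact Or.inl h5
      · exact Or.inr (Or.inl h5)
      · exact Or.inr (Or.inr h5)
  -- uniformisers of `κ(x)` at the places with `x ≠ 0, 1, ∞`
  have hUU : ∀ W : ValuationSubring Ω, (∀ c : κ, algebraMap κ Ω c ∈ W) → W ≠ ⊤ →
      W.valuation (u ^ ℓ) = 1 → W.valuation (1 - u ^ ℓ) = 1 →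
      ∃ π₁ π, Unf K₁ W π₁ ∧ Unf K₂ W π ∧ W.valuation π = W.valuation π₁ := by
    intro W hκ hW hv1 hv2
    obtain ⟨π₁, hπ₁, hcase⟩ := hU₁ W hκ hW
    have hu1 : W.valuation u = 1 := by
      rw [map_pow] at hv1
      exact (pow_eq_one_iff_of_nonneg zero_le hℓ0).1 hv1
    have hw1 : W.valuation w = 1 := by
      rw [← hw, map_pow] at hv2
      exact (pow_eq_one_iff_of_nonneg zero_le hℓ0).1 hv2
    have hlt := hπ₁.lt
    obtain ⟨π, hπT, hπv⟩ : ∃ π ∈ K₂, W.valuation π = W.valuation π₁ := by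
      rcases hcase with rfl | ⟨a₀, ha₀, rfl⟩ | rfl
      · rw [Valuation.map_neg, hw1] at hlt
        exact absurd hlt (lt_irrefl _)
      · by_cases ha0 : a₀ = 0
        · rw [ha0, map_zero, sub_zero, hu1] at hlt
          exact absurd hlt (lt_irrefl _)
        · have hA : W.valuation (algebraMap κ Ω a₀) = 1 := Pool.Agent.Y809.PS.val_const hκ ha0
          have hA0 : algebraMap κ Ω a₀ ≠ 0 := by
            intro h0
            rw [h0, map_zero] at hA
            exact zero_ne_one hA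
          refine ⟨u ^ ℓ - algebraMap κ Ω (a₀ ^ ℓ), sub_mem hu₂ (hκ₂ _), ?_⟩
          have h1 := prod_mu ℓ (κ := κ) (u / algebraMap κ Ω a₀)
          have h2 : u ^ ℓ - algebraMap κ Ω (a₀ ^ ℓ) = algebraMap κ Ω a₀ ^ ℓ *
              ∏ e ∈ nthRootsFinset ℓ (1 : κ), (u / algebraMap κ Ω a₀ - algebraMap κ Ω e) := by
            rw [h1, map_pow, div_pow, mul_sub, mul_one, mul_div_cancel₀ _ (pow_ne_zero _ hA0)]
          have h3 : u / algebraMap κ Ω a₀ - 1 =
              (u - algebraMap κ Ω a₀) / algebraMap κ Ω a₀ := by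
            rw [sub_div, div_self hA0]
          have h4 : W.valuation (u / algebraMap κ Ω a₀ - 1) =
              W.valuation (u - algebraMap κ Ω a₀) := by
            rw [h3, map_div₀, hA, div_one]
          have h5 : (1 : κ) ∈ nthRootsFinset ℓ (1 : κ) := by
            rw [mem_nthRootsFinset hp.out.pos, one_pow]
          classical
          rw [h2, ← Finset.mul_prod_erase _ _ h5, map_one, map_mul, map_pow, hA, one_pow, one_mul,
            map_mul, h4, map_prod, Finset.prod_eq_one, mul_one]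
          intro e he
          have h6 : (1 : κ) - e ≠ 0 := sub_ne_zero.2 (Finset.ne_of_mem_erase he).symm
          have h7 : u / algebraMap κ Ω a₀ - algebraMap κ Ω e =
              algebraMap κ Ω (1 - e) + (u / algebraMap κ Ω a₀ - 1) := by
            rw [map_sub, map_one]; ring
          rw [h7, Valuation.map_add_eq_of_lt_left, Pool.Agent.Y809.PS.val_const hκ h6]
          rw [Pool.Agent.Y809.PS.val_const hκ h6, h4]
          exact hlt
      · rw [map_inv₀, hu1, inv_one] at hlt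
        exact absurd hlt (lt_irrefl _)
    refine ⟨π₁, π, hπ₁, ⟨hπT, ?_, by rw [hπv]; exact hπ₁.lt, fun z hz hz0 => ?_⟩, hπv⟩
    · rw [← W.valuation.ne_zero_iff, hπv]
      exact hπ₁.pos.ne'
    · rw [hπv]
      exact hπ₁.val z (hle z hz) hz0
  have hHU₁ : HU κ K₁ := fun W hκ hW => by
    obtain ⟨π₁, h1, h2⟩ := hU₁ W hκ hW
    exact ⟨π₁, h1⟩
  -- approximation of the elements of `K₁`
  have hApx : ∀ W : ValuationSubring Ω, (∀ c : κ, algebraMap κ Ω c ∈ W) → W ≠ ⊤ →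
      W.valuation (u ^ ℓ) = 1 → W.valuation (1 - u ^ ℓ) = 1 →
      ∀ z ∈ K₁, Apx K₂ W z := by
    intro W hκ hW hv1 hv2 z hz
    obtain ⟨π₁, π, h1, h2, h3⟩ := hUU W hκ hW hv1 hv2
    have hroot : ∀ t ∈ K₁, t ≠ 0 → t ^ ℓ ∈ K₂ → Apx K₂ W t := by
      intro t ht ht0 htℓ
      obtain ⟨n, hn⟩ := h1.val t ht ht0
      refine Apx.root h2 (hres hrat₂ K₂ W hκ hW) hℓ0 (vl hℓ0 W hκ) t (Apx.of_mem htℓ) n ?_
      rw [map_pow, hn, h3, ← zpow_natCast, ← zpow_mul, mul_comm]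
    have hu0 : u ≠ 0 := by
      rintro rfl
      exact hu isAlgebraic_zero
    have hw0 : w ≠ 0 := by
      rintro rfl
      rw [zero_pow hℓ0, add_zero] at huw
      rw [huw] at hut
      exact hut isAlgebraic_one
    have hAu : Apx K₂ W u := hroot u hu₁ hu0 hu₂
    have hAw : Apx K₂ W w := hroot w hw₁ hw0 (by rw [hw]; exact sub_mem (one_mem _) hu₂)
    let T : Subfield Ω :=
      { (ApxS K₂ W).toSubring with
        inv_mem' := fun x hx => Apx.inv hx }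
    have hT : ∀ t, t ∈ T ↔ Apx K₂ W t := fun t => Iff.rfl
    have hTκ : ∀ c : κ, algebraMap κ Ω c ∈ T := fun c => (hT _).2 (Apx.of_mem (hκ₂ c))
    rw [hK₁] at hz
    rw [← hT]
    refine adjoin_le_sub (T := T) (fun r => ?_) (fun t ht => ?_) z hz
    · refine adjoin_le_sub (T := T) hTκ (fun t ht => ?_) (r : Ω) r.2
      rw [Set.mem_singleton_iff] at ht
      rw [ht]
      exact (hT _).2 hAu
    · rw [Set.mem_singleton_iff] at ht
      rw [ht]
      exact neg_mem ((hT _).2 hAw)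
  -- the field of all elements with these properties
  have hμ : ∀ ζ : Ω, ζ ^ ℓ = 1 →
      ∃ c : IntermediateField.adjoin κ {u ^ ℓ}, algebraMap _ Ω c = ζ := fun ζ =>
    muR (κ := κ) hℓ0 ζ
  have hMem₁ : Mem ℓ κ K₁ z := by
    rw [hK₁] at hHU₁ hz ⊢
    exact maxPro_le hrat₁ hY₁ hHU₁ hz
  let S : IntermediateField (IntermediateField.adjoin κ {u ^ ℓ}) Ω :=
    { carrier := {y | Pro ℓ (IntermediateField.adjoin κ {u ^ ℓ}) y ∧
        ∀ W : ValuationSubring Ω, (∀ c : κ, algebraMap κ Ω c ∈ W) → W ≠ ⊤ →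
          W.valuation (u ^ ℓ) = 1 → W.valuation (1 - u ^ ℓ) = 1 → Apx K₂ W y}
      mul_mem' := fun {a b} ha hb => ⟨ha.1.mul hb.1, fun W h1 h2 h3 h4 =>
        (ha.2 W h1 h2 h3 h4).mul (hb.2 W h1 h2 h3 h4)⟩
      add_mem' := fun {a b} ha hb => ⟨ha.1.add hb.1, fun W h1 h2 h3 h4 =>
        (ha.2 W h1 h2 h3 h4).add (hb.2 W h1 h2 h3 h4)⟩
      algebraMap_mem' := fun r => ⟨Pro.base ℓ r, fun W h1 h2 h3 h4 =>
        Apx.of_mem (algebraMap_mem _ _)⟩
      inv_mem' := fun a ha => ⟨ha.1.inv, fun W h1 h2 h3 h4 => (ha.2 W h1 h2 h3 h4).inv⟩ }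
  have hS : ∀ y, y ∈ S ↔ Pro ℓ (IntermediateField.adjoin κ {u ^ ℓ}) y ∧
        ∀ W : ValuationSubring Ω, (∀ c : κ, algebraMap κ Ω c ∈ W) → W ≠ ⊤ →
          W.valuation (u ^ ℓ) = 1 → W.valuation (1 - u ^ ℓ) = 1 → Apx K₂ W y := fun y => Iff.rfl
  have hzS : z ∈ S := by
    rw [hS]
    refine ⟨?_, fun W hκ hW h1 h2 => ?_⟩
    · refine pro_down hμ (u := u) ⟨⟨u ^ ℓ, huR₂⟩, rfl⟩ (fun σ hσ r => ?_) hMem₁.1
      have h1 : (r : Ω) ∈ (RingHom.eqLocusField (σ : Ω →+* Ω) (RingHom.id Ω)) := by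
        refine adjoin_le_sub (fun c => ?_) (fun t ht => ?_) (r : Ω) r.2
        · exact σ.commutes (algebraMap κ (IntermediateField.adjoin κ {u ^ ℓ}) c)
        · rw [Set.mem_singleton_iff] at ht
          rw [ht]
          exact hσ
      exact h1
    · obtain ⟨π₁, π, h3, h4, h5⟩ := hUU W hκ hW h1 h2
      exact (apx_trans hle h4 (hApx W hκ hW h1 h2) z).1 (hMem₁.2 W hκ hW)
  have hSstab : ∀ σ : Ω ≃ₐ[IntermediateField.adjoin κ {u ^ ℓ}] Ω, ∀ y ∈ S, σ y ∈ S := by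
    intro γ y hy
    rw [hS] at hy ⊢
    have hγu : γ (u ^ ℓ) = u ^ ℓ := γ.commutes ⟨u ^ ℓ, huR₂⟩
    have hcom : ∀ (W : ValuationSubring Ω) (t : Ω), γ t = t → W.valuation t = 1 →
        (W.comap (γ : Ω →+* Ω)).valuation t = 1 := by
      intro W t ht h1
      rw [← isU_iff] at h1 ⊢
      refine ⟨h1.1, ?_, ?_⟩
      · rw [ValuationSubring.mem_comap]
        change γ t ∈ W
        rw [ht]
        exact h1.2.1
      · rw [ValuationSubring.mem_comap]
        change γ t⁻¹ ∈ W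
        rw [map_inv₀, ht]
        exact h1.2.2
    refine ⟨hy.1.conj γ, fun W hκ hW h1 h2 => Apx.conj (fun γ t ht => ?_) γ (hy.2 _ ?_ ?_ ?_ ?_)⟩
    · obtain ⟨r, rfl⟩ := hmem₂ t ht
      have h3 : γ (r : Ω) = (r : Ω) := γ.commutes r
      rw [h3]
      exact ht
    · intro c
      rw [ValuationSubring.mem_comap]
      have h3 : (γ : Ω →+* Ω) (algebraMap κ Ω c) = algebraMap κ Ω c :=
        γ.commutes (algebraMap κ (IntermediateField.adjoin κ {u ^ ℓ}) c)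
      rw [h3]
      exact hκ c
    · intro h
      apply hW
      ext y
      simp only [ValuationSubring.mem_top, iff_true]
      have h3 : γ.symm y ∈ W.comap (γ : Ω →+* Ω) := by rw [h]; trivial
      rw [ValuationSubring.mem_comap] at h3
      simpa using h3
    · exact hcom W _ hγu h1
    · exact hcom W _ (by rw [map_sub, map_one, hγu]) h2
  obtain ⟨L, hzL, hLS, hL⟩ := exists_lev (ℓ := ℓ) S hSstab (fun θ hθ σ => by
    obtain ⟨k, hk⟩ := ((hS θ).1 hθ).1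
    exact ⟨k, hk σ 1⟩) hzS
  refine ⟨L, hzL, hL, fun W hκ hW1 hW2 y hy hy0 => ?_⟩
  by_cases hW : W = ⊤
  · refine ⟨1, one_ne_zero, ?_, ?_, ?_⟩
    · change y / (1 : Ω) ≠ 0
      rw [div_one]; exact hy0
    · rw [hW]; trivial
    · rw [hW]; trivial
  · rw [isU_iff] at hW1 hW2
    obtain ⟨π₁, π, h3, h4, h5⟩ := hUU W hκ hW hW1 hW2
    obtain ⟨t, ht, ht0, h1⟩ := (((hS y).1 (hLS hy)).2 W hκ hW hW1 hW2).val h4 hy0
    obtain ⟨r, rfl⟩ := hmem₂ t ht
    refine ⟨r, fun h => ht0 (by rw [h]; rfl), ?_⟩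
    rw [isU_iff, map_div₀, h1, div_self]
    exact ((Valuation.pos_iff _).2 ht0).ne'

end Pool.Agent.Y158.FQ
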