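import Pool.Agent.Y158.FQ.Trip2
import Pool.Agent.Y158.FQ.Trip3

/-!
# Sections for the line minus three points over `ℤ[1/ℓ]`, final form
-/

set_option autoImplicit false
set_option linter.all false

open Polynomial FF Pool.Agent.Y157.PS Pool.Agent.TH954 IsDedekindDomain NumberField

namespace Pool.Agent.Y158.FQ

open Pool.Agent.Y158.KL (lam Kl KLem)
open Pool.Agent.Y948.PS (isU_iff)

section

variable {k F Ω : Type} [Field k] [CharZero k] [Field F] [Field Ω] [Algebra k F] [Algebra F Ω]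
  [Algebra k Ω] [IsScalarTower k F Ω] [IsAlgClosed Ω] [Algebra.IsAlgebraic F Ω]

/-- the extension of the Fermat curve is contained in the one of the line minus three points -/
theorem geomPro_tripod {ℓ : ℕ} [hp : Fact ℓ.Prime] (hodd : Odd ℓ) (x : F)
    (hx : Transcendental k x)
    (hF : Algebra.IsAlgebraic (IntermediateField.adjoin k {x}) F)
    (u w : Ω) (hu : u ^ ℓ = algebraMap F Ω x)
    (hw : w ^ ℓ = algebraMap F Ω (1 - x)) (z : Ω)
    (hz : z ∈ geomPro ℓ k (IntermediateField.adjoin k {u, w}) Ω) :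
    ∃ L : IntermediateField (IntermediateField.adjoin (algebraicClosure k Ω)
        {algebraMap F Ω x}) Ω, z ∈ L ∧ Lev ℓ L ∧
      ∀ W : ValuationSubring Ω, (∀ c : k, algebraMap k Ω c ∈ W) → IsU W (algebraMap F Ω x) →
        IsU W (1 - algebraMap F Ω x) → ∀ y ∈ L, y ≠ 0 →
          ∃ t ∈ IntermediateField.adjoin (algebraicClosure k Ω) {algebraMap F Ω x},
            t ≠ 0 ∧ IsU W (y / t) := by
  haveI : IsAlgClosure k (algebraicClosure k Ω) := inferInstance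
  haveI : IsAlgClosed (algebraicClosure k Ω) := IsAlgClosure.isAlgClosed k
  haveI : CharZero (algebraicClosure k Ω) :=
    charZero_of_injective_algebraMap (algebraMap k (algebraicClosure k Ω)).injective
  have hxΩ : Transcendental k (algebraMap F Ω x) :=
    (transcendental_algebraMap_iff (R := k) (algebraMap F Ω).injective (a := x)).2 hx
  have hut : Transcendental k u := by
    intro h
    exact hxΩ (by rw [← hu]; exact h.pow ℓ)
  have hut' : Transcendental (algebraicClosure k Ω) u := trans_up hut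
  have h1 : u ^ ℓ + w ^ ℓ = 1 := by rw [hu, hw, map_sub, map_one]; ring
  have halg : Algebra.IsAlgebraic
      (IntermediateField.adjoin (algebraicClosure k Ω) {u ^ ℓ}) Ω := by
    let R : IntermediateField k Ω := (IntermediateField.adjoin (algebraicClosure k Ω)
      {u ^ ℓ}).restrictScalars k
    have h2 : Algebra.IsAlgebraic R Ω := alg_over hF R (by
      rw [← hu]
      exact IntermediateField.mem_adjoin_simple_self (algebraicClosure k Ω) (u ^ ℓ))
    exact h2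
  obtain ⟨E₁, hE₁⟩ : ∃ E₁ : IntermediateField k Ω, E₁ = IntermediateField.adjoin k {u, w} :=
    ⟨_, rfl⟩
  have hu₁ : u ∈ E₁ := by rw [hE₁]; exact IntermediateField.subset_adjoin k _ (by simp)
  have hw₁ : w ∈ E₁ := by rw [hE₁]; exact IntermediateField.subset_adjoin k _ (by simp)
  have h3 := maxPro_geom (Ω := Ω) ℓ k (adjoin_pair_top hE₁ hu₁ hw₁)
    (-1 : algebraicClosure k Ω) (neg_ne_zero.2 one_ne_zero) z
  have h4 : ((-1 : algebraicClosure k Ω) : Ω) * algebraMap E₁ Ω ⟨w, hw₁⟩ = -w := by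
    have h5 : ((-1 : algebraicClosure k Ω) : Ω) = -1 := by push_cast; rfl
    rw [h5]
    change -1 * w = -w
    ring
  rw [h4] at h3
  rw [← hE₁, ← h3] at hz
  obtain ⟨L, h5, h6, h7⟩ := tripod_core (κ := algebraicClosure k Ω) hodd h1 hut' halg z hz
  rw [← hu]
  refine ⟨L, h5, h6, fun W hW h8 h9 y hy hy0 => ?_⟩
  obtain ⟨t, ht0, ht⟩ := h7 W (fun c => Pool.Agent.Y529.PS.IN.int_mem W hW c.2) h8 h9 y hy hy0
  exact ⟨t, t.2, fun h => ht0 (Subtype.ext h), ht⟩

end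

section

variable {K : Type} [Field K] [NumberField K] {ℓ : ℕ}
  [hp : Fact ℓ.Prime] [hK : IsCyclotomicExtension {ℓ} ℚ K] {ζ : K} (hζ : IsPrimitiveRoot ζ ℓ)
  {F Ω B : Type} [Field F] [Field Ω] [Field B] [Algebra ℚ F] [Algebra F Ω]
  [Algebra ℚ Ω] [Algebra ℚ B] [IsScalarTower ℚ F Ω] [IsAlgClosed Ω] [Algebra.IsAlgebraic F Ω]
  [IsAlgClosure ℚ B]
  {C : Type} [Field C] [Algebra (Kl hζ) C] [Algebra ℚ C] [IsAlgClosure (Kl hζ) C]

include hK hζ in
theorem tripFin (hodd : Odd ℓ) (hcop : (classNumber K).Coprime ℓ)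
    (hKL : KLem ℓ K) (x : F) (hx : Transcendental ℚ x)
    (hF : Algebra.IsAlgebraic (IntermediateField.adjoin ℚ {x}) F)
    (N : IntermediateField F Ω)
    (hN : ∀ z : Ω, (∃ L : IntermediateField (IntermediateField.adjoin (algebraicClosure ℚ Ω)
        {algebraMap F Ω x}) Ω, z ∈ L ∧ Lev ℓ L ∧
      ∀ W : ValuationSubring Ω, (∀ c : ℚ, algebraMap ℚ Ω c ∈ W) → IsU W (algebraMap F Ω x) →
        IsU W (1 - algebraMap F Ω x) → ∀ y ∈ L, y ≠ 0 →
          ∃ t ∈ IntermediateField.adjoin (algebraicClosure ℚ Ω) {algebraMap F Ω x},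
            t ≠ 0 ∧ IsU W (y / t)) → z ∈ N)
    (s : GalSection ℚ F N B) (p : Plc ℚ N C) (hpv : s.GivenBy (Kl hζ) p)
    (h : ∀ n : ℕ, ∃ (ε : ℤˣ) (i : ℤ) (z : N), (∀ g, s.s g z = z) ∧
      algebraMap F N x = algebraMap ℚ N (((ε : ℤ) : ℚ) * (ℓ : ℚ) ^ i) * z ^ (ℓ ^ n))
    (h' : ∀ n : ℕ, ∃ (ε : ℤˣ) (i : ℤ) (z : N), (∀ g, s.s g z = z) ∧
      algebraMap F N (1 - x) = algebraMap ℚ N (((ε : ℤ) : ℚ) * (ℓ : ℚ) ^ i) * z ^ (ℓ ^ n)) :
    p.val (algebraMap F N x) 0 ∨ p.val (algebraMap F N x) 1 ∨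
      p.val (algebraMap F N x)⁻¹ 0 := by
  obtain ⟨u, hu⟩ := IsAlgClosed.exists_pow_nat_eq (algebraMap F Ω x) hp.out.pos
  obtain ⟨w, hw⟩ := IsAlgClosed.exists_pow_nat_eq (algebraMap F Ω (1 - x)) hp.out.pos
  have hsign : ∀ y : F, (∀ n : ℕ, ∃ (ε : ℤˣ) (i : ℤ) (z : N), (∀ g, s.s g z = z) ∧
      algebraMap F N y = algebraMap ℚ N (((ε : ℤ) : ℚ) * (ℓ : ℚ) ^ i) * z ^ (ℓ ^ n)) →
      ∀ n : ℕ, ∃ (i : ℤ) (z : N), (∀ g, s.s g z = z) ∧
      algebraMap F N y = algebraMap ℚ N ((ℓ : ℚ) ^ i) * z ^ (ℓ ^ n) := by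
    intro y hy n
    obtain ⟨ε, i, z, hz, hyz⟩ := hy n
    have hfixQ : ∀ (q : ℚ) g, s.s g (algebraMap ℚ N q) = algebraMap ℚ N q := by
      intro q g
      rw [IsScalarTower.algebraMap_apply ℚ F N]
      exact (s.s g).commutes _
    refine ⟨i, algebraMap ℚ N ((ε : ℤ) : ℚ) * z, fun g => by rw [map_mul, hfixQ, hz], ?_⟩
    have h1 : (((ε : ℤ) : ℚ)) ^ (ℓ ^ n) = ((ε : ℤ) : ℚ) := by
      rcases Int.units_eq_one_or ε with rfl | rfl
      · simp
      · have h2 : Odd (ℓ ^ n) := hodd.pow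
        push_cast
        rw [h2.neg_one_pow]
    rw [hyz, mul_pow, ← map_pow, h1, map_mul]
    ring
  exact trip hζ hodd hcop hKL x hx hF u w hu hw N (fun z hz => hN z
    (geomPro_tripod (k := ℚ) hodd x hx hF u w hu hw z hz)) s p hpv (hsign x h) (hsign (1 - x) h')

end

end Pool.Agent.Y158.FQ
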