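import Pool.Agent.Y158.FQ.Fin2
import Pool.Agent.Y158.FQ.Trip4

/-!
# The extension of the Fermat quotient is contained in the one of the line minus three points
-/

set_option autoImplicit false
set_option linter.all false

open Polynomial FF Pool.Agent.Y157.PS Pool.Agent.TH954 IsDedekindDomain NumberField

namespace Pool.Agent.Y158.FQ

attribute [-instance] DivisionRing.toRatAlgebra SubfieldClass.instSMulRat
attribute [local instance 1] DivisionRing.toRatAlgebra

open Pool.Agent.Y948.PS (isU_iff)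

/-- the extension of the Fermat quotient is contained in the one of the line minus three points -/
theorem proEll_trip {F Ω : Type} [Field F] [Field Ω] [Algebra ℚ F] [Algebra F Ω]
    [Algebra ℚ Ω] [IsScalarTower ℚ F Ω] [IsAlgClosed Ω] [Algebra.IsAlgebraic F Ω] {ℓ : ℕ}
    [hp : Fact ℓ.Prime] (hℓ : Odd ℓ) {a b : ℕ} (ha : ¬ ℓ ∣ a) (hb : ¬ ℓ ∣ b) (hab : ¬ ℓ ∣ a + b)
    (x : F) (y : Ω) (hx : Transcendental ℚ x)
    (hF : Algebra.IsAlgebraic (IntermediateField.adjoin ℚ {x}) F)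
    (hxy : y ^ ℓ = algebraMap F Ω (x ^ a * (1 - x) ^ b)) (z : Ω)
    (hz : z ∈ geomPro ℓ ℚ (IntermediateField.adjoin ℚ {algebraMap F Ω x, y}) Ω) :
    ∃ L : IntermediateField (IntermediateField.adjoin (algebraicClosure ℚ Ω)
        {algebraMap F Ω x}) Ω, z ∈ L ∧ Lev ℓ L ∧
      ∀ W : ValuationSubring Ω, (∀ c : ℚ, algebraMap ℚ Ω c ∈ W) → IsU W (algebraMap F Ω x) →
        IsU W (1 - algebraMap F Ω x) → ∀ y ∈ L, y ≠ 0 →
          ∃ t ∈ IntermediateField.adjoin (algebraicClosure ℚ Ω) {algebraMap F Ω x},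
            t ≠ 0 ∧ IsU W (y / t) := by
  have hx0 : x ≠ 0 := by
    rintro rfl
    exact hx isAlgebraic_zero
  have hx1 : 1 - x ≠ 0 := by
    intro h
    have h1 : x = 1 := by linear_combination -h
    rw [h1] at hx
    exact hx isAlgebraic_one
  have hxΩ : Transcendental ℚ (algebraMap F Ω x) :=
    (transcendental_algebraMap_iff (R := ℚ) (algebraMap F Ω).injective (a := x)).2 hx
  have hy0 : y ≠ 0 := by
    rintro rfl
    rw [zero_pow hp.out.ne_zero] at hxy
    exact mul_ne_zero (pow_ne_zero _ hx0) (pow_ne_zero _ hx1)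
      ((map_eq_zero (algebraMap F Ω)).1 hxy.symm)
  have hxy' : y ^ ℓ = algebraMap F Ω x ^ a * (1 - algebraMap F Ω x) ^ b := by
    rw [hxy, map_mul, map_pow, map_pow, map_sub, map_one]
  obtain ⟨u, w, hu, hw, huw⟩ := exists_uw (F := Ω) (Ω := Ω) (b := b) ha hy0 hxy'
  have hΩ : Algebra.IsAlgebraic (IntermediateField.adjoin ℚ {algebraMap F Ω x}) Ω :=
    alg_over hF _ (IntermediateField.mem_adjoin_simple_self ℚ _)
  have hgp := geomPro_quot (k := ℚ) hℓ ha hb hab (algebraMap F Ω x) y hxΩ hΩ u w hu hw huw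
  refine geomPro_tripod (k := ℚ) hℓ x hx hF u w hu ?_ z ((hgp z).2 hz)
  rw [hw]
  change (1 : Ω) - algebraMap F Ω x = _
  rw [map_sub, map_one]

end Pool.Agent.Y158.FQ
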