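import Pool.Agent.Y158.FQ.Nf
import Pool.Agent.Y158.FQ.Emb

/-!
# Rotations of the Fermat curve which do not lift to elements of order `ℓ`
-/

set_option autoImplicit false
set_option linter.all false

open Polynomial FF

namespace Pool.Agent.Y158.FQ

open Pool.Agent.Y157.PS Pool.Agent.Y31.PS

section ord

variable {κ N : Type} [Field κ] [IsAlgClosed κ] [Field N] [Algebra κ N]

/-- an eigenfunction has no order zero at a fixed place -/
theorem fix_ord {t : N} (ht : Algebra.IsAlgebraic (IntermediateField.adjoin κ {t}) N)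
    (w : Place κ N) (g : N ≃+* N) (hgκ : ∀ c, g (algebraMap κ N c) = algebraMap κ N c)
    (hfix : ∀ z, w.ord (g z) = w.ord z) {z : N} (hz : z ≠ 0) {η : κ} (hη0 : η ≠ 0) (hη : η ≠ 1)
    (hgz : g z = algebraMap κ N η * z) : w.ord z ≠ 0 := by
  intro h0
  obtain ⟨c, hc⟩ := Pool.Agent.Y536.PS.res_const κ N t ht w z h0.ge
  have hηN : algebraMap κ N η ≠ 0 := (_root_.map_ne_zero _).2 hη0
  rcases hc with hc | hc
  · rw [hc, hgκ] at hgz
    have h1 : algebraMap κ N 1 * algebraMap κ N c = algebraMap κ N η * algebraMap κ N c := by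
      rw [map_one, one_mul]; exact hgz
    have h2 := mul_right_cancel₀ (by rw [← hc]; exact hz) h1
    exact hη ((algebraMap κ N).injective h2).symm
  · by_cases hc0 : c = 0
    · rw [hc0, map_zero, sub_zero, h0] at hc
      exact lt_irrefl _ hc
    have h1 : w.ord (algebraMap κ N η * z - algebraMap κ N c) > 0 := by
      rw [← hgz, ← hgκ c, ← map_sub, hfix]
      exact hc
    have h2 : w.ord (algebraMap κ N η * (z - algebraMap κ N c)) > 0 := by
      have hne : z - algebraMap κ N c ≠ 0 := by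
        intro h; rw [h, w.ord_zero] at hc; exact lt_irrefl _ hc
      rw [w.ord_mul hηN hne, w.ord_const hη0, zero_add]
      exact hc
    have h3 : (algebraMap κ N η * z - algebraMap κ N c) -
        algebraMap κ N η * (z - algebraMap κ N c) = algebraMap κ N ((η - 1) * c) := by
      rw [map_mul, map_sub, map_one]
      ring
    have h4 : (η - 1) * c ≠ 0 := mul_ne_zero (sub_ne_zero.2 hη) hc0
    have h5 := w.ord_const h4
    have h6 : (algebraMap κ N η * z - algebraMap κ N c) ≠ 0 := by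
      intro h; rw [h, w.ord_zero] at h1; exact lt_irrefl _ h1
    have h7 : algebraMap κ N η * (z - algebraMap κ N c) ≠ 0 := by
      intro h; rw [h, w.ord_zero] at h2; exact lt_irrefl _ h2
    have h8 := w.ord_sub h6 h7 (by rw [h3]; exact (_root_.map_ne_zero _).2 h4)
    rw [h3, h5] at h8
    rcases min_le_iff.1 h8 with h9 | h9 <;> omega

/-- orders of functions with `Y ^ ℓ = X ^ ℓ - 1` -/
theorem ord_fer {ℓ : ℕ} (hℓ : 0 < ℓ) (w : Place κ N) {X Y : N} (hX : X ≠ 0) (hY : Y ≠ 0)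
    (hXY : Y ^ ℓ = X ^ ℓ - 1) : w.ord X = 0 ∨ w.ord Y = 0 ∨ w.ord X = w.ord Y := by
  by_contra hcon
  push Not at hcon
  obtain ⟨h1, h2, h3⟩ := hcon
  have hℓ' : (0 : ℤ) < ℓ := by exact_mod_cast hℓ
  have hXℓ := pow_ne_zero ℓ hX
  have hYℓ := pow_ne_zero ℓ hY
  have oX := w.ord_pow X ℓ
  have oY := w.ord_pow Y ℓ
  have o1 := w.ord_one
  have e1 : X ^ ℓ - Y ^ ℓ = 1 := by rw [hXY]; ring
  have e2 : Y ^ ℓ - X ^ ℓ = -1 := by rw [hXY]; ring
  have e3 : 1 + Y ^ ℓ = X ^ ℓ := by rw [hXY]; ring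
  have e4 : X ^ ℓ - 1 = Y ^ ℓ := hXY.symm
  have k1 := w.ord_sub hXℓ hYℓ (by rw [e1]; exact one_ne_zero)
  rw [e1, oX, oY, o1] at k1
  have k2 := w.ord_add one_ne_zero hYℓ (by rw [e3]; exact hXℓ)
  rw [e3, oX, oY, o1] at k2
  have k3 := w.ord_sub hXℓ one_ne_zero (by rw [e4]; exact hYℓ)
  rw [e4, oX, oY, o1] at k3
  -- signs
  have m1 : (ℓ : ℤ) * w.ord X ≤ 0 ∨ (ℓ : ℤ) * w.ord Y ≤ 0 := min_le_iff.1 k1
  have m2 : (0 : ℤ) ≤ (ℓ : ℤ) * w.ord X ∨ (ℓ : ℤ) * w.ord Y ≤ (ℓ : ℤ) * w.ord X := min_le_iff.1 k2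
  have m3 : (ℓ : ℤ) * w.ord X ≤ (ℓ : ℤ) * w.ord Y ∨ (0 : ℤ) ≤ (ℓ : ℤ) * w.ord Y := min_le_iff.1 k3
  have s1 : (ℓ : ℤ) * w.ord X ≤ 0 ↔ w.ord X ≤ 0 := by
    constructor
    · intro h; by_contra h'; push Not at h'; nlinarith
    · intro h; nlinarith
  have s2 : (ℓ : ℤ) * w.ord Y ≤ 0 ↔ w.ord Y ≤ 0 := by
    constructor
    · intro h; by_contra h'; push Not at h'; nlinarith
    · intro h; nlinarith
  have s3 : (0 : ℤ) ≤ (ℓ : ℤ) * w.ord X ↔ 0 ≤ w.ord X := by
    constructor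
    · intro h; by_contra h'; push Not at h'; nlinarith
    · intro h; nlinarith
  have s4 : (0 : ℤ) ≤ (ℓ : ℤ) * w.ord Y ↔ 0 ≤ w.ord Y := by
    constructor
    · intro h; by_contra h'; push Not at h'; nlinarith
    · intro h; nlinarith
  have s5 : (ℓ : ℤ) * w.ord X ≤ (ℓ : ℤ) * w.ord Y ↔ w.ord X ≤ w.ord Y :=
    mul_le_mul_iff_right₀ hℓ'
  have s6 : (ℓ : ℤ) * w.ord Y ≤ (ℓ : ℤ) * w.ord X ↔ w.ord Y ≤ w.ord X :=
    mul_le_mul_iff_right₀ hℓ'
  rw [s1, s2] at m1
  rw [s3, s6] at m2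
  rw [s5, s4] at m3
  omega

end ord

section level

variable {ℓ : ℕ} [hℓ : Fact ℓ.Prime] {κ R M : Type} [Field κ] [IsAlgClosed κ] [CharZero κ]
  [Field R] [Field M] [Algebra κ R] [Algebra R M] [Algebra κ M] [IsScalarTower κ R M] {x : R}
  {Y : M}

theorem pow_mul_of {γ : RingAut M} (hγκ : ∀ c : κ, γ (algebraMap κ M c) = algebraMap κ M c)
    {ξ : κ} {z : M} (h : γ z = algebraMap κ M ξ * z) (n : ℕ) :
    (γ ^ n) z = algebraMap κ M (ξ ^ n) * z := by
  induction n with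
  | zero => rw [pow_zero, pow_zero, map_one, one_mul]; rfl
  | succ n ih =>
    have e1 : (γ ^ (n + 1)) z = γ ((γ ^ n) z) := by rw [pow_succ']; rfl
    rw [e1, ih, map_mul, hγκ, h, pow_succ, map_mul]
    ring

/-- the field `κ(X, Y)` is Galois of degree a power of `ℓ` over `κ(X ^ ℓ)` -/
theorem kummer_level {N : Type} [Field N] [Algebra κ N] {X Y : N} (hX0 : X ≠ 0) (hY0 : Y ≠ 0)
    (hgen : ∀ T : IntermediateField κ N, X ∈ T → Y ∈ T → T = ⊤)
    (hXY : Y ^ ℓ = X ^ ℓ - 1) :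
    FiniteDimensional (IntermediateField.adjoin κ {X ^ ℓ}) N ∧
    IsGalois (IntermediateField.adjoin κ {X ^ ℓ}) N ∧
    ∃ m : ℕ, Module.finrank (IntermediateField.adjoin κ {X ^ ℓ}) N = ℓ ^ m := by
  classical
  have hℓ0 : 0 < ℓ := hℓ.out.pos
  haveI : NeZero ℓ := ⟨hℓ.out.ne_zero⟩
  obtain ⟨ζ, hζ⟩ := HasEnoughRootsOfUnity.exists_primitiveRoot κ ℓ
  obtain ⟨R₀, hR₀⟩ : ∃ R₀, R₀ = IntermediateField.adjoin κ {X ^ ℓ} := ⟨_, rfl⟩
  rw [← hR₀]
  have hXm : X ^ ℓ ∈ R₀ := by rw [hR₀]; exact IntermediateField.mem_adjoin_simple_self κ _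
  have hYm : Y ^ ℓ ∈ R₀ := by rw [hXY]; exact sub_mem hXm (one_mem _)
  haveI : CharZero R₀ := charZero_of_injective_algebraMap (algebraMap κ R₀).injective
  have hζR : IsPrimitiveRoot (algebraMap κ R₀ ζ) ℓ := hζ.map_of_injective (algebraMap κ R₀).injective
  have hζN : IsPrimitiveRoot (algebraMap κ N ζ) ℓ := hζ.map_of_injective (algebraMap κ N).injective
  let a : R₀ := ⟨X ^ ℓ, hXm⟩
  let b : R₀ := ⟨Y ^ ℓ, hYm⟩
  have ha : algebraMap R₀ N a = X ^ ℓ := rfl
  have hb : algebraMap R₀ N b = Y ^ ℓ := rfl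
  let P : R₀[X] := (Polynomial.X ^ ℓ - C a) * (Polynomial.X ^ ℓ - C b)
  have hPa : (Polynomial.X ^ ℓ - C a : R₀[X]) ≠ 0 := (monic_X_pow_sub_C a hℓ.out.ne_zero).ne_zero
  have hPb : (Polynomial.X ^ ℓ - C b : R₀[X]) ≠ 0 := (monic_X_pow_sub_C b hℓ.out.ne_zero).ne_zero
  have hP0 : P ≠ 0 := mul_ne_zero hPa hPb
  have hXint : IsIntegral R₀ X := by
    refine ⟨Polynomial.X ^ ℓ - C a, monic_X_pow_sub_C a hℓ.out.ne_zero, ?_⟩
    rw [eval₂_sub, eval₂_pow, eval₂_X, eval₂_C, ha, sub_self]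
  have hYint : IsIntegral R₀ Y := by
    refine ⟨Polynomial.X ^ ℓ - C b, monic_X_pow_sub_C b hℓ.out.ne_zero, ?_⟩
    rw [eval₂_sub, eval₂_pow, eval₂_X, eval₂_C, hb, sub_self]
  have htop : IntermediateField.adjoin R₀ {X, Y} = (⊤ : IntermediateField R₀ N) := by
    have h1 := hgen ((IntermediateField.adjoin R₀ {X, Y}).restrictScalars κ)
      (IntermediateField.subset_adjoin R₀ _ (by simp))
      (IntermediateField.subset_adjoin R₀ _ (by simp))
    rw [eq_top_iff]
    intro z _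
    have h2 : z ∈ ((IntermediateField.adjoin R₀ {X, Y}).restrictScalars κ) := by
      rw [h1]; trivial
    exact h2
  have hfin : FiniteDimensional R₀ N := by
    haveI h1 : FiniteDimensional R₀ (IntermediateField.adjoin R₀ ({X, Y} : Set N)) := by
      haveI : Finite ({X, Y} : Set N) := Set.toFinite _
      exact IntermediateField.finiteDimensional_adjoin (S := ({X, Y} : Set N)) (by
        rintro z (rfl | hz)
        · exact hXint
        · rw [Set.mem_singleton_iff] at hz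
          rw [hz]
          exact hYint)
    rw [htop] at h1
    exact (IntermediateField.topEquiv (F := R₀) (E := N)).toLinearEquiv.finiteDimensional
  haveI := hfin
  have hsplit : (P.map (algebraMap R₀ N)).Splits := by
    have key : ∀ (c : N) (z : N), z ^ ℓ = c → ((Polynomial.X ^ ℓ - C c : N[X])).Splits := by
      intro c z hz
      exact X_pow_sub_C_splits_of_isPrimitiveRoot hζN hz
    have e : P.map (algebraMap R₀ N) =
        (Polynomial.X ^ ℓ - C (X ^ ℓ)) * (Polynomial.X ^ ℓ - C (Y ^ ℓ)) := by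
      simp only [P, Polynomial.map_mul, Polynomial.map_sub, Polynomial.map_pow, Polynomial.map_X,
        Polynomial.map_C]
      rfl
    rw [e]
    exact (key _ X rfl).mul (key _ Y rfl)
  have hroots : ∀ z : N, z = X ∨ z = Y → z ∈ P.rootSet N := by
    intro z hz
    rw [Polynomial.mem_rootSet]
    refine ⟨hP0, ?_⟩
    simp only [P, map_mul, map_sub, map_pow, aeval_X, aeval_C]
    rcases hz with rfl | rfl
    · rw [ha, sub_self, zero_mul]
    · rw [hb, sub_self, mul_zero]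
  have hSF : IsSplittingField R₀ N P := by
    refine ⟨hsplit, ?_⟩
    have h1 : IntermediateField.adjoin R₀ (P.rootSet N) = ⊤ := by
      rw [eq_top_iff, ← htop]
      apply IntermediateField.adjoin.mono
      rintro z (hz | hz)
      · exact hroots z (Or.inl hz)
      · rw [Set.mem_singleton_iff] at hz
        exact hroots z (Or.inr hz)
    have h2 := IntermediateField.adjoin_toSubalgebra_of_isAlgebraic (F := R₀) (S := P.rootSet N)
      (fun z _ => Algebra.IsAlgebraic.isAlgebraic z)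
    rw [← h2, h1, IntermediateField.top_toSubalgebra]
  have hnormal : Normal R₀ N := Normal.of_isSplittingField P
  have hgal : IsGalois R₀ N := ⟨⟩
  refine ⟨hfin, hgal, ?_⟩
  have hpg : IsPGroup ℓ (N ≃ₐ[R₀] N) := by
    intro g
    refine ⟨1, ?_⟩
    rw [pow_one]
    have hgc : ∀ c : κ, g (algebraMap κ N c) = algebraMap κ N c := fun c => by
      rw [IsScalarTower.algebraMap_apply κ R₀ N, g.commutes]
    have key : ∀ z : N, z ≠ 0 → z ^ ℓ ∈ R₀ → (g ^ ℓ) z = z := by
      intro z hz0 hz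
      have h1 : (g z / z) ^ ℓ = 1 := by
        have h2 : g (z ^ ℓ) = z ^ ℓ := g.commutes ⟨z ^ ℓ, hz⟩
        rw [div_pow, ← map_pow, h2, div_self (pow_ne_zero _ hz0)]
      obtain ⟨i, -, hi⟩ := hζN.eq_pow_of_pow_eq_one h1
      have h3 : g z = algebraMap κ N (ζ ^ i) * z := by
        rw [map_pow, hi, div_mul_cancel₀ _ hz0]
      have h4 : ∀ n : ℕ, (g ^ n) z = algebraMap κ N ((ζ ^ i) ^ n) * z := by
        intro n
        induction n with
        | zero => simp
        | succ n ih =>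
          rw [pow_succ', AlgEquiv.mul_apply, ih, map_mul, hgc, h3, pow_succ (ζ ^ i), map_mul]
          ring
      rw [h4, ← pow_mul, mul_comm i ℓ, pow_mul, hζ.pow_eq_one, one_pow, map_one, one_mul]
    let T : IntermediateField R₀ N := IntermediateField.fixedField (Subgroup.zpowers (g ^ ℓ))
    have hT : ∀ z, z ∈ T ↔ (g ^ ℓ) z = z := by
      intro z
      rw [IntermediateField.mem_fixedField_iff]
      constructor
      · intro h
        exact h _ (Subgroup.mem_zpowers _)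
      · rintro h f hf
        obtain ⟨n, rfl⟩ := Subgroup.mem_zpowers_iff.1 hf
        have h5 : g ^ ℓ ∈ MulAction.stabilizer (N ≃ₐ[R₀] N) z := h
        exact (MulAction.stabilizer (N ≃ₐ[R₀] N) z).zpow_mem h5 n
    have h1 : T = ⊤ := by
      rw [eq_top_iff, ← htop, IntermediateField.adjoin_le_iff]
      rintro z (hz | hz)
      · rw [hz]
        exact (hT X).2 (key X hX0 hXm)
      · rw [Set.mem_singleton_iff] at hz
        rw [hz]
        exact (hT Y).2 (key Y hY0 hYm)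
    ext z
    have h2 : z ∈ T := by rw [h1]; trivial
    exact (hT z).1 h2
  obtain ⟨m, hm⟩ := hpg.exists_card_eq
  exact ⟨m, by rw [← IsGalois.card_aut_eq_finrank, hm]⟩

end level

end Pool.Agent.Y158.FQ
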