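import Pool.Agent.Y158.FQ.Num

/-!
# Kummer cocycles
-/

set_option autoImplicit false
set_option linter.all false

open Polynomial FF Pool.Agent.Y157.PS IsDedekindDomain NumberField

namespace Pool.Agent.Y158.FQ

/-- a continuous cocycle with values in the roots of unity is given by a Kummer generator -/
theorem exists_kum {ℓ : ℕ} (hℓ0 : 0 < ℓ) {k κ : Type} [Field k] [CharZero k] [Field κ]
    [Algebra k κ] [IsAlgClosure k κ] (ξ : (κ ≃ₐ[k] κ) → κ)
    (hξ : ∀ σ, ξ σ ^ ℓ = 1) (hmul : ∀ σ τ, ξ (σ * τ) = ξ σ * σ (ξ τ))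
    (hcont : ∃ E : IntermediateField k κ, FiniteDimensional k E ∧
      ∀ σ ∈ E.fixingSubgroup, ξ σ = 1) :
    ∃ c : κ, c ≠ 0 ∧ (∀ σ : κ ≃ₐ[k] κ, σ c / c = ξ σ) ∧ ∃ t : k, algebraMap k κ t = c ^ ℓ := by
  classical
  have halg : Algebra.IsAlgebraic k κ := IsAlgClosure.isAlgebraic
  haveI : IsAlgClosed κ := IsAlgClosure.isAlgClosed k
  haveI : CharZero κ := charZero_of_injective_algebraMap (algebraMap k κ).injective
  haveI : Normal k κ := IsAlgClosure.normal k κ
  haveI : IsGalois k κ := IsGalois.mk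
  haveI : NeZero ℓ := ⟨hℓ0.ne'⟩
  obtain ⟨ζ, hζ⟩ := HasEnoughRootsOfUnity.exists_primitiveRoot κ ℓ
  obtain ⟨E, hE, hEξ⟩ := hcont
  haveI := hE
  haveI hζf : FiniteDimensional k (IntermediateField.adjoin k {ζ}) :=
    IntermediateField.adjoin.finiteDimensional (halg.isAlgebraic ζ).isIntegral
  let E' : IntermediateField k κ := E ⊔ IntermediateField.adjoin k {ζ}
  haveI : FiniteDimensional k E' := IntermediateField.finiteDimensional_sup _ _
  obtain ⟨L, hL⟩ : ∃ L : IntermediateField k κ, L = IntermediateField.normalClosure k E' κ :=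
    ⟨_, rfl⟩
  have hEL' : E' ≤ L := by rw [hL]; exact IntermediateField.le_normalClosure E'
  have hEL : E ≤ L := le_sup_left.trans hEL'
  have hζL : ζ ∈ L := hEL' ((le_sup_right : _ ≤ E') (IntermediateField.mem_adjoin_simple_self k ζ))
  haveI : Normal k L := by rw [hL]; infer_instance
  haveI : FiniteDimensional k L := by rw [hL]; infer_instance
  let res : (κ ≃ₐ[k] κ) →* (L ≃ₐ[k] L) := AlgEquiv.restrictNormalHom L
  have hresapp : ∀ (σ : κ ≃ₐ[k] κ) (x : L), ((res σ x : L) : κ) = σ x := fun σ x =>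
    AlgEquiv.restrictNormal_commutes σ L x
  have hsurj : Function.Surjective res := AlgEquiv.restrictNormalHom_surjective κ
  have hμL : ∀ σ, ξ σ ∈ L := by
    intro σ
    obtain ⟨i, -, hi⟩ := hζ.eq_pow_of_pow_eq_one (hξ σ)
    rw [← hi]
    exact pow_mem hζL i
  have hsame : ∀ σ σ' : κ ≃ₐ[k] κ, res σ = res σ' → ξ σ = ξ σ' := by
    intro σ σ' h
    have h1 : σ⁻¹ * σ' ∈ E.fixingSubgroup := by
      rw [IntermediateField.mem_fixingSubgroup_iff]
      intro x hx
      have h2 : (σ⁻¹ * σ' : κ ≃ₐ[k] κ) x = ((res (σ⁻¹ * σ') ⟨x, hEL hx⟩ : L) : κ) :=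
        (hresapp _ ⟨x, hEL hx⟩).symm
      rw [h2, map_mul, map_inv, h, inv_mul_cancel]
      rfl
    have h2 := hmul σ (σ⁻¹ * σ')
    rw [mul_inv_cancel_left, hEξ _ h1, map_one, mul_one] at h2
    exact h2.symm
  choose lft hlft using hsurj
  have hξ0 : ∀ σ, ξ σ ≠ 0 := by
    intro σ h
    have := hξ σ
    rw [h, zero_pow hℓ0.ne'] at this
    exact zero_ne_one this
  let f : (L ≃ₐ[k] L) → Lˣ := fun g => Units.mk0 ⟨ξ (lft g), hμL _⟩ (by
    intro h
    exact hξ0 _ (congrArg Subtype.val h))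
  have hfv : ∀ g, (((f g : Lˣ) : L) : κ) = ξ (lft g) := fun g => rfl
  have hf : groupCohomology.IsMulCocycle₁ f := by
    intro g h
    apply Units.ext
    apply Subtype.ext
    have h1 : ξ (lft (g * h)) = ξ (lft g * lft h) := hsame _ _ (by rw [hlft, map_mul, hlft, hlft])
    change ξ (lft (g * h)) = ((g ((f h : Lˣ) : L) : L) : κ) * ξ (lft g)
    rw [h1, hmul, mul_comm]
    congr 1
    rw [← hfv, ← hresapp, hlft]
  obtain ⟨β, hβ⟩ := groupCohomology.isMulCoboundary₁_of_isMulCocycle₁_of_aut_to_units f hf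
  have hβ0 : ((β : L) : κ) ≠ 0 := by
    intro h
    exact β.ne_zero (Subtype.ext h)
  have hact : ∀ σ : κ ≃ₐ[k] κ, σ ((β : L) : κ) = ξ σ * ((β : L) : κ) := by
    intro σ
    have h1 := hβ (res σ)
    rw [div_eq_iff_eq_mul] at h1
    have h2 := congrArg (fun u : Lˣ => (((u : Lˣ) : L) : κ)) h1
    have h3 : ((res σ (β : L) : L) : κ) = ξ (lft (res σ)) * ((β : L) : κ) := h2
    rw [hresapp] at h3
    rw [h3, hsame (lft (res σ)) σ (hlft _)]
  refine ⟨(β : L), hβ0, fun σ => ?_, ?_⟩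
  · rw [hact, mul_div_cancel_right₀ _ hβ0]
  · have h1 : ((β : L) : κ) ^ ℓ ∈ (⊥ : IntermediateField k κ) := by
      rw [InfiniteGalois.mem_bot_iff_fixed]
      intro σ
      rw [map_pow, hact, mul_pow, hξ, one_mul]
    exact IntermediateField.mem_bot.1 h1

end Pool.Agent.Y158.FQ
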