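import Pool.Agent.Y158.FQ.Wt

/-!
# The inertia groups outside `ℓ` act without rotations
-/

set_option autoImplicit false
set_option linter.all false

open Polynomial FF Pool.Agent.Y157.PS IsDedekindDomain NumberField

namespace Pool.Agent.Y158.FQ

section place

variable {E κ : Type} [Field E] [NumberField E] [Field κ] [Algebra E κ]

theorem intE_mem (V : ValuationSubring κ) (a : 𝓞 E) :
    algebraMap E κ (algebraMap (𝓞 E) E a) ∈ V := by
  have h1 : IsIntegral ℤ (algebraMap (𝓞 E) E a) := RingOfIntegers.isIntegral_coe a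
  obtain ⟨p, hp, hpa⟩ := h1
  refine int_mem V _ p hp ?_
  have h2 := congrArg (algebraMap E κ) hpa
  rw [Polynomial.hom_eval₂, map_zero] at h2
  have h3 : (algebraMap E κ).comp (algebraMap ℤ E) = algebraMap ℤ κ := RingHom.ext_int _ _
  rw [h3] at h2
  exact h2

/-- the place of `E` below a valuation ring of `κ` -/
theorem exists_below (V : ValuationSubring κ) (a : 𝓞 E) (ha : a ≠ 0)
    (haV : algebraMap E κ (algebraMap (𝓞 E) E a) ∈ V.nonunits) :
    ∃ v : HeightOneSpectrum (𝓞 E), ∀ b : 𝓞 E, b ∈ v.asIdeal ↔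
      algebraMap E κ (algebraMap (𝓞 E) E b) ∈ V.nonunits := by
  let f : 𝓞 E →+* V := ((algebraMap E κ).comp (algebraMap (𝓞 E) E)).codRestrict V.toSubring
    (fun b => intE_mem V b)
  have hmem : ∀ b, b ∈ (IsLocalRing.maximalIdeal V).comap f ↔
      algebraMap E κ (algebraMap (𝓞 E) E b) ∈ V.nonunits := by
    intro b
    rw [Ideal.mem_comap]
    exact (ValuationSubring.coe_mem_nonunits_iff (A := V) (a := f b)).symm
  haveI : ((IsLocalRing.maximalIdeal V).comap f).IsPrime := inferInstance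
  refine ⟨⟨(IsLocalRing.maximalIdeal V).comap f, inferInstance, ?_⟩, hmem⟩
  intro h
  have h1 := (hmem a).2 haV
  rw [h, Ideal.mem_bot] at h1
  exact ha h1

/-- the weight argument, for a place of a number field below `V` -/
theorem wgt_of [IsAlgClosure E κ] {v : HeightOneSpectrum (𝓞 E)} {V : ValuationSubring κ}
    (h : ∀ a ∈ v.asIdeal, algebraMap E κ (algebraMap (𝓞 E) E a) ∈ V.nonunits) {ℓ : ℕ}
    [Fact ℓ.Prime] (hℓ : (ℓ : 𝓞 E) ∉ v.asIdeal)
    {R M : Type} [Field R] [Field M] [Algebra κ R] [Algebra R M] [Algebra κ M]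
    [IsScalarTower κ R M] {x : R} {B : Finset κ} {Y : M} (hC : Cov ℓ κ R M x B Y)
    (hGood : Good V B) :
    ∃ O : ValuationSubring M, Gauss V (algebraMap R M x) O ∧
      (∀ O' : ValuationSubring M, Gauss V (algebraMap R M x) O' → O' = O) ∧
      ∀ δ : κ, δ ≠ 0 → (∀ σ : κ ≃ₐ[E] κ, Ine V σ → σ δ = δ) →
      ∀ s : (κ ≃ₐ[E] κ) →* RingAut M, Sec E κ R M x Y δ s →
        ∀ σ, Ine V σ → ∀ z ∈ O, s σ z - z ∈ O.nonunits := by
  obtain ⟨A, i1, i2, i3, i4, h1, h2, h3, h4, -⟩ := num_data v ℓ hℓ 1 (by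
    rw [leadingCoeff_one]
    intro h5
    exact v.isPrime.ne_top ((Ideal.eq_top_iff_one _).2 h5)) (by
    rw [Polynomial.map_one]
    exact separable_one) 1 0 (by rw [pow_zero, Ideal.one_eq_top]; trivial) (by
    rw [zero_add, pow_one]
    intro h5
    exact v.isPrime.ne_top ((Ideal.eq_top_iff_one _).2 h5))
  obtain ⟨h5, h6⟩ := h4 κ V h
  letI : Algebra A κ := ((algebraMap E κ).comp (algebraMap A E)).toAlgebra
  haveI : IsScalarTower A E κ := IsScalarTower.of_algebraMap_eq fun _ => rfl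
  exact (Pool.Agent.Y158.GR.wgtU (k := E) h5 h6 h3 hC hGood).2

end place

section ine

variable {ℓ : ℕ} [hℓ : Fact ℓ.Prime] {k κ R M : Type} [Field k] [NumberField k] [Field κ]
  [Algebra k κ] [IsAlgClosure k κ] [Field R] [Field M] [Algebra κ R] [Algebra R M] [Algebra κ M]
  [IsScalarTower κ R M] {x : R} {Y : M}

/-- a semilinear action which multiplies the coordinates by the Kummer characters of `c ^ ℓ` and
`c' ^ ℓ` -/
structure Tw (ℓ : ℕ) (k κ R M : Type) [Field k] [Field κ] [Field R] [Field M] [Algebra k κ]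
    [Algebra κ R] [Algebra R M] [Algebra κ M] (x : R) (Y : M) (c c' : κ)
    (s : (κ ≃ₐ[k] κ) →* RingAut M) : Prop where
  const : ∀ σ b, s σ (algebraMap κ M b) = algebraMap κ M (σ b)
  actx : ∀ σ, s σ (algebraMap R M x) = algebraMap κ M (σ c' / c') * algebraMap R M x
  acty : ∀ σ, s σ Y = algebraMap κ M (σ c / c) * Y
  cont : ∀ z : M, ∃ E : IntermediateField k κ, FiniteDimensional k E ∧
    ∀ σ ∈ E.fixingSubgroup, s σ z = z
  c0 : c ≠ 0
  c0' : c' ≠ 0
  pow : ∃ t : k, algebraMap k κ t = c ^ ℓ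
  pow' : ∃ t : k, algebraMap k κ t = c' ^ ℓ

theorem good_of_ell {V : ValuationSubring κ} (hl : IsU V (ℓ : κ)) :
    Good V (nthRootsFinset ℓ (1 : κ)) := by
  have hU : ∀ e ∈ nthRootsFinset ℓ (1 : κ), IsU V e := by
    intro e he
    rw [mem_nthRootsFinset hℓ.out.pos] at he
    exact Pool.Agent.Y748.PS.isU_of_pow hℓ.out.pos (by rw [he]; exact Pool.Agent.Y748.PS.isU_one)
  refine ⟨fun e he => (hU e he).2.1, fun e he e' he' hne => ?_⟩
  refine isU_of_not_nonunit (sub_mem (hU e he).2.1 (hU e' he').2.1) fun h1 => hne ?_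
  have he0 := (hU e' he').1
  rw [mem_nthRootsFinset hℓ.out.pos] at he
  have h4 := he'
  rw [mem_nthRootsFinset hℓ.out.pos] at h4
  have h2 : e / e' - 1 = e'⁻¹ * (e - e') := by field_simp
  have h3 := Pool.Agent.Y748.PS.rou_eq_one hl (z := e / e') (by rw [div_pow, he, h4, div_one])
    (by rw [h2]; exact Pool.Agent.Y748.PS.nu_mul (hU e' he').2.2 h1)
  exact (div_eq_one_iff_eq he0).1 h3

/-- **inertia elements outside `ℓ` act on the two coordinates without a free rotation** -/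
theorem ine_rot {c c' : κ} {s : (κ ≃ₐ[k] κ) →* RingAut M}
    (hC : Cov ℓ κ R M x (nthRootsFinset ℓ (1 : κ)) Y) (hs : Tw ℓ k κ R M x Y c c' s)
    (V : ValuationSubring κ) (hl : IsU V (ℓ : κ)) (a : 𝓞 k) (ha : a ≠ 0)
    (haV : algebraMap k κ (algebraMap (𝓞 k) k a) ∈ V.nonunits) (σ : κ ≃ₐ[k] κ) (hσ : Ine V σ) :
    σ c / c = 1 ∨ σ c' / c' = 1 ∨ σ c / c = σ c' / c' := by
  have halg : Algebra.IsAlgebraic k κ := IsAlgClosure.isAlgebraic
  haveI : IsAlgClosed κ := IsAlgClosure.isAlgClosed k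
  haveI : CharZero κ := charZero_of_injective_algebraMap (algebraMap k κ).injective
  haveI : Normal k κ := IsAlgClosure.normal k κ
  have hℓ0 : ℓ ≠ 0 := hℓ.out.ne_zero
  have hc0 := hs.c0
  have hc0' := hs.c0'
  obtain ⟨t, ht⟩ := hs.pow
  obtain ⟨t', ht'⟩ := hs.pow'
  -- the field `E`
  let E : IntermediateField k κ := IntermediateField.adjoin k {c, c'}
  have hcE : c ∈ E := IntermediateField.subset_adjoin k _ (by simp)
  have hcE' : c' ∈ E := IntermediateField.subset_adjoin k _ (by simp)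
  haveI hEfin : FiniteDimensional k E := by
    haveI : Finite ({c, c'} : Set κ) := Set.toFinite _
    exact IntermediateField.finiteDimensional_adjoin (S := ({c, c'} : Set κ))
      (fun z _ => (halg.isAlgebraic z).isIntegral)
  haveI : NumberField E := NumberField.of_module_finite k E
  haveI : IsAlgClosure E κ := ⟨inferInstance, Algebra.IsAlgebraic.tower_top (K := k) E⟩
  obtain ⟨v, hv⟩ := exists_below (E := E) V (algebraMap (𝓞 k) (𝓞 E) a) (by
    intro h
    apply ha
    have h1 : algebraMap (𝓞 E) E (algebraMap (𝓞 k) (𝓞 E) a) = 0 := by rw [h, map_zero]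
    rw [← IsScalarTower.algebraMap_apply (𝓞 k) (𝓞 E) E,
      IsScalarTower.algebraMap_apply (𝓞 k) k E] at h1
    have h2 := (map_eq_zero _).1 h1
    exact (map_eq_zero_iff _ (FaithfulSMul.algebraMap_injective (𝓞 k) k)).1 h2) (by
    rw [← IsScalarTower.algebraMap_apply (𝓞 k) (𝓞 E) E,
      IsScalarTower.algebraMap_apply (𝓞 k) k E, ← IsScalarTower.algebraMap_apply k E κ]
    exact haV)
  have hℓv : (ℓ : 𝓞 E) ∉ v.asIdeal := by
    rw [hv, map_natCast, map_natCast]
    exact fun h => hl.not_nonunit h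
  obtain ⟨O, hO, hu, hI⟩ := wgt_of (fun b hb => (hv b).1 hb) hℓv hC (good_of_ell hl)
  -- the restricted action
  let res : (κ ≃ₐ[E] κ) →* (κ ≃ₐ[k] κ) := AlgEquiv.restrictScalarsHom k
  have hres : ∀ τ z, res τ z = τ z := fun τ z => rfl
  have hfixc : ∀ τ : κ ≃ₐ[E] κ, τ c = c := fun τ => τ.commutes ⟨c, hcE⟩
  have hfixc' : ∀ τ : κ ≃ₐ[E] κ, τ c' = c' := fun τ => τ.commutes ⟨c', hcE'⟩
  have hsec : Sec E κ R M x Y (1 : κ) (s.comp res) := by
    refine ⟨fun τ b => hs.const _ b, fun τ => ?_, fun τ => ?_, fun z => ?_⟩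
    · change s (res τ) _ = _
      rw [hs.actx, hres, hfixc', div_self hc0', map_one, one_mul]
    · change s (res τ) _ = _
      rw [hs.acty, hres, hfixc, div_self hc0, div_one, map_one τ]
    · obtain ⟨E1, hE1, hE1'⟩ := hs.cont z
      let b := Module.finBasis k E1
      let T : Set κ := Set.range fun i => ((b i : E1) : κ)
      haveI : Finite T := Set.finite_range _
      refine ⟨IntermediateField.adjoin E T, ?_, fun τ hτ => ?_⟩
      · exact IntermediateField.finiteDimensional_adjoin (S := T)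
          (fun z _ => (halg.isAlgebraic z).isIntegral.tower_top)
      · change s (res τ) z = z
        refine hE1' _ ?_
        rw [IntermediateField.mem_fixingSubgroup_iff] at hτ ⊢
        intro y hy
        rw [hres]
        have h1 : y = ∑ i, (b.repr ⟨y, hy⟩ i) • ((b i : E1) : κ) := by
          have h2 := b.sum_repr ⟨y, hy⟩
          have h3 := congrArg (fun w : E1 => (w : κ)) h2
          simp only [AddSubmonoidClass.coe_finset_sum] at h3
          exact h3.symm
        rw [h1, map_sum]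
        refine Finset.sum_congr rfl fun i _ => ?_
        rw [Algebra.smul_def, map_mul, hτ _ (IntermediateField.subset_adjoin E T ⟨i, rfl⟩)]
        congr 1
        rw [IsScalarTower.algebraMap_apply k E κ]
        exact τ.commutes _
  have hI' := hI 1 one_ne_zero (fun σ _ => map_one σ) (s.comp res) hsec
  -- roots of unity are fixed
  have hUμ : ∀ {c : κ}, c ^ ℓ = 1 → IsU V c := fun {c} hc =>
    Pool.Agent.Y748.PS.isU_of_pow hℓ.out.pos (by rw [hc]; exact Pool.Agent.Y748.PS.isU_one)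
  have hfixμ : ∀ {c : κ}, c ^ ℓ = 1 → σ c = c := by
    intro c hc
    have hc0 := (hUμ hc).1
    have h1 := hσ.2 c (hUμ hc).2.1
    have h2 : (σ c / c) ^ ℓ = 1 := by
      rw [div_pow, ← map_pow, hc, map_one, div_one]
    have h3 : σ c / c - 1 = c⁻¹ * (σ c - c) := by field_simp
    have h4 := Pool.Agent.Y748.PS.rou_eq_one hl h2
      (by rw [h3]; exact Pool.Agent.Y748.PS.nu_mul (hUμ hc).2.2 h1)
    exact (div_eq_one_iff_eq hc0).1 h4
  have hpowfix : ∀ {d : κ} {u : k}, d ≠ 0 → algebraMap k κ u = d ^ ℓ →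
      (σ d / d) ^ ℓ = 1 ∧ (σ ^ ℓ) d = d := by
    intro d u hd hu
    have h1 : (σ d / d) ^ ℓ = 1 := by
      rw [div_pow, ← map_pow, ← hu, σ.commutes, div_self]
      rw [hu]
      exact pow_ne_zero _ hd
    refine ⟨h1, ?_⟩
    have h2 : ∀ n : ℕ, (σ ^ n) d = (σ d / d) ^ n * d := by
      intro n
      induction n with
      | zero => rw [pow_zero, pow_zero, one_mul]; rfl
      | succ n ih =>
        rw [pow_succ', AlgEquiv.mul_apply, ih, map_mul, map_pow, hfixμ h1, pow_succ]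
        field_simp
    rw [h2, h1, one_mul]
  obtain ⟨hξ, hcℓ⟩ := hpowfix hc0 ht
  obtain ⟨hξ', hcℓ'⟩ := hpowfix hc0' ht'
  -- the `ℓ`-th power of `σ` fixes `E`
  have hσE : ∀ z ∈ E, (σ ^ ℓ) z = z := by
    intro z hz
    have h1 : E ≤ IntermediateField.fixedField (Subgroup.zpowers (σ ^ ℓ)) := by
      rw [IntermediateField.adjoin_le_iff]
      have key : ∀ d : κ, (σ ^ ℓ) d = d →
          d ∈ IntermediateField.fixedField (Subgroup.zpowers (σ ^ ℓ)) := by
        intro d hd
        rw [IntermediateField.mem_fixedField_iff]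
        intro f hf
        obtain ⟨n, rfl⟩ := Subgroup.mem_zpowers_iff.1 hf
        have h5 : σ ^ ℓ ∈ MulAction.stabilizer (κ ≃ₐ[k] κ) d := hd
        exact (MulAction.stabilizer (κ ≃ₐ[k] κ) d).zpow_mem h5 n
      rintro d (rfl | hd)
      · exact key _ hcℓ
      · rw [Set.mem_singleton_iff] at hd
        rw [hd]
        exact key _ hcℓ'
    have h2 := h1 hz
    rw [IntermediateField.mem_fixedField_iff] at h2
    exact h2 _ (Subgroup.mem_zpowers _)
  let τ : κ ≃ₐ[E] κ := AlgEquiv.ofRingEquiv (f := ((σ ^ ℓ : κ ≃ₐ[k] κ) : κ ≃+* κ))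
    (fun z => hσE z z.2)
  have hτ : res τ = σ ^ ℓ := by ext z; rfl
  have hInePow : ∀ n : ℕ, Ine V (σ ^ n) := by
    intro n
    induction n with
    | zero =>
      refine ⟨fun z => Iff.rfl, fun z hz => ?_⟩
      rw [pow_zero, AlgEquiv.one_apply, sub_self]
      exact zero_mem _
    | succ n ih =>
      rw [pow_succ]
      exact Pool.Agent.Y748.PS.ine_mul ih hσ
  have hτI : Ine V τ := hInePow ℓ
  have hφℓ : ∀ z ∈ O, ((s σ) ^ ℓ) z - z ∈ O.nonunits := by
    intro z hz
    have h1 := hI' τ hτI z hz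
    change s (res τ) z - z ∈ _ at h1
    rw [hτ, map_pow] at h1
    exact h1
  obtain ⟨γ, hγ, hγc, hγx, hγY⟩ := lift_rot hC hl hO hu (s σ) (σ : κ ≃+* κ)
    (fun b => hs.const σ b) hσ.1 hσ.2 hξ hξ' (hs.actx σ) (hs.acty σ) hφℓ
  by_contra hcon
  push Not at hcon
  exact no_rot hC γ hγ hγc hξ hξ' hγx hγY hcon.1 hcon.2.1 hcon.2.2

end ine

end Pool.Agent.Y158.FQ
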