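import Pool.Agent.Y158.FQ.Desc2

/-!
# The twist of a section of a Fermat quotient over a number field
-/

set_option autoImplicit false
set_option linter.all false

open Polynomial FF Pool.Agent.Y157.PS Pool.Agent.TH954 IsDedekindDomain NumberField

namespace Pool.Agent.Y158.FQ

section

variable {k : Type} [Field k] [NumberField k]
  {F Ω B : Type} [Field F] [Field Ω] [Field B] [Algebra k F] [Algebra F Ω] [Algebra k Ω]
  [Algebra k B] [IsScalarTower k F Ω] [IsAlgClosed Ω] [Algebra.IsAlgebraic F Ω]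
  [IsAlgClosure k B]

/-- the automorphisms `s g` preserve the covering field of the Fermat curve -/
theorem stab_secK {ℓ : ℕ} (hℓ : 0 < ℓ) {u w : Ω} (hu : ∃ z : F, algebraMap F Ω z = u ^ ℓ)
    (hw : ∃ z : F, algebraMap F Ω z = w ^ ℓ) {N : IntermediateField F Ω} (e : N ≃ₐ[F] N) (z : N)
    (hz : (z : Ω) ∈ geomPro ℓ k (IntermediateField.adjoin k {u, w}) Ω) :
    ((e z : N) : Ω) ∈ geomPro ℓ k (IntermediateField.adjoin k {u, w}) Ω := by
  haveI : IsAlgClosure F Ω := ⟨inferInstance, inferInstance⟩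
  haveI : Normal F Ω := IsAlgClosure.normal F Ω
  have h1 : e.liftNormal Ω (algebraMap N Ω z) = algebraMap N Ω (e z) := e.liftNormal_commutes Ω _
  have h2 := stab_geo (k := k) hℓ hu hw (e.liftNormal Ω) (z : Ω) hz
  rw [show (e.liftNormal Ω) (z : Ω) = ((e z : N) : Ω) from h1] at h2
  exact h2

/-- **descent** -/
theorem descK {ℓ : ℕ} [hp : Fact ℓ.Prime] (hodd : Odd ℓ) {a b : ℕ} (ha : ¬ ℓ ∣ a) (hb : ¬ ℓ ∣ b)
    (hab : ¬ ℓ ∣ a + b) (x y : F) (hx : Transcendental k x)
    (hF : Algebra.IsAlgebraic (IntermediateField.adjoin k {x}) F)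
    (u w : Ω) (hu : u ^ ℓ = algebraMap F Ω x)
    (hw : w ^ ℓ = algebraMap F Ω (1 - x)) (huw : u ^ a * w ^ b = algebraMap F Ω y)
    (N : IntermediateField F Ω)
    (hN : ∀ z ∈ geomPro ℓ k (IntermediateField.adjoin k {u, w}) Ω, z ∈ N)
    (s : GalSection k F N B) :
    ∃ (U W : N) (c c' : algebraicClosure k Ω) (t t' q : k), t ≠ 0 ∧ t' ≠ 0 ∧
      (∀ g, s.s g U = U) ∧ (∀ g, s.s g W = W) ∧
      (U : Ω) = (c : Ω) * u ∧ (W : Ω) = (c' : Ω) * w ∧
      algebraMap k N t * U ^ ℓ = algebraMap F N x ∧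
      algebraMap k N t' * W ^ ℓ = algebraMap F N (1 - x) ∧
      t ^ a * t' ^ b = q ^ ℓ ∧
      ∀ v : HeightOneSpectrum (𝓞 k), (ℓ : 𝓞 k) ∉ v.asIdeal →
        (∃ r : k, v.valuation k t = (v.valuation k r) ^ ℓ) ∧
        (∃ r : k, v.valuation k t' = (v.valuation k r) ^ ℓ) := by
  classical
  have hℓ0 : ℓ ≠ 0 := hp.out.ne_zero
  have hℓpos := hp.out.pos
  haveI : IsScalarTower k N Ω :=
    IsScalarTower.of_algebraMap_eq fun c => rfl
  haveI : IsAlgClosure F Ω := ⟨inferInstance, inferInstance⟩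
  haveI : IsAlgClosure k (algebraicClosure k Ω) := inferInstance
  haveI : IsAlgClosed (algebraicClosure k Ω) := IsAlgClosure.isAlgClosed k
  haveI : CharZero (algebraicClosure k Ω) :=
    charZero_of_injective_algebraMap (algebraMap k (algebraicClosure k Ω)).injective
  have hxΩ : Transcendental k (algebraMap F Ω x) :=
    (transcendental_algebraMap_iff (R := k) (algebraMap F Ω).injective (a := x)).2 hx
  have hut : Transcendental k u := by
    intro h
    apply hxΩ
    rw [← hu]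
    exact h.pow ℓ
  have hu0 : u ≠ 0 := by
    rintro rfl
    exact hut isAlgebraic_zero
  have hwt : Transcendental k w := by
    intro h
    apply hxΩ
    have h1 : algebraMap F Ω x = 1 - w ^ ℓ := by rw [hw, map_sub, map_one]; ring
    rw [h1]
    exact isAlgebraic_one.sub (h.pow ℓ)
  have hw0 : w ≠ 0 := by
    rintro rfl
    exact hwt isAlgebraic_zero
  -- the Fermat curve
  let F₁ : IntermediateField k Ω := IntermediateField.adjoin k {u, w}
  have huF : u ∈ F₁ := IntermediateField.subset_adjoin k _ (by simp)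
  have hwF : w ∈ F₁ := IntermediateField.subset_adjoin k _ (by simp)
  haveI : Algebra.IsAlgebraic F₁ Ω := alg_over hF F₁ (by rw [← hu]; exact pow_mem huF ℓ)
  have htop : IntermediateField.adjoin k {(⟨u, huF⟩ : F₁), ⟨w, hwF⟩} =
      (⊤ : IntermediateField k F₁) := by
    apply IntermediateField.map_injective F₁.val
    rw [IntermediateField.adjoin_map, Set.image_pair, ← AlgHom.fieldRange_eq_map,
      IntermediateField.fieldRange_val]
    rfl
  have hu1t : Transcendental k (⟨u, huF⟩ : F₁) := by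
    rw [← transcendental_algebraMap_iff (R := k) (A := Ω) (algebraMap F₁ Ω).injective]
    exact hut
  have hrel1 : (⟨u, huF⟩ : F₁) ^ ℓ + (⟨w, hwF⟩ : F₁) ^ ℓ = 1 := by
    apply Subtype.ext
    change u ^ ℓ + w ^ ℓ = 1
    rw [hu, hw, map_sub, map_one]
    ring
  obtain ⟨R, M, i1, i2, i3, i4, i5, i6, x', Y, eqv, hC, hc, hx', hY'⟩ :=
    setupF (Ω := Ω) hodd (⟨u, huF⟩ : F₁) ⟨w, hwF⟩ hu1t htop hrel1
  -- the maps
  let i₀ : geomPro ℓ k F₁ Ω →+* N :=
    { toFun := fun z => ⟨(z : Ω), hN _ z.2⟩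
      map_one' := rfl
      map_mul' := fun _ _ => rfl
      map_zero' := rfl
      map_add' := fun _ _ => rfl }
  let i : M →+* N := i₀.comp (eqv : M →+* geomPro ℓ k F₁ Ω)
  have hi : ∀ z : M, ((i z : N) : Ω) = ((eqv z : geomPro ℓ k F₁ Ω) : Ω) := fun z => rfl
  obtain ⟨e, he⟩ := Pool.Agent.Y158.GR.exists_eB (Ω := Ω)
    ((IsScalarTower.toAlgHom k N Ω).comp s.j)
  have he' : ∀ b, ((s.j b : N) : Ω) = ((e b : algebraicClosure k Ω) : Ω) := fun b => (he b).symm
  let S₀ : (algebraicClosure k Ω ≃ₐ[k] algebraicClosure k Ω) →* (N ≃ₐ[F] N) :=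
    s.s.comp (AlgEquiv.autCongr e.symm : _ →* _)
  have hS₀c : Continuous S₀ := s.cont.comp (Pool.Agent.Y674.PS.conj_cont e.symm)
  let S : (algebraicClosure k Ω ≃ₐ[k] algebraicClosure k Ω) →* RingAut N :=
    { toFun := fun g => (S₀ g : N ≃+* N)
      map_one' := by rw [map_one]; rfl
      map_mul' := fun g g' => by rw [map_mul]; rfl }
  have hS : ∀ g z, S g z = S₀ g z := fun g z => rfl
  have hSF : ∀ g (z : F), S g (algebraMap F N z) = algebraMap F N z := fun g z =>
    (S₀ g).commutes z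
  have huz : ∃ z : F, algebraMap F Ω z = u ^ ℓ := ⟨x, hu.symm⟩
  have hwz : ∃ z : F, algebraMap F Ω z = w ^ ℓ := ⟨1 - x, hw.symm⟩
  obtain ⟨T, hT⟩ := restrict_hom i S (fun g z => by
    have h1 := stab_secK hℓpos huz hwz (S₀ g) (i z) (eqv z).2
    refine ⟨eqv.symm ⟨_, h1⟩, ?_⟩
    apply Subtype.ext
    rw [hi, eqv.apply_symm_apply]
    rfl)
  -- constants
  have hconstN : ∀ c : algebraicClosure k Ω, i (algebraMap (algebraicClosure k Ω) M c) =
      s.j (e.symm c) := by
    intro c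
    apply Subtype.ext
    rw [hi, hc, he', e.apply_symm_apply]
  have hSj : ∀ g (c : algebraicClosure k Ω), S g (s.j (e.symm c)) = s.j (e.symm (g c)) := by
    intro g c
    change s.s (AlgEquiv.autCongr e.symm g) (s.j (e.symm c)) = _
    rw [s.sec]
    congr 1
    change e.symm (g (e (e.symm c))) = _
    rw [e.apply_symm_apply]
  have hTconst : ∀ g c, T g (algebraMap (algebraicClosure k Ω) M c) =
      algebraMap (algebraicClosure k Ω) M (g c) := by
    intro g c
    apply i.injective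
    rw [hT, hconstN, hSj, hconstN]
  -- the coordinates
  have hiX : ((i (algebraMap R M x') : N) : Ω) = u := by rw [hi, hx']; rfl
  have hiY : ((i Y : N) : Ω) = -w := by rw [hi, hY']; rfl
  have hXℓ : i (algebraMap R M x') ^ ℓ = algebraMap F N x := by
    apply Subtype.ext
    change ((i (algebraMap R M x') : N) : Ω) ^ ℓ = algebraMap F Ω x
    rw [hiX, hu]
  have hYℓ : i Y ^ ℓ = algebraMap F N (-(1 - x)) := by
    apply Subtype.ext
    change ((i Y : N) : Ω) ^ ℓ = algebraMap F Ω (-(1 - x))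
    rw [hiY, hodd.neg_pow, hw, ← map_neg]
  have hX0 : algebraMap R M x' ≠ 0 := by
    intro h
    rw [h, map_zero] at hiX
    exact hu0 hiX.symm
  have hY0 : Y ≠ 0 := by
    intro h
    rw [h, map_zero] at hiY
    have h1 : (0 : Ω) = -w := hiY
    exact hw0 (by rw [eq_comm, neg_eq_zero] at h1; exact h1)
  have hkumm : ∀ (Z : M), Z ≠ 0 → (∃ z : F, i Z ^ ℓ = algebraMap F N z) →
      ∀ g, ∃ c : algebraicClosure k Ω, c ^ ℓ = 1 ∧
        T g Z = algebraMap (algebraicClosure k Ω) M c * Z := by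
    rintro Z hZ ⟨z, hz⟩ g
    have h2 : (T g Z / Z) ^ ℓ = 1 := by
      have h3 : T g (Z ^ ℓ) = Z ^ ℓ := by
        apply i.injective
        rw [hT, map_pow i, hz, hSF]
      rw [div_pow, ← map_pow, h3, div_self (pow_ne_zero _ hZ)]
    obtain ⟨c, hc, hc'⟩ := Pool.Agent.Y748.PS.rou_const (κ := algebraicClosure k Ω) hℓpos h2
    exact ⟨c, hc, by rw [hc', div_mul_cancel₀ _ hZ]⟩
  have hcont : ∀ z : M, ∃ E : IntermediateField k (algebraicClosure k Ω),
      FiniteDimensional k E ∧ ∀ σ ∈ E.fixingSubgroup, T σ z = z := by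
    intro z
    obtain ⟨E, hE, hE'⟩ := cont_fix S₀ hS₀c (i z)
    refine ⟨E, hE, fun σ hσ => i.injective ?_⟩
    rw [hT]
    exact hE' σ hσ
  have hgen : ∀ (Z : M), Z ≠ 0 → (∃ z : F, i Z ^ ℓ = algebraMap F N z) →
      ∃ c : algebraicClosure k Ω, c ≠ 0 ∧
        (∀ g, T g Z = algebraMap (algebraicClosure k Ω) M (g c / c) * Z) ∧
        ∃ t : k, algebraMap k (algebraicClosure k Ω) t = c ^ ℓ := by
    intro Z hZ hz
    choose ξ hξ1 hξ2 using hkumm Z hZ hz
    obtain ⟨c, hc0, hcξ, t, ht⟩ := exists_kum (k := k) (κ := algebraicClosure k Ω) hℓpos ξ hξ1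
      (fun σ τ => by
        have h3 : T (σ * τ) Z = T σ (T τ Z) := by rw [map_mul]; rfl
        rw [hξ2, hξ2 τ, map_mul, hTconst, hξ2 σ, ← mul_assoc, ← map_mul] at h3
        have h4 := (algebraMap (algebraicClosure k Ω) M).injective (mul_right_cancel₀ hZ h3)
        rw [h4, mul_comm]) (by
        obtain ⟨E, hE, hE'⟩ := hcont Z
        refine ⟨E, hE, fun σ hσ => ?_⟩
        have h3 := hE' σ hσ
        rw [hξ2] at h3
        have h4 : algebraMap (algebraicClosure k Ω) M (ξ σ) * Z =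
            algebraMap (algebraicClosure k Ω) M 1 * Z := by rw [h3, map_one, one_mul]
        exact (algebraMap (algebraicClosure k Ω) M).injective (mul_right_cancel₀ hZ h4))
    exact ⟨c, hc0, fun g => by rw [hcξ, hξ2], t, ht⟩
  obtain ⟨cx, hcx0, hcx, tx, htx⟩ := hgen (algebraMap R M x') hX0 ⟨x, hXℓ⟩
  obtain ⟨cy, hcy0, hcy, ty, hty⟩ := hgen Y hY0 ⟨_, hYℓ⟩
  have hTw : Tw ℓ k (algebraicClosure k Ω) R M x' Y cy cx T :=
    ⟨hTconst, hcx, hcy, hcont, hcy0, hcx0, ⟨ty, hty⟩, ⟨tx, htx⟩⟩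
  -- the relation
  have hrel : ∀ g : algebraicClosure k Ω ≃ₐ[k] algebraicClosure k Ω,
      (g cx / cx) ^ a * (g cy / cy) ^ b = 1 := by
    intro g
    have h1 : i (algebraMap R M x' ^ a * Y ^ b) = algebraMap F N ((-1) ^ b * y) := by
      apply Subtype.ext
      rw [map_mul, map_pow, map_pow]
      change ((i (algebraMap R M x') : N) : Ω) ^ a * ((i Y : N) : Ω) ^ b =
        algebraMap F Ω ((-1) ^ b * y)
      rw [hiX, hiY, map_mul, ← huw, map_pow, map_neg, map_one, neg_pow]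
      ring
    have h2 : T g (algebraMap R M x' ^ a * Y ^ b) = algebraMap R M x' ^ a * Y ^ b := by
      apply i.injective
      rw [hT, h1, hSF]
    rw [map_mul, map_pow, map_pow, hcx, hcy, mul_pow, mul_pow] at h2
    have h3 : algebraMap (algebraicClosure k Ω) M ((g cx / cx) ^ a * (g cy / cy) ^ b) *
        (algebraMap R M x' ^ a * Y ^ b) =
        algebraMap (algebraicClosure k Ω) M 1 * (algebraMap R M x' ^ a * Y ^ b) := by
      rw [map_mul, map_pow, map_pow, map_one, one_mul]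
      linear_combination h2
    exact (algebraMap (algebraicClosure k Ω) M).injective (mul_right_cancel₀
      (mul_ne_zero (pow_ne_zero _ hX0) (pow_ne_zero _ hY0)) h3)
  have htx0 : tx ≠ 0 := by
    rintro rfl
    rw [map_zero] at htx
    exact pow_ne_zero ℓ hcx0 htx.symm
  have hty0 : ty ≠ 0 := by
    rintro rfl
    rw [map_zero] at hty
    exact pow_ne_zero ℓ hcy0 hty.symm
  obtain ⟨q, hq⟩ : ∃ q : k, algebraMap k (algebraicClosure k Ω) q = cx ^ a * cy ^ b := by
    have h1 : cx ^ a * cy ^ b ∈ (⊥ : IntermediateField k (algebraicClosure k Ω)) := by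
      haveI : Normal k (algebraicClosure k Ω) := IsAlgClosure.normal k _
      haveI : IsGalois k (algebraicClosure k Ω) := IsGalois.mk
      rw [InfiniteGalois.mem_bot_iff_fixed]
      intro g
      have h2 := hrel g
      rw [div_pow, div_pow, div_mul_div_comm, div_eq_one_iff_eq
        (mul_ne_zero (pow_ne_zero _ hcx0) (pow_ne_zero _ hcy0))] at h2
      rw [map_mul, map_pow, map_pow]
      exact h2
    exact IntermediateField.mem_bot.1 h1
  have hqt : tx ^ a * ty ^ b = q ^ ℓ := by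
    apply (algebraMap k (algebraicClosure k Ω)).injective
    rw [map_mul, map_pow, map_pow, htx, hty, map_pow, hq, mul_pow, ← pow_mul, ← pow_mul,
      ← pow_mul, ← pow_mul, mul_comm a ℓ, mul_comm b ℓ]
  -- the fixed elements
  have hκN : ∀ c : algebraicClosure k Ω, ((s.j (e.symm c) : N) : Ω) = (c : Ω) := fun c => by
    rw [he', e.apply_symm_apply]
  have hsurj : ∀ g : B ≃ₐ[k] B, ∃ g' : algebraicClosure k Ω ≃ₐ[k] algebraicClosure k Ω,
      S₀ g' = s.s g := by
    intro g
    refine ⟨AlgEquiv.autCongr e g, ?_⟩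
    change s.s (AlgEquiv.autCongr e.symm (AlgEquiv.autCongr e g)) = s.s g
    congr 1
    ext z
    change e.symm (e (g (e.symm (e z)))) = g z
    rw [e.symm_apply_apply, e.symm_apply_apply]
  have hfix : ∀ (Z : M) (c : algebraicClosure k Ω), c ≠ 0 →
      (∀ g, T g Z = algebraMap (algebraicClosure k Ω) M (g c / c) * Z) →
      ∀ g, s.s g (s.j (e.symm (1 / c)) * i Z) = s.j (e.symm (1 / c)) * i Z := by
    intro Z c hc0 hcZ g
    obtain ⟨g', hg'⟩ := hsurj g
    rw [← hg']
    change S g' _ = _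
    rw [map_mul, hSj, ← hT, hcZ, map_mul, hconstN, ← mul_assoc, ← map_mul s.j, ← map_mul e.symm,
      map_div₀ g', map_one]
    congr 3
    have h4 : g' c ≠ 0 := (_root_.map_ne_zero g').2 hc0
    field_simp
  refine ⟨s.j (e.symm (1 / cx)) * i (algebraMap R M x'),
    -(s.j (e.symm (1 / cy)) * i Y), 1 / cx, 1 / cy, tx, ty, q, htx0, hty0,
    hfix _ _ hcx0 hcx, fun g => ?_, ?_, ?_, ?_, ?_, hqt, fun v hv => ?_⟩
  · rw [map_neg, hfix _ _ hcy0 hcy]
  · change ((s.j (e.symm _) : N) : Ω) * ((i _ : N) : Ω) = _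
    rw [hκN, hiX]
  · change -(((s.j (e.symm _) : N) : Ω) * ((i _ : N) : Ω)) = _
    rw [hκN, hiY]
    ring
  · apply Subtype.ext
    have h1 : ((algebraMap k N tx : N) : Ω) =
        ((algebraMap k (algebraicClosure k Ω) tx : algebraicClosure k Ω) : Ω) := rfl
    change ((algebraMap k N tx : N) : Ω) *
      (((s.j (e.symm _) : N) : Ω) * ((i _ : N) : Ω)) ^ ℓ = algebraMap F Ω x
    rw [hκN, hiX, mul_pow, hu, ← mul_assoc, h1]
    have h2 : algebraMap k (algebraicClosure k Ω) tx * (1 / cx) ^ ℓ = 1 := by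
      rw [div_pow, one_pow, htx, mul_one_div, div_self (pow_ne_zero _ hcx0)]
    have h4 : ((algebraMap k (algebraicClosure k Ω) tx : algebraicClosure k Ω) : Ω) *
        ((1 / cx : algebraicClosure k Ω) : Ω) ^ ℓ = 1 :=
      congrArg (fun z : algebraicClosure k Ω => (z : Ω)) h2
    rw [h4, one_mul]
  · apply Subtype.ext
    have h1 : ((algebraMap k N ty : N) : Ω) =
        ((algebraMap k (algebraicClosure k Ω) ty : algebraicClosure k Ω) : Ω) := rfl
    change ((algebraMap k N ty : N) : Ω) *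
      (-(((s.j (e.symm _) : N) : Ω) * ((i _ : N) : Ω))) ^ ℓ = algebraMap F Ω (1 - x)
    rw [hκN, hiY, mul_neg, neg_neg, mul_pow, hw, ← mul_assoc, h1]
    have h2 : algebraMap k (algebraicClosure k Ω) ty * (1 / cy) ^ ℓ = 1 := by
      rw [div_pow, one_pow, hty, mul_one_div, div_self (pow_ne_zero _ hcy0)]
    have h4 : ((algebraMap k (algebraicClosure k Ω) ty : algebraicClosure k Ω) : Ω) *
        ((1 / cy : algebraicClosure k Ω) : Ω) ^ ℓ = 1 :=
      congrArg (fun z : algebraicClosure k Ω => (z : Ω)) h2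
    rw [h4, one_mul]
  · obtain ⟨V, hV⟩ := Pool.Agent.Y158.GR.exists_above (K := k) (algebraicClosure k Ω) v
    have hl : IsU V (ℓ : algebraicClosure k Ω) := by
      rw [← map_natCast (algebraMap k (algebraicClosure k Ω)) ℓ, hV.isU,
        ← map_natCast (algebraMap (𝓞 k) k) ℓ, v.valuation_of_algebraMap]
      exact HeightOneSpectrum.intValuation_eq_one_iff.2 hv
    have hI : ∀ σ : algebraicClosure k Ω ≃ₐ[k] algebraicClosure k Ω, Ine V σ →
        σ cy = cy ∧ σ cx = cx := by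
      intro σ hσ
      obtain ⟨r, hr, hr0⟩ := Submodule.exists_mem_ne_zero_of_ne_bot v.ne_bot
      have h1 := ine_rot hC hTw V hl r hr0 (hV.ideal r hr) σ hσ
      have hroot : ∀ {d : algebraicClosure k Ω} {u : k}, d ≠ 0 →
          algebraMap k (algebraicClosure k Ω) u = d ^ ℓ → (σ d / d) ^ ℓ = 1 := by
        intro d u hd hu
        rw [div_pow, ← map_pow, ← hu, σ.commutes, div_self]
        rw [hu]
        exact pow_ne_zero _ hd
      have h2 := hroot hcy0 hty
      have h3 := hroot hcx0 htx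
      have h4 := hrel σ
      have hone : ∀ {z : algebraicClosure k Ω} {n : ℕ}, z ^ ℓ = 1 → ¬ ℓ ∣ n → z ^ n = 1 →
          z = 1 := by
        intro z n hz hn hzn
        have h5 : Nat.Coprime ℓ n := (Nat.Prime.coprime_iff_not_dvd hp.out).2 hn
        have h6 : orderOf z ∣ Nat.gcd ℓ n :=
          Nat.dvd_gcd (orderOf_dvd_of_pow_eq_one hz) (orderOf_dvd_of_pow_eq_one hzn)
        rw [Nat.Coprime.gcd_eq_one h5, Nat.dvd_one] at h6
        exact orderOf_eq_one_iff.1 h6
      have h5 : σ cy / cy = 1 ∧ σ cx / cx = 1 := by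
        rcases h1 with h1 | h1 | h1
        · refine ⟨h1, hone h3 ha ?_⟩
          rwa [h1, one_pow, mul_one] at h4
        · refine ⟨hone h2 hb ?_, h1⟩
          rwa [h1, one_pow, one_mul] at h4
        · have h5 : σ cx / cx = 1 := by
            refine hone h3 hab ?_
            rwa [h1, ← pow_add] at h4
          exact ⟨h1.trans h5, h5⟩
      exact ⟨(div_eq_one_iff_eq hcy0).1 h5.1, (div_eq_one_iff_eq hcx0).1 h5.2⟩
    exact ⟨hV.pow hv hcx0 (fun σ hσ => (hI σ hσ).2) htx,
      hV.pow hv hcy0 (fun σ hσ => (hI σ hσ).1) hty⟩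

end

end Pool.Agent.Y158.FQ
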