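import Pool.Agent.Y158.FQ.K1
import Pool.Agent.Y158.GR.Fer

/-!
# Numbers which are `ℓ`-th powers
-/

set_option autoImplicit false
set_option linter.all false

open Polynomial FF Pool.Agent.Y157.PS IsDedekindDomain NumberField WithZero

namespace Pool.Agent.Y158.FQ

open Pool.Agent.Y158.KL (lam Kl KLem cm V V_cm V_unit V_om om pow_near ell_dvd_of exists_exp
  exists_unit_mul_pow)

variable {K : Type} [Field K] [NumberField K] {ℓ : ℕ}
  [hp : Fact ℓ.Prime] [hK : IsCyclotomicExtension {ℓ} ℚ K] {ζ : K} (hζ : IsPrimitiveRoot ζ ℓ)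

/-- a number all of whose valuations outside `ℓ` are divisible by `ℓ` and which is congruent to an
`ℓ`-th power modulo `ℓ` is an `ℓ`-th power -/
theorem glob_pow (hcop : (classNumber K).Coprime ℓ) (hKL : KLem ℓ K) {t : K} (ht0 : t ≠ 0)
    (hv : ∀ v : HeightOneSpectrum (𝓞 K), (ℓ : 𝓞 K) ∉ v.asIdeal →
      ∃ r : K, v.valuation K t = v.valuation K r ^ ℓ)
    {W ξ : Kl hζ} (h : cm hζ t * W ^ ℓ = 1 - ξ)
    (hξ : V hζ ξ ≤ exp (-((ℓ - 1 : ℕ) : ℤ))) : ∃ k : K, t = k ^ ℓ := by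
  have hℓ0 : ℓ ≠ 0 := hp.out.ne_zero
  have hℓ2 := hp.out.two_le
  have hξ1 : V hζ ξ < 1 := by
    refine lt_of_le_of_lt hξ ?_
    rw [← exp_zero, exp_lt_exp]
    omega
  have h1 : V hζ (1 - ξ) = 1 := (V hζ).map_one_sub_of_lt hξ1
  have hVt : V hζ (cm hζ t) * V hζ W ^ ℓ = 1 := by rw [← map_pow, ← map_mul, h, h1]
  have hW0 : W ≠ 0 := by
    rintro rfl
    rw [map_zero, zero_pow hℓ0, mul_zero] at hVt
    exact zero_ne_one hVt
  have hVW0 : V hζ W ≠ 0 := (Valuation.ne_zero_iff _).2 hW0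
  obtain ⟨u, k, hk, hu⟩ := exists_unit_mul_pow hp.out.pos hcop t ht0 (by
    intro v
    by_cases hvl : v = lam hζ
    · subst hvl
      refine ⟨(V hζ W)⁻¹, ?_⟩
      rw [← V_cm, inv_pow]
      exact eq_inv_of_mul_eq_one_left hVt
    · obtain ⟨r, hr⟩ := hv v (Pool.Agent.Y158.GR.ell_notMem hζ hvl)
      exact ⟨_, hr⟩)
  have hk' : cm hζ k ≠ 0 := (_root_.map_ne_zero _).2 hk
  obtain ⟨w, hw⟩ : ∃ w, w = (cm hζ k * W)⁻¹ := ⟨_, rfl⟩
  have hw0 : w ≠ 0 := by rw [hw]; exact inv_ne_zero (mul_ne_zero hk' hW0)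
  have hou : om hζ u = (1 - ξ) * w ^ ℓ := by
    have h2 : cm hζ t = om hζ u * cm hζ k ^ ℓ := by rw [hu, map_mul, map_pow]; rfl
    rw [← h, h2, hw, inv_pow, mul_pow, mul_assoc (om hζ u)]
    exact (mul_inv_cancel_right₀ (mul_ne_zero (pow_ne_zero _ hk') (pow_ne_zero _ hW0)) _).symm
  have hVw : V hζ w = 1 := by
    have h2 : V hζ w ^ ℓ = 1 := by
      have h3 := congrArg (V hζ) hou
      rw [V_unit, map_mul, h1, one_mul, map_pow] at h3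
      exact h3.symm
    exact (pow_eq_one_iff_of_nonneg zero_le hℓ0).1 h2
  obtain ⟨n, hn⟩ := pow_near hζ (w := w) hVw.le
  obtain ⟨η, hη⟩ := hKL u n (by
    apply ell_dvd_of hζ
    rw [← V_om, map_sub, map_intCast]
    have e : om hζ u - n = (w ^ ℓ - n) - ξ * w ^ ℓ := by rw [hou]; ring
    rw [e]
    refine Valuation.map_sub_le _ hn ?_
    rw [map_mul, map_pow, hVw, one_pow, mul_one]
    exact hξ)
  refine ⟨algebraMap (𝓞 K) K η * k, ?_⟩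
  rw [mul_pow, hu, hη, Units.val_pow_eq_pow_val, map_pow]

/-- the two Kummer classes of a section with a local point near a cusp are trivial -/
theorem two_pow (hcop : (classNumber K).Coprime ℓ) (hKL : KLem ℓ K) {t t' q : K} (ht0 : t ≠ 0)
    (ht0' : t' ≠ 0) {m n : ℤ} (hm : ¬ (ℓ : ℤ) ∣ m) (hq : t ^ m * t' ^ n = q ^ ℓ)
    (hv : ∀ v : HeightOneSpectrum (𝓞 K), (ℓ : 𝓞 K) ∉ v.asIdeal →
      ∃ r : K, v.valuation K t' = v.valuation K r ^ ℓ)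
    {U W ξ : Kl hζ} (hU : cm hζ t * U ^ ℓ = ξ) (hW : cm hζ t' * W ^ ℓ = 1 - ξ)
    (hξ : V hζ ξ < 1) : (∃ k : K, k ≠ 0 ∧ t = k ^ ℓ) ∧ (∃ k : K, k ≠ 0 ∧ t' = k ^ ℓ) := by
  have hℓ0 : ℓ ≠ 0 := hp.out.ne_zero
  have hℓ2 := hp.out.two_le
  have hpr : Prime (ℓ : ℤ) := Nat.prime_iff_prime_int.1 hp.out
  have h1 : V hζ (1 - ξ) = 1 := (V hζ).map_one_sub_of_lt hξ
  have hVt : V hζ (cm hζ t') * V hζ W ^ ℓ = 1 := by rw [← map_pow, ← map_mul, hW, h1]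
  have hW0 : W ≠ 0 := by
    rintro rfl
    rw [map_zero, zero_pow hℓ0, mul_zero] at hVt
    exact zero_ne_one hVt
  have hVt0 : ∀ {z : K}, z ≠ 0 → V hζ (cm hζ z) ≠ 0 := fun hz =>
    (Valuation.ne_zero_iff _).2 ((_root_.map_ne_zero _).2 hz)
  have hq0 : q ≠ 0 := by
    rintro rfl
    rw [zero_pow hℓ0] at hq
    exact mul_ne_zero (zpow_ne_zero _ ht0) (zpow_ne_zero _ ht0') hq
  obtain ⟨e, he⟩ := exists_exp (hVt0 ht0)
  obtain ⟨e', he'⟩ := exists_exp (hVt0 ht0')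
  obtain ⟨g, hg⟩ := exists_exp (hVt0 hq0)
  obtain ⟨f, hf⟩ := exists_exp ((Valuation.ne_zero_iff (V hζ)).2 hW0)
  have h2 : e' + ℓ * f = 0 := by
    rw [he', hf, ← exp_nsmul, ← exp_add, ← exp_zero, exp_inj] at hVt
    simpa using hVt
  have h3 : m * e + n * e' = ℓ * g := by
    have h4 := congrArg (fun z => V hζ (cm hζ z)) hq
    simp only [map_mul, map_zpow₀, map_pow] at h4
    rw [he, he', hg, ← exp_zsmul, ← exp_zsmul, ← exp_nsmul, ← exp_add, exp_inj] at h4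
    simpa using h4
  obtain ⟨e₁, he₁⟩ : (ℓ : ℤ) ∣ e := by
    have h4 : (ℓ : ℤ) ∣ m * e := ⟨g + n * f, by linear_combination h3 - n * h2⟩
    exact (hpr.dvd_or_dvd h4).resolve_left hm
  have hξ' : V hζ ξ ≤ exp (-((ℓ - 1 : ℕ) : ℤ)) := by
    by_cases hU0 : U = 0
    · rw [← hU, hU0, zero_pow hℓ0, mul_zero, map_zero]
      exact zero_le
    obtain ⟨h, hh⟩ := exists_exp ((Valuation.ne_zero_iff (V hζ)).2 hU0)
    have h4 : V hζ ξ = exp (ℓ * (e₁ + h)) := by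
      rw [← hU, map_mul, map_pow, he, hh, ← exp_nsmul, ← exp_add, exp_inj, he₁]
      simp
      ring
    rw [h4, ← exp_zero, exp_lt_exp] at hξ
    rw [h4, exp_le_exp]
    have h5 : e₁ + h ≤ -1 := by
      by_contra hc
      push Not at hc
      have h6 : (0 : ℤ) ≤ e₁ + h := by omega
      have h7 : (0 : ℤ) ≤ ℓ * (e₁ + h) := mul_nonneg (by positivity) h6
      omega
    have h6 : (ℓ : ℤ) * (e₁ + h) ≤ ℓ * (-1) := mul_le_mul_of_nonneg_left h5 (by positivity)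
    omega
  obtain ⟨k', hk'⟩ := glob_pow hζ hcop hKL ht0' hv hW hξ'
  have hk0' : k' ≠ 0 := by
    rintro rfl
    rw [zero_pow hℓ0] at hk'
    exact ht0' hk'
  refine ⟨?_, k', hk0', hk'⟩
  obtain ⟨r, s, hrs⟩ : IsCoprime m (ℓ : ℤ) := (hpr.coprime_iff_not_dvd.2 hm).symm
  obtain ⟨k, hk⟩ : ∃ k, k = (q / k' ^ n) ^ r * t ^ s := ⟨_, rfl⟩
  have hk0 : k ≠ 0 := by
    rw [hk]
    exact mul_ne_zero (zpow_ne_zero _ (div_ne_zero hq0 (zpow_ne_zero _ hk0'))) (zpow_ne_zero _ ht0)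
  refine ⟨k, hk0, ?_⟩
  have h4 : t ^ m = (q / k' ^ n) ^ ℓ := by
    rw [div_pow, ← hq, hk', ← zpow_natCast (k' ^ n), ← zpow_mul, ← zpow_natCast k', ← zpow_mul,
      mul_comm n, mul_div_assoc, div_self (zpow_ne_zero _ hk0'), mul_one]
  rw [hk, mul_pow, ← zpow_natCast ((q / k' ^ n) ^ r), ← zpow_mul, mul_comm r, zpow_mul,
    zpow_natCast, ← h4, ← zpow_natCast (t ^ s), ← zpow_mul, ← zpow_mul, ← zpow_add₀ ht0,
    mul_comm m r, hrs, zpow_one]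

end Pool.Agent.Y158.FQ
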