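import Pool.Agent.Y158.FQ.K2
import Pool.Agent.Y158.FQ.Fin2

/-!
# Sections of Fermat quotients over `ℚ(ζ)` with a local point near a cusp
-/

set_option autoImplicit false
set_option linter.all false

open Polynomial FF Pool.Agent.Y157.PS Pool.Agent.TH954 IsDedekindDomain NumberField

namespace Pool.Agent.Y158.FQ

open Pool.Agent.Y158.KL (lam Kl KLem cm V)
open Pool.Agent.Y158.GR (fixL F_fixL plcL plcL_val genMain)

section arith

variable {K : Type} [Field K] [NumberField K] {ℓ : ℕ}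
  [hp : Fact ℓ.Prime] [hK : IsCyclotomicExtension {ℓ} ℚ K] {ζ : K} (hζ : IsPrimitiveRoot ζ ℓ)

/-- the value of a root -/
theorem val_rootK {L : Type} [Field L] [Algebra K L] (P : Plc K L (Kl hζ)) {X Z : L} {c : Kl hζ}
    {t : K} (ht : t ≠ 0) (hX : P.val X c) (h : algebraMap K L t * Z ^ ℓ = X) :
    ∃ z : Kl hζ, cm hζ t * z ^ ℓ = c := by
  have hZ : Z ∈ P.W := by
    apply Plc.mem_of_pow_mem hp.out.pos
    have e : Z ^ ℓ = algebraMap K L t⁻¹ * X := by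
      rw [← h, map_inv₀, inv_mul_cancel_left₀ ((_root_.map_ne_zero _).2 ht)]
    rw [e]
    exact mul_mem (Plc.val_alg (pl := P) t⁻¹).mem hX.mem
  obtain ⟨z, hz⟩ := Plc.val_of_mem hZ
  refine ⟨z, ?_⟩
  have h1 := (Plc.val_alg (pl := P) t).mul (hz.pow ℓ)
  rw [h] at h1
  exact h1.unique hX

/-- the two Kummer classes are trivial -/
theorem two_cls (hcop : (classNumber K).Coprime ℓ) (hKL : KLem ℓ K) {L : Type} [Field L]
    [Algebra K L] (P : Plc K L (Kl hζ)) {t t' q : K} (ht0 : t ≠ 0) (ht0' : t' ≠ 0) {m n : ℤ}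
    (hm : ¬ (ℓ : ℤ) ∣ m) (hq : t ^ m * t' ^ n = q ^ ℓ)
    (hv : ∀ v : HeightOneSpectrum (𝓞 K), (ℓ : 𝓞 K) ∉ v.asIdeal →
      ∃ r : K, v.valuation K t' = v.valuation K r ^ ℓ)
    {X U W : L} (hU : algebraMap K L t * U ^ ℓ = X) (hW : algebraMap K L t' * W ^ ℓ = 1 - X)
    {ξ : Kl hζ} (hX : P.val X ξ) (hξ : V hζ ξ < 1) :
    (∃ k : K, k ≠ 0 ∧ t = k ^ ℓ) ∧ (∃ k : K, k ≠ 0 ∧ t' = k ^ ℓ) := by
  obtain ⟨u, hu⟩ := val_rootK hζ P ht0 hX hU
  have h1 : P.val (1 - X) (1 - ξ) := Plc.val_one.sub hX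
  obtain ⟨w, hw⟩ := val_rootK hζ P ht0' h1 hW
  exact two_pow hζ hcop hKL ht0 ht0' hm hq hv hu hw hξ

/-- the three cases -/
theorem three_cls (hodd : Odd ℓ) (hcop : (classNumber K).Coprime ℓ) (hKL : KLem ℓ K) {L : Type}
    [Field L] [Algebra K L] (P : Plc K L (Kl hζ)) {t t' q : K} (ht0 : t ≠ 0) (ht0' : t' ≠ 0)
    {a b : ℕ} (ha : ¬ ℓ ∣ a) (hb : ¬ ℓ ∣ b) (hab : ¬ ℓ ∣ a + b) (hq : t ^ a * t' ^ b = q ^ ℓ)
    (hv : ∀ v : HeightOneSpectrum (𝓞 K), (ℓ : 𝓞 K) ∉ v.asIdeal →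
      (∃ r : K, v.valuation K t = v.valuation K r ^ ℓ) ∧
      (∃ r : K, v.valuation K t' = v.valuation K r ^ ℓ))
    {X U W : L} (hX0 : X ≠ 0) (hU : algebraMap K L t * U ^ ℓ = X)
    (hW : algebraMap K L t' * W ^ ℓ = 1 - X)
    {ξ : Kl hζ} (hX : P.val X ξ ∨ P.val (1 - X) ξ ∨ P.val X⁻¹ ξ) (hξ : V hζ ξ < 1) :
    (∃ k : K, k ≠ 0 ∧ t = k ^ ℓ) ∧ (∃ k : K, k ≠ 0 ∧ t' = k ^ ℓ) := by
  have haZ : ¬ (ℓ : ℤ) ∣ a := fun h => ha (Int.natCast_dvd_natCast.1 h)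
  have hbZ : ¬ (ℓ : ℤ) ∣ b := fun h => hb (Int.natCast_dvd_natCast.1 h)
  have habZ : ¬ (ℓ : ℤ) ∣ -((a : ℤ) + b) := fun h =>
    hab (by exact_mod_cast (dvd_neg.1 h))
  rcases hX with hX | hX | hX
  · exact two_cls hζ hcop hKL P ht0 ht0' (m := a) (n := b) haZ
      (by rw [zpow_natCast, zpow_natCast, hq]) (fun v h => (hv v h).2) hU hW hX hξ
  · obtain ⟨h1, h2⟩ := two_cls hζ hcop hKL P ht0' ht0 (m := b) (n := a) hbZ
      (by rw [zpow_natCast, zpow_natCast, mul_comm, hq]) (fun v h => (hv v h).1) hW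
      (by rw [sub_sub_cancel]; exact hU) hX hξ
    exact ⟨h2, h1⟩
  · have hU0 : U ≠ 0 := by
      rintro rfl
      rw [zero_pow hp.out.ne_zero, mul_zero] at hU
      exact hX0 hU.symm
    have htL : algebraMap K L t ≠ 0 := (_root_.map_ne_zero _).2 ht0
    obtain ⟨⟨k, hk0, hk⟩, ⟨k', hk0', hk'⟩⟩ := two_cls hζ hcop hKL P (t := t⁻¹) (t' := t' / t)
      (q := q) (inv_ne_zero ht0) (div_ne_zero ht0' ht0) (m := -((a : ℤ) + b)) (n := b) habZ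
      (by
        rw [← hq, inv_zpow', neg_neg, div_zpow, zpow_add₀ ht0, zpow_natCast, zpow_natCast,
          zpow_natCast]
        have := pow_ne_zero b ht0
        field_simp)
      (fun v h => by
        obtain ⟨⟨r, hr⟩, ⟨r', hr'⟩⟩ := hv v h
        exact ⟨r' / r, by rw [map_div₀, map_div₀, hr, hr', div_pow]⟩)
      (X := X⁻¹) (U := U⁻¹) (W := -(W / U)) (by
        rw [← hU, map_inv₀, mul_inv, inv_pow]) (by
        rw [hodd.neg_pow, div_pow, map_div₀]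
        have h1 : X⁻¹ = (algebraMap K L t * U ^ ℓ)⁻¹ := by rw [hU]
        have h2 : algebraMap K L t' * W ^ ℓ = 1 - algebraMap K L t * U ^ ℓ := by rw [hU, hW]
        have h3 := pow_ne_zero ℓ hU0
        rw [h1]
        field_simp
        linear_combination -h2) hX hξ
    have h1 : t = k⁻¹ ^ ℓ := by rw [inv_pow, ← hk, inv_inv]
    refine ⟨⟨k⁻¹, inv_ne_zero hk0, h1⟩, ⟨k' * k⁻¹, mul_ne_zero hk0' (inv_ne_zero hk0), ?_⟩⟩
    rw [mul_pow, ← hk', ← h1, div_mul_cancel₀ _ ht0]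

end arith

end Pool.Agent.Y158.FQ
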