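import Pool.Agent.Y158.FQ.K3

/-!
# Sections of Fermat quotients over `ℚ(ζ)` with a local point near a cusp, 2
-/

set_option autoImplicit false
set_option linter.all false

open Polynomial FF Pool.Agent.Y157.PS Pool.Agent.TH954 IsDedekindDomain NumberField

namespace Pool.Agent.Y158.FQ

open Pool.Agent.Y158.KL (lam Kl KLem cm V)
open Pool.Agent.Y158.GR (fixL F_fixL plcL plcL_val genMain)

section

variable {K : Type} [Field K] [NumberField K] {ℓ : ℕ}
  [hp : Fact ℓ.Prime] [hK : IsCyclotomicExtension {ℓ} ℚ K] {ζ : K} (hζ : IsPrimitiveRoot ζ ℓ)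
  {F Ω B : Type} [Field F] [Field Ω] [Field B] [Algebra K F] [Algebra F Ω]
  [Algebra K Ω] [Algebra K B] [IsScalarTower K F Ω] [IsAlgClosed Ω] [Algebra.IsAlgebraic F Ω]
  [IsAlgClosure K B]
  {C : Type} [Field C] [Algebra (Kl hζ) C] [Algebra K C] [IsScalarTower K (Kl hζ) C]
  [IsAlgClosure (Kl hζ) C]

include hK hζ in
/-- sections which fix coordinates of the Fermat curve -/
theorem kAbs (hodd : Odd ℓ) (hcop : (classNumber K).Coprime ℓ) (hKL : KLem ℓ K)
    (x : F) (hx : Transcendental K x)
    (hF : Algebra.IsAlgebraic (IntermediateField.adjoin K {x}) F)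
    (u w : Ω) (N : IntermediateField F Ω)
    (hN : ∀ z ∈ geomPro ℓ K (IntermediateField.adjoin K {u, w}) Ω, z ∈ N)
    (s : GalSection K F N B) (p : Plc K N C) (hpv : s.GivenBy (Kl hζ) p)
    (U W : N) (c c' : Ω) (hcm : c ∈ algebraicClosure K Ω) (hcm' : c' ∈ algebraicClosure K Ω)
    (hc : c ≠ 0) (hc' : c' ≠ 0) (hUs : ∀ g, s.s g U = U) (hWs : ∀ g, s.s g W = W)
    (hU : (U : Ω) = c * u) (hW : (W : Ω) = c' * w)
    (hUx : U ^ ℓ = algebraMap F N x) (hWx : W ^ ℓ = algebraMap F N (1 - x)) :
    (p.val (algebraMap F N x) 0 ∨ p.val (algebraMap F N (1 - x)) 0 ∨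
        p.val (algebraMap F N x)⁻¹ 0) ∧
      ∀ (g : B ≃ₐ[K] B) (z : N),
        (z : Ω) ∈ geomPro ℓ K (IntermediateField.adjoin K {u, w}) Ω →
        (s.s g z ∈ p.W ↔ z ∈ p.W) := by
  haveI : Algebra.IsAlgebraic K B := IsAlgClosure.isAlgebraic
  let F' : IntermediateField F Ω := IntermediateField.adjoin F {(U : Ω), (W : Ω)}
  have hF'N : F' ≤ N := by
    rw [IntermediateField.adjoin_le_iff]
    rintro z (hz | hz)
    · rw [hz]; exact U.2
    · rw [Set.mem_singleton_iff] at hz
      rw [hz]; exact W.2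
  let N' : IntermediateField F' Ω := IntermediateField.extendScalars hF'N
  let e : N ≃+* N' :=
    { toFun := fun z => ⟨(z : Ω), (IntermediateField.mem_extendScalars hF'N).2 z.2⟩
      invFun := fun z => ⟨(z : Ω), (IntermediateField.mem_extendScalars hF'N).1 z.2⟩
      left_inv := fun z => rfl
      right_inv := fun z => rfl
      map_mul' := fun _ _ => rfl
      map_add' := fun _ _ => rfl }
  have he : ∀ z : N, ((e z : N') : Ω) = (z : Ω) := fun z => rfl
  have hfix : ∀ (r : F') (g : B ≃ₐ[K] B) (z : N), (z : Ω) = algebraMap F' Ω r →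
      s.s (g.restrictScalars K) z = z := by
    intro r g z hz
    let T : Subfield Ω := Subfield.map (algebraMap N Ω)
      (RingHom.eqLocusField ((s.s (g.restrictScalars K) : N ≃ₐ[F] N) : N →+* N) (RingHom.id N))
    have hT : ∀ t : N, s.s (g.restrictScalars K) t = t → (t : Ω) ∈ T := fun t ht => ⟨t, ht, rfl⟩
    have h1 : (r : Ω) ∈ T := by
      refine adjoin_le_sub (T := T) (fun q => ?_) (fun t ht => ?_) _ r.2
      · exact hT (algebraMap F N q) ((s.s (g.restrictScalars K)).commutes q)
      · rcases ht with ht | ht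
        · rw [ht]; exact hT U (hUs _)
        · rw [Set.mem_singleton_iff] at ht
          rw [ht]; exact hT W (hWs _)
    obtain ⟨t, ht, htr⟩ := h1
    have h2 : t = z := Subtype.ext (htr.trans hz.symm)
    rw [← h2]
    exact ht
  have hKB : ∀ c : K, ((s.j (algebraMap K B c) : N) : Ω) = algebraMap K Ω c := fun c => by
    rw [AlgHom.commutes]
    rfl
  have hKC : ∀ c : K, p.val (s.j (algebraMap K B c)) (algebraMap K C c) := fun c => by
    rw [AlgHom.commutes]
    exact p.comm c
  haveI : IsScalarTower K F' Ω := IsScalarTower.of_algebraMap_eq fun _ => rfl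
  have hinj : Function.Injective (algebraMap F' Ω) := (algebraMap F' Ω).injective
  haveI hF'Ω : Algebra.IsAlgebraic F' Ω := Algebra.IsAlgebraic.tower_top (K := F) F'
  obtain ⟨X, hX⟩ : ∃ X : F', algebraMap F' Ω X = (U : Ω) :=
    ⟨⟨(U : Ω), IntermediateField.subset_adjoin F _ (by simp)⟩, rfl⟩
  obtain ⟨Y, hY⟩ : ∃ Y : F', algebraMap F' Ω Y = (W : Ω) :=
    ⟨⟨(W : Ω), IntermediateField.subset_adjoin F _ (by simp)⟩, rfl⟩
  have hXl : algebraMap F' Ω X ^ ℓ = algebraMap F Ω x := by
    rw [hX]
    exact congrArg (algebraMap N Ω) hUx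
  have hYl : algebraMap F' Ω Y ^ ℓ = 1 - algebraMap F Ω x := by
    rw [hY]
    have h3 := congrArg (algebraMap N Ω) hWx
    have h4 : algebraMap N Ω (algebraMap F N (1 - x)) = 1 - algebraMap F Ω x := by
      change algebraMap F Ω (1 - x) = _
      rw [map_sub, map_one]
    rw [h4] at h3
    exact h3
  have hXt : Transcendental K X := by
    intro h
    have h1 : IsAlgebraic K (algebraMap F' Ω X) := h.algebraMap
    have h3 : IsAlgebraic K (algebraMap F Ω x) := by rw [← hXl]; exact h1.pow ℓ
    exact (transcendental_algebraMap_iff (R := K) (algebraMap F Ω).injective (a := x)).2 hx h3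
  have hEF : Algebra.IsAlgebraic (IntermediateField.adjoin K {X}) F' := by
    let R : IntermediateField K Ω := IntermediateField.adjoin K {algebraMap F' Ω X}
    have hR : Algebra.IsAlgebraic R Ω := by
      refine alg_over hF R ?_
      rw [← hXl]
      exact pow_mem (IntermediateField.subset_adjoin K _ (by simp)) _
    have hRmem : ∀ z ∈ R, ∃ z' : IntermediateField.adjoin K {X}, algebraMap F' Ω z' = z := by
      intro z hz
      have h2 := IntermediateField.adjoin_map K {X} (IsScalarTower.toAlgHom K F' Ω)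
      rw [Set.image_singleton] at h2
      have hz2 : z ∈ IntermediateField.adjoin K {(IsScalarTower.toAlgHom K F' Ω) X} := hz
      rw [← h2] at hz2
      obtain ⟨z', hz', hz''⟩ := hz2
      exact ⟨⟨z', hz'⟩, hz''⟩
    have hEΩ : Algebra.IsAlgebraic (IntermediateField.adjoin K {X}) Ω := by
      choose f hf using fun z : R => hRmem z z.2
      have hinj := (algebraMap (IntermediateField.adjoin K {X}) Ω).injective
      have hf' : ∀ z : R, algebraMap (IntermediateField.adjoin K {X}) Ω (f z) = z := hf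
      let i : R →+* IntermediateField.adjoin K {X} :=
        { toFun := f
          map_one' := hinj (by rw [hf', map_one]; rfl)
          map_mul' := fun a b => hinj (by rw [hf', map_mul, hf', hf']; rfl)
          map_zero' := hinj (by rw [hf', map_zero]; rfl)
          map_add' := fun a b => hinj (by rw [hf', map_add, hf', hf']; rfl) }
      refine ⟨fun z => ?_⟩
      obtain ⟨q, hq, hqz⟩ := Algebra.IsAlgebraic.isAlgebraic (R := R) z
      refine ⟨q.map i, (Polynomial.map_ne_zero_iff i.injective).2 hq, ?_⟩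
      rw [aeval_def, eval₂_map]
      have h3 : (algebraMap (IntermediateField.adjoin K {X}) Ω).comp i = algebraMap R Ω :=
        RingHom.ext fun z => hf' z
      rw [h3]
      exact hqz
    exact Algebra.IsAlgebraic.tower_bot (IntermediateField.adjoin K {X}) F' Ω
  have hgp : ∀ z, z ∈ geomPro ℓ K (IntermediateField.adjoin K {X ^ 1, Y ^ 1}) Ω ↔
      z ∈ geomPro ℓ K (IntermediateField.adjoin K {u, w}) Ω := by
    rw [pow_one, pow_one]
    exact geomPro_base (k := K) (K := K) hcm hcm' hc hc' (by rw [hX, hU]) (by rw [hY, hW])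
  obtain ⟨h1, h2⟩ := genMain hζ hodd hcop hKL (m := 1) one_ne_zero X Y hXt hEF (by
      apply hinj
      rw [mul_one, map_add, map_pow, map_pow, hXl, hYl, map_one]
      ring) N' (fun z hz => (IntermediateField.mem_extendScalars hF'N).2 (hN z ((hgp z).1 hz)))
    (extSec e he s hKB hfix) (extPlc e he s p hKB hKC) (extGiven e he s p hKB hKC hfix (Kl hζ) hpv)
  constructor
  · have hXe : e.symm (algebraMap F' N' X) ^ ℓ = algebraMap F N x := by
      apply Subtype.ext
      exact hXl
    have hYe : e.symm (algebraMap F' N' Y) ^ ℓ = algebraMap F N (1 - x) := by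
      apply Subtype.ext
      change algebraMap F' Ω Y ^ ℓ = algebraMap F Ω (1 - x)
      rw [hYl, map_sub, map_one]
    rcases h1 with h1 | h1 | h1
    · left
      rw [extPlc_val] at h1
      have h3 := h1.pow ℓ
      rw [hXe, zero_pow hp.out.ne_zero] at h3
      exact h3
    · right; left
      rw [extPlc_val] at h1
      have h3 := h1.pow ℓ
      rw [hYe, zero_pow hp.out.ne_zero] at h3
      exact h3
    · right; right
      rw [extPlc_val, map_inv₀] at h1
      have h3 := h1.pow ℓ
      rw [inv_pow, hXe, zero_pow hp.out.ne_zero] at h3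
      exact h3
  · intro g z hz
    have h3 := h2 g (e z) ((hgp _).2 hz)
    rw [extPlc_mem, extPlc_mem, extSec_apply, e.symm_apply_apply, e.symm_apply_apply] at h3
    exact h3

include hK hζ in
/-- the theorem for elements `y` of `F` -/
theorem kFin (hodd : Odd ℓ) (hcop : (classNumber K).Coprime ℓ) (hKL : KLem ℓ K)
    {a b : ℕ} (ha : ¬ ℓ ∣ a) (hb : ¬ ℓ ∣ b)
    (hab : ¬ ℓ ∣ a + b) (x y : F) (hx : Transcendental K x)
    (hF : Algebra.IsAlgebraic (IntermediateField.adjoin K {x}) F)
    (hxy : y ^ ℓ = x ^ a * (1 - x) ^ b)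
    (N : IntermediateField F Ω)
    (hN : ∀ z ∈ geomPro ℓ K (IntermediateField.adjoin K {x, y}) Ω, z ∈ N)
    (s : GalSection K F N B) (p : Plc K N C) (hpv : s.GivenBy (Kl hζ) p)
    {ξ : Kl hζ} (hξ : V hζ ξ < 1) (hnear : p.val (algebraMap F N x) (algebraMap (Kl hζ) C ξ) ∨
      p.val (algebraMap F N (1 - x)) (algebraMap (Kl hζ) C ξ) ∨
      p.val (algebraMap F N x)⁻¹ (algebraMap (Kl hζ) C ξ)) :
    (p.val (algebraMap F N x) 0 ∨ p.val (algebraMap F N x) 1 ∨
        p.val (algebraMap F N x)⁻¹ 0) ∧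
      ∀ (g : B ≃ₐ[K] B) (z : N),
        (z : Ω) ∈ geomPro ℓ K (IntermediateField.adjoin K {x, y}) Ω →
        (s.s g z ∈ p.W ↔ z ∈ p.W) := by
  haveI hcz : CharZero (Kl hζ) :=
    charZero_of_injective_algebraMap (Pool.Agent.Y158.KL.cm hζ).injective
  haveI : Normal K B := IsAlgClosure.normal K B
  haveI : Algebra.IsAlgebraic K B := IsAlgClosure.isAlgebraic
  have hx0 : x ≠ 0 := by
    rintro rfl
    exact hx isAlgebraic_zero
  have hx1 : 1 - x ≠ 0 := by
    intro h
    have h1 : x = 1 := by linear_combination -h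
    rw [h1] at hx
    exact hx isAlgebraic_one
  have hy0 : y ≠ 0 := by
    rintro rfl
    rw [zero_pow hp.out.ne_zero] at hxy
    exact mul_ne_zero (pow_ne_zero _ hx0) (pow_ne_zero _ hx1) hxy.symm
  obtain ⟨u, w, hu, hw, huw⟩ := exists_uw (Ω := Ω) (b := b) ha hy0 hxy
  have hgp := geomPro_quot (k := K) hodd ha hb hab x y hx hF u w hu hw huw
  have hN' : ∀ z ∈ geomPro ℓ K (IntermediateField.adjoin K {u, w}) Ω, z ∈ N :=
    fun z hz => hN z ((hgp z).1 hz)
  obtain ⟨U, W, c, c', t, t', q, ht0, ht0', hUs, hWs, hU, hW, hUx, hWx, hq, hv⟩ :=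
    descK hodd ha hb hab x y hx hF u w hu hw huw N hN' s
  have hNx0 : algebraMap F N x ≠ 0 := (_root_.map_ne_zero _).2 hx0
  have hU0 : (U : Ω) ≠ 0 := by
    intro h
    have h1 : U = 0 := Subtype.ext h
    rw [h1, zero_pow hp.out.ne_zero, mul_zero] at hUx
    exact hNx0 hUx.symm
  have hW0 : (W : Ω) ≠ 0 := by
    intro h
    have h1 : W = 0 := Subtype.ext h
    rw [h1, zero_pow hp.out.ne_zero, mul_zero] at hWx
    exact (_root_.map_ne_zero (algebraMap F N)).2 hx1 hWx.symm
  have hc0 : (c : Ω) ≠ 0 := by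
    intro h
    rw [h, zero_mul] at hU
    exact hU0 hU
  have hc0' : (c' : Ω) ≠ 0 := by
    intro h
    rw [h, zero_mul] at hW
    exact hW0 hW
  -- the place of the fixed field
  have hval : ∀ z : fixL s, p.val (z : N) (algebraMap (Kl hζ) C ξ) → (plcL hpv).val z ξ := by
    intro z hz
    have hzW : z ∈ (plcL hpv).W := hz.mem
    obtain ⟨d, hd⟩ := Plc.val_of_mem hzW
    have h1 := (plcL_val hd).unique hz
    rw [(algebraMap (Kl hζ) C).injective h1] at hd
    exact hd
  obtain ⟨⟨k, hk0, hk⟩, ⟨k', hk0', hk'⟩⟩ := three_cls hζ hodd hcop hKL (plcL hpv) ht0 ht0' ha hb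
    hab hq hv (X := ⟨algebraMap F N x, F_fixL s x⟩) (U := ⟨U, hUs⟩) (W := ⟨W, hWs⟩)
    (fun h => hNx0 (congrArg Subtype.val h)) (Subtype.ext hUx) (Subtype.ext (by
      change algebraMap K N t' * W ^ ℓ = 1 - algebraMap F N x
      rw [hWx, map_sub, map_one])) (ξ := ξ) (by
      rcases hnear with h | h | h
      · exact Or.inl (hval _ h)
      · refine Or.inr (Or.inl (hval _ ?_))
        rw [map_sub, map_one] at h
        exact h
      · exact Or.inr (Or.inr (hval _ h))) hξ
  have hfixK : ∀ (r : K) g, s.s g (algebraMap K N r) = algebraMap K N r := by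
    intro r g
    rw [IsScalarTower.algebraMap_apply K F N]
    exact (s.s g).commutes _
  have hcoe : ∀ r : K, ((algebraMap K N r : N) : Ω) = algebraMap K Ω r := fun r => rfl
  obtain ⟨h1, h2⟩ := kAbs hζ hodd hcop hKL x hx hF u w N hN' s p hpv
    (algebraMap K N k * U) (algebraMap K N k' * W) (algebraMap K Ω k * c) (algebraMap K Ω k' * c')
    (mul_mem ((algebraicClosure K Ω).algebraMap_mem k) c.2)
    (mul_mem ((algebraicClosure K Ω).algebraMap_mem k') c'.2)
    (mul_ne_zero ((_root_.map_ne_zero _).2 hk0) hc0)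
    (mul_ne_zero ((_root_.map_ne_zero _).2 hk0') hc0')
    (fun g => by rw [map_mul, hfixK, hUs]) (fun g => by rw [map_mul, hfixK, hWs])
    (by
      change ((algebraMap K N k : N) : Ω) * (U : Ω) = _
      rw [hU, hcoe, mul_assoc])
    (by
      change ((algebraMap K N k' : N) : Ω) * (W : Ω) = _
      rw [hW, hcoe, mul_assoc])
    (by rw [mul_pow, ← map_pow, ← hk, hUx]) (by rw [mul_pow, ← map_pow, ← hk', hWx])
  refine ⟨?_, fun g z hz => h2 g z ((hgp _).2 hz)⟩
  rcases h1 with h1 | h1 | h1
  · exact Or.inl h1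
  · right; left
    have h3 : p.val (1 : N) 1 := Plc.val_one
    have h4 := h3.sub h1
    rw [map_sub, map_one, sub_sub_cancel, sub_zero] at h4
    exact h4
  · exact Or.inr (Or.inr h1)

include hK hζ in
/-- the theorem for sections which fix `y` -/
theorem kFin2 (hodd : Odd ℓ) (hcop : (classNumber K).Coprime ℓ) (hKL : KLem ℓ K)
    {a b : ℕ} (ha : ¬ ℓ ∣ a) (hb : ¬ ℓ ∣ b)
    (hab : ¬ ℓ ∣ a + b) (x : F) (hx : Transcendental K x)
    (hF : Algebra.IsAlgebraic (IntermediateField.adjoin K {x}) F)
    (N : IntermediateField F Ω) (s : GalSection K F N B) (y : N)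
    (hxy : y ^ ℓ = algebraMap F N (x ^ a * (1 - x) ^ b)) (hys : ∀ g, s.s g y = y)
    (hN : ∀ z ∈ geomPro ℓ K (IntermediateField.adjoin K {algebraMap F Ω x, (y : Ω)}) Ω, z ∈ N)
    (p : Plc K N C) (hpv : s.GivenBy (Kl hζ) p)
    {ξ : Kl hζ} (hξ : V hζ ξ < 1) (hnear : p.val (algebraMap F N x) (algebraMap (Kl hζ) C ξ) ∨
      p.val (algebraMap F N (1 - x)) (algebraMap (Kl hζ) C ξ) ∨
      p.val (algebraMap F N x)⁻¹ (algebraMap (Kl hζ) C ξ)) :
    (p.val (algebraMap F N x) 0 ∨ p.val (algebraMap F N x) 1 ∨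
        p.val (algebraMap F N x)⁻¹ 0) ∧
      ∀ (g : B ≃ₐ[K] B) (z : N),
        (z : Ω) ∈ geomPro ℓ K (IntermediateField.adjoin K {algebraMap F Ω x, (y : Ω)}) Ω →
        (s.s g z ∈ p.W ↔ z ∈ p.W) := by
  haveI : Algebra.IsAlgebraic K B := IsAlgClosure.isAlgebraic
  let F' : IntermediateField F Ω := IntermediateField.adjoin F {(y : Ω)}
  have hF'N : F' ≤ N := by
    rw [IntermediateField.adjoin_le_iff, Set.singleton_subset_iff]
    exact y.2
  let N' : IntermediateField F' Ω := IntermediateField.extendScalars hF'N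
  let e : N ≃+* N' :=
    { toFun := fun z => ⟨(z : Ω), (IntermediateField.mem_extendScalars hF'N).2 z.2⟩
      invFun := fun z => ⟨(z : Ω), (IntermediateField.mem_extendScalars hF'N).1 z.2⟩
      left_inv := fun z => rfl
      right_inv := fun z => rfl
      map_mul' := fun _ _ => rfl
      map_add' := fun _ _ => rfl }
  have he : ∀ z : N, ((e z : N') : Ω) = (z : Ω) := fun z => rfl
  have hfix : ∀ (r : F') (g : B ≃ₐ[K] B) (z : N), (z : Ω) = algebraMap F' Ω r →
      s.s (g.restrictScalars K) z = z := by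
    intro r g z hz
    let T : Subfield Ω := Subfield.map (algebraMap N Ω)
      (RingHom.eqLocusField ((s.s (g.restrictScalars K) : N ≃ₐ[F] N) : N →+* N) (RingHom.id N))
    have hT : ∀ t : N, s.s (g.restrictScalars K) t = t → (t : Ω) ∈ T := fun t ht => ⟨t, ht, rfl⟩
    have h1 : (r : Ω) ∈ T := by
      refine adjoin_le_sub (T := T) (fun q => ?_) (fun t ht => ?_) _ r.2
      · exact hT (algebraMap F N q) ((s.s (g.restrictScalars K)).commutes q)
      · rw [Set.mem_singleton_iff] at ht
        rw [ht]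
        exact hT y (hys _)
    obtain ⟨t, ht, htr⟩ := h1
    have h2 : t = z := Subtype.ext (htr.trans hz.symm)
    rw [← h2]
    exact ht
  have hKB : ∀ c : K, ((s.j (algebraMap K B c) : N) : Ω) = algebraMap K Ω c := fun c => by
    rw [AlgHom.commutes]
    rfl
  have hKC : ∀ c : K, p.val (s.j (algebraMap K B c)) (algebraMap K C c) := fun c => by
    rw [AlgHom.commutes]
    exact p.comm c
  haveI : IsScalarTower K F' Ω := IsScalarTower.of_algebraMap_eq fun _ => rfl
  have hinj : Function.Injective (algebraMap F' Ω) := (algebraMap F' Ω).injective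
  haveI hF'Ω : Algebra.IsAlgebraic F' Ω := Algebra.IsAlgebraic.tower_top (K := F) F'
  obtain ⟨x', hx'⟩ : ∃ x' : F', algebraMap F' Ω x' = algebraMap F Ω x :=
    ⟨algebraMap F F' x, rfl⟩
  obtain ⟨y', hy'⟩ : ∃ y' : F', algebraMap F' Ω y' = (y : Ω) :=
    ⟨⟨(y : Ω), IntermediateField.mem_adjoin_simple_self F _⟩, rfl⟩
  have hx't : Transcendental K x' := by
    intro h
    have h1 : IsAlgebraic K (algebraMap F' Ω x') := h.algebraMap
    rw [hx'] at h1
    exact (transcendental_algebraMap_iff (R := K) (algebraMap F Ω).injective (a := x)).2 hx h1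
  have hF'x : Algebra.IsAlgebraic (IntermediateField.adjoin K {x'}) F' := by
    let R : IntermediateField K Ω := IntermediateField.adjoin K {algebraMap F Ω x}
    have hR : Algebra.IsAlgebraic R Ω := alg_over hF R (IntermediateField.mem_adjoin_simple_self K _)
    have hRmem : ∀ z ∈ R, ∃ z' : IntermediateField.adjoin K {x'}, algebraMap F' Ω z' = z := by
      intro z hz
      have h2 := IntermediateField.adjoin_map K {x'} (IsScalarTower.toAlgHom K F' Ω)
      rw [Set.image_singleton] at h2
      have hz2 : z ∈ IntermediateField.adjoin K {(IsScalarTower.toAlgHom K F' Ω) x'} := by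
        have h3 : (IsScalarTower.toAlgHom K F' Ω) x' = algebraMap F Ω x := hx'
        rw [h3]
        exact hz
      rw [← h2] at hz2
      obtain ⟨z', hz', hz''⟩ := hz2
      exact ⟨⟨z', hz'⟩, hz''⟩
    have hEΩ : Algebra.IsAlgebraic (IntermediateField.adjoin K {x'}) Ω := by
      choose f hf using fun z : R => hRmem z z.2
      have hinj := (algebraMap (IntermediateField.adjoin K {x'}) Ω).injective
      have hf' : ∀ z : R, algebraMap (IntermediateField.adjoin K {x'}) Ω (f z) = z := hf
      let i : R →+* IntermediateField.adjoin K {x'} :=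
        { toFun := f
          map_one' := hinj (by rw [hf', map_one]; rfl)
          map_mul' := fun a b => hinj (by rw [hf', map_mul, hf', hf']; rfl)
          map_zero' := hinj (by rw [hf', map_zero]; rfl)
          map_add' := fun a b => hinj (by rw [hf', map_add, hf', hf']; rfl) }
      refine ⟨fun z => ?_⟩
      obtain ⟨q, hq, hqz⟩ := Algebra.IsAlgebraic.isAlgebraic (R := R) z
      refine ⟨q.map i, (Polynomial.map_ne_zero_iff i.injective).2 hq, ?_⟩
      rw [aeval_def, eval₂_map]
      have h3 : (algebraMap (IntermediateField.adjoin K {x'}) Ω).comp i = algebraMap R Ω :=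
        RingHom.ext fun z => hf' z
      rw [h3]
      exact hqz
    exact Algebra.IsAlgebraic.tower_bot (IntermediateField.adjoin K {x'}) F' Ω
  have hxy' : y' ^ ℓ = x' ^ a * (1 - x') ^ b := by
    apply hinj
    have h1 := congrArg (algebraMap N Ω) hxy
    rw [map_pow, map_mul, map_pow, map_pow, map_sub, map_one, hx', hy']
    have h2 : algebraMap N Ω (algebraMap F N (x ^ a * (1 - x) ^ b)) =
        algebraMap F Ω x ^ a * (1 - algebraMap F Ω x) ^ b := by
      change algebraMap F Ω (x ^ a * (1 - x) ^ b) = _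
      rw [map_mul, map_pow, map_pow, map_sub, map_one]
    rw [h2, map_pow] at h1
    exact h1
  have hgp : ∀ z, z ∈ geomPro ℓ K (IntermediateField.adjoin K {x', y'}) Ω ↔
      z ∈ geomPro ℓ K (IntermediateField.adjoin K {algebraMap F Ω x, (y : Ω)}) Ω :=
    geomPro_base (k := K) (K := K) (c := 1) (c' := 1) (one_mem _) (one_mem _) one_ne_zero
      one_ne_zero (by rw [hx', one_mul]) (by rw [hy', one_mul])
  have hex : e.symm (algebraMap F' N' x') = algebraMap F N x := Subtype.ext hx'
  obtain ⟨h1, h2⟩ := kFin hζ hodd hcop hKL ha hb hab x' y' hx't hF'x hxy' N'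
    (fun z hz => (IntermediateField.mem_extendScalars hF'N).2 (hN z ((hgp z).1 hz)))
    (extSec e he s hKB hfix) (extPlc e he s p hKB hKC)
    (extGiven e he s p hKB hKC hfix (Kl hζ) hpv) hξ (by
      rw [extPlc_val, extPlc_val, extPlc_val, map_inv₀, hex]
      have h3 : e.symm (algebraMap F' N' (1 - x')) = algebraMap F N (1 - x) := by
        apply Subtype.ext
        change algebraMap F' Ω (1 - x') = algebraMap F Ω (1 - x)
        rw [map_sub, map_sub, map_one, map_one, hx']
      rw [h3]
      exact hnear)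
  constructor
  · rw [extPlc_val, extPlc_val, extPlc_val, map_inv₀, hex] at h1
    exact h1
  · intro g z hz
    have h3 := h2 g (e z) ((hgp _).2 hz)
    rw [extPlc_mem, extPlc_mem, extSec_apply, e.symm_apply_apply, e.symm_apply_apply] at h3
    exact h3

end

end Pool.Agent.Y158.FQ
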