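import Pool.Agent.Y158.GR.Gen

/-!
# The local condition at `ℓ`
-/

set_option autoImplicit false
set_option linter.all false

open Polynomial Pool.Agent.TH954 IsDedekindDomain NumberField WithZero

namespace Pool.Agent.Y158.FQ

open Pool.Agent.Y158.KL (lam Kl KLem V V_ell exists_exp)

variable {K : Type} [Field K] [NumberField K] {ℓ : ℕ}
  [hp : Fact ℓ.Prime] [hK : IsCyclotomicExtension {ℓ} ℚ K] {ζ : K} (hζ : IsPrimitiveRoot ζ ℓ)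

theorem V_ellz (i : ℤ) : V hζ ((ℓ : Kl hζ) ^ i) = exp (-((ℓ : ℤ) - 1) * i) := by
  have h1 : ((ℓ - 1 : ℕ) : ℤ) = (ℓ : ℤ) - 1 := by
    have := hp.out.pos
    omega
  rw [map_zpow₀, V_ell, h1, ← exp_zsmul, smul_eq_mul]
  congr 1
  ring

theorem V_term (i : ℤ) {α : Kl hζ} (hα : α ≠ 0) : ∃ m : ℤ,
    V hζ ((ℓ : Kl hζ) ^ i * α ^ ℓ) = exp (-((ℓ : ℤ) - 1) * i + ℓ * m) := by
  obtain ⟨m, hm⟩ := exists_exp ((Valuation.ne_zero_iff (V hζ)).2 hα)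
  refine ⟨m, ?_⟩
  rw [map_mul, V_ellz, map_pow, hm, ← exp_nsmul, ← exp_add, nsmul_eq_mul]

theorem loc0 {i j : ℤ} {δ : Kl hζ} (h : (ℓ : Kl hζ) ^ i + (ℓ : Kl hζ) ^ j * δ ^ ℓ = 0) :
    (ℓ : ℤ) ∣ i - j := by
  haveI : CharZero (Kl hζ) :=
    charZero_of_injective_algebraMap (Pool.Agent.Y158.KL.cm hζ).injective
  have hℓ0 : (ℓ : Kl hζ) ≠ 0 := Nat.cast_ne_zero.2 hp.out.ne_zero
  have hδ : δ ≠ 0 := by
    rintro rfl
    rw [zero_pow hp.out.ne_zero, mul_zero, add_zero] at h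
    exact zpow_ne_zero i hℓ0 h
  obtain ⟨m, hm⟩ := V_term hζ j hδ
  have h1 : (ℓ : Kl hζ) ^ i = -((ℓ : Kl hζ) ^ j * δ ^ ℓ) := by linear_combination h
  have h2 := congrArg (V hζ) h1
  rw [Valuation.map_neg, hm, V_ellz, exp_inj] at h2
  exact ⟨i - j + m, by linear_combination h2⟩

theorem loc1 {i j : ℤ} {α β : Kl hζ}
    (h : (ℓ : Kl hζ) ^ i * α ^ ℓ + (ℓ : Kl hζ) ^ j * β ^ ℓ = 1) :
    (ℓ : ℤ) ∣ i ∨ (ℓ : ℤ) ∣ j ∨ (ℓ : ℤ) ∣ i - j := by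
  have hone : ∀ {i : ℤ} {α : Kl hζ}, (ℓ : Kl hζ) ^ i * α ^ ℓ = 1 → (ℓ : ℤ) ∣ i := by
    intro i α h
    have hα : α ≠ 0 := by
      rintro rfl
      rw [zero_pow hp.out.ne_zero, mul_zero] at h
      exact zero_ne_one h
    obtain ⟨m, hm⟩ := V_term hζ i hα
    rw [h, map_one, ← exp_zero, exp_inj] at hm
    exact ⟨i - m, by linear_combination -hm⟩
  have hexp : ∀ {i m : ℤ}, exp (-((ℓ : ℤ) - 1) * i + ℓ * m) = (1 : WithZero (Multiplicative ℤ)) →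
      (ℓ : ℤ) ∣ i := by
    intro i m hm
    rw [← exp_zero, exp_inj] at hm
    exact ⟨i - m, by linear_combination hm⟩
  by_cases hα : α = 0
  · right; left
    apply hone (α := β)
    rw [hα, zero_pow hp.out.ne_zero, mul_zero, zero_add] at h
    exact h
  by_cases hβ : β = 0
  · left
    apply hone (α := α)
    rw [hβ, zero_pow hp.out.ne_zero, mul_zero, add_zero] at h
    exact h
  obtain ⟨m, hm⟩ := V_term hζ i hα
  obtain ⟨n, hn⟩ := V_term hζ j hβ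
  rcases lt_trichotomy (V hζ ((ℓ : Kl hζ) ^ i * α ^ ℓ)) (V hζ ((ℓ : Kl hζ) ^ j * β ^ ℓ)) with
    h1 | h1 | h1
  · right; left
    have h2 := Valuation.map_add_eq_of_lt_left (V hζ) h1
    rw [add_comm, h, map_one, hn] at h2
    exact hexp h2.symm
  · right; right
    rw [hm, hn, exp_inj] at h1
    exact ⟨i - j + n - m, by linear_combination h1⟩
  · left
    have h2 := Valuation.map_add_eq_of_lt_right (V hζ) h1
    rw [add_comm, h, map_one, hm] at h2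
    exact hexp h2.symm

/-- **the local condition**: the exponents of the twist -/
theorem loc_dvd [Algebra ℚ (Kl hζ)] {L₀ : Type} [Field L₀] [Algebra ℚ L₀]
    (pl : Plc ℚ L₀ (Kl hζ)) {A B : L₀}
    {i j : ℤ} (h : algebraMap ℚ L₀ ((ℓ : ℚ) ^ i) * A ^ ℓ +
      algebraMap ℚ L₀ ((ℓ : ℚ) ^ j) * B ^ ℓ = 1) :
    (ℓ : ℤ) ∣ i ∨ (ℓ : ℤ) ∣ j ∨ (ℓ : ℤ) ∣ i - j := by
  have hℓpos := hp.out.pos
  have hℓQ : (ℓ : ℚ) ≠ 0 := by exact_mod_cast hp.out.ne_zero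
  have hval : ∀ n : ℤ, pl.val (algebraMap ℚ L₀ ((ℓ : ℚ) ^ n)) ((ℓ : Kl hζ) ^ n) := by
    intro n
    have h1 := Plc.val_alg (pl := pl) ((ℓ : ℚ) ^ n)
    have e : algebraMap ℚ (Kl hζ) ((ℓ : ℚ) ^ n) = (ℓ : Kl hζ) ^ n := by
      rw [map_zpow₀, map_natCast]
    rwa [e] at h1
  have hc0 : ∀ n : ℤ, algebraMap ℚ L₀ ((ℓ : ℚ) ^ n) ≠ 0 := fun n =>
    (_root_.map_ne_zero _).2 (zpow_ne_zero n hℓQ)
  have hcinv : ∀ n : ℤ, (algebraMap ℚ L₀ ((ℓ : ℚ) ^ n))⁻¹ ∈ pl.W := by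
    intro n
    have h1 := (hval (-n)).mem
    have e : algebraMap ℚ L₀ ((ℓ : ℚ) ^ (-n)) = (algebraMap ℚ L₀ ((ℓ : ℚ) ^ n))⁻¹ := by
      rw [← map_inv₀, zpow_neg]
    rwa [e] at h1
  by_cases hA : A ∈ pl.W
  · have hB : B ∈ pl.W := by
      apply Plc.mem_of_pow_mem hℓpos
      have e : B ^ ℓ = (algebraMap ℚ L₀ ((ℓ : ℚ) ^ j))⁻¹ *
          (1 - algebraMap ℚ L₀ ((ℓ : ℚ) ^ i) * A ^ ℓ) := by
        have := hc0 j
        field_simp
        linear_combination h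
      rw [e]
      exact mul_mem (hcinv j) (sub_mem (one_mem _) (mul_mem (hval i).mem (pow_mem hA _)))
    obtain ⟨α, hα⟩ := Plc.val_of_mem hA
    obtain ⟨β, hβ⟩ := Plc.val_of_mem hB
    have h1 := ((hval i).mul (hα.pow ℓ)).add ((hval j).mul (hβ.pow ℓ))
    rw [h] at h1
    exact loc1 hζ (h1.unique Plc.val_one)
  · right; right
    have hA0 : A ≠ 0 := by
      rintro rfl
      exact hA (zero_mem _)
    have hAi : pl.val A⁻¹ 0 := Plc.val_inv_of_notMem hA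
    obtain ⟨D, hD⟩ : ∃ D : L₀, D = B * A⁻¹ := ⟨_, rfl⟩
    have h2 : algebraMap ℚ L₀ ((ℓ : ℚ) ^ i) + algebraMap ℚ L₀ ((ℓ : ℚ) ^ j) * D ^ ℓ =
        (A⁻¹) ^ ℓ := by
      rw [hD, mul_pow, inv_pow]
      have := pow_ne_zero ℓ hA0
      field_simp
      linear_combination h
    have hDW : D ∈ pl.W := by
      apply Plc.mem_of_pow_mem hℓpos
      have e : D ^ ℓ = (algebraMap ℚ L₀ ((ℓ : ℚ) ^ j))⁻¹ *
          ((A⁻¹) ^ ℓ - algebraMap ℚ L₀ ((ℓ : ℚ) ^ i)) := by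
        have := hc0 j
        field_simp
        linear_combination h2
      rw [e]
      exact mul_mem (hcinv j) (sub_mem (pow_mem hAi.mem _) (hval i).mem)
    obtain ⟨δ, hδ⟩ := Plc.val_of_mem hDW
    have h1 := (hval i).add ((hval j).mul (hδ.pow ℓ))
    rw [h2] at h1
    have h3 := (hAi.pow ℓ).unique h1
    rw [zero_pow hp.out.ne_zero] at h3
    exact loc0 hζ h3.symm

end Pool.Agent.Y158.FQ
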