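import Pool.Agent.Y158.FQ.Lcl
import Pool.Agent.Y158.KL.Main
import Pool.Agent.Y678.FQ.Loc

/-!
# Local points whose classes are powers of `ℓ`
-/

set_option autoImplicit false
set_option linter.all false

open Polynomial Pool.Agent.TH954 IsDedekindDomain NumberField WithZero

namespace Pool.Agent.Y158.FQ

open Pool.Agent.Y158.KL (lam Kl KLem V V_ell exists_exp V_pow_sub V_intCast_lt V_intCast near_rat
  lt_one_iff)
open Pool.Agent.Y678.FQ (V_cop)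

variable {K : Type} [Field K] [NumberField K] {ℓ : ℕ}
  [hp : Fact ℓ.Prime] [hK : IsCyclotomicExtension {ℓ} ℚ K] {ζ : K} (hζ : IsPrimitiveRoot ζ ℓ)

theorem sum_near {a : Kl hζ} (ha : V hζ a ≤ 1) (M : ℕ) :
    V hζ ((∑ i ∈ Finset.range M, a ^ i) - M) ≤ V hζ (a - 1) := by
  have h : (∑ i ∈ Finset.range M, a ^ i) - M = ∑ i ∈ Finset.range M, (a ^ i - 1 ^ i) := by
    simp [Finset.sum_sub_distrib]
  rw [h]
  exact Valuation.map_sum_le _ (fun i _ => V_pow_sub hζ ha (map_one _).le i)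

theorem le_one_of_near {a : Kl hζ} (h : V hζ (a - 1) < 1) : V hζ a = 1 := by
  have h1 : a = 1 + (a - 1) := by ring
  rw [h1, Valuation.map_add_eq_of_lt_left _ (by rwa [map_one]), map_one]

/-- a root of unity of order prime to `ℓ` which is congruent to `1` -/
theorem root_one {e : Kl hζ} {M : ℕ} (hM : ¬ (ℓ : ℤ) ∣ (M : ℤ)) (he : e ^ M = 1)
    (h : V hζ (e - 1) < 1) : e = 1 := by
  have h1 := geom_sum_mul e M
  rw [he, sub_self] at h1
  rcases mul_eq_zero.1 h1 with h2 | h2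
  · exfalso
    have h3 := sum_near hζ (le_one_of_near hζ h).le M
    rw [h2, zero_sub, Valuation.map_neg] at h3
    have h4 : V hζ ((M : ℤ) : Kl hζ) = 1 := V_cop hζ hM
    push_cast at h4
    rw [h4] at h3
    exact absurd h (not_lt.2 h3)
  · exact sub_eq_zero.1 h2

theorem pow_step {a : Kl hζ} {k : ℕ} (h : V hζ (a - 1) ≤ exp (-((k : ℤ) + 1))) :
    V hζ (a ^ ℓ - 1) ≤ exp (-(((k + 1 : ℕ) : ℤ) + 1)) := by
  have h0 : V hζ (a - 1) ≤ exp (-1) := h.trans (by rw [exp_le_exp]; omega)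
  have h0' : V hζ (a - 1) < 1 := (lt_one_iff hζ _).2 h0
  have hl : V hζ (ℓ : Kl hζ) ≤ exp (-1) := by
    rw [V_ell, exp_le_exp]
    have := hp.out.two_le
    omega
  have h1 : V hζ (∑ i ∈ Finset.range ℓ, a ^ i) ≤ exp (-1) := by
    have e : (∑ i ∈ Finset.range ℓ, a ^ i) = ((∑ i ∈ Finset.range ℓ, a ^ i) - ℓ) + ℓ := by ring
    rw [e]
    exact Valuation.map_add_le _ ((sum_near hζ (le_one_of_near hζ h0').le ℓ).trans h0) hl
  rw [← geom_sum_mul, map_mul]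
  refine (mul_le_mul' h1 h).trans ?_
  rw [← exp_add, exp_le_exp]
  push_cast
  omega

theorem pow_near' {a : Kl hζ} (h : V hζ (a - 1) ≤ exp (-1)) (n : ℕ) :
    V hζ (a ^ (ℓ ^ n) - 1) ≤ exp (-((n : ℤ) + 1)) := by
  induction n with
  | zero => simpa using h
  | succ n ih =>
    rw [pow_succ, pow_mul]
    exact pow_step hζ ih

theorem eq_of_near {e : Kl hζ} (h : ∀ n : ℕ, V hζ (e - 1) ≤ exp (-((n : ℤ) + 1))) : e = 1 := by
  by_contra hne
  obtain ⟨m, hm⟩ := exists_exp ((Valuation.ne_zero_iff (V hζ)).2 (sub_ne_zero.2 hne))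
  have h1 := h m.natAbs
  rw [hm, exp_le_exp] at h1
  omega

/-- units which are infinitely divisible by `ℓ` are roots of unity -/
theorem pow_one_of {e : Kl hζ} (he : V hζ e = 1) (h : ∀ n : ℕ, ∃ t : Kl hζ, t ^ (ℓ ^ n) = e) :
    e ^ (ℓ - 1) = 1 := by
  refine eq_of_near hζ fun n => ?_
  obtain ⟨t, ht⟩ := h n
  have hℓn : ℓ ^ n ≠ 0 := pow_ne_zero _ hp.out.ne_zero
  have hVt : V hζ t = 1 := by
    rw [← ht, map_pow] at he
    exact (pow_eq_one_iff_of_nonneg zero_le hℓn).1 he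
  obtain ⟨m, hm⟩ := near_rat hζ hVt.le
  have hm1 : V hζ (t - m) < 1 := (lt_one_iff hζ _).2 hm
  have hVm : V hζ (m : Kl hζ) = 1 := by
    have e1 : (m : Kl hζ) = t - (t - m) := by ring
    rw [e1, Valuation.map_sub_eq_of_lt_left _ (by rwa [hVt]), hVt]
  have hℓm : ¬ (ℓ : ℤ) ∣ m := by
    rw [← V_intCast_lt hζ, hVm]
    exact lt_irrefl _
  have h1 : V hζ (t ^ (ℓ - 1) - (m : Kl hζ) ^ (ℓ - 1)) ≤ exp (-1) :=
    (V_pow_sub hζ hVt.le hVm.le _).trans hm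
  have h2 : V hζ ((m : Kl hζ) ^ (ℓ - 1) - 1) ≤ exp (-1) := by
    rw [← lt_one_iff]
    have h3 : (ℓ : ℤ) ∣ m ^ (ℓ - 1) - 1 := by
      have hcop : IsCoprime m (ℓ : ℤ) :=
        ((Prime.coprime_iff_not_dvd (Nat.prime_iff_prime_int.1 hp.out)).2 hℓm).symm
      have h4 := Int.ModEq.pow_card_sub_one_eq_one hp.out hcop
      exact Int.modEq_iff_dvd.1 h4.symm
    have h4 := (V_intCast_lt hζ).2 h3
    push_cast at h4
    exact h4
  have h3 : V hζ (t ^ (ℓ - 1) - 1) ≤ exp (-1) := by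
    have e1 : t ^ (ℓ - 1) - 1 = (t ^ (ℓ - 1) - (m : Kl hζ) ^ (ℓ - 1)) +
      ((m : Kl hζ) ^ (ℓ - 1) - 1) := by ring
    rw [e1]
    exact Valuation.map_add_le _ h1 h2
  have h4 := pow_near' hζ h3 n
  rw [← pow_mul, mul_comm, pow_mul, ht] at h4
  exact h4

/-- numbers whose classes are powers of `ℓ` -/
theorem class_ell {c : Kl hζ} (h0 : c ≠ 0)
    (h : ∀ n : ℕ, ∃ (i : ℤ) (t : Kl hζ), c = (ℓ : Kl hζ) ^ i * t ^ (ℓ ^ n)) :
    ∃ m : ℤ, V hζ c = exp (-m) ∧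
      c ^ ((ℓ - 1) * (ℓ - 1)) = ((ℓ : Kl hζ) ^ m) ^ (ℓ - 1) := by
  haveI : CharZero (Kl hζ) :=
    charZero_of_injective_algebraMap (Pool.Agent.Y158.KL.cm hζ).injective
  have hℓ0 : (ℓ : Kl hζ) ≠ 0 := Nat.cast_ne_zero.2 hp.out.ne_zero
  have hpos := hp.out.pos
  have hcast : ((ℓ - 1 : ℕ) : ℤ) = (ℓ : ℤ) - 1 := by omega
  obtain ⟨m₀, hm₀⟩ := exists_exp ((Valuation.ne_zero_iff (V hζ)).2 h0)
  obtain ⟨m, rfl⟩ : ∃ m : ℤ, m₀ = -m := ⟨-m₀, by ring⟩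
  refine ⟨m, hm₀, ?_⟩
  obtain ⟨e, he⟩ : ∃ e, e = c ^ (ℓ - 1) * ((ℓ : Kl hζ) ^ m)⁻¹ := ⟨_, rfl⟩
  have hVe : V hζ e = 1 := by
    rw [he, map_mul, map_pow, hm₀, map_inv₀, V_ellz, ← exp_nsmul, ← exp_neg, ← exp_add,
      ← exp_zero, exp_inj, nsmul_eq_mul, hcast]
    ring
  have h1 : e ^ (ℓ - 1) = 1 := by
    refine pow_one_of hζ hVe fun n => ?_
    obtain ⟨i, t, hit⟩ := h n
    have ht : t ≠ 0 := by
      rintro rfl
      rw [zero_pow (pow_ne_zero _ hp.out.ne_zero), mul_zero] at hit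
      exact h0 hit
    obtain ⟨k, hk⟩ := exists_exp ((Valuation.ne_zero_iff (V hζ)).2 ht)
    have h2 : -m = -((ℓ : ℤ) - 1) * i + (ℓ : ℤ) ^ n * k := by
      have h3 := congrArg (V hζ) hit
      rw [hm₀, map_mul, V_ellz, map_pow, hk, ← exp_nsmul, ← exp_add, exp_inj, nsmul_eq_mul] at h3
      push_cast at h3
      exact h3
    refine ⟨(ℓ : Kl hζ) ^ k * t ^ (ℓ - 1), ?_⟩
    rw [he, eq_mul_inv_iff_mul_eq₀ (zpow_ne_zero _ hℓ0), hit, mul_pow, mul_pow, ← pow_mul,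
      ← pow_mul, mul_comm (ℓ - 1) (ℓ ^ n), ← zpow_natCast, ← zpow_mul, ← zpow_natCast _ (ℓ - 1),
      ← zpow_mul, mul_right_comm, ← zpow_add₀ hℓ0, hcast]
    congr 2
    push_cast
    linear_combination -h2
  rw [he, mul_pow, inv_pow, ← pow_mul] at h1
  rw [mul_inv_eq_one₀ (pow_ne_zero _ (zpow_ne_zero _ hℓ0))] at h1
  exact h1

theorem not_dvd_sq : ¬ (ℓ : ℤ) ∣ (((ℓ - 1) * (ℓ - 1) : ℕ) : ℤ) := by
  intro h
  have h1 : ℓ ∣ (ℓ - 1) * (ℓ - 1) := by exact_mod_cast h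
  have h2 : ℓ ∣ ℓ - 1 := by
    rcases (Nat.Prime.dvd_mul hp.out).1 h1 with h | h <;> exact h
  have h3 := hp.out.two_le
  have h4 := Nat.le_of_dvd (by omega) h2
  omega

/-- **points whose classes, and those of `1 - x`, are powers of `ℓ`, are units** -/
theorem loc_unit (hodd : Odd ℓ) {c : Kl hζ} (h0 : c ≠ 0) (h1 : 1 - c ≠ 0)
    (h : ∀ n : ℕ, ∃ (i : ℤ) (t : Kl hζ), c = (ℓ : Kl hζ) ^ i * t ^ (ℓ ^ n))
    (h' : ∀ n : ℕ, ∃ (i : ℤ) (t : Kl hζ), 1 - c = (ℓ : Kl hζ) ^ i * t ^ (ℓ ^ n)) :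
    V hζ c = 1 := by
  haveI : CharZero (Kl hζ) :=
    charZero_of_injective_algebraMap (Pool.Agent.Y158.KL.cm hζ).injective
  have hℓ0 : (ℓ : Kl hζ) ≠ 0 := Nat.cast_ne_zero.2 hp.out.ne_zero
  obtain ⟨m, hm, hmc⟩ := class_ell hζ h0 h
  obtain ⟨m', hm', hmc'⟩ := class_ell hζ h1 h'
  rcases lt_trichotomy (V hζ c) 1 with hlt | heq | hgt
  · exfalso
    have h2 : V hζ (1 - c) = 1 := by
      rw [Valuation.map_sub_eq_of_lt_left _ (by rwa [map_one]), map_one]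
    rw [h2, ← exp_zero, exp_inj] at hm'
    have h3 : m' = 0 := by omega
    rw [h3, zpow_zero, one_pow] at hmc'
    have h4 := root_one hζ not_dvd_sq hmc' (by
      have e : 1 - c - 1 = -c := by ring
      rw [e, Valuation.map_neg]
      exact hlt)
    apply h0
    linear_combination -h4
  · exact heq
  · exfalso
    have h2 : V hζ (1 - c) = V hζ c := by
      rw [Valuation.map_sub_eq_of_lt_right _ (by rwa [map_one])]
    rw [h2, hm, exp_inj] at hm'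
    have h3 : m' = m := by omega
    rw [h3, ← hmc] at hmc'
    have heven : Even ((ℓ - 1) * (ℓ - 1)) := by
      have h5 : Even (ℓ - 1) := by
        obtain ⟨t, ht⟩ := hodd
        exact ⟨t, by omega⟩
      exact h5.mul_right _
    have h4 : ((c - 1) / c) ^ ((ℓ - 1) * (ℓ - 1)) = 1 := by
      have e : c - 1 = -(1 - c) := by ring
      rw [div_pow, e, Even.neg_pow heven, hmc', div_self (pow_ne_zero _ h0)]
    have h5 := root_one hζ not_dvd_sq h4 (by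
      have e : (c - 1) / c - 1 = -c⁻¹ := by field_simp; ring
      rw [e, Valuation.map_neg, map_inv₀]
      exact inv_lt_one_of_one_lt₀ hgt)
    rw [div_eq_one_iff_eq h0] at h5
    have h6 : (1 : Kl hζ) = 0 := by linear_combination -h5
    exact one_ne_zero h6

theorem dvd_of_unit {c t : Kl hζ} {i : ℤ} (hc : V hζ c = 1) (h : c = (ℓ : Kl hζ) ^ i * t ^ ℓ) :
    (ℓ : ℤ) ∣ i := by
  have ht : t ≠ 0 := by
    rintro rfl
    rw [zero_pow hp.out.ne_zero, mul_zero] at h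
    rw [h, map_zero] at hc
    exact zero_ne_one hc
  obtain ⟨m, hm⟩ := V_term hζ i ht
  rw [← h, hc, ← exp_zero, exp_inj] at hm
  exact ⟨i - m, by linear_combination -hm⟩

end Pool.Agent.Y158.FQ
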