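import Pool.Agent.Y158.FQ.Ext

/-!
# Sections of Fermat quotients: the abstract form of the main step
-/

set_option autoImplicit false
set_option linter.all false

open Polynomial FF Pool.Agent.Y157.PS Pool.Agent.TH954 IsDedekindDomain NumberField

namespace Pool.Agent.Y158.FQ

attribute [-instance] DivisionRing.toRatAlgebra
attribute [local instance 1] DivisionRing.toRatAlgebra

open Pool.Agent.Y158.KL (lam Kl KLem)
open Pool.Agent.Y158.GR (genMain)

/-- the algebraic closures of `k` and of an algebraic extension -/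
theorem mem_acl_iff {k K Ω : Type} [Field k] [Field K] [Field Ω] [Algebra k K] [Algebra k Ω]
    [Algebra K Ω] [IsScalarTower k K Ω] [Algebra.IsAlgebraic k K] (z : Ω) :
    z ∈ algebraicClosure K Ω ↔ z ∈ algebraicClosure k Ω := by
  rw [mem_algebraicClosure_iff, mem_algebraicClosure_iff]
  constructor
  · intro h
    exact h.restrictScalars k
  · intro h
    exact h.extendScalars (algebraMap k K).injective

/-- the covering fields of the Fermat curves over `k` and over `K` agree -/
theorem geomPro_base {k K Ω F' : Type} [Field k] [Field K] [Field Ω] [Field F'] [Algebra k K]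
    [Algebra k Ω] [Algebra K Ω] [IsScalarTower k K Ω] [Algebra.IsAlgebraic k K]
    [Algebra K F'] [Algebra F' Ω] [IsScalarTower K F' Ω] {ℓ : ℕ}
    {u w : Ω} {X Y : F'} {c c' : Ω} (hcm : c ∈ algebraicClosure k Ω)
    (hcm' : c' ∈ algebraicClosure k Ω) (hc0 : c ≠ 0) (hc0' : c' ≠ 0)
    (hX : algebraMap F' Ω X = c * u) (hY : algebraMap F' Ω Y = c' * w) (z : Ω) :
    z ∈ geomPro ℓ K (IntermediateField.adjoin K {X, Y}) Ω ↔
      z ∈ geomPro ℓ k (IntermediateField.adjoin k {u, w}) Ω := by
  have hu : u = c⁻¹ * algebraMap F' Ω X := by rw [hX, inv_mul_cancel_left₀ hc0]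
  have hw : w = c'⁻¹ * algebraMap F' Ω Y := by rw [hY, inv_mul_cancel_left₀ hc0']
  have hacl : ∀ z : Ω, z ∈ algebraicClosure K Ω ↔ z ∈ algebraicClosure k Ω := mem_acl_iff
  -- the first inclusion
  have h1 : ∀ z ∈ geomF K (IntermediateField.adjoin K {X, Y}) Ω, (RingEquiv.refl Ω) z ∈
      geomF k (IntermediateField.adjoin k {u, w}) Ω := by
    refine geomF_le (RingEquiv.refl Ω) (fun z hz => (hacl z).1 hz) (fun z => ?_)
    have hmem : ∀ t ∈ ({u, w} : Set Ω), t ∈ geomF k (IntermediateField.adjoin k {u, w}) Ω := by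
      intro t ht
      exact (geomF k (IntermediateField.adjoin k {u, w}) Ω).algebraMap_mem
        (⟨t, IntermediateField.subset_adjoin k _ ht⟩ : IntermediateField.adjoin k {u, w})
    refine adjoin_le_sub
      (T := (geomF k (IntermediateField.adjoin k {u, w}) Ω).toSubfield.comap (algebraMap F' Ω))
      (fun r => ?_) (fun t ht => ?_) _ z.2
    · rw [Subfield.mem_comap, ← IsScalarTower.algebraMap_apply]
      refine IntermediateField.subset_adjoin _ _ ?_
      exact (hacl _).1 ((algebraicClosure K Ω).algebraMap_mem r)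
    · rw [Subfield.mem_comap]
      rcases ht with ht | ht
      · rw [ht, hX]
        exact mul_mem (IntermediateField.subset_adjoin _ _ hcm) (hmem u (by simp))
      · rw [Set.mem_singleton_iff] at ht
        rw [ht, hY]
        exact mul_mem (IntermediateField.subset_adjoin _ _ hcm') (hmem w (by simp))
  -- the second inclusion
  have h2 : ∀ z ∈ geomF k (IntermediateField.adjoin k {u, w}) Ω, (RingEquiv.refl Ω) z ∈
      geomF K (IntermediateField.adjoin K {X, Y}) Ω := by
    refine geomF_le (RingEquiv.refl Ω) (fun z hz => (hacl z).2 hz) (fun z => ?_)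
    have hmem : ∀ t ∈ ({X, Y} : Set F'), algebraMap F' Ω t ∈
        geomF K (IntermediateField.adjoin K {X, Y}) Ω := by
      intro t ht
      exact (geomF K (IntermediateField.adjoin K {X, Y}) Ω).algebraMap_mem
        (⟨t, IntermediateField.subset_adjoin K _ ht⟩ : IntermediateField.adjoin K {X, Y})
    have hz2 : ((z : IntermediateField.adjoin k {u, w}) : Ω) ∈
        IntermediateField.adjoin k {u, w} := z.2
    refine adjoin_le_sub
      (T := (geomF K (IntermediateField.adjoin K {X, Y}) Ω).toSubfield)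
      (fun r => ?_) (fun t ht => ?_) _ hz2
    · refine IntermediateField.subset_adjoin _ _ ?_
      exact (hacl _).2 ((algebraicClosure k Ω).algebraMap_mem r)
    · rcases ht with ht | ht
      · rw [ht, hu]
        exact mul_mem (IntermediateField.subset_adjoin _ _ ((hacl _).2 (inv_mem hcm)))
          (hmem X (by simp))
      · rw [Set.mem_singleton_iff] at ht
        rw [ht, hw]
        exact mul_mem (IntermediateField.subset_adjoin _ _ ((hacl _).2 (inv_mem hcm')))
          (hmem Y (by simp))
  constructor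
  · intro hz
    refine geomPro_map (RingEquiv.refl Ω) h1 h2 (fun W hW r => ?_) z hz
    -- the valuation rings over `k` contain `K`
    exact Pool.Agent.Y529.PS.IN.int_mem W hW
      ((hacl _).1 ((algebraicClosure K Ω).algebraMap_mem r))
  · intro hz
    refine geomPro_map (RingEquiv.refl Ω) h2 h1 (fun W hW r => ?_) z hz
    change algebraMap k Ω r ∈ W
    rw [IsScalarTower.algebraMap_apply k K Ω]
    exact hW _

section

variable {K : Type} [Field K] [NumberField K] {ℓ : ℕ}
  [hp : Fact ℓ.Prime] [hK : IsCyclotomicExtension {ℓ} ℚ K] {ζ : K} (hζ : IsPrimitiveRoot ζ ℓ)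
  {F F' Ω B : Type} [Field F] [Field F'] [Field Ω] [Field B] [Algebra ℚ F] [Algebra F Ω]
  [Algebra ℚ Ω] [Algebra ℚ B] [IsScalarTower ℚ F Ω] [IsAlgClosed Ω] [Algebra.IsAlgebraic F Ω]
  [Algebra ℚ K] [Algebra K F'] [Algebra F' Ω] [Algebra K Ω] [IsScalarTower K F' Ω] [Algebra K B]
  [IsScalarTower ℚ K B] [IsScalarTower ℚ K Ω] [IsAlgClosure ℚ B]
  {C : Type} [Field C] [Algebra (Kl hζ) C] [Algebra ℚ C] [Algebra K C] [IsScalarTower K (Kl hζ) C]
  [IsScalarTower ℚ K C] [IsAlgClosure (Kl hζ) C]

include hK hζ in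
/-- the main step, with the field `F' ⊇ F K` -/
theorem fqAbs [Algebra.IsAlgebraic ℚ K] (hodd : Odd ℓ) (hcop : (classNumber K).Coprime ℓ)
    (hKL : KLem ℓ K) (x : F) (hx : Transcendental ℚ x)
    (hF : Algebra.IsAlgebraic (IntermediateField.adjoin ℚ {x}) F) (u w : Ω)
    (N : IntermediateField F Ω) (N' : IntermediateField F' Ω) (hNN' : ∀ z, z ∈ N ↔ z ∈ N')
    (hN : ∀ z ∈ geomPro ℓ ℚ (IntermediateField.adjoin ℚ {u, w}) Ω, z ∈ N)
    (hFF : ∀ z : F, ∃ z' : F', algebraMap F' Ω z' = algebraMap F Ω z)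
    (s : GalSection ℚ F N B) (p : Plc ℚ N C) (hpv : s.GivenBy (Kl hζ) p)
    (hKB : ∀ c : K, ((s.j (algebraMap K B c) : N) : Ω) = algebraMap K Ω c)
    (hKC : ∀ c : K, p.val (s.j (algebraMap K B c)) (algebraMap K C c))
    (hfix : ∀ (r : F') (g : B ≃ₐ[K] B) (z : N), (z : Ω) = algebraMap F' Ω r →
      s.s (g.restrictScalars ℚ) z = z)
    (X Y : F') (c c' : Ω) (hcm : c ∈ algebraicClosure ℚ Ω) (hcm' : c' ∈ algebraicClosure ℚ Ω)
    (hc : c ≠ 0) (hc' : c' ≠ 0)
    (hX : algebraMap F' Ω X = c * u) (hY : algebraMap F' Ω Y = c' * w)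
    (hXl : algebraMap F' Ω X ^ ℓ = algebraMap F Ω x)
    (hYl : algebraMap F' Ω Y ^ ℓ = 1 - algebraMap F Ω x) :
    (p.val (algebraMap F N x) 0 ∨ p.val (algebraMap F N (1 - x)) 0 ∨
      p.val (algebraMap F N x)⁻¹ 0) ∧
      ∀ (g : B ≃ₐ[K] B) (z : N),
        (z : Ω) ∈ geomPro ℓ ℚ (IntermediateField.adjoin ℚ {u, w}) Ω →
        (s.s (g.restrictScalars ℚ) z ∈ p.W ↔ z ∈ p.W) := by
  haveI : IsAlgClosure K B := ⟨IsAlgClosure.isAlgClosed ℚ,
    haveI : Algebra.IsAlgebraic ℚ B := IsAlgClosure.isAlgebraic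
    Algebra.IsAlgebraic.tower_top (K := ℚ) K⟩
  haveI : Algebra.IsAlgebraic ℚ B := IsAlgClosure.isAlgebraic
  -- the fields are algebraic
  let R : IntermediateField ℚ Ω :=
    { (IntermediateField.adjoin K {algebraMap F' Ω X}).toSubfield with
      algebraMap_mem' := fun q => by
        change algebraMap ℚ Ω q ∈ IntermediateField.adjoin K {algebraMap F' Ω X}
        rw [IsScalarTower.algebraMap_apply ℚ K Ω]
        exact IntermediateField.algebraMap_mem _ _ }
  have hR : Algebra.IsAlgebraic R Ω := by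
    refine alg_over hF R ?_
    change algebraMap F Ω x ∈ IntermediateField.adjoin K {algebraMap F' Ω X}
    rw [← hXl]
    exact pow_mem (IntermediateField.subset_adjoin K _ (by simp)) _
  have hRmem : ∀ z ∈ R, ∃ z' : IntermediateField.adjoin K {X}, algebraMap F' Ω z' = z := by
    intro z hz
    have hz1 : z ∈ IntermediateField.adjoin K {algebraMap F' Ω X} := hz
    have h2 := IntermediateField.adjoin_map K {X} (IsScalarTower.toAlgHom K F' Ω)
    rw [Set.image_singleton] at h2
    have hz2 : z ∈ IntermediateField.adjoin K {(IsScalarTower.toAlgHom K F' Ω) X} := hz1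
    rw [← h2] at hz2
    obtain ⟨z', hz', hz''⟩ := hz2
    exact ⟨⟨z', hz'⟩, hz''⟩
  have hEΩ : Algebra.IsAlgebraic (IntermediateField.adjoin K {X}) Ω := by
    choose f hf using fun z : R => hRmem z z.2
    have hinj := (algebraMap (IntermediateField.adjoin K {X}) Ω).injective
    have hf' : ∀ z : R, algebraMap (IntermediateField.adjoin K {X}) Ω (f z) = z := hf
    let i : R →+* IntermediateField.adjoin K {X} :=
      { toFun := f
        map_one' := hinj (by rw [hf', map_one]; rfl)
        map_mul' := fun a b => hinj (by rw [hf', map_mul, hf', hf']; rfl)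
        map_zero' := hinj (by rw [hf', map_zero]; rfl)
        map_add' := fun a b => hinj (by rw [hf', map_add, hf', hf']; rfl) }
    refine ⟨fun z => ?_⟩
    obtain ⟨q, hq, hqz⟩ := Algebra.IsAlgebraic.isAlgebraic (R := R) z
    refine ⟨q.map i, (Polynomial.map_ne_zero_iff i.injective).2 hq, ?_⟩
    rw [aeval_def, eval₂_map]
    have h3 : (algebraMap (IntermediateField.adjoin K {X}) Ω).comp i = algebraMap R Ω :=
      RingHom.ext fun z => hf' z
    rw [h3]
    exact hqz
  have hEF : Algebra.IsAlgebraic (IntermediateField.adjoin K {X}) F' :=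
    Algebra.IsAlgebraic.tower_bot (IntermediateField.adjoin K {X}) F' Ω
  haveI hF'Ω : Algebra.IsAlgebraic F' Ω :=
    Algebra.IsAlgebraic.tower_top (K := IntermediateField.adjoin K {X}) F'
  have hXt : Transcendental K X := by
    intro h
    have h1 : IsAlgebraic K (algebraMap F' Ω X) := h.algebraMap
    have h2 : IsAlgebraic ℚ (algebraMap F' Ω X) := h1.restrictScalars ℚ
    have h3 : IsAlgebraic ℚ (algebraMap F Ω x) := by rw [← hXl]; exact h2.pow ℓ
    exact (transcendental_algebraMap_iff (R := ℚ) (algebraMap F Ω).injective (a := x)).2 hx h3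
  -- the extension of the base field
  let e : N ≃+* N' :=
    { toFun := fun z => ⟨(z : Ω), (hNN' _).1 z.2⟩
      invFun := fun z => ⟨(z : Ω), (hNN' _).2 z.2⟩
      left_inv := fun z => rfl
      right_inv := fun z => rfl
      map_mul' := fun _ _ => rfl
      map_add' := fun _ _ => rfl }
  have he : ∀ z : N, ((e z : N') : Ω) = (z : Ω) := fun z => rfl
  have hgp : ∀ z, z ∈ geomPro ℓ K (IntermediateField.adjoin K {X ^ 1, Y ^ 1}) Ω ↔
      z ∈ geomPro ℓ ℚ (IntermediateField.adjoin ℚ {u, w}) Ω := by
    rw [pow_one, pow_one]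
    exact geomPro_base hcm hcm' hc hc' hX hY
  have hinjF : Function.Injective (algebraMap F' Ω) := (algebraMap F' Ω).injective
  obtain ⟨h1, h2⟩ := genMain hζ hodd hcop hKL (m := 1) one_ne_zero X Y hXt hEF (by
      apply hinjF
      rw [mul_one, map_add, map_pow, map_pow, hXl, hYl, map_one]
      ring) N' (fun z hz => (hNN' _).1 (hN z ((hgp z).1 hz)))
    (extSec e he s hKB hfix) (extPlc e he s p hKB hKC) (extGiven e he s p hKB hKC hfix (Kl hζ) hpv)
  constructor
  · have hXe : e.symm (algebraMap F' N' X) ^ ℓ = algebraMap F N x := by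
      apply Subtype.ext
      exact hXl
    have hYe : e.symm (algebraMap F' N' Y) ^ ℓ = algebraMap F N (1 - x) := by
      apply Subtype.ext
      change algebraMap F' Ω Y ^ ℓ = algebraMap F Ω (1 - x)
      rw [hYl, map_sub, map_one]
    rcases h1 with h1 | h1 | h1
    · left
      rw [extPlc_val] at h1
      have h3 := h1.pow ℓ
      rw [hXe, zero_pow hp.out.ne_zero] at h3
      exact h3
    · right; left
      rw [extPlc_val] at h1
      have h3 := h1.pow ℓ
      rw [hYe, zero_pow hp.out.ne_zero] at h3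
      exact h3
    · right; right
      rw [extPlc_val, map_inv₀] at h1
      have h3 := h1.pow ℓ
      rw [inv_pow, hXe, zero_pow hp.out.ne_zero] at h3
      exact h3
  · intro g z hz
    have h3 := h2 g (e z) ((hgp _).2 hz)
    rw [extPlc_mem, extPlc_mem, extSec_apply, e.symm_apply_apply, e.symm_apply_apply] at h3
    exact h3

end

end Pool.Agent.Y158.FQ
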