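import Pool.Agent.Y158.FQ.Main

/-!
# Sections of Fermat quotients: the action of `G_K`
-/

set_option autoImplicit false
set_option linter.all false

open Polynomial FF Pool.Agent.Y157.PS Pool.Agent.TH954 IsDedekindDomain NumberField

namespace Pool.Agent.Y158.FQ

attribute [-instance] DivisionRing.toRatAlgebra
attribute [local instance 1] DivisionRing.toRatAlgebra

open Pool.Agent.Y158.KL (lam Kl KLem)
open Pool.Agent.Y158.GR (DecL exists_decL given_mem exists_eB)

section

variable {K : Type} [Field K] [NumberField K] {ℓ : ℕ}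
  [hp : Fact ℓ.Prime] [hK : IsCyclotomicExtension {ℓ} ℚ K] {ζ : K} (hζ : IsPrimitiveRoot ζ ℓ)
  {F Ω B : Type} [Field F] [Field Ω] [Field B] [Algebra ℚ F] [Algebra F Ω]
  [Algebra ℚ Ω] [Algebra ℚ B] [IsScalarTower ℚ F Ω] [IsAlgClosed Ω] [Algebra.IsAlgebraic F Ω]
  [IsAlgClosure ℚ B]
  {C : Type} [Field C] [Algebra (Kl hζ) C] [Algebra ℚ C] [IsAlgClosure (Kl hζ) C]

/-- the ring homomorphism `K → C` -/
noncomputable def toC (C : Type) [Field C] [Algebra (Kl hζ) C] : K →+* C :=
  (algebraMap (Kl hζ) C).comp (algebraMap K (Kl hζ))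

include hK hζ in
/-- the section preserves the valuation ring, for automorphisms over `K` -/
theorem fqK [Algebra.IsAlgebraic ℚ B] (hodd : Odd ℓ) (hcop : (classNumber K).Coprime ℓ) (hKL : KLem ℓ K)
    {a b : ℕ} (ha : ¬ ℓ ∣ a) (hb : ¬ ℓ ∣ b)
    (hab : ¬ ℓ ∣ a + b) (x y : F) (hx : Transcendental ℚ x)
    (hF : Algebra.IsAlgebraic (IntermediateField.adjoin ℚ {x}) F)
    (u w : Ω) (hu : u ^ ℓ = algebraMap F Ω x)
    (hw : w ^ ℓ = algebraMap F Ω (1 - x)) (huw : u ^ a * w ^ b = algebraMap F Ω y)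
    (N : IntermediateField F Ω)
    (hN : ∀ z ∈ geomPro ℓ ℚ (IntermediateField.adjoin ℚ {u, w}) Ω, z ∈ N)
    (s : GalSection ℚ F N B) (p : Plc ℚ N C) (hpv : s.GivenBy (Kl hζ) p) :
    ∃ f : K →+* B, (∀ c : K, p.iot s.j (f c) = toC hζ C c) ∧
      (p.val (algebraMap F N x) 0 ∨ p.val (algebraMap F N (1 - x)) 0 ∨
        p.val (algebraMap F N x)⁻¹ 0) ∧
      ∀ g : B ≃ₐ[ℚ] B, g (f ζ) = f ζ → ∀ z : N,
        (z : Ω) ∈ geomPro ℓ ℚ (IntermediateField.adjoin ℚ {u, w}) Ω →
        (s.s g z ∈ p.W ↔ z ∈ p.W) := by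
  haveI hCac : IsAlgClosed C := IsAlgClosure.isAlgClosed (Kl hζ)
  haveI : IsScalarTower ℚ (Kl hζ) C := IsScalarTower.of_algebraMap_eq' (Subsingleton.elim _ _)
  haveI : Algebra.IsAlgebraic ℚ K := Algebra.IsAlgebraic.of_finite ℚ K
  -- the embedding of `K` in `B`
  obtain ⟨eB, heB⟩ := exists_eB (K := ℚ) (Ω := C) (p.iot s.j)
  have hmemC : ∀ c : K, toC hζ C c ∈ algebraicClosure ℚ C := by
    intro c
    rw [mem_algebraicClosure_iff]
    obtain ⟨q, hq, hqc⟩ := Algebra.IsAlgebraic.isAlgebraic (R := ℚ) c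
    refine ⟨q, hq, ?_⟩
    rw [aeval_def] at hqc ⊢
    have h1 : algebraMap ℚ C = (toC hζ C).comp (algebraMap ℚ K) := Subsingleton.elim _ _
    rw [h1, ← hom_eval₂, hqc, map_zero]
  let f : K →+* B := (eB.symm : algebraicClosure ℚ C →+* B).comp
    ((toC hζ C).codRestrict (algebraicClosure ℚ C) hmemC)
  have hf : ∀ c, p.iot s.j (f c) = toC hζ C c := by
    intro c
    rw [← heB]
    change ((eB (eB.symm ((toC hζ C).codRestrict (algebraicClosure ℚ C) hmemC c)) :
      algebraicClosure ℚ C) : C) = _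
    rw [eB.apply_symm_apply]
    rfl
  refine ⟨f, hf, ?_⟩
  obtain ⟨U, W, c, c', hUs, hWs, hU, hW, hUx, hWx⟩ :=
    desc_fix hζ hodd ha hb hab x y hx hF u w hu hw huw N hN s p hpv
  letI iKB : Algebra K B := f.toAlgebra
  haveI : IsScalarTower ℚ K B := IsScalarTower.of_algebraMap_eq' (Subsingleton.elim _ _)
  letI iKΩ : Algebra K Ω := (((algebraMap N Ω).comp (s.j : B →+* N)).comp f).toAlgebra
  haveI : IsScalarTower ℚ K Ω := IsScalarTower.of_algebraMap_eq' (Subsingleton.elim _ _)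
  letI iKC : Algebra K C := (toC hζ C).toAlgebra
  haveI : IsScalarTower ℚ K C := IsScalarTower.of_algebraMap_eq' (Subsingleton.elim _ _)
  haveI : IsScalarTower K (Kl hζ) C := IsScalarTower.of_algebraMap_eq fun _ => rfl
  obtain ⟨S, hS⟩ : ∃ S : Set Ω, S = Set.range (algebraMap K Ω) ∪ {(U : Ω), (W : Ω)} := ⟨_, rfl⟩
  have hSK : ∀ r : K, algebraMap K Ω r ∈ S := fun r => by
    rw [hS]; exact Or.inl ⟨r, rfl⟩
  have hSU : (U : Ω) ∈ S := by rw [hS]; exact Or.inr (by simp)
  have hSW : (W : Ω) ∈ S := by rw [hS]; exact Or.inr (by simp)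
  let F' : IntermediateField F Ω := IntermediateField.adjoin F S
  have hF'K : ∀ r : K, algebraMap K Ω r ∈ F' := fun r =>
    IntermediateField.subset_adjoin F _ (hSK r)
  have hF'N : F' ≤ N := by
    rw [IntermediateField.adjoin_le_iff, hS]
    rintro z (⟨r, rfl⟩ | hz)
    · exact (s.j (f r)).2
    · rcases hz with hz | hz
      · rw [hz]; exact U.2
      · rw [Set.mem_singleton_iff] at hz
        rw [hz]; exact W.2
  let iKF : Algebra K F' := ((algebraMap K Ω).codRestrict F' hF'K).toAlgebra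
  haveI : IsScalarTower K F' Ω := IsScalarTower.of_algebraMap_eq fun _ => rfl
  have hfix : ∀ (r : F') (g : B ≃ₐ[K] B) (z : N), (z : Ω) = algebraMap F' Ω r →
      s.s (g.restrictScalars ℚ) z = z := by
    intro r g z hz
    let T : Subfield Ω := Subfield.map (algebraMap N Ω)
      (RingHom.eqLocusField ((s.s (g.restrictScalars ℚ) : N ≃ₐ[F] N) : N →+* N) (RingHom.id N))
    have hT : ∀ t : N, s.s (g.restrictScalars ℚ) t = t → (t : Ω) ∈ T := fun t ht => ⟨t, ht, rfl⟩
    have h1 : (r : Ω) ∈ T := by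
      refine adjoin_le_sub (T := T) (fun q => ?_) (fun t ht => ?_) _ r.2
      · exact hT (algebraMap F N q) ((s.s (g.restrictScalars ℚ)).commutes q)
      · rw [hS] at ht
        rcases ht with ⟨q, rfl⟩ | ht
        · refine hT (s.j (f q)) ?_
          rw [s.sec]
          congr 1
          exact g.commutes q
        · rcases ht with ht | ht
          · rw [ht]; exact hT U (hUs _)
          · rw [Set.mem_singleton_iff] at ht
            rw [ht]; exact hT W (hWs _)
    obtain ⟨t, ht, htr⟩ := h1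
    have h2 : t = z := Subtype.ext (htr.trans hz.symm)
    rw [← h2]
    exact ht
  have hc0 : (c : Ω) ≠ 0 := by
    intro h0
    have h1 : (U : Ω) = 0 := by rw [hU, h0, zero_mul]
    have h2 : U = 0 := Subtype.ext h1
    rw [h2, zero_pow hp.out.ne_zero] at hUx
    have h3 : x = 0 := (map_eq_zero (algebraMap F N)).1 hUx.symm
    rw [h3] at hx
    exact hx isAlgebraic_zero
  have hc0' : (c' : Ω) ≠ 0 := by
    intro h0
    have h1 : (W : Ω) = 0 := by rw [hW, h0, zero_mul]
    have h2 : W = 0 := Subtype.ext h1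
    rw [h2, zero_pow hp.out.ne_zero] at hWx
    have h3 : 1 - x = 0 := (map_eq_zero (algebraMap F N)).1 hWx.symm
    have h4 : x = 1 := by linear_combination -h3
    rw [h4] at hx
    exact hx isAlgebraic_one
  obtain ⟨h1, h2⟩ := fqAbs (F' := F') hζ hodd hcop hKL x hx hF u w N
    (IntermediateField.extendScalars hF'N)
    (fun z => (IntermediateField.mem_extendScalars hF'N).symm) hN
    (fun z => ⟨algebraMap F F' z, rfl⟩) s p hpv (fun c => rfl) (fun c => by
      have h3 : p.val (s.j (f c)) (p.iot s.j (f c)) := Pool.Agent.Y158.GR.iot_val s p (f c)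
      rw [hf] at h3
      exact h3) hfix ⟨(U : Ω), IntermediateField.subset_adjoin F _ hSU⟩
      ⟨(W : Ω), IntermediateField.subset_adjoin F _ hSW⟩ (c : Ω) (c' : Ω) c.2 c'.2 hc0 hc0' hU hW
      (congrArg (algebraMap N Ω) hUx) (by
        have h3 := congrArg (algebraMap N Ω) hWx
        have h4 : algebraMap N Ω (algebraMap F N (1 - x)) = 1 - algebraMap F Ω x := by
          change algebraMap F Ω (1 - x) = _
          rw [map_sub, map_one]
        rw [h4] at h3
        exact h3)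
  refine ⟨h1, fun g hg z hz => ?_⟩
  have hgK : ∀ r : K, g (f r) = f r := by
    have h3 : (IsScalarTower.toAlgHom ℚ K B : K →ₐ[ℚ] B) =
        (g : B →ₐ[ℚ] B).comp (IsScalarTower.toAlgHom ℚ K B) := by
      refine AlgHom.ext_of_adjoin_eq_top
        (IsCyclotomicExtension.adjoin_primitive_root_eq_top hζ) ?_
      intro t ht
      rw [Set.mem_singleton_iff] at ht
      rw [ht]
      exact hg.symm
    intro r
    exact (DFunLike.congr_fun h3 r).symm
  have h3 := h2 (AlgEquiv.ofRingEquiv (f := (g : B ≃+* B)) hgK) z hz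
  exact h3

end

end Pool.Agent.Y158.FQ
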