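import Pool.Agent.Y158.GR.Gen

/-!
# Sections of Fermat quotients over `ℚ`: statements of two parts (helper158, project FQ)
-/

set_option autoImplicit false
set_option linter.all false

open Polynomial FF Pool.Agent.Y157.PS Pool.Agent.TH954 IsDedekindDomain NumberField

namespace Pool.Agent.Y158.FQ

/-- the closure of `ℚ` in the completion `K_v`: for `v ∣ ℓ` this is `ℚ_ℓ` -/
noncomputable def Qc {K : Type} [Field K] [NumberField K] (v : HeightOneSpectrum (𝓞 K)) :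
    Subfield (v.adicCompletion K) :=
  (algebraMap ℚ (v.adicCompletion K)).fieldRange.topologicalClosure

/-- Part CL: the Galois group of `ℚ_ℓ(ζ)` over `ℚ_ℓ` -/
def S_CL : Prop :=
  ∀ (K : Type) [Field K] [NumberField K] (ℓ : ℕ) [Fact ℓ.Prime] [IsCyclotomicExtension {ℓ} ℚ K]
    (ζ : K) (hζ : IsPrimitiveRoot ζ ℓ) (C : Type) [Field C]
    [Algebra (Pool.Agent.Y158.KL.Kl hζ) C] [IsAlgClosure (Pool.Agent.Y158.KL.Kl hζ) C]
    (r : ℕ), Nat.Coprime r ℓ →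
    ∃ τ : C ≃ₐ[Qc (Pool.Agent.Y158.KL.lam hζ)] C,
      τ (algebraMap (Pool.Agent.Y158.KL.Kl hζ) C (algebraMap K (Pool.Agent.Y158.KL.Kl hζ) ζ)) =
        (algebraMap (Pool.Agent.Y158.KL.Kl hζ) C (algebraMap K (Pool.Agent.Y158.KL.Kl hζ) ζ)) ^ r

/-- Part UNR: the curve `y ^ ℓ = x ^ a (1 - x) ^ b` has an unramified covering by the Fermat curve -/
def S_UNR : Prop :=
  ∀ (ℓ : ℕ) [Fact ℓ.Prime] (a b : ℕ), ¬ ℓ ∣ a → ¬ ℓ ∣ b → ¬ ℓ ∣ a + b →
    ∀ (k F Ω : Type) [Field k] [CharZero k] [Field F] [Field Ω] [Algebra k F] [Algebra F Ω]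
      [Algebra k Ω] [IsScalarTower k F Ω] [IsAlgClosed Ω] [Algebra.IsAlgebraic F Ω] (x y : F),
      Transcendental k x → Algebra.IsAlgebraic (IntermediateField.adjoin k {x}) F →
      y ^ ℓ = x ^ a * (1 - x) ^ b → ∀ u w : Ω, u ^ ℓ = algebraMap F Ω x →
      w ^ ℓ = algebraMap F Ω (1 - x) →
      ∀ U : Set (ValuationSubring F), (∀ O ∈ U, ∀ c : k, algebraMap k F c ∈ O) →
      ∀ z ∈ geomPro ℓ k (IntermediateField.adjoin k {u, w}) Ω,
        z ∈ Pool.Agent.W620.SC.unramified F Ω U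

end Pool.Agent.Y158.FQ
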