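import Pool.Agent.Y158.FQ.Main2
import Pool.Agent.Y158.FQ.Stm

/-!
# Sections of Fermat quotients over `ℚ`
-/

set_option autoImplicit false
set_option linter.all false

open Polynomial FF Pool.Agent.Y157.PS Pool.Agent.TH954 IsDedekindDomain NumberField

namespace Pool.Agent.Y158.FQ

attribute [-instance] SubfieldClass.instSMulRat

open Pool.Agent.Y158.KL (lam Kl KLem)
open Pool.Agent.Y158.GR (DecL exists_decL given_mem)

/-- a section given over a field is given over every larger field -/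
theorem given_up {k F M κ C L L' : Type} [Field k] [Field F] [Field M] [Field κ] [Field C]
    [Field L] [Field L'] [Algebra k F] [Algebra F M] [Algebra k M] [Algebra k κ] [Algebra k C]
    [Algebra L C] [Algebra L' C] [Algebra L L'] [IsScalarTower L L' C]
    {s : GalSection k F M κ} {p : Plc k M C}
    (h : s.GivenBy L p) : s.GivenBy L' p := by
  intro σ g h1 x c hx
  exact h (σ.restrictScalars L) g h1 x c hx

section

variable {K : Type} [Field K] [NumberField K] {ℓ : ℕ}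
  [hp : Fact ℓ.Prime] [hK : IsCyclotomicExtension {ℓ} ℚ K] {ζ : K} (hζ : IsPrimitiveRoot ζ ℓ)
  {F Ω B : Type} [Field F] [Field Ω] [Field B] [Algebra ℚ F] [Algebra F Ω]
  [Algebra ℚ Ω] [Algebra ℚ B] [IsScalarTower ℚ F Ω] [IsAlgClosed Ω] [Algebra.IsAlgebraic F Ω]
  [IsAlgClosure ℚ B]
  {C : Type} [Field C] [Algebra (Kl hζ) C] [Algebra ℚ C] [IsAlgClosure (Kl hζ) C]

include hK hζ in
/-- the theorem -/
theorem fqQ (hCL : S_CL) (hodd : Odd ℓ) (hcop : (classNumber K).Coprime ℓ) (hKL : KLem ℓ K)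
    {a b : ℕ} (ha : ¬ ℓ ∣ a) (hb : ¬ ℓ ∣ b)
    (hab : ¬ ℓ ∣ a + b) (x y : F) (hx : Transcendental ℚ x)
    (hF : Algebra.IsAlgebraic (IntermediateField.adjoin ℚ {x}) F)
    (u w : Ω) (hu : u ^ ℓ = algebraMap F Ω x)
    (hw : w ^ ℓ = algebraMap F Ω (1 - x)) (huw : u ^ a * w ^ b = algebraMap F Ω y)
    (N : IntermediateField F Ω)
    (hN : ∀ z ∈ geomPro ℓ ℚ (IntermediateField.adjoin ℚ {u, w}) Ω, z ∈ N)
    (s : GalSection ℚ F N B) (p : Plc ℚ N C) (hpv : s.GivenBy (Qc (lam hζ)) p) :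
    (p.val (algebraMap F N x) 0 ∨ p.val (algebraMap F N (1 - x)) 0 ∨
        p.val (algebraMap F N x)⁻¹ 0) ∧
      ∀ (g : B ≃ₐ[ℚ] B) (z : N),
        (z : Ω) ∈ geomPro ℓ ℚ (IntermediateField.adjoin ℚ {u, w}) Ω →
        (s.s g z ∈ p.W ↔ z ∈ p.W) := by
  haveI : Algebra.IsAlgebraic ℚ B := IsAlgClosure.isAlgebraic
  haveI : Normal ℚ B := IsAlgClosure.normal ℚ B
  haveI : NeZero ℓ := ⟨hp.out.ne_zero⟩
  have hpK : s.GivenBy (Kl hζ) p := given_up (L := Qc (lam hζ)) hpv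
  obtain ⟨f, hf, h1, h2⟩ := fqK hζ hodd hcop hKL ha hb hab x y hx hF u w hu hw huw N hN s p hpK
  refine ⟨h1, fun g z hz => ?_⟩
  have hζB : IsPrimitiveRoot (f ζ) ℓ := hζ.map_of_injective f.injective
  have hgζ : IsPrimitiveRoot (g (f ζ)) ℓ := hζB.map_of_injective g.injective
  obtain ⟨r, hr, hr'⟩ := hζB.eq_pow_of_pow_eq_one hgζ.pow_eq_one
  have hrc : Nat.Coprime r ℓ := by
    rw [← hr'] at hgζ
    exact (hζB.pow_iff_coprime hp.out.pos r).1 hgζ
  obtain ⟨τ, hτ⟩ := hCL K ℓ ζ hζ C r hrc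
  letI iQ : Algebra ℚ (Qc (lam hζ)) :=
    ((algebraMap ℚ ((lam hζ).adicCompletion K)).codRestrict (Qc (lam hζ))
      (fun q => Subfield.le_topologicalClosure _ ⟨q, rfl⟩)).toAlgebra
  haveI : @IsScalarTower ℚ (Qc (lam hζ)) C iQ.toSMul Algebra.toSMul Algebra.toSMul :=
    IsScalarTower.of_algebraMap_eq' (Subsingleton.elim _ _)
  obtain ⟨h, hh⟩ := exists_decL (L := Qc (lam hζ)) (p.iot s.j) τ
  have hhζ : h (f ζ) = g (f ζ) := by
    apply (p.iot s.j).injective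
    change p.iot s.j (h (f ζ)) = p.iot s.j (g (f ζ))
    rw [hh, hf, ← hr', map_pow, hf]
    exact hτ
  have h3 : (h⁻¹ * g) (f ζ) = f ζ := by
    change h.symm (g (f ζ)) = f ζ
    rw [← hhζ, h.symm_apply_apply]
  have h4 := h2 (h⁻¹ * g) h3 z hz
  have h5 := given_mem hpv (σ := h) ⟨τ, hh⟩ (s.s (h⁻¹ * g) z)
  have h6 : s.s h (s.s (h⁻¹ * g) z) = s.s g z := by
    change (s.s h * s.s (h⁻¹ * g)) z = _
    rw [← map_mul, mul_inv_cancel_left]
  rw [h6] at h5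
  exact h5.trans h4

end

end Pool.Agent.Y158.FQ
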