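import Pool.Agent.Y31.PS.Exf

/-!
# An automorphism of order `ℓ` of the covering field which has no fixed place on a level

(After `Pool.Agent.Y31.PS.fixes_level`.)
-/

set_option autoImplicit false
set_option linter.all false

open Polynomial FF

namespace Pool.Agent.Y158.FQ

open Pool.Agent.Y157.PS Pool.Agent.Y31.PS

/-- an automorphism `γ` of `M` with `γ ^ ℓ = 1` which induces a nontrivial automorphism of the level
`N` fixes a place of `N` -/
theorem nf {ℓ : ℕ} [hℓ : Fact ℓ.Prime] {κ R N M : Type} [Field κ] [IsAlgClosed κ] [CharZero κ]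
    [Field R] [Field N] [Field M] [Algebra κ R] [Algebra R N] [Algebra κ N] [IsScalarTower κ R N]
    [FiniteDimensional R N] [IsGalois R N] [IsFF κ N] [Algebra κ M] {x : R} (hrat : RatF κ x)
    (hT : S_T1) (hcard : ∃ m : ℕ, Module.finrank R N = ℓ ^ m) (i : N →+* M)
    (hi : ∀ c : κ, i (algebraMap κ N c) = algebraMap κ M c)
    (hroot : ∀ g : N, g ≠ 0 → (∀ w : Place κ N, (ℓ : ℤ) ∣ w.ord g) → ∃ h : M, h ^ ℓ = i g)
    (γ : RingAut M) (hγκ : ∀ c : κ, γ (algebraMap κ M c) = algebraMap κ M c)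
    (hγ : γ ^ ℓ = 1) (g : N ≃ₐ[R] N) (hγg : ∀ z : N, γ (i z) = i (g z)) (hg2 : g ≠ 1) :
    ∃ w : Place κ N, Fixes w g := by
  have hpow : ∀ (n : ℕ) (z : N), i ((g ^ n) z) = (γ ^ n) (i z) := by
    intro n
    induction n with
    | zero => intro z; rfl
    | succ n ih =>
      intro z
      rw [pow_succ, AlgEquiv.mul_apply, ih, ← hγg, pow_succ]
      rfl
  have hg1 : g ^ ℓ = 1 := by
    ext z
    apply i.injective
    rw [hpow, hγ]
    rfl
  by_contra hcon
  push Not at hcon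
  have hfree : ∀ w : Place κ N, pl w g ≠ w := fun w hw => hcon w ((fixes_iff w g).mpr hw)
  -- eigenvector
  have : NeZero ℓ := ⟨hℓ.out.ne_zero⟩
  obtain ⟨ζ, hζ⟩ := HasEnoughRootsOfUnity.exists_primitiveRoot κ ℓ
  have hζ0 : ζ ≠ 0 := hζ.ne_zero hℓ.out.ne_zero
  obtain ⟨z, hz0, hz⟩ := exists_eigen g hg1 hg2 (algebraMap κ N ζ)
    (by rw [← map_pow, hζ.pow_eq_one, map_one]) (aut_const g ζ)
  have hzi : ∀ i : ℕ, (g ^ i) z = algebraMap κ N (ζ ^ i) * z := by
    intro i
    induction i with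
    | zero => simp
    | succ i ih =>
      rw [pow_succ', AlgEquiv.mul_apply, ih, map_mul, aut_const, hz, pow_succ, map_mul]
      ring
  have hzo : ∀ (w : Place κ N) (i : ℕ), w.ord ((g ^ i) z) = w.ord z := by
    intro w i
    rw [hzi, w.ord_mul _ hz0, w.ord_const (pow_ne_zero _ hζ0), zero_add]
    rw [_root_.map_ne_zero]
    exact pow_ne_zero _ hζ0
  obtain ⟨D, hD0, hD⟩ := orbit_div g hg1 hfree z hzo
  obtain ⟨z1, hz10, hz1⟩ := hT ℓ κ R N x hrat hcard (-D) (by
    have : (-D).sum (fun _ n => n) = -(D.sum fun _ n => n) := by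
      rw [Finsupp.sum_neg_index (fun _ => rfl), Finsupp.sum, Finsupp.sum, Finset.sum_neg_distrib]
    rw [this, hD0]
    simp)
  set G : N := z * ∏ i ∈ Finset.range ℓ, (g ^ i) z1 with hG
  have hprod0 : ∏ i ∈ Finset.range ℓ, (g ^ i) z1 ≠ 0 :=
    Finset.prod_ne_zero_iff.mpr fun i _ => (_root_.map_ne_zero _).mpr hz10
  have hG0 : G ≠ 0 := mul_ne_zero hz0 hprod0
  have hordG : ∀ w : Place κ N, (ℓ : ℤ) ∣ w.ord G := by
    intro w
    have h2 : w.ord (∏ i ∈ Finset.range ℓ, (g ^ i) z1) =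
        ∑ i ∈ Finset.range ℓ, w.ord ((g ^ i) z1) := by
      have : ∀ n : ℕ, w.ord (∏ i ∈ Finset.range n, (g ^ i) z1) =
          ∑ i ∈ Finset.range n, w.ord ((g ^ i) z1) := by
        intro n
        induction n with
        | zero => simp [w.ord_one]
        | succ n ih =>
          rw [Finset.prod_range_succ, w.ord_mul, ih, Finset.sum_range_succ]
          · exact Finset.prod_ne_zero_iff.mpr fun i _ => (_root_.map_ne_zero _).mpr hz10
          · exact (_root_.map_ne_zero _).mpr hz10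
      exact this ℓ
    rw [hG, w.ord_mul hz0 hprod0, h2, ← hD w, ← Finset.sum_add_distrib]
    apply Finset.dvd_sum
    intro i _
    have h3 := hz1 (pl w (g ^ i))
    rw [pl_ord, Finsupp.neg_apply] at h3
    have h4 : D (pl w (g ^ i)) + w.ord ((g ^ i) z1) = w.ord ((g ^ i) z1) - -D (pl w (g ^ i)) := by
      ring
    rw [h4]
    exact h3
  -- the root
  obtain ⟨u, hu⟩ := hroot G hG0 hordG
  have hGM0 : i G ≠ 0 := (_root_.map_ne_zero i).2 hG0
  have hu0 : u ≠ 0 := by
    rintro rfl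
    rw [zero_pow hℓ.out.ne_zero] at hu
    exact hGM0 hu.symm
  have hgG : g G = algebraMap κ N ζ * G := by
    rw [hG, map_mul, hz, prod_shift g hg1 z1 hz10]
    ring
  have hγG : γ (i G) = algebraMap κ M ζ * (i G) := by
    rw [hγg, hgG, map_mul, hi]
  have h5 : (γ u / u) ^ ℓ = algebraMap κ M ζ := by
    rw [div_pow, ← map_pow, hu, hγG, mul_div_cancel_right₀ _ hGM0]
  obtain ⟨d, hd, hdl⟩ := root_const hℓ.out.pos h5
  have hγu : γ u = algebraMap κ M d * u := by
    rw [← hd, div_mul_cancel₀ _ hu0]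
  have hγn : ∀ n : ℕ, (γ ^ n) u = algebraMap κ M (d ^ n) * u := by
    intro n
    induction n with
    | zero => rw [pow_zero, pow_zero, map_one, one_mul]; rfl
    | succ n ih =>
      have e1 : (γ ^ (n + 1)) u = γ ((γ ^ n) u) := by rw [pow_succ']; rfl
      rw [e1, ih, map_mul, hγκ, hγu, pow_succ, map_mul]
      ring
  have h6 := hγn ℓ
  rw [hγ, hdl] at h6
  have h7 : algebraMap κ M ζ = 1 := by
    have : (1 : M) * u = algebraMap κ M ζ * u := by rw [one_mul]; exact h6
    exact (mul_right_cancel₀ hu0 this).symm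
  have h8 : ζ = 1 := (algebraMap κ M).injective (by rw [h7, map_one])
  exact hζ.ne_one hℓ.out.one_lt h8

end Pool.Agent.Y158.FQ
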