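import Pool.Agent.Y158.FQ.Ine

/-!
# Rational numbers whose Kummer characters are unramified outside `ℓ`
-/

set_option autoImplicit false
set_option linter.all false

open Polynomial FF Pool.Agent.Y157.PS IsDedekindDomain NumberField

namespace Pool.Agent.Y158.FQ

theorem val_nat {v : HeightOneSpectrum (𝓞 ℚ)} {n : ℕ} (h : (n : 𝓞 ℚ) ∉ v.asIdeal) :
    v.valuation ℚ (n : ℚ) = 1 := by
  have e : (n : ℚ) = algebraMap (𝓞 ℚ) ℚ (n : 𝓞 ℚ) := by rw [map_natCast]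
  rw [e, v.valuation_of_algebraMap, v.intValuation_eq_one_iff]
  exact h

theorem notMem_of_cop {v : HeightOneSpectrum (𝓞 ℚ)} {ℓ n : ℕ} (hℓ : (ℓ : 𝓞 ℚ) ∈ v.asIdeal)
    (h : Nat.Coprime n ℓ) : (n : 𝓞 ℚ) ∉ v.asIdeal := by
  intro hn
  have h1 := Nat.isCoprime_iff_coprime.2 h
  obtain ⟨a, b, hab⟩ := h1
  apply v.isPrime.ne_top
  rw [Ideal.eq_top_iff_one]
  have h2 : (1 : 𝓞 ℚ) = (a : 𝓞 ℚ) * n + (b : 𝓞 ℚ) * ℓ := by
    have h3 := congrArg (fun z : ℤ => (z : 𝓞 ℚ)) hab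
    push_cast at h3
    exact h3.symm
  rw [h2]
  exact add_mem (Ideal.mul_mem_left _ _ hn) (Ideal.mul_mem_left _ _ hℓ)

theorem rat_form {ℓ : ℕ} [hp : Fact ℓ.Prime] (hodd : Odd ℓ) (t : ℚ) (ht : t ≠ 0)
    (h : ∀ v : HeightOneSpectrum (𝓞 ℚ), (ℓ : 𝓞 ℚ) ∉ v.asIdeal →
      ∃ γ : WithZero (Multiplicative ℤ), v.valuation ℚ t = γ ^ ℓ) :
    ∃ (i : ℤ) (k : ℚ), k ≠ 0 ∧ t = (ℓ : ℚ) ^ i * k ^ ℓ := by
  have hℓ1 : ℓ ≠ 1 := hp.out.ne_one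
  have hℓ0 : (ℓ : ℚ) ≠ 0 := by exact_mod_cast hp.out.ne_zero
  have hnum : t.num.natAbs ≠ 0 := by
    rw [Int.natAbs_ne_zero]
    exact Rat.num_ne_zero.2 ht
  obtain ⟨m, a, ha, hma⟩ := Nat.exists_eq_pow_mul_and_not_dvd hnum ℓ hℓ1
  obtain ⟨n, b, hb, hnb⟩ := Nat.exists_eq_pow_mul_and_not_dvd t.den_ne_zero ℓ hℓ1
  have hacop : Nat.Coprime a ℓ := ((Nat.Prime.coprime_iff_not_dvd hp.out).2 ha).symm
  have hbcop : Nat.Coprime b ℓ := ((Nat.Prime.coprime_iff_not_dvd hp.out).2 hb).symm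
  have ha0 : a ≠ 0 := by rintro rfl; exact ha (dvd_zero _)
  have hb0 : b ≠ 0 := by rintro rfl; exact hb (dvd_zero _)
  have haQ : (a : ℚ) ≠ 0 := by exact_mod_cast ha0
  have hbQ : (b : ℚ) ≠ 0 := by exact_mod_cast hb0
  obtain ⟨e, he, hte⟩ : ∃ e : ℚ, (e = 1 ∨ e = -1) ∧
      t = e * ((ℓ : ℚ) ^ ((m : ℤ) - n)) * (a / b) := by
    have h1 : t = t.num / t.den := (Rat.num_div_den t).symm
    have h2 : (t.den : ℚ) = (ℓ : ℚ) ^ n * b := by rw [hnb]; push_cast; ring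
    have h3 : (t.num : ℚ) = (ℓ : ℚ) ^ m * a ∨ (t.num : ℚ) = -((ℓ : ℚ) ^ m * a) := by
      rcases Int.natAbs_eq t.num with h4 | h4
      · left; rw [h4, hma]; push_cast; ring
      · right; rw [h4, hma]; push_cast; ring
    rcases h3 with h3 | h3
    · refine ⟨1, Or.inl rfl, ?_⟩
      rw [h1, h2, h3, zpow_sub₀ hℓ0, zpow_natCast, zpow_natCast]
      field_simp
    · refine ⟨-1, Or.inr rfl, ?_⟩
      rw [h1, h2, h3, zpow_sub₀ hℓ0, zpow_natCast, zpow_natCast]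
      field_simp
  have he1 : ∀ v : HeightOneSpectrum (𝓞 ℚ), v.valuation ℚ e = 1 := by
    intro v
    rcases he with rfl | rfl
    · exact map_one _
    · rw [Valuation.map_neg, map_one]
  -- the unit part
  obtain ⟨u, k, hk, hu⟩ := Pool.Agent.Y158.KL.exists_unit_mul_pow (K := ℚ) hp.out.pos
    (by rw [Rat.classNumber_eq]; exact Nat.coprime_one_left ℓ) ((a : ℚ) / b)
    (div_ne_zero haQ hbQ) (by
    intro v
    by_cases hv : (ℓ : 𝓞 ℚ) ∈ v.asIdeal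
    · refine ⟨1, ?_⟩
      rw [map_div₀, val_nat (notMem_of_cop hv hacop), val_nat (notMem_of_cop hv hbcop), one_pow,
        div_one]
    · obtain ⟨γ, hγ⟩ := h v hv
      refine ⟨γ, ?_⟩
      rw [← hγ, hte, map_mul, map_mul, he1, map_zpow₀, val_nat hv, one_zpow, one_mul, one_mul])
  have hu1 : algebraMap (𝓞 ℚ) ℚ u = 1 ∨ algebraMap (𝓞 ℚ) ℚ u = -1 := by
    have h1 := (NumberField.isUnit_iff_norm (K := ℚ) (x := (u : 𝓞 ℚ))).1 u.isUnit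
    rw [RingOfIntegers.coe_norm] at h1
    have h2 : ∀ (i : Algebra ℚ ℚ) (z : ℚ), @Algebra.norm ℚ ℚ _ _ i z = z := by
      intro i z
      have e : i = Algebra.id ℚ := Subsingleton.elim _ _
      subst e
      have h3 := Algebra.norm_algebraMap (R := ℚ) (S := ℚ) z
      rw [Module.finrank_self, pow_one] at h3
      exact h3
    have h3 : |((u : 𝓞 ℚ) : ℚ)| = 1 := by
      rw [h2] at h1
      exact h1
    exact eq_or_eq_neg_of_abs_eq h3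
  obtain ⟨e', he'⟩ : ∃ e' : ℚ, e * algebraMap (𝓞 ℚ) ℚ u = e' ^ ℓ ∧ e' ≠ 0 := by
    have h1 : e * algebraMap (𝓞 ℚ) ℚ u = 1 ∨ e * algebraMap (𝓞 ℚ) ℚ u = -1 := by
      rcases he with rfl | rfl <;> rcases hu1 with h2 | h2 <;> rw [h2] <;> norm_num
    rcases h1 with h1 | h1
    · exact ⟨1, by rw [h1, one_pow], one_ne_zero⟩
    · exact ⟨-1, by rw [h1, hodd.neg_one_pow], by norm_num⟩
  refine ⟨(m : ℤ) - n, e' * k, mul_ne_zero he'.2 hk, ?_⟩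
  rw [mul_pow, ← he'.1, hte, hu]
  ring

section char

variable {ℓ : ℕ} [hℓ : Fact ℓ.Prime] {κ R M : Type} [Field κ] [Algebra ℚ κ] [IsAlgClosure ℚ κ]
  [Field R] [Field M] [Algebra κ R] [Algebra R M] [Algebra κ M]
  [IsScalarTower κ R M] {x : R} {Y : M}

/-- the numbers of the twist are powers of `ℓ` up to `ℓ`-th powers -/
theorem tw_form (hodd : Odd ℓ) {c c' : κ} {s : (κ ≃ₐ[ℚ] κ) →* RingAut M}
    (hC : Cov ℓ κ R M x (nthRootsFinset ℓ (1 : κ)) Y) (hs : Tw ℓ ℚ κ R M x Y c c' s)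
    {a b : ℕ} (ha : ¬ ℓ ∣ a) (hb : ¬ ℓ ∣ b) (hab : ¬ ℓ ∣ a + b)
    (hrel : ∀ σ : κ ≃ₐ[ℚ] κ, (σ c' / c') ^ a * (σ c / c) ^ b = 1) :
    (∃ (i : ℤ) (k : ℚ), k ≠ 0 ∧ c ^ ℓ = algebraMap ℚ κ ((ℓ : ℚ) ^ i * k ^ ℓ)) ∧
    (∃ (i : ℤ) (k : ℚ), k ≠ 0 ∧ c' ^ ℓ = algebraMap ℚ κ ((ℓ : ℚ) ^ i * k ^ ℓ)) := by
  have hℓ0 : ℓ ≠ 0 := hℓ.out.ne_zero
  -- the inertia groups
  have key : ∀ v : HeightOneSpectrum (𝓞 ℚ), (ℓ : 𝓞 ℚ) ∉ v.asIdeal → ∃ V : ValuationSubring κ,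
      Pool.Agent.Y158.GR.Above v V ∧ ∀ σ : κ ≃ₐ[ℚ] κ, Ine V σ → σ c = c ∧ σ c' = c' := by
    intro v hv
    obtain ⟨V, hV⟩ := Pool.Agent.Y158.GR.exists_above (K := ℚ) κ v
    refine ⟨V, hV, fun σ hσ => ?_⟩
    have hl : IsU V (ℓ : κ) := by
      rw [← map_natCast (algebraMap ℚ κ) ℓ, hV.isU, val_nat hv]
    obtain ⟨q, hq, hq0⟩ := Submodule.exists_mem_ne_zero_of_ne_bot v.ne_bot
    have h1 := ine_rot hC hs V hl q hq0 (hV.ideal q hq) σ hσ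
    have hc0 := hs.c0
    have hc0' := hs.c0'
    obtain ⟨t, ht⟩ := hs.pow
    obtain ⟨t', ht'⟩ := hs.pow'
    have hroot : ∀ {d : κ} {u : ℚ}, d ≠ 0 → algebraMap ℚ κ u = d ^ ℓ → (σ d / d) ^ ℓ = 1 := by
      intro d u hd hu
      rw [div_pow, ← map_pow, ← hu, σ.commutes, div_self]
      rw [hu]
      exact pow_ne_zero _ hd
    have h2 := hroot hc0 ht
    have h3 := hroot hc0' ht'
    have h4 := hrel σ
    have hone : ∀ {z : κ} {n : ℕ}, z ^ ℓ = 1 → ¬ ℓ ∣ n → z ^ n = 1 → z = 1 := by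
      intro z n hz hn hzn
      have h5 : Nat.Coprime ℓ n := (Nat.Prime.coprime_iff_not_dvd hℓ.out).2 hn
      have h6 : orderOf z ∣ Nat.gcd ℓ n :=
        Nat.dvd_gcd (orderOf_dvd_of_pow_eq_one hz) (orderOf_dvd_of_pow_eq_one hzn)
      rw [Nat.Coprime.gcd_eq_one h5, Nat.dvd_one] at h6
      exact orderOf_eq_one_iff.1 h6
    have h5 : σ c / c = 1 ∧ σ c' / c' = 1 := by
      rcases h1 with h1 | h1 | h1
      · refine ⟨h1, hone h3 ha ?_⟩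
        rwa [h1, one_pow, mul_one] at h4
      · refine ⟨hone h2 hb ?_, h1⟩
        rwa [h1, one_pow, one_mul] at h4
      · have h5 : σ c' / c' = 1 := by
          refine hone h3 hab ?_
          rwa [h1, ← pow_add] at h4
        exact ⟨h1.trans h5, h5⟩
    exact ⟨(div_eq_one_iff_eq hc0).1 h5.1, (div_eq_one_iff_eq hc0').1 h5.2⟩
  have fin : ∀ d : κ, d ≠ 0 → (∃ u : ℚ, algebraMap ℚ κ u = d ^ ℓ) →
      (∀ v : HeightOneSpectrum (𝓞 ℚ), (ℓ : 𝓞 ℚ) ∉ v.asIdeal → ∃ V : ValuationSubring κ,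
      Pool.Agent.Y158.GR.Above v V ∧ ∀ σ : κ ≃ₐ[ℚ] κ, Ine V σ → σ d = d) →
      ∃ (i : ℤ) (k : ℚ), k ≠ 0 ∧ d ^ ℓ = algebraMap ℚ κ ((ℓ : ℚ) ^ i * k ^ ℓ) := by
    rintro d hd ⟨u, hu⟩ hker
    obtain ⟨i, k, hk, hik⟩ := rat_form hodd u (by
      rintro rfl
      rw [map_zero] at hu
      exact pow_ne_zero ℓ hd hu.symm) (fun v hv => by
      obtain ⟨V, hV, hVI⟩ := hker v hv
      obtain ⟨r, hr⟩ := hV.pow hv hd hVI hu
      exact ⟨_, hr⟩)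
    exact ⟨i, k, hk, by rw [← hu, hik]⟩
  exact ⟨fin c hs.c0 hs.pow (fun v hv => by
      obtain ⟨V, hV, h⟩ := key v hv
      exact ⟨V, hV, fun σ hσ => (h σ hσ).1⟩),
    fin c' hs.c0' hs.pow' (fun v hv => by
      obtain ⟨V, hV, h⟩ := key v hv
      exact ⟨V, hV, fun σ hσ => (h σ hσ).2⟩)⟩

end char

end Pool.Agent.Y158.FQ
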