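import Pool.Agent.Y158.FQ.Frp

/-!
# Elements of order `ℓ` over a fixed-point-free rotation do not exist
-/

set_option autoImplicit false
set_option linter.all false

open Polynomial FF

namespace Pool.Agent.Y158.FQ

open Pool.Agent.Y157.PS Pool.Agent.Y31.PS

variable {ℓ : ℕ} [hℓ : Fact ℓ.Prime] {κ R M : Type} [Field κ] [IsAlgClosed κ] [CharZero κ]
  [Field R] [Field M] [Algebra κ R] [Algebra R M] [Algebra κ M] [IsScalarTower κ R M] {x : R}
  {Y : M}

/-- **there is no automorphism of order `ℓ` of the covering field over `κ` which induces a rotation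
of the Fermat curve without fixed points** -/
theorem no_rot (hC : Cov ℓ κ R M x (nthRootsFinset ℓ (1 : κ)) Y) (γ : RingAut M) (hγ : γ ^ ℓ = 1)
    (hγκ : ∀ c : κ, γ (algebraMap κ M c) = algebraMap κ M c) {ξ ξ' : κ} (hξ : ξ ^ ℓ = 1)
    (hξ' : ξ' ^ ℓ = 1) (hx : γ (algebraMap R M x) = algebraMap κ M ξ' * algebraMap R M x)
    (hY : γ Y = algebraMap κ M ξ * Y) (h1 : ξ ≠ 1) (h2 : ξ' ≠ 1) (h3 : ξ ≠ ξ') : False := by
  haveI := hC.gal
  have hℓ0 : ℓ ≠ 0 := hℓ.out.ne_zero
  have hne0 : ∀ {c : κ}, c ^ ℓ = 1 → c ≠ 0 := by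
    rintro c hc rfl
    rw [zero_pow hℓ0] at hc
    exact zero_ne_one hc
  have hxt : Transcendental κ (algebraMap R M x) :=
    (transcendental_algebraMap_iff (algebraMap R M).injective).2 hC.rat.trans
  have hxM0 : algebraMap R M x ≠ 0 := by
    intro h
    apply hxt
    rw [h]
    exact isAlgebraic_zero
  have hYX : Y ^ ℓ = (algebraMap R M x) ^ ℓ - 1 := by rw [hC.eqn, prod_mu]
  have hY0 : Y ≠ 0 := by
    rintro rfl
    rw [zero_pow hℓ0] at hYX
    apply hxt
    refine ⟨Polynomial.X ^ ℓ - 1, (monic_X_pow_sub_C (1 : κ) hℓ0).ne_zero, ?_⟩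
    simp [← hYX]
  -- the level
  let N : IntermediateField R M := IntermediateField.adjoin R {Y}
  have hYN : Y ∈ N := IntermediateField.mem_adjoin_simple_self R Y
  have hYint : IsIntegral R Y := by
    apply IsIntegral.of_pow hℓ.out.pos
    rw [hYX]
    exact isIntegral_algebraMap.pow ℓ |>.sub isIntegral_one
  haveI hfin : FiniteDimensional R N := IntermediateField.adjoin.finiteDimensional hYint
  haveI hFF : IsFF κ N := hC.rat.isFF
  let X : N := algebraMap R N x
  let Z : N := ⟨Y, hYN⟩
  have hX0 : X ≠ 0 := by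
    intro h
    apply hxM0
    have : ((X : N) : M) = 0 := by rw [h]; rfl
    exact this
  have hZ0 : Z ≠ 0 := by
    intro h
    exact hY0 (congrArg Subtype.val h)
  have hZX : Z ^ ℓ = X ^ ℓ - 1 := Subtype.ext hYX
  have hgen : ∀ T : IntermediateField κ N, X ∈ T → Z ∈ T → T = ⊤ := by
    intro T hT1 hT2
    rw [eq_top_iff]
    intro z _
    have hR : ∀ r : R, algebraMap R N r ∈ T := by
      intro r
      have h1 : r ∈ IntermediateField.adjoin κ {x} := by rw [hC.rat.gen]; trivial
      refine adjoin_le_sub (K := κ) (S := {x})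
        (T := T.toSubfield.comap (algebraMap R N)) (fun c => ?_) (fun z hz => ?_) r h1
      · rw [Subfield.mem_comap, ← IsScalarTower.algebraMap_apply]
        exact T.algebraMap_mem c
      · rw [Set.mem_singleton_iff] at hz
        rw [hz, Subfield.mem_comap]
        exact hT1
    have h2 : ∀ w ∈ IntermediateField.adjoin R {Y},
        w ∈ (T.toSubfield.map (algebraMap N M)) := by
      refine adjoin_le_sub (fun r => ?_) (fun w hw => ?_)
      · rw [Subfield.mem_map]
        exact ⟨algebraMap R N r, hR r, rfl⟩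
      · rw [Set.mem_singleton_iff] at hw
        rw [hw, Subfield.mem_map]
        exact ⟨Z, hT2, rfl⟩
    obtain ⟨w, hw, hwz⟩ := Subfield.mem_map.1 (h2 (z : M) z.2)
    have h3 : w = z := Subtype.ext hwz
    rw [← h3]
    exact hw
  obtain ⟨i1, i2, hcard⟩ := kummer_level (ℓ := ℓ) hX0 hZ0 hgen hZX
  haveI := i1
  haveI := i2
  have hXt : Transcendental κ (X ^ ℓ) := by
    intro h
    apply hxt
    have h4 : IsAlgebraic κ X := h.of_pow hℓ.out.pos
    haveI : IsScalarTower κ N M := IsScalarTower.of_algebraMap_eq fun c => rfl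
    exact (isAlgebraic_algebraMap_iff (A := M) (algebraMap N M).injective).2 h4
  have hrat := ratF_adj hXt
  -- the automorphism of the level
  have hmapR : ∀ r : R, γ (algebraMap R M r) ∈ N := by
    intro r
    have h1 : r ∈ IntermediateField.adjoin κ {x} := by rw [hC.rat.gen]; trivial
    refine adjoin_le_sub (K := κ) (S := {x})
      (T := N.toSubfield.comap ((γ : M →+* M).comp (algebraMap R M))) (fun c => ?_)
      (fun z hz => ?_) r h1
    · rw [Subfield.mem_comap]
      change γ (algebraMap R M (algebraMap κ R c)) ∈ N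
      rw [← IsScalarTower.algebraMap_apply, hγκ, IsScalarTower.algebraMap_apply κ R M]
      exact N.algebraMap_mem _
    · rw [Set.mem_singleton_iff] at hz
      rw [hz, Subfield.mem_comap]
      change γ (algebraMap R M x) ∈ N
      rw [hx, IsScalarTower.algebraMap_apply κ R M]
      exact mul_mem (N.algebraMap_mem _) (N.algebraMap_mem _)
  have hmapN : ∀ z ∈ N, γ z ∈ N := by
    intro z hz
    refine adjoin_le_sub (K := R) (S := {Y}) (T := N.toSubfield.comap (γ : M →+* M))
      (fun r => ?_) (fun w hw => ?_) z hz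
    · rw [Subfield.mem_comap]
      exact hmapR r
    · rw [Set.mem_singleton_iff] at hw
      rw [hw, Subfield.mem_comap]
      change γ Y ∈ N
      rw [hY, IsScalarTower.algebraMap_apply κ R M]
      exact mul_mem (N.algebraMap_mem _) hYN
  have hfixR : ∀ r ∈ IntermediateField.adjoin κ {X ^ ℓ}, γ ((r : N) : M) = ((r : N) : M) := by
    intro r hr
    refine adjoin_le_sub (K := κ) (S := {X ^ ℓ})
      (T := RingHom.eqLocusField ((γ : M →+* M).comp (algebraMap N M)) (algebraMap N M))
      (fun c => ?_) (fun w hw => ?_) r hr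
    · change γ (algebraMap N M (algebraMap κ N c)) = algebraMap N M (algebraMap κ N c)
      exact hγκ c
    · rw [Set.mem_singleton_iff] at hw
      rw [hw]
      change γ ((algebraMap R M x) ^ ℓ) = (algebraMap R M x) ^ ℓ
      rw [map_pow, hx, mul_pow, ← map_pow, hξ', map_one, one_mul]
  let f : N →ₐ[IntermediateField.adjoin κ {X ^ ℓ}] N :=
    { toFun := fun z => ⟨γ (z : M), hmapN _ z.2⟩
      map_one' := Subtype.ext (map_one γ)
      map_mul' := fun a b => Subtype.ext (map_mul γ (a : M) (b : M))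
      map_zero' := Subtype.ext (map_zero γ)
      map_add' := fun a b => Subtype.ext (map_add γ (a : M) (b : M))
      commutes' := fun r => Subtype.ext (hfixR r r.2) }
  haveI : Algebra.IsAlgebraic (IntermediateField.adjoin κ {X ^ ℓ}) N :=
    Algebra.IsAlgebraic.of_finite _ _
  have hfb : Function.Bijective f := Algebra.IsAlgebraic.algHom_bijective f
  let g : N ≃ₐ[IntermediateField.adjoin κ {X ^ ℓ}] N := AlgEquiv.ofBijective f hfb
  have hgM : ∀ z : N, ((g z : N) : M) = γ (z : M) := fun z => rfl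
  have hgX : g X = algebraMap κ N ξ' * X := Subtype.ext hx
  have hgZ : g Z = algebraMap κ N ξ * Z := Subtype.ext hY
  have hg1 : g ≠ 1 := by
    intro h
    rw [h] at hgX
    have h4 : algebraMap κ N 1 * X = algebraMap κ N ξ' * X := by rw [map_one, one_mul]; exact hgX
    exact h2 ((algebraMap κ N).injective (mul_right_cancel₀ hX0 h4)).symm
  obtain ⟨w, hw⟩ := nf (ℓ := ℓ) (κ := κ) (M := M) hrat a_t1 hcard (algebraMap N M)
    (fun c => rfl) (fun z hz hord => hC.root (z : M) (fun h => hz (Subtype.ext h)) (fun W => by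
      obtain ⟨w, hw⟩ := (a_res ℓ κ R M x _ Y hC N hfin hYN).1 W
      rw [hw]
      exact hord w)) γ hγκ hγ g (fun z => rfl) hg1
  -- orders at the fixed place
  have halg : Algebra.IsAlgebraic (IntermediateField.adjoin κ {X ^ ℓ}) N := inferInstance
  have hgκ : ∀ c : κ, (g : N ≃+* N) (algebraMap κ N c) = algebraMap κ N c := fun c =>
    Subtype.ext (hγκ c)
  have o1 := fix_ord halg w (g : N ≃+* N) hgκ hw hX0 (hne0 hξ') h2 hgX
  have o2 := fix_ord halg w (g : N ≃+* N) hgκ hw hZ0 (hne0 hξ) h1 hgZ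
  have o3 := fix_ord halg w (g : N ≃+* N) hgκ hw (z := Z / X) (div_ne_zero hZ0 hX0)
    (η := ξ / ξ') (div_ne_zero (hne0 hξ) (hne0 hξ')) (by
      intro h
      exact h3 ((div_eq_one_iff_eq (hne0 hξ')).1 h)) (by
      change g (Z / X) = _
      rw [map_div₀, hgX, hgZ, map_div₀, mul_div_mul_comm])
  rw [w.ord_div hZ0 hX0] at o3
  rcases ord_fer hℓ.out.pos w hX0 hZ0 hZX with h | h | h
  · exact o1 h
  · exact o2 h
  · exact o3 (by rw [h]; ring)

end Pool.Agent.Y158.FQ
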