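import Pool.Agent.Y157.PS.Geo2
import Pool.Agent.Y529.PS.INRT

/-! # The maximal pro-`ℓ` extension: transport by automorphisms -/

set_option autoImplicit false
set_option linter.all false

open Polynomial FF

namespace Pool.Agent.Y158.FQ

open Pool.Agent.Y157.PS

section congr

variable {κ₁ κ₂ K₁ K₂ Ω : Type} [Field κ₁] [Field κ₂] [Field K₁] [Field K₂] [Field Ω]
  [Algebra κ₁ Ω] [Algebra κ₂ Ω] [Algebra K₁ Ω] [Algebra K₂ Ω]

/-- the image of a field -/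
def swp (ψ : Ω ≃+* Ω) (e : K₁ ≃+* K₂) (he : ∀ a, algebraMap K₂ Ω (e a) = ψ (algebraMap K₁ Ω a))
    (L : IntermediateField K₁ Ω) : IntermediateField K₂ Ω :=
  { L.toSubfield.comap (ψ.symm : Ω →+* Ω) with
    algebraMap_mem' := fun a => by
      change ψ.symm (algebraMap K₂ Ω a) ∈ L
      have h1 : ψ.symm (algebraMap K₂ Ω a) = algebraMap K₁ Ω (e.symm a) := by
        apply ψ.injective
        rw [ψ.apply_symm_apply, ← he, e.apply_symm_apply]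
      rw [h1]
      exact L.algebraMap_mem _ }

theorem mem_swp (ψ : Ω ≃+* Ω) (e : K₁ ≃+* K₂)
    (he : ∀ a, algebraMap K₂ Ω (e a) = ψ (algebraMap K₁ Ω a))
    (L : IntermediateField K₁ Ω) (z : Ω) : z ∈ swp ψ e he L ↔ ψ.symm z ∈ L := Iff.rfl

theorem swp_lev {ℓ : ℕ} (ψ : Ω ≃+* Ω) (e : K₁ ≃+* K₂)
    (he : ∀ a, algebraMap K₂ Ω (e a) = ψ (algebraMap K₁ Ω a))
    (L : IntermediateField K₁ Ω) (h : Lev ℓ L) : Lev ℓ (swp ψ e he L) := by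
  let g : L ≃+* swp ψ e he L :=
    { toFun := fun z => ⟨ψ z.1, by rw [mem_swp, ψ.symm_apply_apply]; exact z.2⟩
      invFun := fun z => ⟨ψ.symm z.1, z.2⟩
      left_inv := fun z => Subtype.ext (ψ.symm_apply_apply z.1)
      right_inv := fun z => Subtype.ext (ψ.apply_symm_apply z.1)
      map_mul' := fun z w => Subtype.ext (map_mul ψ z.1 w.1)
      map_add' := fun z w => Subtype.ext (map_add ψ z.1 w.1) }
  have hcomp : (algebraMap K₂ (swp ψ e he L)).comp (e : K₁ →+* K₂) =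
      (g : L →+* swp ψ e he L).comp (algebraMap K₁ L) := by
    ext a
    exact he a
  have h1 := h.fin
  have h2 := h.gal
  obtain ⟨m, hm⟩ := h.card
  exact ⟨Module.Finite.of_equiv_equiv e g hcomp, IsGalois.of_equiv_equiv (f := e) (g := g) hcomp,
    m, by rw [← Algebra.finrank_eq_of_equiv_equiv e g hcomp, hm]⟩

theorem swp_unr (ψ : Ω ≃+* Ω) (e : K₁ ≃+* K₂)
    (he : ∀ a, algebraMap K₂ Ω (e a) = ψ (algebraMap K₁ Ω a))
    (hκ : ∀ W : ValuationSubring Ω, (∀ c, algebraMap κ₂ Ω c ∈ W) →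
      ∀ c, ψ (algebraMap κ₁ Ω c) ∈ W)
    (L : IntermediateField K₁ Ω) (h : Unr κ₁ K₁ Ω L) : Unr κ₂ K₂ Ω (swp ψ e he L) := by
  intro W hW z hz hz0
  obtain ⟨t, ht, hu⟩ := h (W.comap (ψ : Ω →+* Ω)) (fun c => hκ W hW c) (ψ.symm z) hz
    ((map_ne_zero_iff _ ψ.symm.injective).2 hz0)
  refine ⟨e t, (map_ne_zero_iff e e.injective).2 ht, ?_⟩
  have e1 : z / algebraMap K₂ Ω (e t) = ψ (ψ.symm z / algebraMap K₁ Ω t) := by
    rw [map_div₀, ψ.apply_symm_apply, he]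
  rw [e1]
  refine ⟨(map_ne_zero_iff _ ψ.injective).2 hu.1, hu.2.1, ?_⟩
  rw [← map_inv₀]
  exact hu.2.2

theorem maxPro_map {ℓ : ℕ} (ψ : Ω ≃+* Ω) (e : K₁ ≃+* K₂)
    (he : ∀ a, algebraMap K₂ Ω (e a) = ψ (algebraMap K₁ Ω a))
    (hκ : ∀ W : ValuationSubring Ω, (∀ c, algebraMap κ₂ Ω c ∈ W) →
      ∀ c, ψ (algebraMap κ₁ Ω c) ∈ W)
    (z : Ω) (hz : z ∈ maxPro ℓ κ₁ K₁ Ω) : ψ z ∈ maxPro ℓ κ₂ K₂ Ω := by
  have he' : ∀ a, algebraMap K₁ Ω (e.symm a) = ψ.symm (algebraMap K₂ Ω a) := by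
    intro a
    apply ψ.injective
    rw [← he, e.apply_symm_apply, ψ.apply_symm_apply]
  have h1 : maxPro ℓ κ₁ K₁ Ω ≤ swp ψ.symm e.symm he' (maxPro ℓ κ₂ K₂ Ω) := by
    refine iSup_le fun L => ?_
    intro w hw
    rw [mem_swp]
    have h2 : swp ψ e he L.1 ≤ maxPro ℓ κ₂ K₂ Ω :=
      le_iSup (fun L : {L : IntermediateField K₂ Ω // Lev ℓ L ∧ Unr κ₂ K₂ Ω L} => L.1)
        ⟨swp ψ e he L.1, swp_lev ψ e he L.1 L.2.1, swp_unr ψ e he hκ L.1 L.2.2⟩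
    refine h2 ?_
    rw [mem_swp]
    change ψ.symm (ψ w) ∈ L.1
    rw [ψ.symm_apply_apply]
    exact hw
  have h2 := h1 hz
  rw [mem_swp] at h2
  exact h2

end congr

section geo

variable {k₁ k₂ F₁ F₂ Ω : Type} [Field k₁] [Field k₂] [Field F₁] [Field F₂] [Field Ω]
  [Algebra k₁ Ω] [Algebra k₂ Ω] [Algebra F₁ Ω] [Algebra F₂ Ω]

/-- transport of the geometrically pro-`ℓ` extension -/
theorem geomPro_map {ℓ : ℕ} (ψ : Ω ≃+* Ω) (h1 : ∀ z ∈ geomF k₁ F₁ Ω, ψ z ∈ geomF k₂ F₂ Ω)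
    (h2 : ∀ z ∈ geomF k₂ F₂ Ω, ψ.symm z ∈ geomF k₁ F₁ Ω)
    (hκ : ∀ W : ValuationSubring Ω, (∀ c, algebraMap k₂ Ω c ∈ W) →
      ∀ c, ψ (algebraMap k₁ Ω c) ∈ W)
    (z : Ω) (hz : z ∈ geomPro ℓ k₁ F₁ Ω) : ψ z ∈ geomPro ℓ k₂ F₂ Ω := by
  let e : geomF k₁ F₁ Ω ≃+* geomF k₂ F₂ Ω :=
    { toFun := fun z => ⟨ψ z.1, h1 _ z.2⟩
      invFun := fun z => ⟨ψ.symm z.1, h2 _ z.2⟩
      left_inv := fun z => Subtype.ext (ψ.symm_apply_apply z.1)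
      right_inv := fun z => Subtype.ext (ψ.apply_symm_apply z.1)
      map_mul' := fun z w => Subtype.ext (map_mul ψ z.1 w.1)
      map_add' := fun z w => Subtype.ext (map_add ψ z.1 w.1) }
  exact maxPro_map (κ₁ := k₁) (κ₂ := k₂) ψ e (fun a => rfl) hκ z hz

/-- an inclusion of the fields `k̄ F` -/
theorem geomF_le (ψ : Ω ≃+* Ω) (h1 : ∀ z ∈ algebraicClosure k₁ Ω, ψ z ∈ algebraicClosure k₂ Ω)
    (h2 : ∀ z : F₁, ψ (algebraMap F₁ Ω z) ∈ geomF k₂ F₂ Ω) :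
    ∀ z ∈ geomF k₁ F₁ Ω, ψ z ∈ geomF k₂ F₂ Ω := by
  intro z hz
  refine adjoin_le_sub (T := (geomF k₂ F₂ Ω).toSubfield.comap (ψ : Ω →+* Ω)) (fun c => ?_)
    (fun w hw => ?_) z hz
  · exact h2 c
  · exact IntermediateField.subset_adjoin F₂ _ (h1 w hw)

end geo

end Pool.Agent.Y158.FQ
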