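import Pool.Agent.Y158.FQ.Hil
import Pool.Agent.Y158.FQ.Swp
import Pool.Agent.Y158.FQ.Lcl

/-!
# The covering field and the restricted action
-/

set_option autoImplicit false
set_option linter.all false

open Polynomial FF Pool.Agent.Y157.PS Pool.Agent.TH954 IsDedekindDomain NumberField

namespace Pool.Agent.Y158.FQ

section setup

variable {k F Ω : Type} [Field k] [CharZero k] [Field F] [Field Ω] [Algebra k F] [Algebra F Ω]
  [Algebra k Ω] [IsScalarTower k F Ω] [IsAlgClosed Ω] [Algebra.IsAlgebraic F Ω]

/-- the covering field of the Fermat curve -/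
theorem setupF {ℓ : ℕ} [hp : Fact ℓ.Prime] (hodd : Odd ℓ) (x y : F) (hx : Transcendental k x)
    (hF : IntermediateField.adjoin k {x, y} = (⊤ : IntermediateField k F))
    (hxy : x ^ ℓ + y ^ ℓ = 1) :
    ∃ (R M : Type) (_ : Field R) (_ : Field M) (_ : Algebra (algebraicClosure k Ω) R)
      (_ : Algebra R M) (_ : Algebra (algebraicClosure k Ω) M)
      (_ : IsScalarTower (algebraicClosure k Ω) R M) (x' : R) (Y : M)
      (eqv : M ≃+* geomPro ℓ k F Ω),
      Cov ℓ (algebraicClosure k Ω) R M x' (nthRootsFinset ℓ (1 : algebraicClosure k Ω)) Y ∧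
      (∀ c : algebraicClosure k Ω, ((eqv (algebraMap (algebraicClosure k Ω) M c) :
        geomPro ℓ k F Ω) : Ω) = (c : Ω)) ∧
      ((eqv (algebraMap R M x') : geomPro ℓ k F Ω) : Ω) = algebraMap F Ω x ∧
      ((eqv Y : geomPro ℓ k F Ω) : Ω) = -algebraMap F Ω y := by
  haveI : IsAlgClosure k (algebraicClosure k Ω) := inferInstance
  haveI : IsAlgClosed (algebraicClosure k Ω) := IsAlgClosure.isAlgClosed k
  haveI : CharZero (algebraicClosure k Ω) :=
    charZero_of_injective_algebraMap (algebraMap k (algebraicClosure k Ω)).injective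
  haveI : NeZero ℓ := ⟨hp.out.ne_zero⟩
  obtain ⟨ζ, hζκ⟩ := HasEnoughRootsOfUnity.exists_primitiveRoot (algebraicClosure k Ω) ℓ
  have hcard : (nthRootsFinset ℓ (1 : algebraicClosure k Ω)).card = ℓ := hζκ.card_nthRootsFinset
  have hℓ3 : 3 ≤ ℓ := by
    have h2 := hp.out.two_le
    obtain ⟨t, ht⟩ := hodd
    omega
  have h3 : ((-1 : algebraicClosure k Ω) : Ω) = -1 := by push_cast; rfl
  obtain ⟨R, M, i1, i2, i3, i4, i5, i6, x', Y, eqv, h1, h2, h4, h5⟩ :=
    Pool.Agent.Y158.GR.glue (nthRootsFinset ℓ (1 : algebraicClosure k Ω)) (by rw [hcard])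
    (by rw [hcard]; exact hℓ3) (-1) (neg_ne_zero.2 one_ne_zero) x y hx hF (by
    have h1 := prod_mu ℓ (κ := algebraicClosure k Ω) (algebraMap F Ω x)
    have h4 := congrArg (algebraMap F Ω) hxy
    rw [map_add, map_pow, map_pow, map_one] at h4
    rw [h3, neg_one_mul, Odd.neg_pow hodd]
    have h5 : -(algebraMap F Ω y) ^ ℓ = (algebraMap F Ω x) ^ ℓ - 1 := by linear_combination -h4
    rw [h5, ← h1]
    rfl)
  refine ⟨R, M, i1, i2, i3, i4, i5, i6, x', Y, eqv, h1, h2, h4, ?_⟩
  rw [h5, h3, neg_one_mul]

end setup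

/-- restriction of an action to a stable subfield -/
theorem restrict_hom {G N M : Type} [Group G] [Field N] [Field M] (i : M →+* N)
    (S : G →* RingAut N) (h : ∀ g z, ∃ w, i w = S g (i z)) :
    ∃ T : G →* RingAut M, ∀ g z, i (T g z) = S g (i z) := by
  choose f hf using h
  have hinj := i.injective
  have h1 : ∀ z, f 1 z = z := fun z => hinj (by rw [hf, map_one]; rfl)
  have hmul : ∀ g g' z, f (g * g') z = f g (f g' z) := fun g g' z =>
    hinj (by rw [hf, hf, hf, map_mul]; rfl)
  refine ⟨{ toFun := fun g =>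
              { toFun := f g
                invFun := f g⁻¹
                left_inv := fun z => by rw [← hmul, inv_mul_cancel, h1]
                right_inv := fun z => by rw [← hmul, mul_inv_cancel, h1]
                map_mul' := fun a b => hinj (by rw [hf, map_mul, map_mul, map_mul, hf, hf])
                map_add' := fun a b => hinj (by rw [hf, map_add, map_add, map_add, hf, hf]) }
            map_one' := by
              ext z
              exact h1 z
            map_mul' := fun g g' => by
              ext z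
              exact hmul g g' z }, fun g z => hf g z⟩

end Pool.Agent.Y158.FQ
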