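import Pool.Agent.Y158.FQ.Loc2
import Pool.Agent.Y158.FQ.Fin

/-!
# Sections for the line minus three points over `ℤ[1/ℓ]`
-/

set_option autoImplicit false
set_option linter.all false

open Polynomial FF Pool.Agent.Y157.PS Pool.Agent.TH954 IsDedekindDomain NumberField

namespace Pool.Agent.Y158.FQ

attribute [-instance] DivisionRing.toRatAlgebra
attribute [local instance 1] DivisionRing.toRatAlgebra

open Pool.Agent.Y158.KL (lam Kl KLem V)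
open Pool.Agent.Y158.GR (fixL F_fixL plcL plcL_val)

section

variable {K : Type} [Field K] [NumberField K] {ℓ : ℕ}
  [hp : Fact ℓ.Prime] [hK : IsCyclotomicExtension {ℓ} ℚ K] {ζ : K} (hζ : IsPrimitiveRoot ζ ℓ)
  {F Ω B : Type} [Field F] [Field Ω] [Field B] [Algebra ℚ F] [Algebra F Ω] [Algebra ℚ Ω]
  [Algebra ℚ B] [IsScalarTower ℚ F Ω] [IsAlgClosed Ω] [Algebra.IsAlgebraic F Ω]
  [IsAlgClosure ℚ B]
  {C : Type} [Field C] [Algebra (Kl hζ) C] [Algebra ℚ C] [Algebra ℚ (Kl hζ)]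
  [IsScalarTower ℚ (Kl hζ) C] [IsAlgClosure (Kl hζ) C]

/-- the values of the roots -/
theorem val_root {L₀ : Type} [Field L₀] [Algebra ℚ L₀]
    (pl : Plc ℚ L₀ (Kl hζ)) {X Z : L₀} {c : Kl hζ} {i : ℤ} {n : ℕ} (hX : pl.val X c)
    (h : X = algebraMap ℚ L₀ ((ℓ : ℚ) ^ i) * Z ^ (ℓ ^ n)) :
    ∃ t : Kl hζ, c = (ℓ : Kl hζ) ^ i * t ^ (ℓ ^ n) := by
  have hℓQ : (ℓ : ℚ) ≠ 0 := by exact_mod_cast hp.out.ne_zero
  have hval : ∀ n : ℤ, pl.val (algebraMap ℚ L₀ ((ℓ : ℚ) ^ n)) ((ℓ : Kl hζ) ^ n) := by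
    intro n
    have h1 := Plc.val_alg (pl := pl) ((ℓ : ℚ) ^ n)
    have e : algebraMap ℚ (Kl hζ) ((ℓ : ℚ) ^ n) = (ℓ : Kl hζ) ^ n := by
      rw [map_zpow₀, map_natCast]
    rwa [e] at h1
  have hc0 : algebraMap ℚ L₀ ((ℓ : ℚ) ^ i) ≠ 0 := (_root_.map_ne_zero _).2 (zpow_ne_zero i hℓQ)
  have hcinv : (algebraMap ℚ L₀ ((ℓ : ℚ) ^ i))⁻¹ ∈ pl.W := by
    have h1 := (hval (-i)).mem
    have e : algebraMap ℚ L₀ ((ℓ : ℚ) ^ (-i)) = (algebraMap ℚ L₀ ((ℓ : ℚ) ^ i))⁻¹ := by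
      rw [← map_inv₀, zpow_neg]
    rwa [e] at h1
  have hZ : Z ∈ pl.W := by
    apply Plc.mem_of_pow_mem (pow_pos hp.out.pos n)
    have e : Z ^ (ℓ ^ n) = (algebraMap ℚ L₀ ((ℓ : ℚ) ^ i))⁻¹ * X := by
      rw [h, inv_mul_cancel_left₀ hc0]
    rw [e]
    exact mul_mem hcinv hX.mem
  obtain ⟨t, ht⟩ := Plc.val_of_mem hZ
  refine ⟨t, ?_⟩
  have h1 := (hval i).mul (ht.pow (ℓ ^ n))
  rw [← h] at h1
  exact hX.unique h1

include hK hζ in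
/-- the coordinates of the Fermat curve are fixed by the section -/
theorem exists_UW (hodd : Odd ℓ) (x : F) (N : IntermediateField F Ω)
    (s : GalSection ℚ F N B) (p : Plc ℚ N C) (hpv : s.GivenBy (Kl hζ) p)
    (h : ∀ n : ℕ, ∃ (i : ℤ) (z : N), (∀ g, s.s g z = z) ∧
      algebraMap F N x = algebraMap ℚ N ((ℓ : ℚ) ^ i) * z ^ (ℓ ^ n))
    (h' : ∀ n : ℕ, ∃ (i : ℤ) (z : N), (∀ g, s.s g z = z) ∧
      algebraMap F N (1 - x) = algebraMap ℚ N ((ℓ : ℚ) ^ i) * z ^ (ℓ ^ n))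
    (h0 : ¬ p.val (algebraMap F N x) 0) (h1 : ¬ p.val (algebraMap F N x) 1)
    (h2 : ¬ p.val (algebraMap F N x)⁻¹ 0) :
    ∃ U W : N, (∀ g, s.s g U = U) ∧ (∀ g, s.s g W = W) ∧
      U ^ ℓ = algebraMap F N x ∧ W ^ ℓ = algebraMap F N (1 - x) := by
  haveI hcz : CharZero (Kl hζ) :=
    charZero_of_injective_algebraMap (Pool.Agent.Y158.KL.cm hζ).injective
  haveI : Normal ℚ B := IsAlgClosure.normal ℚ B
  haveI : Algebra.IsAlgebraic ℚ B := IsAlgClosure.isAlgebraic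
  let x₀ : fixL s := ⟨algebraMap F N x, F_fixL s x⟩
  let x₁ : fixL s := ⟨algebraMap F N (1 - x), F_fixL s (1 - x)⟩
  have hx₁ : x₁ = 1 - x₀ := by
    apply Subtype.ext
    change algebraMap F N (1 - x) = 1 - algebraMap F N x
    rw [map_sub, map_one]
  have hx₀W : x₀ ∈ (plcL hpv).W := by
    by_contra hn
    have h3 := plcL_val (Plc.val_inv_of_notMem hn)
    rw [map_zero] at h3
    exact h2 h3
  obtain ⟨c, hc⟩ := Plc.val_of_mem hx₀W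
  have hc1 : (plcL hpv).val x₁ (1 - c) := by
    rw [hx₁]
    exact Plc.val_one.sub hc
  have hcp : p.val (algebraMap F N x) (algebraMap (Kl hζ) C c) := plcL_val hc
  have hc0 : c ≠ 0 := by
    rintro rfl
    rw [map_zero] at hcp
    exact h0 hcp
  have hc0' : 1 - c ≠ 0 := by
    intro h3
    have h4 : c = 1 := by linear_combination -h3
    rw [h4, map_one] at hcp
    exact h1 hcp
  have hroot : ∀ (y : F) (Y : fixL s) (d : Kl hζ), (Y : N) = algebraMap F N y →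
      (plcL hpv).val Y d →
      (∀ n : ℕ, ∃ (i : ℤ) (z : N), (∀ g, s.s g z = z) ∧
        algebraMap F N y = algebraMap ℚ N ((ℓ : ℚ) ^ i) * z ^ (ℓ ^ n)) →
      ∀ n : ℕ, ∃ (i : ℤ) (t : Kl hζ), d = (ℓ : Kl hζ) ^ i * t ^ (ℓ ^ n) := by
    intro y Y d hY hd hh n
    obtain ⟨i, z, hz, hyz⟩ := hh n
    obtain ⟨t, ht⟩ := val_root hζ (plcL hpv) (X := Y) (Z := ⟨z, hz⟩) (i := i) (n := n) hd (by
      apply Subtype.ext
      rw [hY]
      exact hyz)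
    exact ⟨i, t, ht⟩
  have hcl := hroot x x₀ c rfl hc h
  have hcl' := hroot (1 - x) x₁ (1 - c) rfl hc1 h'
  have hVc := loc_unit hζ hodd hc0 hc0' hcl hcl'
  have hVc' := loc_unit hζ hodd (c := 1 - c) hc0' (by rw [sub_sub_cancel]; exact hc0) hcl' (by
    rw [sub_sub_cancel]; exact hcl)
  have hU : ∀ (y : F) (Y : fixL s) (d : Kl hζ), (Y : N) = algebraMap F N y →
      (plcL hpv).val Y d → V hζ d = 1 →
      (∀ n : ℕ, ∃ (i : ℤ) (z : N), (∀ g, s.s g z = z) ∧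
        algebraMap F N y = algebraMap ℚ N ((ℓ : ℚ) ^ i) * z ^ (ℓ ^ n)) →
      ∃ U : N, (∀ g, s.s g U = U) ∧ U ^ ℓ = algebraMap F N y := by
    intro y Y d hY hd hVd hh
    obtain ⟨i, z, hz, hyz⟩ := hh 1
    rw [pow_one] at hyz
    obtain ⟨t, ht⟩ := val_root hζ (plcL hpv) (X := Y) (Z := ⟨z, hz⟩) (i := i) (n := 1) hd (by
      apply Subtype.ext
      rw [hY, pow_one]
      exact hyz)
    rw [pow_one] at ht
    obtain ⟨j, rfl⟩ := dvd_of_unit hζ hVd ht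
    refine ⟨algebraMap ℚ N ((ℓ : ℚ) ^ j) * z, fun g => ?_, ?_⟩
    · rw [map_mul, hz, IsScalarTower.algebraMap_apply ℚ F N, (s.s g).commutes]
    · rw [mul_pow, hyz, ← map_pow, ← zpow_natCast, ← zpow_mul, mul_comm j]
  obtain ⟨U, hU1, hU2⟩ := hU x x₀ c rfl hc hVc h
  obtain ⟨W, hW1, hW2⟩ := hU (1 - x) x₁ (1 - c) rfl hc1 hVc' h'
  exact ⟨U, W, hU1, hW1, hU2, hW2⟩

end

end Pool.Agent.Y158.FQ
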