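import Pool.Agent.Y158.FQ.Trip

/-!
# Sections for the line minus three points over `ℤ[1/ℓ]`, 2
-/

set_option autoImplicit false
set_option linter.all false

open Polynomial FF Pool.Agent.Y157.PS Pool.Agent.TH954 IsDedekindDomain NumberField

namespace Pool.Agent.Y158.FQ

attribute [-instance] DivisionRing.toRatAlgebra
attribute [local instance 1] DivisionRing.toRatAlgebra

open Pool.Agent.Y158.KL (lam Kl KLem)
open Pool.Agent.Y158.GR (DecL exists_decL given_mem exists_eB)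

section

variable {K : Type} [Field K] [NumberField K] {ℓ : ℕ}
  [hp : Fact ℓ.Prime] [hK : IsCyclotomicExtension {ℓ} ℚ K] {ζ : K} (hζ : IsPrimitiveRoot ζ ℓ)
  {F Ω B : Type} [Field F] [Field Ω] [Field B] [Algebra ℚ F] [Algebra F Ω]
  [Algebra ℚ Ω] [Algebra ℚ B] [IsScalarTower ℚ F Ω] [IsAlgClosed Ω] [Algebra.IsAlgebraic F Ω]
  [IsAlgClosure ℚ B]
  {C : Type} [Field C] [Algebra (Kl hζ) C] [Algebra ℚ C] [IsAlgClosure (Kl hζ) C]

include hK hζ in
/-- the section preserves the valuation ring, for automorphisms over `K`, if it fixes coordinates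
of the Fermat curve -/
theorem fqU [Algebra.IsAlgebraic ℚ B] (hodd : Odd ℓ) (hcop : (classNumber K).Coprime ℓ)
    (hKL : KLem ℓ K) (x : F) (hx : Transcendental ℚ x)
    (hF : Algebra.IsAlgebraic (IntermediateField.adjoin ℚ {x}) F)
    (u w : Ω) (N : IntermediateField F Ω)
    (hN : ∀ z ∈ geomPro ℓ ℚ (IntermediateField.adjoin ℚ {u, w}) Ω, z ∈ N)
    (s : GalSection ℚ F N B) (p : Plc ℚ N C) (hpv : s.GivenBy (Kl hζ) p)
    (U W : N) (c c' : algebraicClosure ℚ Ω) (hUs : ∀ g, s.s g U = U) (hWs : ∀ g, s.s g W = W)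
    (hU : (U : Ω) = (c : Ω) * u) (hW : (W : Ω) = (c' : Ω) * w)
    (hUx : U ^ ℓ = algebraMap F N x) (hWx : W ^ ℓ = algebraMap F N (1 - x)) :
    ∃ f : K →+* B, (∀ c : K, p.iot s.j (f c) = toC hζ C c) ∧
      (p.val (algebraMap F N x) 0 ∨ p.val (algebraMap F N (1 - x)) 0 ∨
        p.val (algebraMap F N x)⁻¹ 0) ∧
      ∀ g : B ≃ₐ[ℚ] B, g (f ζ) = f ζ → ∀ z : N,
        (z : Ω) ∈ geomPro ℓ ℚ (IntermediateField.adjoin ℚ {u, w}) Ω →
        (s.s g z ∈ p.W ↔ z ∈ p.W) := by
  haveI hCac : IsAlgClosed C := IsAlgClosure.isAlgClosed (Kl hζ)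
  haveI : IsScalarTower ℚ (Kl hζ) C := IsScalarTower.of_algebraMap_eq' (Subsingleton.elim _ _)
  haveI : Algebra.IsAlgebraic ℚ K := Algebra.IsAlgebraic.of_finite ℚ K
  -- the embedding of `K` in `B`
  obtain ⟨eB, heB⟩ := exists_eB (K := ℚ) (Ω := C) (p.iot s.j)
  have hmemC : ∀ c : K, toC hζ C c ∈ algebraicClosure ℚ C := by
    intro c
    rw [mem_algebraicClosure_iff]
    obtain ⟨q, hq, hqc⟩ := Algebra.IsAlgebraic.isAlgebraic (R := ℚ) c
    refine ⟨q, hq, ?_⟩
    rw [aeval_def] at hqc ⊢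
    have h1 : algebraMap ℚ C = (toC hζ C).comp (algebraMap ℚ K) := Subsingleton.elim _ _
    rw [h1, ← hom_eval₂, hqc, map_zero]
  let f : K →+* B := (eB.symm : algebraicClosure ℚ C →+* B).comp
    ((toC hζ C).codRestrict (algebraicClosure ℚ C) hmemC)
  have hf : ∀ c, p.iot s.j (f c) = toC hζ C c := by
    intro c
    rw [← heB]
    change ((eB (eB.symm ((toC hζ C).codRestrict (algebraicClosure ℚ C) hmemC c)) :
      algebraicClosure ℚ C) : C) = _
    rw [eB.apply_symm_apply]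
    rfl
  refine ⟨f, hf, ?_⟩
  letI iKB : Algebra K B := f.toAlgebra
  haveI : IsScalarTower ℚ K B := IsScalarTower.of_algebraMap_eq' (Subsingleton.elim _ _)
  letI iKΩ : Algebra K Ω := (((algebraMap N Ω).comp (s.j : B →+* N)).comp f).toAlgebra
  haveI : IsScalarTower ℚ K Ω := IsScalarTower.of_algebraMap_eq' (Subsingleton.elim _ _)
  letI iKC : Algebra K C := (toC hζ C).toAlgebra
  haveI : IsScalarTower ℚ K C := IsScalarTower.of_algebraMap_eq' (Subsingleton.elim _ _)
  haveI : IsScalarTower K (Kl hζ) C := IsScalarTower.of_algebraMap_eq fun _ => rfl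
  obtain ⟨S, hS⟩ : ∃ S : Set Ω, S = Set.range (algebraMap K Ω) ∪ {(U : Ω), (W : Ω)} := ⟨_, rfl⟩
  have hSK : ∀ r : K, algebraMap K Ω r ∈ S := fun r => by
    rw [hS]; exact Or.inl ⟨r, rfl⟩
  have hSU : (U : Ω) ∈ S := by rw [hS]; exact Or.inr (by simp)
  have hSW : (W : Ω) ∈ S := by rw [hS]; exact Or.inr (by simp)
  let F' : IntermediateField F Ω := IntermediateField.adjoin F S
  have hF'K : ∀ r : K, algebraMap K Ω r ∈ F' := fun r =>
    IntermediateField.subset_adjoin F _ (hSK r)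
  have hF'N : F' ≤ N := by
    rw [IntermediateField.adjoin_le_iff, hS]
    rintro z (⟨r, rfl⟩ | hz)
    · exact (s.j (f r)).2
    · rcases hz with hz | hz
      · rw [hz]; exact U.2
      · rw [Set.mem_singleton_iff] at hz
        rw [hz]; exact W.2
  let iKF : Algebra K F' := ((algebraMap K Ω).codRestrict F' hF'K).toAlgebra
  haveI : IsScalarTower K F' Ω := IsScalarTower.of_algebraMap_eq fun _ => rfl
  have hfix : ∀ (r : F') (g : B ≃ₐ[K] B) (z : N), (z : Ω) = algebraMap F' Ω r →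
      s.s (g.restrictScalars ℚ) z = z := by
    intro r g z hz
    let T : Subfield Ω := Subfield.map (algebraMap N Ω)
      (RingHom.eqLocusField ((s.s (g.restrictScalars ℚ) : N ≃ₐ[F] N) : N →+* N) (RingHom.id N))
    have hT : ∀ t : N, s.s (g.restrictScalars ℚ) t = t → (t : Ω) ∈ T := fun t ht => ⟨t, ht, rfl⟩
    have h1 : (r : Ω) ∈ T := by
      refine adjoin_le_sub (T := T) (fun q => ?_) (fun t ht => ?_) _ r.2
      · exact hT (algebraMap F N q) ((s.s (g.restrictScalars ℚ)).commutes q)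
      · rw [hS] at ht
        rcases ht with ⟨q, rfl⟩ | ht
        · refine hT (s.j (f q)) ?_
          rw [s.sec]
          congr 1
          exact g.commutes q
        · rcases ht with ht | ht
          · rw [ht]; exact hT U (hUs _)
          · rw [Set.mem_singleton_iff] at ht
            rw [ht]; exact hT W (hWs _)
    obtain ⟨t, ht, htr⟩ := h1
    have h2 : t = z := Subtype.ext (htr.trans hz.symm)
    rw [← h2]
    exact ht
  have hc0 : (c : Ω) ≠ 0 := by
    intro h0
    have h1 : (U : Ω) = 0 := by rw [hU, h0, zero_mul]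
    have h2 : U = 0 := Subtype.ext h1
    rw [h2, zero_pow hp.out.ne_zero] at hUx
    have h3 : x = 0 := (map_eq_zero (algebraMap F N)).1 hUx.symm
    rw [h3] at hx
    exact hx isAlgebraic_zero
  have hc0' : (c' : Ω) ≠ 0 := by
    intro h0
    have h1 : (W : Ω) = 0 := by rw [hW, h0, zero_mul]
    have h2 : W = 0 := Subtype.ext h1
    rw [h2, zero_pow hp.out.ne_zero] at hWx
    have h3 : 1 - x = 0 := (map_eq_zero (algebraMap F N)).1 hWx.symm
    have h4 : x = 1 := by linear_combination -h3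
    rw [h4] at hx
    exact hx isAlgebraic_one
  obtain ⟨h1, h2⟩ := fqAbs (F' := F') hζ hodd hcop hKL x hx hF u w N
    (IntermediateField.extendScalars hF'N)
    (fun z => (IntermediateField.mem_extendScalars hF'N).symm) hN
    (fun z => ⟨algebraMap F F' z, rfl⟩) s p hpv (fun c => rfl) (fun c => by
      have h3 : p.val (s.j (f c)) (p.iot s.j (f c)) := Pool.Agent.Y158.GR.iot_val s p (f c)
      rw [hf] at h3
      exact h3) hfix ⟨(U : Ω), IntermediateField.subset_adjoin F _ hSU⟩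
      ⟨(W : Ω), IntermediateField.subset_adjoin F _ hSW⟩ (c : Ω) (c' : Ω) c.2 c'.2 hc0 hc0' hU hW
      (congrArg (algebraMap N Ω) hUx) (by
        have h3 := congrArg (algebraMap N Ω) hWx
        have h4 : algebraMap N Ω (algebraMap F N (1 - x)) = 1 - algebraMap F Ω x := by
          change algebraMap F Ω (1 - x) = _
          rw [map_sub, map_one]
        rw [h4] at h3
        exact h3)
  refine ⟨h1, fun g hg z hz => ?_⟩
  have hgK : ∀ r : K, g (f r) = f r := by
    have h3 : (IsScalarTower.toAlgHom ℚ K B : K →ₐ[ℚ] B) =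
        (g : B →ₐ[ℚ] B).comp (IsScalarTower.toAlgHom ℚ K B) := by
      refine AlgHom.ext_of_adjoin_eq_top
        (IsCyclotomicExtension.adjoin_primitive_root_eq_top hζ) ?_
      intro t ht
      rw [Set.mem_singleton_iff] at ht
      rw [ht]
      exact hg.symm
    intro r
    exact (DFunLike.congr_fun h3 r).symm
  have h3 := h2 (AlgEquiv.ofRingEquiv (f := (g : B ≃+* B)) hgK) z hz
  exact h3

include hK hζ in
/-- **the line minus three points over `ℤ[1/ℓ]`**: the local point is a cusp -/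
theorem trip (hodd : Odd ℓ) (hcop : (classNumber K).Coprime ℓ)
    (hKL : KLem ℓ K) (x : F) (hx : Transcendental ℚ x)
    (hF : Algebra.IsAlgebraic (IntermediateField.adjoin ℚ {x}) F)
    (u w : Ω) (hu : u ^ ℓ = algebraMap F Ω x) (hw : w ^ ℓ = algebraMap F Ω (1 - x))
    (N : IntermediateField F Ω)
    (hN : ∀ z ∈ geomPro ℓ ℚ (IntermediateField.adjoin ℚ {u, w}) Ω, z ∈ N)
    (s : GalSection ℚ F N B) (p : Plc ℚ N C) (hpv : s.GivenBy (Kl hζ) p)
    (h : ∀ n : ℕ, ∃ (i : ℤ) (z : N), (∀ g, s.s g z = z) ∧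
      algebraMap F N x = algebraMap ℚ N ((ℓ : ℚ) ^ i) * z ^ (ℓ ^ n))
    (h' : ∀ n : ℕ, ∃ (i : ℤ) (z : N), (∀ g, s.s g z = z) ∧
      algebraMap F N (1 - x) = algebraMap ℚ N ((ℓ : ℚ) ^ i) * z ^ (ℓ ^ n)) :
    p.val (algebraMap F N x) 0 ∨ p.val (algebraMap F N x) 1 ∨
      p.val (algebraMap F N x)⁻¹ 0 := by
  by_contra hno
  push Not at hno
  obtain ⟨h0, h1, h2⟩ := hno
  haveI : Algebra.IsAlgebraic ℚ B := IsAlgClosure.isAlgebraic
  haveI hcz : CharZero (Kl hζ) :=
    charZero_of_injective_algebraMap (Pool.Agent.Y158.KL.cm hζ).injective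
  letI iQ : Algebra ℚ (Kl hζ) := DivisionRing.toRatAlgebra
  haveI : IsScalarTower ℚ (Kl hζ) C := IsScalarTower.of_algebraMap_eq' (Subsingleton.elim _ _)
  obtain ⟨U, W, hUs, hWs, hUx, hWx⟩ := exists_UW hζ hodd x N s p hpv h h' h0 h1 h2
  have hx0 : x ≠ 0 := by
    rintro rfl
    exact hx isAlgebraic_zero
  have hx1 : 1 - x ≠ 0 := by
    intro h3
    have h4 : x = 1 := by linear_combination -h3
    rw [h4] at hx
    exact hx isAlgebraic_one
  have key : ∀ (y : F) (v : Ω) (V : N), y ≠ 0 → v ^ ℓ = algebraMap F Ω y →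
      V ^ ℓ = algebraMap F N y → ∃ c : algebraicClosure ℚ Ω, (V : Ω) = (c : Ω) * v := by
    intro y v V hy hv hV
    have hv0 : v ≠ 0 := by
      rintro rfl
      rw [zero_pow hp.out.ne_zero] at hv
      exact hy ((map_eq_zero (algebraMap F Ω)).1 hv.symm)
    have hVΩ : (V : Ω) ^ ℓ = v ^ ℓ := by
      rw [hv]
      exact congrArg (algebraMap N Ω) hV
    have h3 : ((V : Ω) / v) ^ ℓ = 1 := by rw [div_pow, hVΩ, div_self (pow_ne_zero _ hv0)]
    refine ⟨⟨(V : Ω) / v, ?_⟩, ?_⟩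
    · rw [mem_algebraicClosure_iff']
      exact IsIntegral.of_pow hp.out.pos (by rw [h3]; exact isIntegral_one)
    · change (V : Ω) = (V : Ω) / v * v
      rw [div_mul_cancel₀ _ hv0]
  obtain ⟨c, hc⟩ := key x u U hx0 hu hUx
  obtain ⟨c', hc'⟩ := key (1 - x) w W hx1 hw hWx
  obtain ⟨f, hf, h3, -⟩ := fqU hζ hodd hcop hKL x hx hF u w N hN s p hpv U W c c' hUs hWs hc hc'
    hUx hWx
  rcases h3 with h3 | h3 | h3
  · exact h0 h3
  · apply h1
    have h4 : p.val (1 : N) 1 := Plc.val_one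
    have h5 := h4.sub h3
    rw [map_sub, map_one, sub_sub_cancel, sub_zero] at h5
    exact h5
  · exact h2 h3

end

end Pool.Agent.Y158.FQ
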