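import Pool.Agent.Y158.FQ.Rot
import Pool.Agent.Y158.GR.Fer

/-!
# Semilinear automorphisms which multiply the coordinates by roots of unity
-/

set_option autoImplicit false
set_option linter.all false

open Polynomial FF

namespace Pool.Agent.Y158.FQ

open Pool.Agent.Y157.PS Pool.Agent.Y748.PS

section gauss

variable {κ M : Type} [Field κ] [Field M] [Algebra κ M]

/-- the Gauss valuation rings of `X` and `ξ X` agree for a unit `ξ` -/
theorem gauss_scale {V : ValuationSubring κ} {X : M} {O : ValuationSubring M} (hO : Gauss V X O)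
    {ξ : κ} (hξ : IsU V ξ) : Gauss V (algebraMap κ M ξ * X) O := by
  refine ⟨hO.1, fun p hp hp1 => ?_⟩
  have e : aeval (algebraMap κ M ξ * X) p = aeval X (p.comp (C ξ * Polynomial.X)) := by
    rw [aeval_comp, map_mul, aeval_C, aeval_X]
  rw [e]
  refine hO.2 _ (fun n => ?_) ?_
  · rw [comp_C_mul_X_coeff]
    exact mul_mem (hp n) (pow_mem hξ.2.1 n)
  · obtain ⟨n, hn⟩ := hp1
    refine ⟨n, ?_⟩
    rw [comp_C_mul_X_coeff]
    exact isU_mul hn (isU_pow hξ n)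

theorem map_aeval' (φ : M ≃+* M) (φ₀ : κ ≃+* κ)
    (hφ : ∀ c, φ (algebraMap κ M c) = algebraMap κ M (φ₀ c)) (X : M) (p : κ[X]) :
    φ (aeval X p) = aeval (φ X) (p.map (φ₀ : κ →+* κ)) := by
  rw [aeval_def, aeval_def, eval₂_map]
  have h1 : φ (eval₂ (algebraMap κ M) X p) =
      eval₂ ((φ : M →+* M).comp (algebraMap κ M)) ((φ : M →+* M) X) p :=
    Polynomial.hom_eval₂ p (algebraMap κ M) (φ : M →+* M) X
  rw [h1]
  congr 1
  ext c
  exact hφ c

theorem gauss_comap' {V : ValuationSubring κ} {X : M} {O : ValuationSubring M} (hO : Gauss V X O)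
    (φ : M ≃+* M) (φ₀ : κ ≃+* κ)
    (hφ : ∀ c, φ (algebraMap κ M c) = algebraMap κ M (φ₀ c)) {ξ : κ} (hξ : IsU V ξ)
    (hx : φ X = algebraMap κ M ξ * X)
    (hV : ∀ c, φ₀ c ∈ V ↔ c ∈ V) : Gauss V X (O.comap (φ : M →+* M)) := by
  refine ⟨fun c => ?_, fun p hp hp1 => ?_⟩
  · rw [ValuationSubring.mem_comap]
    show φ (algebraMap κ M c) ∈ O ↔ _
    rw [hφ, hO.1, hV]
  · have h1 := (gauss_scale hO hξ).2 (p.map (φ₀ : κ →+* κ)) (fun n => by
      rw [coeff_map]; exact (hV _).2 (hp n)) (by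
      obtain ⟨n, hn⟩ := hp1
      refine ⟨n, ?_⟩
      rw [coeff_map]
      exact (isU_map φ₀ hV _).2 hn)
    rw [← hx, ← map_aeval' φ φ₀ hφ X] at h1
    obtain ⟨h2, h3, h4⟩ := h1
    rw [← map_inv₀] at h4
    exact ⟨by rintro h; rw [h, map_zero] at h2; exact h2 rfl,
      by rw [ValuationSubring.mem_comap]; exact h3, by rw [ValuationSubring.mem_comap]; exact h4⟩

theorem stab' {V : ValuationSubring κ} {X : M} {O : ValuationSubring M} (hO : Gauss V X O)
    (hu : ∀ O' : ValuationSubring M, Gauss V X O' → O' = O)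
    (φ : M ≃+* M) (φ₀ : κ ≃+* κ)
    (hφ : ∀ c, φ (algebraMap κ M c) = algebraMap κ M (φ₀ c)) {ξ : κ} (hξ : IsU V ξ)
    (hx : φ X = algebraMap κ M ξ * X)
    (hV : ∀ c, φ₀ c ∈ V ↔ c ∈ V) (z : M) : φ z ∈ O ↔ z ∈ O := by
  have h1 := hu _ (gauss_comap' hO φ φ₀ hφ hξ hx hV)
  have h2 : z ∈ O.comap (φ : M →+* M) ↔ z ∈ O := by rw [h1]
  rw [ValuationSubring.mem_comap] at h2
  exact h2

end gauss

section wt

variable {ℓ : ℕ} [hℓ : Fact ℓ.Prime] {κ R M : Type} [Field κ] [IsAlgClosed κ] [CharZero κ]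
  [Field R] [Field M] [Algebra κ R] [Algebra R M] [Algebra κ M] [IsScalarTower κ R M] {x : R}
  {Y : M}

/-- **the lifting argument**: a semilinear automorphism which is trivial on the residue field of
`V`, multiplies the coordinates by roots of unity and has `ℓ`-th power `1` on the residue field, can
be replaced by a linear automorphism of order `ℓ` -/
theorem lift_rot (hC : Cov ℓ κ R M x (nthRootsFinset ℓ (1 : κ)) Y) {V : ValuationSubring κ}
    (hl : IsU V (ℓ : κ)) {O : ValuationSubring M} (hO : Gauss V (algebraMap R M x) O)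
    (hu : ∀ O' : ValuationSubring M, Gauss V (algebraMap R M x) O' → O' = O)
    (φ : RingAut M) (φ₀ : κ ≃+* κ) (hφ : ∀ c, φ (algebraMap κ M c) = algebraMap κ M (φ₀ c))
    (hV : ∀ c, φ₀ c ∈ V ↔ c ∈ V) (hI : ∀ c ∈ V, φ₀ c - c ∈ V.nonunits)
    {ξ ξ' : κ} (hξ : ξ ^ ℓ = 1) (hξ' : ξ' ^ ℓ = 1)
    (hx : φ (algebraMap R M x) = algebraMap κ M ξ' * algebraMap R M x)
    (hY : φ Y = algebraMap κ M ξ * Y) (hφℓ : ∀ z ∈ O, (φ ^ ℓ) z - z ∈ O.nonunits) :
    ∃ γ : RingAut M, γ ^ ℓ = 1 ∧ (∀ c : κ, γ (algebraMap κ M c) = algebraMap κ M c) ∧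
      γ (algebraMap R M x) = algebraMap κ M ξ' * algebraMap R M x ∧
      γ Y = algebraMap κ M ξ * Y := by
  haveI := hC.gal
  have hℓ0 : ℓ ≠ 0 := hℓ.out.ne_zero
  have hne0 : ∀ {c : κ}, c ^ ℓ = 1 → c ≠ 0 := by
    rintro c hc rfl
    rw [zero_pow hℓ0] at hc
    exact zero_ne_one hc
  have hUμ : ∀ {c : κ}, c ^ ℓ = 1 → IsU V c := fun {c} hc =>
    Pool.Agent.Y748.PS.isU_of_pow hℓ.out.pos (by rw [hc]; exact Pool.Agent.Y748.PS.isU_one)
  have hfixμ : ∀ {c : κ}, c ^ ℓ = 1 → φ₀ c = c := by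
    intro c hc
    have hc0 := hne0 hc
    have h1 := hI c (hUμ hc).2.1
    have h2 : (φ₀ c / c) ^ ℓ = 1 := by
      rw [div_pow, ← map_pow, hc, map_one, div_one]
    have h3 : φ₀ c / c - 1 = c⁻¹ * (φ₀ c - c) := by field_simp
    have h4 := rou_eq_one hl h2 (by rw [h3]; exact nu_mul (hUμ hc).2.2 h1)
    exact (div_eq_one_iff_eq hc0).1 h4
  have hxt : Transcendental κ (algebraMap R M x) :=
    (transcendental_algebraMap_iff (algebraMap R M).injective).2 hC.rat.trans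
  have hYX : Y ^ ℓ = (algebraMap R M x) ^ ℓ - 1 := by rw [hC.eqn, prod_mu]
  have hY0 : Y ≠ 0 := by
    rintro rfl
    rw [zero_pow hℓ0] at hYX
    apply hxt
    refine ⟨Polynomial.X ^ ℓ - 1, (monic_X_pow_sub_C (1 : κ) hℓ0).ne_zero, ?_⟩
    simp [← hYX]
  have hYU : IsU O Y := by
    refine Pool.Agent.Y748.PS.isU_of_pow hℓ.out.pos ?_
    have h1 : Y ^ ℓ = aeval (algebraMap R M x) (Polynomial.X ^ ℓ - 1 : κ[X]) := by
      rw [hYX, map_sub, map_pow, aeval_X, map_one]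
    rw [h1]
    refine hO.2 _ (fun n => ?_) ⟨ℓ, ?_⟩
    · rw [coeff_sub, coeff_X_pow, coeff_one]
      refine sub_mem ?_ ?_
      · split_ifs
        · exact one_mem _
        · exact zero_mem _
      · split_ifs
        · exact one_mem _
        · exact zero_mem _
    · rw [coeff_sub, coeff_X_pow, coeff_one, if_pos rfl, if_neg hℓ0, sub_zero]
      exact Pool.Agent.Y748.PS.isU_one
  have hsφ : ∀ z, φ z ∈ O ↔ z ∈ O := stab' hO hu φ φ₀ hφ (hUμ hξ') hx hV
  obtain ⟨γ₁, hγ₁⟩ := exists_rotx hC hξ'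
  have hs1 : ∀ z, γ₁ z ∈ O ↔ z ∈ O := stab' hO hu (γ₁ : M ≃+* M) (RingEquiv.refl κ)
    (fun c => γ₁.commutes c) (hUμ hξ') hγ₁ (fun c => Iff.rfl)
  -- `ψ = φ γ₁⁻¹`
  let ψ : RingAut M := φ * ((γ₁.symm : M ≃+* M) : RingAut M)
  have hψ : ∀ z, ψ z = φ (γ₁.symm z) := fun z => rfl
  have hψ1 : ∀ z, ψ (γ₁ z) = φ z := fun z => by rw [hψ, γ₁.symm_apply_apply]
  have hψc : ∀ c, ψ (algebraMap κ M c) = algebraMap κ M (φ₀ c) := by
    intro c
    have h1 : γ₁.symm (algebraMap κ M c) = algebraMap κ M c := γ₁.symm.commutes c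
    rw [hψ, h1, hφ]
  have hψx : ψ (algebraMap R M x) = algebraMap R M x := by
    have h1 : ψ (algebraMap κ M ξ' * algebraMap R M x) =
        algebraMap κ M ξ' * algebraMap R M x := by
      rw [← hγ₁, hψ1, hx, hγ₁]
    rw [map_mul, hψc, hfixμ hξ'] at h1
    exact mul_left_cancel₀ ((_root_.map_ne_zero _).2 (hne0 hξ')) h1
  have hψs : ∀ z, ψ z ∈ O ↔ z ∈ O := stab hO hu ψ φ₀ hψc hψx hV
  obtain ⟨γ₂, hγ₂⟩ := a_g3 ℓ κ R M x _ Y hC V O hO hu (IsLocalRing.ResidueField O)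
    (IsLocalRing.residue O) (res_residue O)
    (IsLocalRing.ResidueField.mapEquiv (resEquiv O ψ hψs))
    (fun c hc => by
      show IsLocalRing.residue O (resEquiv O ψ hψs ⟨_, hc⟩) = _
      rw [← sub_eq_zero, ← map_sub, (res_residue O).ker]
      show ψ (algebraMap κ M c) - algebraMap κ M c ∈ O.nonunits
      rw [hψc, ← map_sub]
      have h1 : c ∈ V := (hO.1 c).1 hc
      have h2 := hI c h1
      rw [ValuationSubring.mem_nonunits_iff_or] at h2 ⊢
      rcases h2 with h2 | h2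
      · left; rw [h2, map_zero]
      · right
        rw [← map_inv₀, hO.1]
        exact h2)
    (fun hx => by
      show IsLocalRing.residue O (resEquiv O ψ hψs ⟨_, hx⟩) = _
      congr 1
      ext
      exact hψx)
  have hγ₂' : ∀ z ∈ O, γ₂ z - ψ z ∈ O.nonunits := by
    intro z hz
    have hγz : γ₂ z ∈ O := (stabG hO hu γ₂ z).2 hz
    have h1 := hγ₂ z hz hγz
    have h2 : IsLocalRing.residue O ⟨γ₂ z, hγz⟩ =
        IsLocalRing.residue O (resEquiv O ψ hψs ⟨z, hz⟩) := h1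
    rw [← sub_eq_zero, ← map_sub, (res_residue O).ker] at h2
    exact h2
  -- `γ = γ₂ γ₁`
  let γ : RingAut M := ((γ₂ : M ≃+* M) : RingAut M) * ((γ₁ : M ≃+* M) : RingAut M)
  have hγ : ∀ z, γ z = γ₂ (γ₁ z) := fun z => rfl
  have hγs : ∀ z, γ z ∈ O ↔ z ∈ O := fun z => by rw [hγ, stabG hO hu γ₂, hs1]
  have hγφ : ∀ z ∈ O, γ z - φ z ∈ O.nonunits := by
    intro z hz
    have h1 := hγ₂' (γ₁ z) ((hs1 z).2 hz)
    rwa [hψ1, ← hγ] at h1
  have hγc : ∀ c : κ, γ (algebraMap κ M c) = algebraMap κ M c := by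
    intro c
    rw [hγ, γ₁.commutes]
    exact gal_const γ₂ c
  have hγx : γ (algebraMap R M x) = algebraMap κ M ξ' * algebraMap R M x := by
    rw [hγ, hγ₁, map_mul, γ₂.commutes]
    congr 1
    exact gal_const γ₂ ξ'
  have hγY : γ Y = algebraMap κ M ξ * Y := by
    have h1 : (γ Y / Y) ^ ℓ = 1 := by
      rw [div_pow, ← map_pow, hYX, map_sub, map_pow, map_one, hγx, mul_pow, ← map_pow, hξ', map_one,
        one_mul, div_self]
      rw [← hYX]
      exact pow_ne_zero _ hY0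
    obtain ⟨η, hη, hη'⟩ := rou_const (κ := κ) hℓ.out.pos h1
    have h2 : γ Y = algebraMap κ M η * Y := by rw [hη', div_mul_cancel₀ _ hY0]
    have h3 := hγφ Y hYU.2.1
    rw [h2, hY, ← sub_mul, mul_comm, ← map_sub] at h3
    have h4 := non_of_isU_mul hYU h3
    rw [nu_alg hO] at h4
    have h5 : η / ξ - 1 = ξ⁻¹ * (η - ξ) := by
      have := hne0 hξ
      field_simp
    have h6 : η / ξ = 1 := rou_eq_one hl (by rw [div_pow, hη, hξ, div_one]) (by
      rw [h5]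
      exact nu_mul (hUμ hξ).2.2 h4)
    rw [h2, (div_eq_one_iff_eq (hne0 hξ)).1 h6]
  -- the `ℓ`-th power
  have hpw : ∀ (n : ℕ), ∀ z ∈ O, (γ ^ n) z - (φ ^ n) z ∈ O.nonunits := by
    intro n
    induction n with
    | zero =>
      intro z hz
      have : (γ ^ 0 : RingAut M) z - (φ ^ 0 : RingAut M) z = 0 := by
        rw [pow_zero, pow_zero]; exact sub_self z
      rw [this]
      exact zero_mem _
    | succ n ih =>
      intro z hz
      have e1 : (γ ^ (n + 1)) z = (γ ^ n) (γ z) := by rw [pow_succ]; rfl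
      have e2 : (φ ^ (n + 1)) z = (φ ^ n) (φ z) := by rw [pow_succ]; rfl
      have h1 := ih (γ z) ((hγs z).2 hz)
      have hφn : ∀ (n : ℕ) (w : M), (φ ^ n) w ∈ O ↔ w ∈ O := by
        intro n
        induction n with
        | zero => intro w; exact Iff.rfl
        | succ n ih =>
          intro w
          have e3 : (φ ^ (n + 1)) w = (φ ^ n) (φ w) := by rw [pow_succ]; rfl
          rw [e3, ih, hsφ]
      have h2 := (nu_map (φ ^ n : RingAut M) (hφn n) (γ z - φ z)).2 (hγφ z hz)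
      have h3 := add_mem h1 h2
      rw [map_sub] at h3
      have h4 : (γ ^ n) (γ z) - (φ ^ n) (γ z) + ((φ ^ n) (γ z) - (φ ^ n) (φ z)) =
          (γ ^ (n + 1)) z - (φ ^ (n + 1)) z := by rw [e1, e2]; ring
      rwa [h4] at h3
  have hγℓx : (γ ^ ℓ) (algebraMap R M x) = algebraMap R M x := by
    rw [pow_mul_of hγc hγx, hξ', map_one, one_mul]
  have hγnc : ∀ (n : ℕ) (c : κ), (γ ^ n) (algebraMap κ M c) = algebraMap κ M c := by
    intro n c
    induction n with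
    | zero => rfl
    | succ n ih =>
      have e3 : (γ ^ (n + 1)) (algebraMap κ M c) = (γ ^ n) (γ (algebraMap κ M c)) := by
        rw [pow_succ]; rfl
      rw [e3, hγc, ih]
  have hγR : ∀ r : R, (γ ^ ℓ) (algebraMap R M r) = algebraMap R M r := fun r =>
    ext_R hC.rat ((γ ^ ℓ : RingAut M) : M →+* M) (RingHom.id M) (fun c => hγnc ℓ c) hγℓx r
  let Γ : M ≃ₐ[R] M := AlgEquiv.ofRingEquiv (f := (γ ^ ℓ : M ≃+* M)) hγR
  have hΓ : ∀ z, Γ z = (γ ^ ℓ) z := fun z => rfl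
  have h2 := (a_g2 ℓ κ R M x _ Y hC V O hO).2 hl
  have hΓ1 : ∀ z, Γ z = z := by
    intro z
    obtain ⟨N, hzN, hN⟩ := hC.pow z
    refine h2 N hN Γ (fun w hw _ => ?_) z hzN
    have h3 := add_mem (hpw ℓ w hw) (hφℓ w hw)
    rw [sub_add_sub_cancel] at h3
    exact h3
  refine ⟨γ, ?_, hγc, hγx, hγY⟩
  ext z
  exact hΓ1 z

end wt

end Pool.Agent.Y158.FQ
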